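import Pool.Agent.MP_f7db47_al.Cv.Defs

namespace Pool.Agent.MP_f7db47_al.Cv

/-- A chain map from the periodic resolution to the complex of lists. -/
theorem exists_eps {κ : Type*} [CommRing κ] {H : Type*} [Group H] {S : Type*} [MulAction H S]
    {p : ℕ} {T : H} (hT : T ^ p = 1) (s : S) :
    ∃ ε : ℕ → List S →₀ κ, ε 0 = Finsupp.single [] 1 ∧
      (∀ n, ε n ∈ Finsupp.supported κ κ {l : List S | l.length = n}) ∧ bd κ (ε 1) = ε 0 ∧
      ∀ n, 1 ≤ n → bd κ (ε (n + 1)) =
        th (pr (List S) (Representation.trivial κ H κ)) T p n (ε n) := by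
  let ρ := pr (List S) (Representation.trivial κ H κ)
  let ε : ℕ → List S →₀ κ := fun n => Nat.rec (Finsupp.single [] 1)
    (fun n e => cons κ κ s (if n = 0 then e else th ρ T p n e)) n
  have e0 : ε 0 = Finsupp.single [] 1 := rfl
  have e1 : ε 1 = cons κ κ s (ε 0) := rfl
  have e2 : ∀ n, ε (n + 1 + 1) = cons κ κ s (th ρ T p (n + 1) (ε (n + 1))) := fun n => rfl
  have hb1 : bd κ (ε 1) = ε 0 := by
    rw [e1, bd_cons, e0, bd_nil, map_zero, sub_zero]
  have hc : ∀ n z, bd κ (th ρ T p n z) = th ρ T p n (bd κ z) := fun n z =>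
    map_th_eq (fun v => (pr_bd _ T v).symm) p n z
  have hcons : ∀ n, ∀ z ∈ Finsupp.supported κ κ {l : List S | l.length = n},
      cons κ κ s z ∈ Finsupp.supported κ κ {l : List S | l.length = n + 1} := fun n z hz =>
    map_supported (fun l hl v => by
      rw [cons_single]
      exact Finsupp.single_mem_supported _ _ (congrArg (· + 1) hl)) hz
  have hpr : ∀ n, ∀ z ∈ Finsupp.supported κ κ {l : List S | l.length = n},
      ρ T z ∈ Finsupp.supported κ κ {l : List S | l.length = n} := fun n z hz =>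
    map_supported (fun l hl v => by
      rw [pr_single]
      exact Finsupp.single_mem_supported _ _ ((length_smul T l).trans hl)) hz
  refine ⟨ε, e0, fun n => ?_, hb1, fun n hn => ?_⟩
  · induction n with
    | zero => exact Finsupp.single_mem_supported _ _ rfl
    | succ n ih =>
      cases n with
      | zero => exact hcons _ _ ih
      | succ n => exact hcons _ _ (th_mem (hpr _) p _ ih)
  · obtain ⟨n, rfl⟩ := Nat.exists_eq_add_of_le' hn
    clear hn
    induction n with
    | zero =>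
      rw [e2, bd_cons, hc, show bd κ (ε (0 + 1)) = ε 0 from hb1, e0]
      have : th ρ T p (0 + 1) (Finsupp.single [] 1) = 0 := by
        unfold th
        rw [if_neg (by omega), sg_apply, pr_single]
        simp
      rw [this, map_zero, sub_zero]
    | succ n ih => rw [e2, bd_cons, hc, ih, th_th _ hT, map_zero, sub_zero]

section AQ
variable {κ : Type*} [CommRing κ] {p : ℕ} {G : Type*} [Group G]

/-- The cone operator attached to a map from words to points. -/
noncomputable def AQ_cone (κ : Type*) [CommRing κ] (f : Om p G → Pw p G) :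
    (List (Pw p G) →₀ (Om p G →₀ κ)) →ₗ[κ] (List (Pw p G) →₀ (Om p G →₀ κ)) :=
  Finsupp.lsum κ fun l => Finsupp.lsum κ fun ω => Finsupp.lsingle (f ω :: l) ∘ₗ Finsupp.lsingle ω

omit [Group G] in
theorem AQ_cone_single (f : Om p G → Pw p G) (l : List (Pw p G)) (ω : Om p G) (a : κ) :
    AQ_cone κ f (Finsupp.single l (Finsupp.single ω a)) =
      Finsupp.single (f ω :: l) (Finsupp.single ω a) := by
  rw [AQ_cone, Finsupp.lsum_single, Finsupp.lsum_single]
  rfl

theorem AQ_ext {W : Type*} [AddCommGroup W] [Module κ W] {α β : Type*}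
    {f g : (α →₀ (β →₀ κ)) →ₗ[κ] W}
    (h : ∀ l ω a, f (Finsupp.single l (Finsupp.single ω a)) =
      g (Finsupp.single l (Finsupp.single ω a))) (z : α →₀ (β →₀ κ)) : f z = g z := by
  have : f = g := Finsupp.lhom_ext' fun l => Finsupp.lhom_ext fun ω a => h l ω a
  rw [this]

theorem AQ_cone_cons (f : Om p G → Pw p G) (ω : Om p G) (z : List (Pw p G) →₀ κ) :
    AQ_cone κ f (Em (κ := κ) (Finsupp.lsingle ω) z) =
      cons κ _ (f ω) (Em (κ := κ) (Finsupp.lsingle ω) z) := by
  induction z using Finsupp.induction_linear with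
  | zero => simp
  | add a b ha hb => simp only [map_add, ha, hb]
  | single l v => rw [Em_single, Finsupp.lsingle_apply, AQ_cone_single, cons_single]

theorem AQ_bd_cone (f : Om p G → Pw p G) (z : List (Pw p G) →₀ (Om p G →₀ κ)) :
    bd κ (AQ_cone κ f z) = z - AQ_cone κ f (bd κ z) := by
  refine AQ_ext (f := bd κ ∘ₗ AQ_cone κ f) (g := LinearMap.id - AQ_cone κ f ∘ₗ bd κ)
    (fun l ω a => ?_) z
  show bd κ (AQ_cone κ f _) = _ - AQ_cone κ f (bd κ _)
  have e : bd κ (Finsupp.single l (Finsupp.single ω a)) =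
      Em (κ := κ) (Finsupp.lsingle ω) (bd κ (Finsupp.single l a)) := by
    rw [Em_bd, Em_single, Finsupp.lsingle_apply]
  rw [AQ_cone_single, bd_single_cons, e, AQ_cone_cons f ω]
  rfl

theorem AQ_cone_Gd (f : Om p G → Pw p G) {j : ℕ} {z : List (Pw p G) →₀ (Om p G →₀ κ)}
    (hz : z ∈ Gd κ j) : AQ_cone κ f z ∈ Gd κ (j + 1) := by
  refine map_supported (fun l hl v => ?_) hz
  induction v using Finsupp.induction_linear with
  | zero => simp
  | add a b ha hb =>
    rw [Finsupp.single_add, map_add]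
    exact Submodule.add_mem _ ha hb
  | single ω a =>
    rw [AQ_cone_single]
    exact single_mem_Gd (Nat.succ_le_succ hl) _

theorem AQ_cone_equi (f f' : Om p G → Pw p G) (w : Wr p G) (h : ∀ ω, f' (w • ω) = w • f ω)
    (z : List (Pw p G) →₀ (Om p G →₀ κ)) :
    AQ_cone κ f' (pr (List (Pw p G)) (OmR κ p G) w z) =
      pr (List (Pw p G)) (OmR κ p G) w (AQ_cone κ f z) := by
  refine AQ_ext (f := AQ_cone κ f' ∘ₗ pr (List (Pw p G)) (OmR κ p G) w)
    (g := pr (List (Pw p G)) (OmR κ p G) w ∘ₗ AQ_cone κ f) (fun l ω a => ?_) z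
  simp only [LinearMap.comp_apply, AQ_cone_single, pr_single, OmR, smul_cons, h]

theorem AQ_free [NeZero p] (w : Wr p G) (hk : w.k = 0) (j : ZMod p) (hj : w.x j = 1)
    (ω : Om p G) (h : w • ω = ω) : w = 1 := by
  have h1 : ∀ m : ℕ, w.x (j + m) = 1 := by
    intro m
    induction m with
    | zero => simpa using hj
    | succ m ih =>
      have := congrFun h (j + m)
      rw [Om.smul_apply, ih, hk, sub_zero, one_mul, mul_eq_left, inv_eq_one] at this
      rw [Nat.cast_succ, ← add_assoc, this]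
  refine Wr.ext (funext fun i => ?_) hk
  have := h1 (i - j).val
  rwa [ZMod.natCast_zmod_val, add_sub_cancel] at this

theorem AQ_exists_rho [NeZero p] : ∃ ρ : ZMod p → Om p G → Pw p G,
    ∀ (w : Wr p G) (j : ZMod p) (ω : Om p G), w.x (j + w.k) = 1 →
      ρ (j + w.k) (w • ω) = w • ρ j ω := by
  obtain ⟨f, -, hf⟩ := exists_equi_raw (H := Wr p G) (X := (ZMod p × G) × Om p G) (S := Pw p G)
    (fun w x => ((x.1.1 + w.k, w.x (x.1.1 + w.k) * x.1.2), w • x.2)) (fun w s => w • s)
    (fun x => by simp) (fun a b x => by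
      have e : x.1.1 + (a.k + b.k) = x.1.1 + b.k + a.k := by ring
      simp [mul_smul, mul_assoc, e]) (fun a b s => mul_smul a b s) (fun _ _ => True)
    (fun _ _ _ _ => trivial) (fun x => ⟨fun _ => 1, trivial, fun w hw => by
      have h1 : x.1.1 + w.k = x.1.1 := congrArg (fun y => y.1.1) hw
      have h2 : w.x (x.1.1 + w.k) * x.1.2 = x.1.2 := congrArg (fun y => y.1.2) hw
      have h3 : w • x.2 = x.2 := congrArg Prod.snd hw
      rw [AQ_free w (add_eq_left.1 h1) _ (mul_eq_right.1 h2) _ h3]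
      exact one_smul (Wr p G) _⟩)
  refine ⟨fun j ω => f ((j, 1), ω), fun w j ω hw => ?_⟩
  have := hf w ((j, 1), ω)
  simp only [hw, mul_one] at this
  exact this

/-- The positions attached to a list. -/
def AQ_U (N : ℕ) (a : List (ZMod p)) : Set (ZMod p) := {j | ∃ i ∈ a, j ∈ Win N i}

theorem AQ_exists_out [NeZero p] (N n₀ : ℕ) (hN : 1 ≤ N) (hn : 1 ≤ n₀) (hp : n₀ * N ≤ p)
    (a : List (ZMod p)) (ha : a.length ≤ n₀) : ∃ j, j ∉ AQ_U N a := by
  classical
  by_contra h
  push Not at h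
  have h1 : (Finset.univ : Finset (ZMod p)) ⊆
      a.toFinset.biUnion fun i => (Finset.Ico 1 N).image fun m : ℕ => i + m := by
    intro j _
    obtain ⟨i, hi, m, h1, h2, rfl⟩ := h j
    exact Finset.mem_biUnion.2 ⟨i, List.mem_toFinset.2 hi,
      Finset.mem_image.2 ⟨m, Finset.mem_Ico.2 ⟨h1, h2⟩, rfl⟩⟩
  have h2 := (Finset.card_le_card h1).trans (Finset.card_biUnion_le_card_mul _ _ (N - 1)
    fun i _ => Finset.card_image_le.trans (by simp))
  rw [Finset.card_univ, ZMod.card] at h2
  have h3 : a.toFinset.card * (N - 1) ≤ n₀ * (N - 1) :=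
    Nat.mul_le_mul_right _ ((List.toFinset_card_le a).trans ha)
  obtain ⟨M, rfl⟩ := Nat.exists_eq_add_of_le' hN
  rw [Nat.add_sub_cancel] at h2 h3
  rw [Nat.mul_succ] at hp
  omega

theorem AQ_exists_j [NeZero p] (G : Type*) [Group G] (N n₀ : ℕ) (hN : 1 ≤ N) (hn : 1 ≤ n₀)
    (hp : n₀ * N ≤ p) : ∃ j : List (ZMod p) → ZMod p,
      (∀ a, a ≠ [] → a.length ≤ n₀ → j a ∉ AQ_U N a) ∧
      ∀ (w : Wr p G) a, a ≠ [] → j (w • a) = j a + w.k := by
  obtain ⟨f, hf1, hf2⟩ := exists_equi (H := Wr p G) (X := ZMod p × List (ZMod p)) (S := ZMod p)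
    (fun x j => (x.1 :: x.2).length ≤ n₀ → j ∉ AQ_U N (x.1 :: x.2))
    (fun w x j h hl hj => by
      have e : ((w • x).1 :: (w • x).2) = w • (x.1 :: x.2) := rfl
      rw [e] at hl hj
      rw [length_smul] at hl
      obtain ⟨i, hi, m, h1, h2, h3⟩ := hj
      obtain ⟨i', hi', rfl⟩ := mem_smul_list.1 hi
      refine h hl ⟨i', hi', m, h1, h2, ?_⟩
      rw [Wr.smul_pos, Wr.smul_pos] at h3
      linear_combination h3)
    (fun x => by
      have hfix : ∀ (j : ZMod p) (w : Wr p G), w • x = x → w • j = j := fun j w hw => by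
        have h1 : x.1 + w.k = x.1 := congrArg Prod.fst hw
        rw [Wr.smul_pos, add_eq_left.1 h1, add_zero]
      by_cases hl : (x.1 :: x.2).length ≤ n₀
      · obtain ⟨j, hj⟩ := AQ_exists_out N n₀ hN hn hp _ hl
        exact ⟨j, fun _ => hj, hfix j⟩
      · exact ⟨0, fun h => absurd h hl, hfix 0⟩)
  refine ⟨fun a => match a with
    | [] => 0
    | i :: a => f (i, a), fun a ha hl => ?_, fun w a ha => ?_⟩
  · cases a with
    | nil => exact absurd rfl ha
    | cons i a => exact hf1 (i, a) hl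
  · cases a with
    | nil => exact absurd rfl ha
    | cons i a => exact hf2 w (i, a)

end AQ

theorem exists_Y {κ : Type*} [CommRing κ] {p : ℕ} [NeZero p] {G : Type*} [Group G] (N n₀ : ℕ)
    (hN : 1 ≤ N) (hn : 1 ≤ n₀) (hp : n₀ * N ≤ p) (τ : Om p G →₀ κ)
    (hT : OmR κ p G (Wr.sh p G) τ = τ)
    (hJ : ∀ i : ZMod p, τ ∈ Jp (OmR κ p G) (WU (Win N i))) :
    ∃ Y : ℕ → List (Pw p G) →₀ (Om p G →₀ κ),
      Y 0 = Finsupp.single [(fun _ => 1 : ZMod p → G)] τ ∧ (∀ n, Y n ∈ Gd κ n) ∧
      bd κ (Y 1) - Y 0 ∈ Jp (pr (List (Pw p G)) (OmR κ p G)) (fun w => w.k = 0) ∧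
      ∀ n, 1 ≤ n → n < n₀ →
        bd κ (Y (n + 1)) - th (pr (List (Pw p G)) (OmR κ p G)) (Wr.sh p G) p n (Y n) ∈
          Jp (pr (List (Pw p G)) (OmR κ p G)) (fun w => w.k = 0) := by
  obtain ⟨ε, e0, eL, e1, e2⟩ := exists_eps (κ := κ) (Wr.sh_pow (p := p) (G := G)) (0 : ZMod p)
  obtain ⟨ρ, hρ⟩ := AQ_exists_rho (p := p) (G := G)
  obtain ⟨j, hj1, hj2⟩ := AQ_exists_j G N n₀ hN hn hp
  let y0 : List (Pw p G) →₀ (Om p G →₀ κ) := Finsupp.single [(fun _ => 1 : ZMod p → G)] τ
  let q : ℕ → (List (ZMod p) →₀ κ) →ₗ[κ] (List (Pw p G) →₀ (Om p G →₀ κ)) := fun n =>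
    Nat.rec (Finsupp.linearCombination κ fun _ => y0)
      (fun _ q => Finsupp.linearCombination κ fun a =>
        AQ_cone κ (ρ (j a)) (q (bd κ (Finsupp.single a 1)))) n
  have q0 : ∀ a c, q 0 (Finsupp.single a c) = c • y0 := fun a c =>
    Finsupp.linearCombination_single _ _ _
  have q1 : ∀ n a c, q (n + 1) (Finsupp.single a c) =
      AQ_cone κ (ρ (j a)) (q n (bd κ (Finsupp.single a c))) := fun n a c => by
    refine (Finsupp.linearCombination_single _ _ _).trans ?_
    rw [← map_smul, ← map_smul, ← map_smul, Finsupp.smul_single, smul_eq_mul, mul_one]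
  have qG : ∀ n z, q n z ∈ Gd κ n := by
    intro n
    induction n with
    | zero => exact fun z => mem_Gd_zero _
    | succ n ih =>
      intro z
      induction z using Finsupp.induction_linear with
      | zero => simp
      | add a b ha hb =>
        rw [map_add]
        exact Submodule.add_mem _ ha hb
      | single a c =>
        rw [q1]
        exact AQ_cone_Gd _ (ih _)
  have hy0 : pr (List (Pw p G)) (OmR κ p G) (Wr.sh p G) y0 = y0 := by
    refine (pr_single _ _ _ _).trans ?_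
    rw [hT]
    congr 1
    exact congrArg (fun s : Pw p G => [s]) (funext fun i => mul_one (1 : G))
  have qT : ∀ n z, q n (pr (List (ZMod p)) (Representation.trivial κ (Wr p G) κ) (Wr.sh p G) z) =
      pr (List (Pw p G)) (OmR κ p G) (Wr.sh p G) (q n z) := by
    intro n
    induction n with
    | zero =>
      intro z
      induction z using Finsupp.induction_linear with
      | zero => simp
      | add a b ha hb => simp only [map_add, ha, hb]
      | single a c => rw [pr_single, q0, q0, map_smul, hy0]; rfl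
    | succ n ih =>
      intro z
      induction z using Finsupp.induction_linear with
      | zero => simp
      | add a b ha hb => simp only [map_add, ha, hb]
      | single a c =>
        by_cases ha : a = []
        · subst ha
          rw [pr_single, smul_nil, q1, q1, bd_nil, bd_nil]
          simp
        · rw [q1, ← AQ_cone_equi (ρ (j a)) (ρ (j (Wr.sh p G • a))) (Wr.sh p G)
            (fun ω => by rw [hj2 _ a ha]; exact hρ _ _ _ rfl), ← ih, pr_bd, pr_single, q1]
  have hcone : ∀ a : List (ZMod p), a ≠ [] → a.length ≤ n₀ →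
      ∀ z ∈ Jp (pr (List (Pw p G)) (OmR κ p G)) (WU (AQ_U N a)),
      AQ_cone κ (ρ (j a)) z ∈ Jp (pr (List (Pw p G)) (OmR κ p G)) (WU (AQ_U N a)) := by
    intro a ha hl z hz
    refine map_Jp (fun w v hw => AQ_cone_equi _ _ w (fun ω => ?_) v) hz
    have := hρ w (j a) ω (by rw [hw.1, add_zero]; exact hw.2 _ (hj1 a ha hl))
    rwa [hw.1, add_zero] at this
  have main : ∀ n, n + 1 ≤ n₀ → ∀ a : List (ZMod p), a.length = n + 1 → ∀ c,
      bd κ (q (n + 1) (Finsupp.single a c)) - q n (bd κ (Finsupp.single a c)) ∈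
        Jp (pr (List (Pw p G)) (OmR κ p G)) (WU (AQ_U N a)) := by
    intro n
    induction n with
    | zero =>
      intro hn a ha c
      obtain ⟨i, rfl⟩ := List.length_eq_one_iff.1 ha
      rw [q1, AQ_bd_cone, sub_sub_cancel_left]
      refine Submodule.neg_mem _ (hcone [i] (by simp) (by simpa using hn) _ ?_)
      rw [bd_single_cons, bd_nil, map_zero, sub_zero, q0, map_smul]
      refine Submodule.smul_mem _ _ ?_
      have e : bd κ y0 = Finsupp.lsingle (R := κ) [] τ := by
        refine (bd_single_cons _ _ _).trans ?_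
        rw [bd_nil, map_zero, sub_zero]
        rfl
      rw [e]
      refine Jp_mono _ (P := WU (Win N i)) (fun w hw => ⟨hw.1, fun k hk => hw.2 k fun h =>
        hk ⟨i, by simp, h⟩⟩) (map_Jp (fun w v _ => ?_) (hJ i))
      exact (pr_single (OmR κ p G) w ([] : List (Pw p G)) v).symm
    | succ n ih =>
      intro hn a ha c
      rw [q1 (n + 1), AQ_bd_cone, sub_sub_cancel_left]
      refine Submodule.neg_mem _ (hcone a (by rintro rfl; simp at ha) (by omega) _ ?_)
      have h1 := map_supported (f := bd κ ∘ₗ q (n + 1) - q n ∘ₗ bd κ)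
        (N := Jp (pr (List (Pw p G)) (OmR κ p G)) (WU (AQ_U N a)))
        (fun l (hl : _ ∧ _) v => Jp_mono _ (P := WU (AQ_U N l))
          (fun w hw => ⟨hw.1, fun k hk => hw.2 k fun ⟨i, hi, h⟩ => hk ⟨i, hl.1.subset hi, h⟩⟩)
          (ih (by omega) l (by omega) v)) (bd_single_mem a c)
      rwa [LinearMap.sub_apply, LinearMap.comp_apply, LinearMap.comp_apply, bd_bd, map_zero,
        sub_zero] at h1
  have main2 : ∀ n, n + 1 ≤ n₀ → bd κ (q (n + 1) (ε (n + 1))) - q n (bd κ (ε (n + 1))) ∈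
      Jp (pr (List (Pw p G)) (OmR κ p G)) (fun w => w.k = 0) := fun n hn =>
    map_supported (f := bd κ ∘ₗ q (n + 1) - q n ∘ₗ bd κ)
      (fun l hl v => Jp_mono _ (fun w hw => hw.1) (main n hn l hl v)) (eL (n + 1))
  refine ⟨fun n => q n (ε n), ?_, fun n => qG n _, ?_, fun n h1 h2 => ?_⟩
  · show q 0 (ε 0) = y0
    rw [e0, q0, one_smul]
  · have := main2 0 hn
    rwa [e1] at this
  · have := main2 n h2
    rwa [e2 n h1, map_th_eq (ρ := pr (List (ZMod p)) (Representation.trivial κ (Wr p G) κ))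
      (σ := pr (List (Pw p G)) (OmR κ p G)) (T := Wr.sh p G) (T' := Wr.sh p G) (f := q n)
      (qT n)] at this

end Pool.Agent.MP_f7db47_al.Cv
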