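import Pool.Agent.MP_f7db47_al.Cv.KDefs

namespace Pool.Agent.MP_f7db47_al.Cv

open PowerSeries

section
variable {A : Type*} [Ring A]

theorem Approx_left {n : ℕ} {f : PowerSeries A} (g : PowerSeries A) (h : X ^ n ∣ f) :
    X ^ n ∣ g * f := by
  obtain ⟨c, rfl⟩ := h
  exact ⟨g * c, by rw [← mul_assoc, ((commute_X g).pow_right n).eq, mul_assoc]⟩

theorem Approx_a {n : ℕ} {f : PowerSeries A} (c : PowerSeries A) (h : X ^ 1 ∣ f) :
    X ^ (n + 1) ∣ X ^ n * c * f := by
  obtain ⟨e, he⟩ := Approx_left c h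
  exact ⟨e, by rw [mul_assoc, he, pow_add, mul_assoc]⟩

theorem Approx_b {n : ℕ} {f : PowerSeries A} (c : PowerSeries A) (h : X ^ 1 ∣ f) :
    X ^ (n + 1) ∣ f * (X ^ n * c) := by
  obtain ⟨e, rfl⟩ := h
  exact ⟨e * c, by
    rw [mul_assoc, ← mul_assoc e, ((commute_X e).pow_right n).eq, add_comm, pow_add]
    simp only [mul_assoc]⟩

/-- first order comparison of two units -/
def ApproxR (n : ℕ) (a a' : (PowerSeries A)ˣ) (c : PowerSeries A) : Prop :=
  X ^ 1 ∣ (a : PowerSeries A) - 1 ∧ X ^ 1 ∣ (a' : PowerSeries A) - 1 ∧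
    X ^ (n + 1) ∣ (a' : PowerSeries A) - (a : PowerSeries A) - X ^ n * c

theorem Approx_one_mul {a b : PowerSeries A} (ha : X ^ 1 ∣ a - 1) (hb : X ^ 1 ∣ b - 1) :
    X ^ 1 ∣ a * b - 1 := by
  have := dvd_add (Approx_left a hb) ha
  rwa [show a * (b - 1) + (a - 1) = a * b - 1 by noncomm_ring] at this

theorem Approx_one_inv {a : (PowerSeries A)ˣ} (ha : X ^ 1 ∣ (a : PowerSeries A) - 1) :
    X ^ 1 ∣ (↑a⁻¹ : PowerSeries A) - 1 := by
  have := (Approx_left (↑a⁻¹ : PowerSeries A) ha).neg_right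
  rwa [mul_sub, Units.inv_mul, mul_one, neg_sub] at this

theorem ApproxR.mul {n : ℕ} {a a' b b' : (PowerSeries A)ˣ} {c c' : PowerSeries A}
    (h : ApproxR n a a' c) (h' : ApproxR n b b' c') : ApproxR n (a * b) (a' * b') (c + c') := by
  refine ⟨Approx_one_mul h.1 h'.1, Approx_one_mul h.2.1 h'.2.1, ?_⟩
  have := dvd_add (dvd_add (h.2.2.mul_right (b' : PowerSeries A)) (Approx_left a h'.2.2))
    (dvd_add (Approx_a (n := n) c h'.2.1) (Approx_b (n := n) c' h.1))
  convert this using 1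
  simp only [Units.val_mul]
  noncomm_ring

theorem ApproxR.inv {n : ℕ} {a a' : (PowerSeries A)ˣ} {c : PowerSeries A}
    (h : ApproxR n a a' c) : ApproxR n a⁻¹ a'⁻¹ (-c) := by
  refine ⟨Approx_one_inv h.1, Approx_one_inv h.2.1, ?_⟩
  have := (dvd_add (dvd_add ((Approx_left (↑a'⁻¹ : PowerSeries A) h.2.2).mul_right ↑a⁻¹)
    (Approx_b (n := n) (c * (a⁻¹).val) (Approx_one_inv h.2.1))).neg_right
    (Approx_a (n := n) c (Approx_one_inv h.1)).neg_right)
  convert this using 1
  rw [mul_sub, mul_sub, Units.inv_mul, sub_mul, sub_mul, mul_assoc _ (a : PowerSeries A),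
    Units.mul_inv]
  noncomm_ring

theorem Approx_prod {n : ℕ} : ∀ {m : ℕ} (a a' : Fin m → (PowerSeries A)ˣ)
    (c : Fin m → PowerSeries A), (∀ i, ApproxR n (a i) (a' i) (c i)) →
    ApproxR n (List.ofFn a).prod (List.ofFn a').prod (∑ i, c i)
  | 0, _, _, _, _ => by simp [ApproxR]
  | m + 1, a, a', c, h => by
    rw [List.ofFn_succ, List.ofFn_succ, List.prod_cons, List.prod_cons, Fin.sum_univ_succ]
    exact (h 0).mul (Approx_prod _ _ _ fun i => h i.succ)

/-- the unit `1 + x X y` -/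
noncomputable def ApproxV (x : A) (y : PowerSeries A) : (PowerSeries A)ˣ :=
  (isUnit_iff_constantCoeff.2 (by simp) : IsUnit (1 + C x * (X * y))).unit

/-- the unit `1 + X y x` -/
noncomputable def ApproxW (x : A) (y : PowerSeries A) : (PowerSeries A)ˣ :=
  (isUnit_iff_constantCoeff.2 (by simp) : IsUnit (1 + X * y * C x)).unit

/-- the product of the generators -/
noncomputable def ApproxP {m : ℕ} (x : Fin m → A) (y : Fin m → PowerSeries A) :
    (PowerSeries A)ˣ :=
  (List.ofFn fun i => ApproxV (x i) (y i) * (ApproxW (x i) (y i))⁻¹).prod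

theorem Approx_main {m n : ℕ} (x z : Fin m → A) (y y' : Fin m → PowerSeries A)
    (h : ∀ i, X ^ (n + 1) ∣ X * y' i - X * y i - X ^ n * C (z i)) :
    ApproxR n (ApproxP x y) (ApproxP x y') (C (∑ i, (x i * z i - z i * x i))) := by
  have h1 : ∀ f : PowerSeries A, X ^ 1 ∣ X * f := fun f => ⟨f, by rw [pow_one]⟩
  rw [map_sum]
  refine Approx_prod _ _ _ fun i => ?_
  rw [map_sub, sub_eq_add_neg]
  refine ApproxR.mul ⟨?_, ?_, ?_⟩ (ApproxR.inv ⟨?_, ?_, ?_⟩) <;>
    simp only [ApproxV, ApproxW, IsUnit.unit_spec, add_sub_cancel_left, map_mul]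
  · exact Approx_left _ (h1 _)
  · exact Approx_left _ (h1 _)
  · convert Approx_left (C (x i)) (h i) using 1
    rw [← mul_assoc (X ^ n), ← ((commute_X (C (x i))).pow_right n).eq]
    noncomm_ring
  · exact (h1 _).mul_right _
  · exact (h1 _).mul_right _
  · convert (h i).mul_right (C (x i)) using 1
    noncomm_ring

end

theorem approx {A : Type*} [Ring A] {Q : Type*} [AddCommGroup Q] {m : ℕ} (x : Fin m → A)
    (ℓ : (PowerSeries A)ˣ → Q) (hmul : ∀ u v, ℓ (u * v) = ℓ u + ℓ v)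
    (hab : ∀ (v w : (PowerSeries A)ˣ) (a b : PowerSeries A), (v : PowerSeries A) = 1 + a * b →
      (w : PowerSeries A) = 1 + b * a → ℓ v = ℓ w)
    (hlead : ∀ (n : ℕ) (u : (PowerSeries A)ˣ), 1 ≤ n → ℓ u = 0 →
      (∀ i < n, coeff i ((u : PowerSeries A) - 1) = 0) →
      ∃ z : Fin m → A, coeff n (u : PowerSeries A) = ∑ i, (x i * z i - z i * x i))
    (u : (PowerSeries A)ˣ) (h1 : coeff 0 (u : PowerSeries A) = 1) (h0 : ℓ u = 0) :
    u ∈ VW (PowerSeries A) := by
  have l1 : ℓ 1 = 0 := by simpa using hmul 1 1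
  have linv : ∀ v, ℓ v⁻¹ = -ℓ v := fun v => by
    rw [eq_neg_iff_add_eq_zero, ← hmul, inv_mul_cancel, l1]
  have hP : ∀ y, ApproxP x y ∈ VW (PowerSeries A) ∧ ℓ (ApproxP x y) = 0 := fun y => by
    refine List.prod_induction (fun v => v ∈ VW (PowerSeries A) ∧ ℓ v = 0)
      (fun a b ha hb => ⟨mul_mem ha.1 hb.1, by rw [hmul, ha.2, hb.2, add_zero]⟩)
      ⟨one_mem _, l1⟩ fun v hv => ?_
    obtain ⟨i, rfl⟩ := List.mem_ofFn.1 hv
    refine ⟨Subgroup.subset_closure ⟨_, _, C (x i), X * y i, rfl, rfl, rfl⟩, ?_⟩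
    rw [hmul, linv, hab (ApproxV (x i) (y i)) (ApproxW (x i) (y i)) (C (x i)) (X * y i) rfl rfl,
      add_neg_cancel]
  have step : ∀ (k : ℕ) (y : Fin m → PowerSeries A),
      X ^ (k + 1) ∣ (u : PowerSeries A) - (ApproxP x y).val →
      ∃ y' : Fin m → PowerSeries A, X ^ (k + 1 + 1) ∣ (u : PowerSeries A) - (ApproxP x y').val ∧
        ∀ i, X ^ k ∣ y' i - y i := fun k y hy => by
    have h2 := Approx_left (↑(ApproxP x y)⁻¹ : PowerSeries A) hy
    rw [mul_sub, Units.inv_mul, ← Units.val_mul] at h2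
    obtain ⟨z, hz⟩ := hlead (k + 1) ((ApproxP x y)⁻¹ * u) (by omega)
      (by rw [hmul, linv, (hP y).2, h0, neg_zero, add_zero]) (X_pow_dvd_iff.1 h2)
    have h3 := Approx_main (n := k + 1) x z y (fun i => y i + X ^ k * C (z i)) fun i => by
      rw [mul_add, add_sub_cancel_left, ← mul_assoc, ← pow_succ', sub_self]
      exact dvd_zero _
    rw [← hz] at h3
    refine ⟨fun i => y i + X ^ k * C (z i), ?_, fun i => ⟨_, add_sub_cancel_left _ _⟩⟩
    generalize ApproxP x (fun i => y i + X ^ k * C (z i)) = p' at h3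
    generalize hg : (ApproxP x y)⁻¹ * u = g at h2 h3
    have h4 : X ^ (k + 1 + 1) ∣ (g : PowerSeries A) - 1 -
        X ^ (k + 1) * C (coeff (k + 1) (g : PowerSeries A)) := by
      refine X_pow_dvd_iff.2 fun j hj => ?_
      rw [map_sub, coeff_X_pow_mul']
      split_ifs with h5
      · obtain rfl : j = k + 1 := by omega
        simp [coeff_one]
      · rw [X_pow_dvd_iff.1 h2 j (by omega), sub_zero]
    have h5 := dvd_sub (dvd_add (Approx_left (ApproxP x y : PowerSeries A) h4)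
      (Approx_b (n := k + 1) (C (coeff (k + 1) (g : PowerSeries A))) h3.1)) h3.2.2
    convert h5 using 1
    rw [← mul_inv_cancel_left (ApproxP x y) u, hg, Units.val_mul]
    noncomm_ring
  choose! f hf using step
  let Y : ℕ → Fin m → PowerSeries A := fun k => Nat.rec 0 f k
  have hY : ∀ k, X ^ (k + 1) ∣ (u : PowerSeries A) - (ApproxP x (Y k)).val := fun k => by
    induction k with
    | zero =>
      have h2 : X ^ 1 ∣ (u : PowerSeries A) - 1 := X_pow_dvd_iff.2 fun j hj => by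
        obtain rfl : j = 0 := by omega
        rw [map_sub, h1, coeff_zero_one, sub_self]
      have h3 := dvd_sub h2 (Approx_main (n := 0) x 0 (Y 0) (Y 0) fun i => by simp).1
      rwa [sub_sub_sub_cancel_right] at h3
    | succ k ih => exact (hf k _ ih).1
  have hc : ∀ i j k, j + 1 ≤ k → coeff j (Y k i) = coeff j (Y (j + 1) i) := fun i j k hk => by
    induction k, hk using Nat.le_induction with
    | base => rfl
    | succ k hk ih =>
      have := X_pow_dvd_iff.1 ((hf k _ (hY k)).2 i) j hk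
      rw [map_sub, sub_eq_zero] at this
      exact this.trans ih
  let W : Fin m → PowerSeries A := fun i => PowerSeries.mk fun j => coeff j (Y (j + 1) i)
  have e : u = ApproxP x W := by
    refine Units.ext (PowerSeries.ext fun k => ?_)
    have h2 := (Approx_main (n := k) x 0 (Y k) W fun i => by
      have h3 : X ^ k ∣ W i - Y k i := X_pow_dvd_iff.2 fun j hj => by
        rw [map_sub, hc i j k hj, coeff_mk, sub_self]
      obtain ⟨d, hd⟩ := h3
      exact ⟨d, by rw [Pi.zero_apply, map_zero, mul_zero, sub_zero, ← mul_sub, hd, pow_succ',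
        mul_assoc]⟩).2.2
    simp only [Pi.zero_apply, mul_zero, zero_mul, sub_zero, Finset.sum_const_zero, map_zero] at h2
    have h3 := dvd_sub (hY k) h2
    rw [sub_sub_sub_cancel_right] at h3
    have := X_pow_dvd_iff.1 h3 k (by omega)
    rwa [map_sub, sub_eq_zero] at this
  exact e ▸ (hP W).1

end Pool.Agent.MP_f7db47_al.Cv
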