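import Mathlib

/-! The complex of lists with coefficients in a representation. -/

namespace Pool.Agent.MP_f7db47_al.Cv

/-- Existence of equivariant choice functions, for actions given as plain functions. -/
theorem exists_equi_raw {H X S : Type*} [Group H] (a : H → X → X) (b : H → S → S)
    (a1 : ∀ x, a 1 x = x) (amul : ∀ g h x, a (g * h) x = a g (a h x))
    (bmul : ∀ g h s, b (g * h) s = b g (b h s)) (R : X → S → Prop)
    (hR : ∀ h x s, R x s → R (a h x) (b h s))
    (hex : ∀ x, ∃ s, R x s ∧ ∀ h, a h x = x → b h s = s) :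
    ∃ f : X → S, (∀ x, R x (f x)) ∧ ∀ h x, f (a h x) = b h (f x) := by
  classical
  let st : Setoid X := ⟨fun x y => ∃ h, a h y = x, fun x => ⟨1, a1 x⟩,
    fun {x y} ⟨h, e⟩ => ⟨h⁻¹, by rw [← e, ← amul, inv_mul_cancel, a1]⟩,
    fun {x y z} ⟨h, e⟩ ⟨g, e'⟩ => ⟨h * g, by rw [amul, e', e]⟩⟩
  choose s hs1 hs2 using hex
  have hrep : ∀ x, ∃ h, a h (Quotient.mk st x).out = x := fun x =>
    st.symm (Quotient.mk_out (s := st) x)
  choose γ hγ using hrep
  refine ⟨fun x => b (γ x) (s (Quotient.mk st x).out), fun x => ?_, fun h x => ?_⟩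
  · have := hR (γ x) _ _ (hs1 (Quotient.mk st x).out)
    rwa [hγ] at this
  · have e : Quotient.mk st (a h x) = Quotient.mk st x := Quotient.sound ⟨h, rfl⟩
    have h1 := hγ (a h x)
    rw [e] at h1
    have h2 : a ((h * γ x)⁻¹ * γ (a h x)) (Quotient.mk st x).out = (Quotient.mk st x).out := by
      have h0 : a h x = a (h * γ x) (Quotient.mk st x).out := by rw [amul, hγ]
      rw [amul, h1, h0, ← amul, inv_mul_cancel, a1]
    have h3 := hs2 _ _ h2
    show b (γ (a h x)) (s (Quotient.mk st (a h x)).out) = b h (b (γ x) (s (Quotient.mk st x).out))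
    rw [e, ← bmul h]
    conv_rhs => rw [← h3]
    rw [← bmul, mul_inv_cancel_left]

/-- Existence of equivariant choice functions. -/
theorem exists_equi {H X S : Type*} [Group H] [MulAction H X] [MulAction H S] (R : X → S → Prop)
    (hR : ∀ (h : H) x s, R x s → R (h • x) (h • s))
    (hex : ∀ x, ∃ s, R x s ∧ ∀ h : H, h • x = x → h • s = s) :
    ∃ f : X → S, (∀ x, R x (f x)) ∧ ∀ (h : H) x, f (h • x) = h • f x :=
  exists_equi_raw (fun (h : H) (x : X) => h • x) (fun (h : H) (s : S) => h • s)
    (one_smul H) (fun g h x => mul_smul g h x) (fun g h x => mul_smul g h x) R hR hex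

instance listAct {H S : Type*} [Group H] [MulAction H S] : MulAction H (List S) where
  smul h l := l.map (h • ·)
  one_smul l := by
    show l.map ((1 : H) • ·) = l
    simp
  mul_smul g h l := by
    show l.map ((g * h) • ·) = (l.map (h • ·)).map (g • ·)
    simp [mul_smul]

section
variable {H S : Type*} [Group H] [MulAction H S]

theorem smul_list (h : H) (l : List S) : h • l = l.map (h • ·) := rfl

@[simp] theorem smul_nil (h : H) : h • ([] : List S) = [] := rfl

@[simp] theorem smul_cons (h : H) (s : S) (l : List S) : h • (s :: l) = h • s :: h • l := rfl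

@[simp] theorem length_smul (h : H) (l : List S) : (h • l).length = l.length :=
  List.length_map _

theorem mem_smul_list {h : H} {l : List S} {s : S} : s ∈ h • l ↔ ∃ t ∈ l, h • t = s :=
  List.mem_map

theorem fix_of_smul_list {h : H} {l : List S} (e : h • l = l) : ∀ s ∈ l, h • s = s := by
  induction l with
  | nil => simp
  | cons t l ih =>
    rw [smul_cons, List.cons.injEq] at e
    intro s hs
    rcases List.mem_cons.1 hs with rfl | hs
    · exact e.1
    · exact ih e.2 s hs

end

variable {κ : Type*} [CommRing κ] {H : Type*} [Group H]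
variable {V W : Type*} [AddCommGroup V] [Module κ V] [AddCommGroup W] [Module κ W]

/-- A linear map commutes with the actions. -/
def Equi (ρ : Representation κ H V) (σ : Representation κ H W) (f : V →ₗ[κ] W) : Prop :=
  ∀ h v, f (ρ h v) = σ h (f v)

/-- The representation on finitely supported functions on an `H`-set. -/
noncomputable def pr (Y : Type*) [MulAction H Y] (ρ : Representation κ H V) :
    Representation κ H (Y →₀ V) where
  toFun h := Finsupp.lsum κ fun y => Finsupp.lsingle (h • y) ∘ₗ ρ h
  map_one' := by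
    ext y v
    simp
  map_mul' g h := by
    ext y v
    simp [mul_smul]

@[simp] theorem pr_single {Y : Type*} [MulAction H Y] (ρ : Representation κ H V) (h : H) (y : Y)
    (v : V) : pr Y ρ h (Finsupp.single y v) = Finsupp.single (h • y) (ρ h v) := by
  simp [pr]

theorem pr_apply {Y : Type*} [MulAction H Y] (ρ : Representation κ H V) (h : H) (z : Y →₀ V)
    (y : Y) : pr Y ρ h z (h • y) = ρ h (z y) := by
  classical
  induction z using Finsupp.induction_linear with
  | zero => simp
  | add a b ha hb => simp [ha, hb]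
  | single x v =>
    rw [pr_single]
    by_cases e : x = y
    · subst e; simp
    · rw [Finsupp.single_eq_of_ne (fun c => e (MulAction.injective h c).symm),
        Finsupp.single_eq_of_ne (Ne.symm e), map_zero]

/-- The span of the differences `ρ h v - v` with `h` satisfying `P`. -/
def Jp (ρ : Representation κ H V) (P : H → Prop) : Submodule κ V :=
  Submodule.span κ {m | ∃ h v, P h ∧ m = ρ h v - v}

theorem mem_Jp (ρ : Representation κ H V) {P : H → Prop} {h : H} (hh : P h) (v : V) :
    ρ h v - v ∈ Jp ρ P := Submodule.subset_span ⟨h, v, hh, rfl⟩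

theorem Jp_mono (ρ : Representation κ H V) {P Q : H → Prop} (h : ∀ g, P g → Q g) :
    Jp ρ P ≤ Jp ρ Q :=
  Submodule.span_mono fun _ ⟨g, v, hg, e⟩ => ⟨g, v, h g hg, e⟩

/-- A linear map sends `Jp` into `N` as soon as it does so on generators. -/
theorem Jp_le {ρ : Representation κ H V} {P : H → Prop} {f : V →ₗ[κ] W} {N : Submodule κ W}
    (h : ∀ g v, P g → f (ρ g v) - f v ∈ N) {z : V} (hz : z ∈ Jp ρ P) : f z ∈ N := by
  have : Jp ρ P ≤ N.comap f := Submodule.span_le.2 fun _ ⟨g, v, hg, e⟩ => by
    rw [e]
    show f _ ∈ N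
    rw [map_sub]
    exact h g v hg
  exact this hz

/-- A map that is equivariant for the elements satisfying `P` preserves `Jp`. -/
theorem map_Jp {ρ : Representation κ H V} {σ : Representation κ H W} {P : H → Prop}
    {f : V →ₗ[κ] W} (h : ∀ g v, P g → f (ρ g v) = σ g (f v)) {z : V} (hz : z ∈ Jp ρ P) :
    f z ∈ Jp σ P :=
  Jp_le (fun g v hg => by rw [h g v hg]; exact mem_Jp σ hg _) hz

variable {S : Type*}

/-- Put `s` in front of every list. -/
noncomputable def cons (κ : Type*) [CommRing κ] (V : Type*) [AddCommGroup V] [Module κ V]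
    (s : S) : (List S →₀ V) →ₗ[κ] (List S →₀ V) :=
  Finsupp.lmapDomain V κ (s :: ·)

@[simp] theorem cons_single (s : S) (l : List S) (v : V) :
    cons κ V s (Finsupp.single l v) = Finsupp.single (s :: l) v := by
  simp [cons]

/-- The boundary of one list. -/
noncomputable def bd1 (κ : Type*) [CommRing κ] (V : Type*) [AddCommGroup V] [Module κ V] :
    List S → V →ₗ[κ] (List S →₀ V)
  | [] => 0
  | s :: l => Finsupp.lsingle l - cons κ V s ∘ₗ bd1 κ V l

/-- The boundary operator. -/
noncomputable def bd (κ : Type*) [CommRing κ] {V : Type*} [AddCommGroup V] [Module κ V] :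
    (List S →₀ V) →ₗ[κ] (List S →₀ V) := Finsupp.lsum κ (bd1 κ V)

theorem bd_single (l : List S) (v : V) : bd κ (Finsupp.single l v) = bd1 κ V l v := by
  simp [bd]

@[simp] theorem bd_nil (v : V) : bd κ (Finsupp.single ([] : List S) v) = 0 := by
  rw [bd_single]; rfl

theorem bd_single_cons (s : S) (l : List S) (v : V) : bd κ (Finsupp.single (s :: l) v) =
    Finsupp.single l v - cons κ V s (bd κ (Finsupp.single l v)) := by
  rw [bd_single, bd_single]; rfl

theorem bd_cons (s : S) (z : List S →₀ V) : bd κ (cons κ V s z) = z - cons κ V s (bd κ z) := by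
  induction z using Finsupp.induction_linear with
  | zero => simp
  | add a b ha hb => simp only [map_add, ha, hb]; abel
  | single l v => rw [cons_single, bd_single_cons]

theorem bd_bd (z : List S →₀ V) : bd κ (bd κ z) = 0 := by
  induction z using Finsupp.induction_linear with
  | zero => simp
  | add a b ha hb => simp [ha, hb]
  | single l v =>
    induction l with
    | nil => simp
    | cons s l ih => rw [bd_single_cons, map_sub, bd_cons, ih]; simp

/-- The boundary of a list is supported on its faces. -/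
theorem bd_single_mem (l : List S) (v : V) : bd κ (Finsupp.single l v) ∈
    Finsupp.supported V κ {l' : List S | l'.Sublist l ∧ l'.length + 1 = l.length} := by
  induction l with
  | nil => simp
  | cons s l ih =>
    rw [bd_single_cons]
    refine Submodule.sub_mem _ (Finsupp.single_mem_supported _ _ ⟨by simp, rfl⟩) ?_
    have := Finsupp.supported_comap_lmapDomain V κ (s :: ·)
      {l' : List S | l'.Sublist (s :: l) ∧ l'.length + 1 = (s :: l).length}
    refine this (Finsupp.supported_mono ?_ ih)
    rintro l' ⟨h1, h2⟩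
    exact ⟨h1.cons_cons s, by simp [h2]⟩

/-- To show that a linear map sends the chains supported on `A` into `N` it is enough to look at
single lists. -/
theorem map_supported {α : Type*} {A : Set α} {f : (α →₀ V) →ₗ[κ] W} {N : Submodule κ W}
    (h : ∀ l ∈ A, ∀ v, f (Finsupp.single l v) ∈ N) {z : α →₀ V}
    (hz : z ∈ Finsupp.supported V κ A) : f z ∈ N := by
  rw [← Finsupp.sum_single z, Finsupp.sum, map_sum]
  exact Submodule.sum_mem _ fun l hl => h l (hz hl) _

/-- Two linear maps agree on the chains supported on `A` if they agree on single lists. -/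
theorem eq_on_supported {α : Type*} {A : Set α} {f g : (α →₀ V) →ₗ[κ] W}
    (h : ∀ l ∈ A, ∀ v, f (Finsupp.single l v) = g (Finsupp.single l v)) {z : α →₀ V}
    (hz : z ∈ Finsupp.supported V κ A) : f z = g z := by
  have := map_supported (f := f - g) (N := ⊥) (fun l hl v => by simp [h l hl v]) hz
  simpa [sub_eq_zero] using this

/-- Chains of lists of length at least `j`. -/
def Gd (κ : Type*) [CommRing κ] {V : Type*} [AddCommGroup V] [Module κ V] (j : ℕ) :
    Submodule κ (List S →₀ V) :=
  Finsupp.supported V κ {l | j ≤ l.length}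

/-- The entries of the list are pairwise related. -/
def Fix (r : S → S → Prop) (l : List S) : Prop := ∀ a ∈ l, ∀ b ∈ l, r a b

/-- Chains of lists whose entries are pairwise related. -/
def Fx (κ : Type*) [CommRing κ] {V : Type*} [AddCommGroup V] [Module κ V] (r : S → S → Prop) :
    Submodule κ (List S →₀ V) :=
  Finsupp.supported V κ {l | Fix r l}

theorem Gd_anti {i j : ℕ} (h : i ≤ j) : (Gd κ j : Submodule κ (List S →₀ V)) ≤ Gd κ i :=
  Finsupp.supported_mono fun _ hl => h.trans hl

theorem mem_Gd_zero (z : List S →₀ V) : z ∈ Gd κ 0 := fun _ _ => Nat.zero_le _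

theorem single_mem_Gd {j : ℕ} {l : List S} (h : j ≤ l.length) (v : V) :
    Finsupp.single l v ∈ Gd κ j := Finsupp.single_mem_supported _ _ h

theorem single_mem_Fx {r : S → S → Prop} {l : List S} (h : Fix r l) (v : V) :
    Finsupp.single l v ∈ Fx κ r := Finsupp.single_mem_supported _ _ h

theorem bd_mem_Gd {j : ℕ} {z : List S →₀ V} (hz : z ∈ Gd κ (j + 1)) : bd κ z ∈ Gd κ j :=
  map_supported (fun l hl v => Finsupp.supported_mono (fun l' (h : _ ∧ _) => by
    have h1 : j + 1 ≤ l.length := hl
    show j ≤ l'.length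
    omega) (bd_single_mem l v)) hz

theorem Fix.sublist {r : S → S → Prop} {l l' : List S} (h : Fix r l) (hs : l'.Sublist l) :
    Fix r l' := fun a ha b hb => h a (hs.subset ha) b (hs.subset hb)

theorem bd_mem_Fx {r : S → S → Prop} {z : List S →₀ V} (hz : z ∈ Fx κ r) : bd κ z ∈ Fx κ r :=
  map_supported (fun l hl v => Finsupp.supported_mono (fun _ (h : _ ∧ _) => Fix.sublist hl h.1)
    (bd_single_mem l v)) hz

theorem cons_mem_Gd {j : ℕ} (s : S) {z : List S →₀ V} (hz : z ∈ Gd κ j) :
    cons κ V s z ∈ Gd κ (j + 1) :=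
  map_supported (fun l hl v => by
    rw [cons_single]
    exact single_mem_Gd (Nat.succ_le_succ hl) v) hz

/-- Change of coefficients. -/
noncomputable def Em {α : Type*} (f : V →ₗ[κ] W) : (α →₀ V) →ₗ[κ] (α →₀ W) :=
  Finsupp.mapRange.linearMap f

@[simp] theorem Em_single {α : Type*} (f : V →ₗ[κ] W) (l : α) (v : V) :
    Em f (Finsupp.single l v) = Finsupp.single l (f v) := by
  simp [Em]

@[simp] theorem Em_apply {α : Type*} (f : V →ₗ[κ] W) (z : α →₀ V) (l : α) :
    Em f z l = f (z l) := rfl

theorem Em_cons (f : V →ₗ[κ] W) (s : S) (z : List S →₀ V) :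
    Em f (cons κ V s z) = cons κ W s (Em f z) := by
  induction z using Finsupp.induction_linear with
  | zero => simp
  | add a b ha hb => simp [ha, hb]
  | single l v => simp

theorem Em_bd (f : V →ₗ[κ] W) (z : List S →₀ V) : Em f (bd κ z) = bd κ (Em f z) := by
  induction z using Finsupp.induction_linear with
  | zero => simp
  | add a b ha hb => simp [ha, hb]
  | single l v =>
    rw [Em_single]
    induction l with
    | nil => simp
    | cons s l ih => rw [bd_single_cons, bd_single_cons, map_sub, Em_cons, ih, Em_single]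

theorem Em_mem_supported {α : Type*} {A : Set α} (f : V →ₗ[κ] W) {z : α →₀ V}
    (hz : z ∈ Finsupp.supported V κ A) : Em f z ∈ Finsupp.supported W κ A :=
  map_supported (fun l hl v => by
    rw [Em_single]
    exact Finsupp.single_mem_supported _ _ hl) hz

theorem Em_pr {Y : Type*} [MulAction H Y] {ρ : Representation κ H V} {σ : Representation κ H W}
    {f : V →ₗ[κ] W} {h : H} (hf : ∀ v, f (ρ h v) = σ h (f v)) (z : Y →₀ V) :
    Em f (pr Y ρ h z) = pr Y σ h (Em f z) := by
  induction z using Finsupp.induction_linear with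
  | zero => simp
  | add a b ha hb => simp [ha, hb]
  | single l v => simp [hf]

variable [MulAction H S]

theorem pr_cons (ρ : Representation κ H V) (h : H) (s : S) (z : List S →₀ V) :
    pr (List S) ρ h (cons κ V s z) = cons κ V (h • s) (pr (List S) ρ h z) := by
  induction z using Finsupp.induction_linear with
  | zero => simp
  | add a b ha hb => simp [ha, hb]
  | single l v => simp

theorem pr_bd (ρ : Representation κ H V) (h : H) (z : List S →₀ V) :
    pr (List S) ρ h (bd κ z) = bd κ (pr (List S) ρ h z) := by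
  induction z using Finsupp.induction_linear with
  | zero => simp
  | add a b ha hb => simp [ha, hb]
  | single l v =>
    rw [pr_single]
    induction l with
    | nil => simp
    | cons s l ih =>
      rw [smul_cons, bd_single_cons, bd_single_cons, map_sub, pr_cons, ih, pr_single]

theorem pr_mem_Gd (ρ : Representation κ H V) (h : H) {j : ℕ} {z : List S →₀ V}
    (hz : z ∈ Gd κ j) : pr (List S) ρ h z ∈ Gd κ j :=
  map_supported (fun l hl v => by
    rw [pr_single]
    exact single_mem_Gd (by rw [length_smul]; exact hl) _) hz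

/-- `r` is an invariant symmetric transitive relation, and two points fixed by the same
nontrivial element are related. -/
structure Rel (H : Type*) [Group H] {S : Type*} [MulAction H S] (r : S → S → Prop) : Prop where
  symm : ∀ a b, r a b → r b a
  trans : ∀ a b c, r a b → r b c → r a c
  inv : ∀ (h : H) a b, r a b → r (h • a) (h • b)
  free : ∀ (h : H) a b, h ≠ 1 → h • a = a → h • b = b → r a b

theorem Rel.fix_smul {r : S → S → Prop} (hr : Rel H r) (h : H) {l : List S} (hl : Fix r l) :
    Fix r (h • l) := by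
  intro a ha b hb
  obtain ⟨a', ha', rfl⟩ := mem_smul_list.1 ha
  obtain ⟨b', hb', rfl⟩ := mem_smul_list.1 hb
  exact hr.inv h _ _ (hl a' ha' b' hb')

theorem Rel.fix_smul_iff {r : S → S → Prop} (hr : Rel H r) (h : H) {l : List S} :
    Fix r (h • l) ↔ Fix r l :=
  ⟨fun hl => by simpa using hr.fix_smul h⁻¹ hl, hr.fix_smul h⟩

theorem Rel.eq_one {r : S → S → Prop} (hr : Rel H r) {h : H} {l : List S} (hl : ¬ Fix r l)
    (e : h • l = l) : h = 1 := by
  by_contra hh
  exact hl fun a ha b hb => hr.free h a b hh (fix_of_smul_list e a ha) (fix_of_smul_list e b hb)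

theorem Rel.subgroup {r : S → S → Prop} (hr : Rel H r) (C : Subgroup H) : Rel C r where
  symm := hr.symm
  trans := hr.trans
  inv h := hr.inv (h : H)
  free h a b hh := hr.free (h : H) a b fun e => hh (Subtype.ext e)

/-- There is a map from lists to the group that is equivariant on the lists that are not fixed. -/
theorem Rel.exists_label {r : S → S → Prop} (hr : Rel H r) :
    ∃ e : List S → H, ∀ (h : H) l, ¬ Fix r l → e (h • l) = h * e l := by
  classical
  obtain ⟨f, -, hf⟩ := exists_equi_raw (H := H) (X := {l : List S // ¬ Fix r l}) (S := H)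
    (fun h l => ⟨h • l.1, fun c => l.2 ((hr.fix_smul_iff h).1 c)⟩) (fun h g => h * g)
    (fun l => Subtype.ext (one_smul H l.1)) (fun g h l => Subtype.ext (mul_smul g h l.1))
    mul_assoc (fun _ _ => True) (fun _ _ _ _ => trivial)
    (fun l => ⟨1, trivial, fun h e => by
      rw [hr.eq_one l.2 (congrArg Subtype.val e), mul_one]⟩)
  refine ⟨fun l => if hl : Fix r l then 1 else f ⟨l, hl⟩, fun h l hl => ?_⟩
  have hl' : ¬ Fix r (h • l) := fun c => hl ((hr.fix_smul_iff h).1 c)
  simp only [dif_neg hl, dif_neg hl']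
  exact hf h ⟨l, hl⟩

theorem pr_mem_Fx {r : S → S → Prop} (hr : Rel H r) (ρ : Representation κ H V) (h : H)
    {z : List S →₀ V} (hz : z ∈ Fx κ r) : pr (List S) ρ h z ∈ Fx κ r :=
  map_supported (fun l hl v => by
    rw [pr_single]
    exact single_mem_Fx (hr.fix_smul h hl) _) hz

/-- The chains that are neglected. -/
noncomputable def NN (ρ : Representation κ H V) (r : S → S → Prop) (P : H → Prop) :
    Submodule κ (List S →₀ V) := Fx κ r ⊔ Jp (pr (List S) ρ) P

theorem Fx_le_NN (ρ : Representation κ H V) (r : S → S → Prop) (P : H → Prop) :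
    Fx κ r ≤ NN ρ r P := le_sup_left

theorem Jp_le_NN (ρ : Representation κ H V) (r : S → S → Prop) (P : H → Prop) :
    Jp (pr (List S) ρ) P ≤ NN ρ r P := le_sup_right

theorem NN_mono (ρ : Representation κ H V) (r : S → S → Prop) {P Q : H → Prop}
    (h : ∀ g, P g → Q g) : NN ρ r P ≤ NN ρ r Q := sup_le_sup_left (Jp_mono _ h) _

theorem bd_mem_Jp {ρ : Representation κ H V} {P : H → Prop} {z : List S →₀ V}
    (hz : z ∈ Jp (pr (List S) ρ) P) : bd κ z ∈ Jp (pr (List S) ρ) P :=
  map_Jp (fun g v _ => (pr_bd ρ g v).symm) hz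

/-- A linear map sends `NN` into `N` as soon as it does so on both parts. -/
theorem NN_le {ρ : Representation κ H V} {r : S → S → Prop} {P : H → Prop}
    {f : (List S →₀ V) →ₗ[κ] W} {N : Submodule κ W} (h1 : ∀ z ∈ Fx κ r, f z ∈ N)
    (h2 : ∀ z ∈ Jp (pr (List S) ρ) P, f z ∈ N) {z : List S →₀ V} (hz : z ∈ NN ρ r P) :
    f z ∈ N := by
  obtain ⟨a, ha, b, hb, rfl⟩ := Submodule.mem_sup.1 hz
  rw [map_add]
  exact N.add_mem (h1 a ha) (h2 b hb)

theorem bd_mem_NN {ρ : Representation κ H V} {r : S → S → Prop} {P : H → Prop}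
    {z : List S →₀ V} (hz : z ∈ NN ρ r P) : bd κ z ∈ NN ρ r P :=
  NN_le (fun _ h => Fx_le_NN ρ r P (bd_mem_Fx h)) (fun _ h => Jp_le_NN ρ r P (bd_mem_Jp h)) hz

theorem Em_mem_NN {ρ : Representation κ H V} {σ : Representation κ H W} {r : S → S → Prop}
    {P : H → Prop} {f : V →ₗ[κ] W} (hf : ∀ h v, P h → f (ρ h v) = σ h (f v))
    {z : List S →₀ V} (hz : z ∈ NN ρ r P) : Em f z ∈ NN σ r P :=
  NN_le (fun _ h => Fx_le_NN σ r P (Em_mem_supported f h))
    (fun _ h => Jp_le_NN σ r P (map_Jp (fun g v hg => Em_pr (fun w => hf g w hg) v) h)) hz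

/-- The relative homology vanishes for lists of length at least `j`. -/
def Van (ρ : Representation κ H V) (r : S → S → Prop) (P : H → Prop) (j : ℕ) : Prop :=
  ∀ i, j ≤ i → ∀ z ∈ Gd κ i, bd κ z ∈ NN ρ r P → ∃ a ∈ Gd κ (i + 1), z - bd κ a ∈ NN ρ r P

theorem Van.mono {ρ : Representation κ H V} {r : S → S → Prop} {P : H → Prop} {j k : ℕ}
    (h : Van ρ r P j) (hjk : j ≤ k) : Van ρ r P k := fun i hi => h i (hjk.trans hi)

theorem NN_subgroup (ρ : Representation κ H V) (r : S → S → Prop) (C : Subgroup H) :
    NN (H := C) (ρ.comp C.subtype) r (fun _ => True) = NN ρ r (· ∈ C) := by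
  have e : ∀ (c : C) (z : List S →₀ V),
      pr (H := C) (List S) (ρ.comp C.subtype) c z = pr (List S) ρ c z := fun _ _ => rfl
  unfold NN Jp
  congr 2
  ext m
  constructor
  · rintro ⟨h, v, -, rfl⟩
    exact ⟨h, v, h.2, by rw [e]⟩
  · rintro ⟨h, v, hh, rfl⟩
    exact ⟨⟨h, hh⟩, v, trivial, by rw [e]⟩

theorem Van_subgroup (ρ : Representation κ H V) (r : S → S → Prop) (C : Subgroup H) (j : ℕ) :
    Van (H := C) (ρ.comp C.subtype) r (fun _ => True) j ↔ Van ρ r (· ∈ C) j := by
  unfold Van
  rw [NN_subgroup]

/-- Vanishing passes to retracts. -/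
theorem Van.retract {ρ : Representation κ H V} {σ : Representation κ H W} {r : S → S → Prop}
    {P : H → Prop} {j : ℕ} (h : Van σ r P j) (f : V →ₗ[κ] W) (g : W →ₗ[κ] V) (hf : Equi ρ σ f)
    (hg : Equi σ ρ g) (hgf : ∀ v, g (f v) = v) : Van ρ r P j := by
  intro i hi z hz hb
  obtain ⟨a, ha, h1⟩ := h i hi (Em f z) (Em_mem_supported f hz)
    (by rw [← Em_bd]; exact Em_mem_NN (fun h v _ => hf h v) hb)
  refine ⟨Em g a, Em_mem_supported g ha, ?_⟩
  have h2 := Em_mem_NN (σ := ρ) (fun h v _ => hg h v) h1
  have e : Em g (Em f z) = z := by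
    ext l
    simp [hgf]
  rwa [map_sub, e, Em_bd] at h2

/-- Vanishing passes along equivariant bijections. -/
theorem Van.of_bijective {ρ : Representation κ H V} {σ : Representation κ H W}
    {r : S → S → Prop} {P : H → Prop} {j : ℕ} (h : Van ρ r P j) (f : V →ₗ[κ] W)
    (hf : Equi ρ σ f) (hb : Function.Bijective f) : Van σ r P j := by
  let e := LinearEquiv.ofBijective f hb
  refine h.retract e.symm.toLinearMap f (fun g w => ?_) hf fun w => e.apply_symm_apply w
  apply e.injective
  show e (e.symm _) = f (ρ g (e.symm w))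
  rw [hf, e.apply_symm_apply]
  exact congrArg _ (e.apply_symm_apply w).symm

end Pool.Agent.MP_f7db47_al.Cv
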