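import Pool.Agent.MP_f7db47_al.Cv.Base

namespace Pool.Agent.MP_f7db47_al.Cv

variable {κ : Type*} [CommRing κ] {H : Type*} [Group H] {S : Type*} [MulAction H S]
variable {V : Type*} [AddCommGroup V] [Module κ V]

/-- The cone with a vertex that depends on the point of `Y` and on the list. -/
noncomputable def ConeOp (κ : Type*) [CommRing κ] (V : Type*) [AddCommGroup V] [Module κ V]
    {S Y : Type*} (c : Y → List S → S) :
    (List S →₀ (Y →₀ V)) →ₗ[κ] (List S →₀ (Y →₀ V)) :=
  Finsupp.lsum κ fun l => Finsupp.lsum κ fun y =>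
    Finsupp.lsingle (c y l :: l) ∘ₗ Finsupp.lsingle y

theorem Cone_single {S Y : Type*} (c : Y → List S → S) (l : List S) (y : Y) (v : V) :
    ConeOp κ V c (Finsupp.single l (Finsupp.single y v)) =
      Finsupp.single (c y l :: l) (Finsupp.single y v) := by
  rw [ConeOp, Finsupp.lsum_single, Finsupp.lsum_single]
  rfl

theorem Cone_mem {S Y : Type*} (c : Y → List S → S) {A B : Set (List S)}
    (h : ∀ l ∈ A, ∀ y, c y l :: l ∈ B) {z : List S →₀ (Y →₀ V)}
    (hz : z ∈ Finsupp.supported (Y →₀ V) κ A) :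
    ConeOp κ V c z ∈ Finsupp.supported (Y →₀ V) κ B := by
  refine map_supported (fun l hl m => ?_) hz
  induction m using Finsupp.induction_linear with
  | zero => simp
  | add a b ha hb =>
    rw [Finsupp.single_add, map_add]
    exact Submodule.add_mem _ ha hb
  | single y v =>
    rw [Cone_single]
    exact Finsupp.single_mem_supported _ _ (h l hl y)

theorem Cone_Gd {S Y : Type*} (c : Y → List S → S) {j : ℕ} {z : List S →₀ (Y →₀ V)}
    (hz : z ∈ Gd κ j) : ConeOp κ V c z ∈ Gd κ (j + 1) :=
  Cone_mem c (fun _ hl _ => Nat.succ_le_succ hl) hz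

theorem Cone_bd {S Y : Type*} (c : Y → List S → S) {A : Set (List S)}
    (h : ∀ l ∈ A, ∀ l' : List S, l'.Sublist l → l'.length + 1 = l.length → ∀ y, c y l' = c y l)
    {z : List S →₀ (Y →₀ V)} (hz : z ∈ Finsupp.supported (Y →₀ V) κ A) :
    bd κ (ConeOp κ V c z) = z - ConeOp κ V c (bd κ z) := by
  refine eq_on_supported (f := bd κ ∘ₗ ConeOp κ V c) (g := LinearMap.id - ConeOp κ V c ∘ₗ bd κ)
    (fun l hl m => ?_) hz
  induction m using Finsupp.induction_linear with
  | zero => simp
  | add a b ha hb => rw [Finsupp.single_add, map_add, map_add, ha, hb]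
  | single y v =>
    have e : bd κ (Finsupp.single l (Finsupp.single y v)) =
        Em (Finsupp.lsingle y : V →ₗ[κ] (Y →₀ V)) (bd κ (Finsupp.single l v)) := by
      rw [Em_bd, Em_single, Finsupp.lsingle_apply]
    have e2 := eq_on_supported
      (f := ConeOp κ V c ∘ₗ Em (Finsupp.lsingle y : V →ₗ[κ] (Y →₀ V)))
      (g := cons κ (Y →₀ V) (c y l) ∘ₗ Em (Finsupp.lsingle y : V →ₗ[κ] (Y →₀ V)))
      (fun l' hl' w => by
        rw [LinearMap.comp_apply, LinearMap.comp_apply, Em_single, Finsupp.lsingle_apply,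
          Cone_single, cons_single, h l hl l' hl'.1 hl'.2]) (bd_single_mem l v)
    rw [LinearMap.comp_apply, LinearMap.comp_apply] at e2
    rw [LinearMap.comp_apply, LinearMap.sub_apply, LinearMap.comp_apply, LinearMap.id_apply,
      Cone_single, bd_single_cons, e, e2]

theorem Cone_Jp {Y : Type*} [MulAction H Y] (ρ : Representation κ H V) (c : Y → List S → S)
    (h : ∀ (g : H) y l, c (g • y) (g • l) = g • c y l) {P : H → Prop}
    {z : List S →₀ (Y →₀ V)} (hz : z ∈ Jp (pr (List S) (pr Y ρ)) P) :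
    ConeOp κ V c z ∈ Jp (pr (List S) (pr Y ρ)) P := by
  refine map_Jp (fun g z _ => ?_) hz
  induction z using Finsupp.induction_linear with
  | zero => simp
  | add a b ha hb => simp only [map_add, ha, hb]
  | single l m =>
    induction m using Finsupp.induction_linear with
    | zero => simp
    | add a b ha hb => simp only [Finsupp.single_add, map_add, ha, hb]
    | single y v => simp only [pr_single, Cone_single, h, smul_cons]

/-- The part of a chain on the lists with pairwise related entries. -/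
theorem Cone_filter (ρ : Representation κ H V) {r : S → S → Prop} (hr : Rel H r) {P : H → Prop}
    {j : ℕ} {z : List S →₀ V} (hz : z ∈ Gd κ j) (hN : z ∈ NN ρ r P) :
    ∃ φ ∈ Finsupp.supported V κ {l | Fix r l ∧ j ≤ l.length}, z - φ ∈ Jp (pr (List S) ρ) P := by
  classical
  obtain ⟨f, hf⟩ : ∃ f : (List S →₀ V) →ₗ[κ] (List S →₀ V), ∀ l v,
      f (Finsupp.single l v) = if Fix r l then Finsupp.single l v else 0 :=
    ⟨Finsupp.lsum κ fun l => if Fix r l then Finsupp.lsingle l else 0, fun l v => by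
      rw [Finsupp.lsum_single]
      split_ifs <;> rfl⟩
  refine ⟨f z, map_supported (fun l hl v => ?_) hz, ?_⟩
  · rw [hf]
    split_ifs with h
    · exact Finsupp.single_mem_supported _ _ ⟨h, hl⟩
    · exact Submodule.zero_mem _
  · refine NN_le (f := LinearMap.id - f) (fun a ha => ?_) (fun a ha => ?_) hN
    · refine map_supported (fun l hl v => ?_) ha
      rw [LinearMap.sub_apply, hf, if_pos (show Fix r l from hl), LinearMap.id_apply, sub_self]
      exact Submodule.zero_mem _
    · refine Submodule.sub_mem _ ha (map_Jp (fun g z _ => ?_) ha)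
      induction z using Finsupp.induction_linear with
      | zero => simp
      | add a b ha hb => simp only [map_add, ha, hb]
      | single l v =>
        rw [pr_single, hf, hf, hr.fix_smul_iff]
        split_ifs
        · rw [pr_single]
        · rw [map_zero]

open Pointwise in
theorem Cone_point {Y : Type*} [MulAction H Y] {r : S → S → Prop} (hr : Rel H r)
    (h0 : ∀ y : Y, ∃ s : S, ∀ h : H, h • y = y → h • s = s)
    (hY : ∀ (h : H) (y : Y) (s : S), h • y = y → r (h • s) s → h • s = s) :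
    ∃ b : Y → S → S, (∀ (g : H) y s, b (g • y) (g • s) = g • b y s) ∧
      (∀ y s, r s s → r (b y s) s) ∧ ∀ y s s', r s s' → b y s = b y s' := by
  have e : ∀ (g : H) (s : S), g • {t | r t s} = {t | r t (g • s)} := by
    intro g s
    ext t
    rw [Set.mem_smul_set_iff_inv_smul_mem]
    exact ⟨fun h => by simpa using hr.inv g _ _ h, fun h => by simpa using hr.inv g⁻¹ _ _ h⟩
  obtain ⟨b, h1, h2⟩ := exists_equi (H := H) (X := Y × Set S) (S := S)
    (fun x t => ∀ s, r s s → x.2 = {t | r t s} → t ∈ x.2)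
    (fun g x t h s hs he => Set.smul_mem_smul_set (h (g⁻¹ • s) (hr.inv _ _ _ hs) (by
      rw [← e, ← he, Prod.smul_snd, inv_smul_smul])))
    (fun x => by
      by_cases hx : ∃ s, r s s ∧ x.2 = {t | r t s}
      · obtain ⟨s, hs, he⟩ := hx
        have hm : s ∈ x.2 := by
          rw [he]
          exact hs
        refine ⟨s, fun _ _ _ => hm, fun g hg => hY g x.1 s (congrArg Prod.fst hg) ?_⟩
        have h3 : g • s ∈ (g • x).2 := Set.smul_mem_smul_set hm
        rwa [hg, he] at h3
      · obtain ⟨s, hs⟩ := h0 x.1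
        exact ⟨s, fun t ht he => absurd ⟨t, ht, he⟩ hx,
          fun g hg => hs g (congrArg Prod.fst hg)⟩)
  refine ⟨fun y s => b (y, {t | r t s}), fun g y s => ?_,
    fun y s hs => h1 (y, {t | r t s}) s hs rfl, fun y s s' h => ?_⟩
  · rw [← h2, Prod.smul_mk, e]
  · have : {t | r t s} = {t | r t s'} :=
      Set.ext fun t => ⟨fun ht => hr.trans _ _ _ ht h, fun ht => hr.trans _ _ _ ht (hr.symm _ _ h)⟩
    simp only [this]

theorem van_perm {Y : Type*} [MulAction H Y] (ρ : Representation κ H V) {r : S → S → Prop}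
    (hr : Rel H r) (h0 : ∀ y : Y, ∃ s : S, ∀ h : H, h • y = y → h • s = s)
    (hY : ∀ (h : H) (y : Y) (s : S), h • y = y → r (h • s) s → h • s = s) :
    Van (pr Y ρ) r (fun _ => True) 3 := by
  obtain ⟨s0, -, hs0⟩ := exists_equi (H := H) (X := Y) (S := S) (fun _ _ => True)
    (fun _ _ _ _ => trivial) fun y => (h0 y).imp fun _ h => ⟨trivial, h⟩
  obtain ⟨b, b1, b2, b3⟩ := Cone_point hr h0 hY
  obtain ⟨c, c0, c1⟩ : ∃ c : Y → List S → S, (∀ y, c y [] = s0 y) ∧
      ∀ y s l, c y (s :: l) = b y s :=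
    ⟨fun y l => List.casesOn l (s0 y) fun s _ => b y s, fun _ => rfl, fun _ _ _ => rfl⟩
  have c2 : ∀ (g : H) y l, c (g • y) (g • l) = g • c y l := by
    intro g y l
    cases l with
    | nil => rw [smul_nil, c0, c0, hs0]
    | cons s l => rw [smul_cons, c1, c1, b1]
  intro i hi z hz hb
  obtain ⟨j, rfl⟩ : ∃ j, i = j + 1 := ⟨i - 1, by omega⟩
  obtain ⟨φ, h1, h2⟩ := Cone_filter (pr Y ρ) hr (bd_mem_Gd hz) hb
  have h3 : ConeOp κ V c φ ∈ Gd κ (j + 1) :=
    Cone_Gd c (Finsupp.supported_mono (fun _ hl => hl.2) h1)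
  have h4 : ConeOp κ V c φ ∈ Fx κ r := by
    refine Cone_mem c (fun l hl y => ?_) h1
    obtain ⟨hl1, hl2⟩ := hl
    cases l with
    | nil =>
      simp only [List.length_nil] at hl2
      omega
    | cons s l =>
      have k : ∀ a ∈ c y (s :: l) :: s :: l, r a s := by
        intro a ha
        rcases List.mem_cons.1 ha with rfl | ha
        · rw [c1]
          exact b2 y s (hl1 s List.mem_cons_self s List.mem_cons_self)
        · exact hl1 a ha s List.mem_cons_self
      exact fun a ha a' ha' => hr.trans _ _ _ (k a ha) (hr.symm _ _ (k a' ha'))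
  have h5 : bd κ (ConeOp κ V c φ) = φ - ConeOp κ V c (bd κ φ) := by
    refine Cone_bd c (fun l hl l' hs he y => ?_) h1
    obtain ⟨hl1, hl2⟩ := hl
    cases l with
    | nil => simp at he
    | cons s l =>
      cases l' with
      | nil =>
        simp only [List.length_nil] at he
        omega
      | cons s' l' =>
        rw [c1, c1]
        exact b3 y _ _ (hl1 s' (hs.subset List.mem_cons_self) s List.mem_cons_self)
  have h6 : bd κ φ ∈ Jp (pr (List S) (pr Y ρ)) fun _ => True := by
    have h7 := Submodule.neg_mem _ (bd_mem_Jp h2)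
    rwa [map_sub, bd_bd, zero_sub, neg_neg] at h7
  have h7 : bd κ (z - ConeOp κ V c φ) ∈ Jp (pr (List S) (pr Y ρ)) fun _ => True := by
    have h8 := Submodule.add_mem _ h2 (Cone_Jp ρ c c2 h6)
    rw [map_sub, h5]
    convert h8 using 1
    abel
  have h8 := Submodule.sub_mem _ hz h3
  refine ⟨ConeOp κ V (fun y _ => s0 y) (z - ConeOp κ V c φ), Cone_Gd _ h8, ?_⟩
  rw [Cone_bd (fun y _ => s0 y) (fun _ _ _ _ _ _ => rfl) h8]
  have h9 := Submodule.add_mem _ (Fx_le_NN (pr Y ρ) r (fun _ => True) h4)
    (Jp_le_NN (pr Y ρ) r _ (Cone_Jp ρ (fun y _ => s0 y) (fun g y _ => hs0 g y) h7))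
  convert h9 using 1
  abel

end Pool.Agent.MP_f7db47_al.Cv
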