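import Mathlib

namespace Pool.Agent.MP_f7db47_al.Cv

open Polynomial in
theorem DChar_charpoly {K : Type*} [Field K] (p : ℕ) [Fact p.Prime] [CharP K p] {ι : Type*}
    [Fintype ι] [DecidableEq ι] [Nonempty ι] (M : Matrix ι ι K) :
    (M ^ p).charpoly = M.charpoly.map (frobenius K p) := by
  apply expand_injective (R := K) (Fact.out : p.Prime).pos
  rw [← map_expand, map_frobenius_expand]
  unfold Matrix.charpoly
  rw [AlgHom.map_det, ← Matrix.coe_detMonoidHom,
    ← (Matrix.detMonoidHom : Matrix ι ι K[X] →* K[X]).map_pow]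
  apply congr_arg Matrix.det
  refine matPolyEquiv.injective ?_
  rw [map_pow, Matrix.matPolyEquiv_charmatrix, sub_pow_char_of_commute, ← C_pow]
  · exact (id (matPolyEquiv_eq_X_pow_sub_C p M) :)
  · exact (C M).commute_X

theorem trace_pow_char {K : Type*} [Field K] (p : ℕ) [Fact p.Prime] [CharP K p] {ι : Type*}
    [Fintype ι] [DecidableEq ι] (M : Matrix ι ι K) :
    Matrix.trace (M ^ p) = Matrix.trace M ^ p := by
  cases isEmpty_or_nonempty ι
  · simp [Matrix.trace, (Fact.out : p.Prime).ne_zero]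
  rw [Matrix.trace_eq_neg_charpoly_coeff, Matrix.trace_eq_neg_charpoly_coeff, DChar_charpoly,
    Polynomial.coeff_map, ← map_neg, frobenius_def]

theorem DChar_constr {S : Set (PrimeSpectrum ℤ)} (hS : Topology.IsConstructible S) :
    ∃ N : ℕ, ∀ p : ℕ, p.Prime → N < p → ∀ P : PrimeSpectrum ℤ, (p : ℤ) ∈ P.asIdeal →
      (P ∈ S ↔ (⊥ : PrimeSpectrum ℤ) ∈ S) := by
  induction hS using Topology.IsConstructible.empty_union_induction with
  | open_retrocompact U hU _ =>
    by_cases h : (⊥ : PrimeSpectrum ℤ) ∈ U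
    · obtain ⟨_, ⟨d, rfl⟩, h1, h2⟩ :=
        PrimeSpectrum.isTopologicalBasis_basic_opens.exists_subset_of_mem_open h hU
      have hd : d ≠ 0 := fun e => h1 (by rw [e]; exact Ideal.zero_mem _)
      refine ⟨d.natAbs, fun p hp hN P hP => ⟨fun _ => h, fun _ => h2 fun hdP => ?_⟩⟩
      have hc : IsCoprime (p : ℤ) d := by
        rw [Int.isCoprime_iff_gcd_eq_one, Int.gcd, Int.natAbs_natCast]
        exact (Nat.Prime.coprime_iff_not_dvd hp).2 fun h =>
          absurd (Nat.le_of_dvd (Int.natAbs_pos.2 hd) h) (not_le.2 hN)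
      obtain ⟨u, v, huv⟩ := hc
      refine P.isPrime.ne_top ((Ideal.eq_top_iff_one _).2 ?_)
      rw [← huv]
      exact P.asIdeal.add_mem (P.asIdeal.mul_mem_left _ hP) (P.asIdeal.mul_mem_left _ hdP)
    · refine ⟨0, fun p _ _ P _ => ⟨fun hP => ?_, fun h' => absurd h' h⟩⟩
      exact ((PrimeSpectrum.le_iff_specializes _ _).1 bot_le).mem_open hU hP
  | union s _ t _ hs ht =>
    obtain ⟨N, hN⟩ := hs
    obtain ⟨N', hN'⟩ := ht
    refine ⟨max N N', fun p hp h P hP => ?_⟩
    rw [Set.mem_union, Set.mem_union, hN p hp (lt_of_le_of_lt (le_max_left _ _) h) P hP,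
      hN' p hp (lt_of_le_of_lt (le_max_right _ _) h) P hP]
  | compl s _ hs =>
    obtain ⟨N, hN⟩ := hs
    exact ⟨N, fun p hp h P hP => not_congr (hN p hp h P hP)⟩

theorem exists_charp (k : Type) [CommRing k] [IsReduced k] [IsAddTorsionFree k]
    [Algebra.FiniteType ℤ k] (a : k) (ha : a ≠ 0) :
    ∃ N : ℕ, ∀ p : ℕ, p.Prime → N < p →
      ∃ (K : Type) (_ : Field K) (f : k →+* K), CharP K p ∧ f a ≠ 0 := by
  let B := Localization.Away a
  have : Algebra.FinitePresentation k B := IsLocalization.Away.finitePresentation a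
  have : Algebra.FiniteType ℤ B := Algebra.FiniteType.trans (S := k) inferInstance inferInstance
  have hfp : Algebra.FinitePresentation ℤ B := Algebra.FinitePresentation.of_finiteType.1 this
  obtain ⟨N, hN⟩ := DChar_constr
    (PrimeSpectrum.isConstructible_range_comap (RingHom.finitePresentation_algebraMap.2 hfp))
  have hinj : Function.Injective (algebraMap ℤ B) := by
    refine (injective_iff_map_eq_zero _).2 fun n hn => ?_
    by_contra hn0
    rw [IsScalarTower.algebraMap_apply ℤ k B,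
      IsLocalization.map_eq_zero_iff (Submonoid.powers a)] at hn
    obtain ⟨⟨_, m, rfl⟩, hm⟩ := hn
    have h1 : n • a ^ m = 0 := by
      rw [zsmul_eq_mul, mul_comm]
      simpa using hm
    exact ha (IsReduced.eq_zero a ⟨m, (smul_eq_zero.1 h1).resolve_left hn0⟩)
  have hbot : (⊥ : PrimeSpectrum ℤ) ∈ Set.range (PrimeSpectrum.comap (algebraMap ℤ B)) := by
    obtain ⟨Q, hQ, e⟩ := (⊥ : Ideal ℤ).exists_comap_eq_of_mem_minimalPrimes_of_injective hinj
      (by rw [IsDomain.minimalPrimes_eq_singleton_bot]; rfl)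
    exact ⟨⟨Q, hQ⟩, PrimeSpectrum.ext e⟩
  refine ⟨N, fun p hp h => ?_⟩
  have hpp : (Ideal.span {(p : ℤ)}).IsPrime :=
    (Ideal.span_singleton_prime (by exact_mod_cast hp.ne_zero)).2 (Nat.prime_iff_prime_int.1 hp)
  obtain ⟨Q, hQ⟩ := (hN p hp h ⟨_, hpp⟩ (Ideal.mem_span_singleton_self _)).2 hbot
  have hpQ : (p : B) ∈ Q.asIdeal := by
    have h1 : (p : ℤ) ∈ (PrimeSpectrum.comap (algebraMap ℤ B) Q).asIdeal := by
      rw [hQ]
      exact Ideal.mem_span_singleton_self _
    rw [PrimeSpectrum.comap_asIdeal, Ideal.mem_comap, map_natCast] at h1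
    exact h1
  let g : B →+* Q.asIdeal.ResidueField := algebraMap _ _
  refine ⟨Q.asIdeal.ResidueField, inferInstance, g.comp (algebraMap k B), ?_, ?_⟩
  · have : Fact p.Prime := ⟨hp⟩
    refine (CharP.charP_iff_prime_eq_zero hp).2 ?_
    rw [← map_natCast g]
    exact Ideal.algebraMap_residueField_eq_zero.2 hpQ
  · exact ((IsLocalization.Away.algebraMap_isUnit a).map g).ne_zero

end Pool.Agent.MP_f7db47_al.Cv
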