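import Pool.Agent.MP_f7db47_al.Cv.DDefs

namespace Pool.Agent.MP_f7db47_al.Cv

theorem DConv_getD {α : Type*} (t : List α) (j i : ℕ) (d : α) :
    (t.eraseIdx j).getD i d = if i < j then t.getD i d else t.getD (i + 1) d := by
  simp only [List.getD_eq_getElem?_getD, List.getElem?_eraseIdx]
  split_ifs <;> rfl

theorem DConv_erase {α : Type*} {n : ℕ} (v : Fin (n + 1) → α) (j : Fin (n + 1)) :
    (List.ofFn v).eraseIdx j = List.ofFn (v ∘ j.succAbove) := by
  have hj := j.2
  refine List.ext_getElem (by simp [List.length_eraseIdx]; omega) fun i h1 h2 => ?_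
  rw [List.getElem_eraseIdx]
  simp only [List.getElem_ofFn, Function.comp_apply]
  split_ifs with h
  · rw [Fin.succAbove_of_castSucc_lt _ _ h]
    rfl
  · rw [Fin.succAbove_of_le_castSucc _ _ (not_lt.1 h)]
    rfl

theorem DConv_smul {G : Type*} [Group G] (h : G) (t : List G) {i : ℕ} (hi : i < t.length) :
    (h • t).getD i 1 = h * t.getD i 1 := by
  rw [List.getD_eq_getElem _ _ hi, List.getD_eq_getElem _ _ (by rwa [length_smul])]
  exact List.getElem_map _

theorem DConv_tel {G : Type*} [Group G] (w : ℕ → G) (n : ℕ) :
    w 0 * (List.ofFn fun j : Fin n => (w j)⁻¹ * w (j + 1)).prod = w n := by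
  induction n with
  | zero => simp
  | succ n ih =>
    rw [List.ofFn_succ_last, List.prod_append, ← mul_assoc]
    simp only [Fin.val_castSucc, ih, Fin.val_last, List.prod_singleton, mul_inv_cancel_left]

theorem DConv_contract {G : Type*} [Group G] (w : ℕ → G) (c : G) {n : ℕ} (j : Fin (n + 1)) :
    Fin.contractNth j.castSucc (· * ·)
        (Fin.cons ((w (n + 1))⁻¹ * c * w 0) fun i : Fin (n + 1) => (w i)⁻¹ * w (i + 1)) =
      Fin.cons ((if n < j then w n else w (n + 1))⁻¹ * c * if 0 < j.val then w 0 else w (0 + 1))
        fun i : Fin n => (if i.val < j then w i else w (i + 1))⁻¹ *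
          if i.val + 1 < j then w (i + 1) else w (i + 1 + 1) := by
  have hj := j.2
  funext k
  refine Fin.cases ?_ (fun i => ?_) k
  · rw [Fin.contractNth, Fin.cons_zero, Fin.castSucc_zero, Fin.cons_zero, Fin.cons_succ,
      if_neg (by omega : ¬ n < j)]
    simp only [Fin.val_zero, Fin.val_castSucc]
    split_ifs with h1 h2
    · rfl
    · rw [mul_assoc, mul_inv_cancel_left]
    · omega
  · rw [Fin.contractNth, Fin.cons_succ, Fin.cons_succ, ← Fin.succ_castSucc, Fin.cons_succ]
    simp only [Fin.val_succ, Fin.val_castSucc]
    split_ifs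
    all_goals first | omega | rfl | rw [mul_assoc, mul_inv_cancel_left]

theorem dI_eq {U : Type} [Group U] (n : ℕ) (z : (Fin (n + 1) → U) →₀ ℤ) :
    (groupHomology.inhomogeneousChains.d (Rep.trivial ℤ U ℤ) n).hom z = dI n z := by
  induction z using Finsupp.induction_linear with
  | zero => rw [map_zero, map_zero]
  | add a b ha hb => rw [map_add, map_add, ha, hb]
  | single u a =>
    rw [dI_single]
    exact groupHomology.inhomogeneousChains.d_single (A := Rep.trivial ℤ U ℤ) n u a

theorem dI_map {U U' : Type*} [Group U] [Group U'] (f : U →* U') (n : ℕ)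
    (z : (Fin (n + 1) → U) →₀ ℤ) :
    dI n (Finsupp.mapDomain (fun u i => f (u i)) z) =
      Finsupp.mapDomain (fun u i => f (u i)) (dI n z) := by
  induction z using Finsupp.induction_linear with
  | zero => simp
  | add a b ha hb => rw [Finsupp.mapDomain_add, map_add, map_add, Finsupp.mapDomain_add, ha, hb]
  | single u a =>
    rw [Finsupp.mapDomain_single, dI_single, dI_single, ← Finsupp.lmapDomain_apply ℤ ℤ, map_add,
      map_sum]
    simp only [map_smul, Finsupp.lmapDomain_apply, Finsupp.mapDomain_single]
    congr 1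
    refine Finset.sum_congr rfl fun j _ => ?_
    congr 2
    exact (Fin.comp_contractNth _ _ (map_mul f) j u).symm

theorem HC_bd (κ : Type*) [CommRing κ] {U : Type*} [Group U] (n : ℕ)
    (z : (Fin (n + 1) → U) →₀ ℤ) :
    bd κ (HC κ (n + 1) z) - HC κ n (dI n z) ∈
      Jp (pr (List U) (Representation.trivial κ U κ)) fun _ => True := by
  induction z using Finsupp.induction_linear with
  | zero => simp
  | add a b ha hb =>
    rw [map_add, map_add, map_add, map_add, add_sub_add_comm]
    exact add_mem ha hb
  | single u a =>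
    have h1 : ∀ j : Fin (n + 1), (-1 : κ) ^ (j.succ : ℕ) • Finsupp.single
        ((List.ofFn (Fin.partialProd u)).eraseIdx (j.succ : Fin (n + 2))) (a : κ) =
        HC κ n ((-1 : ℤ) ^ ((j : ℕ) + 1) • Finsupp.single (Fin.contractNth j (· * ·) u) a) := by
      intro j
      rw [map_smul, HC_single, DConv_erase, Fin.partialProd_contractNth, Fin.val_succ,
        ← Int.cast_smul_eq_zsmul κ, Int.cast_pow, Int.cast_neg, Int.cast_one]
    have h2 : (List.ofFn (Fin.partialProd u)).eraseIdx (0 : Fin (n + 2)) =
        u 0 • List.ofFn (Fin.partialProd fun i : Fin n => u i.succ) := by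
      rw [DConv_erase, smul_list, List.map_ofFn, Fin.succAbove_zero]
      exact congrArg _ (funext fun j => Fin.partialProd_succ' u j)
    rw [HC_single, bd_eq_sum, List.length_ofFn, Finset.sum_range, Fin.sum_univ_succ, dI_single,
      map_add, map_sum, Finset.sum_congr rfl fun j _ => h1 j, add_sub_add_right_eq_sub, h2,
      HC_single, Fin.val_zero, pow_zero, one_smul]
    have h3 := mem_Jp (pr (List U) (Representation.trivial κ U κ)) (P := fun _ => True)
      (h := u 0) trivial
      (Finsupp.single (List.ofFn (Fin.partialProd fun i : Fin n => u i.succ)) (a : κ))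
    rw [pr_single] at h3
    exact h3

theorem coc_toF (κ : Type*) [CommRing κ] {G : Type*} [Group G] {n : ℕ}
    {φ : (Fin (n + 1) → G) → ℤ} (hφ : HCocycle φ) {g : G}
    (hs : ∀ t, φ t ≠ 0 → IsConj (List.ofFn t).prod g) :
    Coc (fun t c => ((toF φ t c : ℤ) : κ)) g where
  inv h t c := by
    congr 1
    unfold toF
    rw [length_smul]
    split_ifs with ht
    · congr 2
      · rw [DConv_smul h t (by omega), DConv_smul h t (by omega)]
        group
      · funext j
        have := j.2
        rw [DConv_smul h t (by omega), DConv_smul h t (by omega)]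
        group
    · rfl
  supp t c h := by
    have h1 : toF φ t c ≠ 0 := fun e => h (by rw [e, Int.cast_zero])
    unfold toF at h1
    split_ifs at h1 with ht
    · have h2 := hs _ h1
      rw [List.ofFn_cons, List.prod_cons, mul_assoc, DConv_tel (fun i => t.getD i 1)] at h2
      exact (isConj_iff.2 ⟨(t.getD n 1)⁻¹, by rw [inv_inv]⟩).trans h2
    · exact absurd rfl h1
  nil c := by simp [toF]
  coc t c := by
    rw [bd_eq_sum, map_sum]
    simp only [map_smul, Finsupp.linearCombination_single, one_mul, smul_eq_mul]
    by_cases ht : t.length = n + 2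
    · have h1 := congrArg (Int.cast : ℤ → κ) (hφ (Fin.cons ((t.getD (n + 1) 1)⁻¹ * c * t.getD 0 1)
        fun i : Fin (n + 1) => (t.getD i 1)⁻¹ * t.getD (i + 1) 1))
      have h2 : ∀ j < n + 2, (t.eraseIdx j).length = n + 1 := fun j hj => by
        rw [List.length_eraseIdx, if_pos (by omega)]
        omega
      rw [ht, Finset.sum_range_succ, Finset.sum_range, ← Int.cast_zero (R := κ), ← h1]
      push_cast
      congr 1
      · refine Finset.sum_congr rfl fun j _ => ?_
        have := j.2
        rw [DConv_contract (fun i => t.getD i 1), toF, if_pos (h2 j (by omega))]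
        simp only [DConv_getD]
      · rw [toF, if_pos (h2 _ (by omega))]
        congr 4
        · rw [DConv_getD, DConv_getD, if_pos (by omega), if_pos (by omega), Fin.cons_zero,
            ← Fin.succ_last, Fin.cons_succ, Fin.val_last]
          group
        · funext i
          have := i.2
          rw [DConv_getD, DConv_getD, if_pos (by omega), if_pos (by omega), ← Fin.succ_castSucc,
            Fin.cons_succ, Fin.val_castSucc]
    · refine Finset.sum_eq_zero fun j hj => ?_
      have := Finset.mem_range.1 hj
      rw [toF, if_neg (by rw [List.length_eraseIdx, if_pos this]; omega), Int.cast_zero, mul_zero]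

end Pool.Agent.MP_f7db47_al.Cv
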