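import Pool.Agent.MP_f7db47_al.Cv.DDefs

namespace Pool.Agent.MP_f7db47_al.Cv

variable {κ : Type*} [CommRing κ] {R : Type*} [Ring R] [Algebra κ R] {G : Type*} [Group G]
variable {p : ℕ} [NeZero p] {tr : R →ₗ[κ] κ}

omit [NeZero p] in
theorem DMu_oprod {M : Type*} [Monoid M] (x : ZMod p → M) :
    oprod p x = ((List.range p).map fun i : ℕ => x (i : ZMod p)).prod := by
  unfold oprod
  congr 1
  refine List.ext_getElem (by simp) fun i h1 h2 => by simp

theorem DMu_prod {M : Type*} [Monoid M] (a b : ℕ → M) (q : ℕ) :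
    ((List.range (q + 1)).map fun i => b i * a i).prod =
      b 0 * (((List.range q).map fun i => a i * b (i + 1)).prod * a q) := by
  induction q with
  | zero => simp
  | succ q ih => rw [List.prod_range_succ, ih, List.prod_range_succ]; simp only [mul_assoc]

theorem DMu_bal (htr : ∀ a b, tr (a * b) = tr (b * a)) (M N : ZMod p → R) :
    tr (oprod p fun i => N i * M i) = tr (oprod p fun i => M i * N (i + 1)) := by
  obtain ⟨q, hq⟩ := Nat.exists_eq_succ_of_ne_zero (NeZero.ne p)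
  have h0 : (q : ZMod p) + 1 = 0 := by
    rw [← Nat.cast_succ, ← hq, ZMod.natCast_self]
  rw [DMu_oprod, DMu_oprod, congrArg List.range hq,
    DMu_prod (fun i => M (i : ZMod p)) (fun i => N (i : ZMod p)) q, List.prod_range_succ, htr, h0]
  simp only [Nat.cast_succ, Nat.cast_zero, mul_assoc]

omit [NeZero p] in
theorem DMu_len {m : ℕ} {b : List G →₀ MonoidAlgebra R G} (hb : b ∈ Ln κ m) {t : List G} {ω : G}
    (h : (b t).coeff ω ≠ 0) : t.length = m :=
  hb (Finsupp.mem_support_iff.2 fun e => h (by rw [e]; rfl))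

omit [NeZero p] in
theorem DMu_er {m : ℕ} {t : ZMod p → List G} (h : ∀ i, (t i).length = m) {j : ℕ} (hj : j < m) :
    (zipL t).eraseIdx j = zipL fun i => (t i).eraseIdx j := by
  refine List.ext_getElem (by simp [zipL, List.length_eraseIdx, h, hj]) fun n h1 h2 => ?_
  rw [List.getElem_eraseIdx]
  funext i
  split_ifs with h3 <;> simp [zipL, List.getElem?_eraseIdx, h3]

omit [NeZero p] in
theorem DMu_smul {m : ℕ} {t : ZMod p → List G} (h : ∀ i, (t i).length = m) (w : Wr p G) :
    w • zipL t = zipL fun i => w.x i • t (i - w.k) := by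
  refine List.ext_getElem (by simp [zipL, h]) fun n h1 h2 => ?_
  have h3 : n < m := by simpa [zipL, h] using h1
  funext i
  simp [zipL, smul_list, Pw.smul_apply, List.getElem?_eq_getElem (h (i - w.k) ▸ h3)]

omit [NeZero p] in
theorem DMu_ER (w : Wr p G) (L : List (Pw p G)) (ω : Om p G) (c : κ) :
    ER κ p G w (Finsupp.single L (Finsupp.single ω c)) =
      Finsupp.single (w • L) (Finsupp.single (w • ω) c) := by
  rw [pr_single, OmR, pr_single]
  rfl

theorem DMu_multi0 {ι : Type*} [Fintype ι] {W : Type*} [AddCommGroup W] [Module κ W]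
    (f g : MultilinearMap κ (fun _ : ι => List G →₀ MonoidAlgebra R G) W) (N : Submodule κ W)
    (b : ι → List G →₀ MonoidAlgebra R G)
    (h : ∀ (t : ι → List G) (ω : ι → G), (∀ i, (b i (t i)).coeff (ω i) ≠ 0) →
      f (fun i => Finsupp.single (t i) (MonoidAlgebra.single (ω i) ((b i (t i)).coeff (ω i)))) -
      g (fun i => Finsupp.single (t i) (MonoidAlgebra.single (ω i) ((b i (t i)).coeff (ω i)))) ∈ N) :
    f b - g b ∈ N := multi_mem κ (f - g) N b h

theorem DMu_multi (f g : MultilinearMap κ (fun _ : ZMod p => List G →₀ MonoidAlgebra R G)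
      (List (Pw p G) →₀ (Om p G →₀ κ))) (N : Submodule κ (List (Pw p G) →₀ (Om p G →₀ κ)))
    (b : ZMod p → List G →₀ MonoidAlgebra R G)
    (h : ∀ (t : ZMod p → List G) (ω : Om p G), (∀ i, (b i (t i)).coeff (ω i) ≠ 0) →
      f (fun i => Finsupp.single (t i) (MonoidAlgebra.single (ω i) ((b i (t i)).coeff (ω i)))) -
      g (fun i => Finsupp.single (t i) (MonoidAlgebra.single (ω i) ((b i (t i)).coeff (ω i)))) ∈ N) :
    f b - g b ∈ N := DMu_multi0 (W := List (Pw p G) →₀ (Om p G →₀ κ)) f g N b fun t ω => h t ω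

theorem DMu_multi1 {ι : Type*} [Fintype ι] {W : Type*} [AddCommGroup W] [Module κ W]
    (f g : MultilinearMap κ (fun _ : ι => List G →₀ MonoidAlgebra R G) W)
    (b : ι → List G →₀ MonoidAlgebra R G)
    (h : ∀ (t : ι → List G) (ω : ι → G), (∀ i, (b i (t i)).coeff (ω i) ≠ 0) →
      f (fun i => Finsupp.single (t i) (MonoidAlgebra.single (ω i) ((b i (t i)).coeff (ω i)))) =
      g (fun i => Finsupp.single (t i) (MonoidAlgebra.single (ω i) ((b i (t i)).coeff (ω i))))) :
    f b = g b :=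
  sub_eq_zero.1 ((Submodule.mem_bot κ).1 (DMu_multi0 f g ⊥ b fun t ω hh =>
    (Submodule.mem_bot κ).2 (sub_eq_zero.2 (h t ω hh))))

theorem DMu_eq (f g : MultilinearMap κ (fun _ : ZMod p => List G →₀ MonoidAlgebra R G)
      (List (Pw p G) →₀ (Om p G →₀ κ))) (b : ZMod p → List G →₀ MonoidAlgebra R G)
    (h : ∀ (t : ZMod p → List G) (ω : Om p G), (∀ i, (b i (t i)).coeff (ω i) ≠ 0) →
      f (fun i => Finsupp.single (t i) (MonoidAlgebra.single (ω i) ((b i (t i)).coeff (ω i)))) =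
      g (fun i => Finsupp.single (t i) (MonoidAlgebra.single (ω i) ((b i (t i)).coeff (ω i))))) :
    f b = g b := DMu_multi1 (W := List (Pw p G) →₀ (Om p G →₀ κ)) f g b fun t ω => h t ω

theorem DMu_bal1 (htr : ∀ a b, tr (a * b) = tr (b * a)) {m : ℕ}
    (b : ZMod p → List G →₀ MonoidAlgebra R G) (hb : ∀ i, b i ∈ Ln κ m)
    (g : ZMod p → G) (N : ZMod p → R) :
    (mu κ p tr fun i => La κ (MonoidAlgebra.single (g i) (N i)) (b i)) -
      (mu κ p tr fun i => Ra κ (MonoidAlgebra.single (g (i + 1)) (N (i + 1))) (b i)) ∈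
      Jp (ER κ p G) fun w => w.k = 0 := by
  rw [← MultilinearMap.compLinearMap_apply (mu κ p tr) _ b,
    ← MultilinearMap.compLinearMap_apply (mu κ p tr) _ b]
  refine DMu_multi
    ((mu κ p tr).compLinearMap fun i => La κ (MonoidAlgebra.single (g i) (N i)))
    ((mu κ p tr).compLinearMap fun i => Ra κ (MonoidAlgebra.single (g (i + 1)) (N (i + 1)))) _ b
    fun t ω h => ?_
  simp only [MultilinearMap.compLinearMap_apply, La_single, Ra_single,
    MonoidAlgebra.single_mul_single]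
  obtain ⟨ω₁, e₁⟩ : ∃ ω₁ : Om p G, ∀ i, g i * ω i = ω₁ i := ⟨fun i => g i * ω i, fun _ => rfl⟩
  obtain ⟨ω₂, e₂⟩ : ∃ ω₂ : Om p G, ∀ i, ω i * g (i + 1) = ω₂ i :=
    ⟨fun i => ω i * g (i + 1), fun _ => rfl⟩
  simp only [e₁, e₂]
  rw [mu_single κ p tr (fun i => g i • t i) ω₁, mu_single κ p tr t ω₂, DMu_bal htr]
  have h3 := mem_Jp (ER κ p G) (P := fun w => w.k = 0) (h := ⟨g, 0⟩) rfl
    (Finsupp.single (zipL t) (Finsupp.single ω₂
      (tr (oprod p fun i => (b i (t i)).coeff (ω i) * N (i + 1)))))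
  have h4 : (⟨g, 0⟩ : Wr p G) • ω₂ = ω₁ := funext fun i => by
    rw [Om.smul_apply, ← e₁, ← e₂]
    simp [mul_assoc]
  rw [DMu_ER, DMu_smul fun i => DMu_len (hb i) (h i), h4] at h3
  simpa only [sub_zero] using h3

omit [NeZero p] in
theorem DMu_La (a : MonoidAlgebra R G) (z : List G →₀ MonoidAlgebra R G) :
    La κ a z = ∑ g ∈ a.coeff.support, La κ (MonoidAlgebra.single g (a.coeff g)) z := by
  have h : ∀ (s : Finset G) (f : G → MonoidAlgebra R G),
      La κ (∑ g ∈ s, f g) z = ∑ g ∈ s, La κ (f g) z := fun s f => by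
    classical
    induction s using Finset.induction_on with
    | empty => simp
    | insert x s hx ih => rw [Finset.sum_insert hx, Finset.sum_insert hx, La_add,
        LinearMap.add_apply, ih]
  rw [← h]
  exact congrArg (fun c => La κ c z) (MonoidAlgebra.sum_coeff_single a).symm

omit [NeZero p] in
theorem DMu_Ra (a : MonoidAlgebra R G) (z : List G →₀ MonoidAlgebra R G) :
    Ra κ a z = ∑ g ∈ a.coeff.support, Ra κ (MonoidAlgebra.single g (a.coeff g)) z := by
  ext1 t
  simp only [Finsupp.finsetSum_apply, Ra, Em_apply, LinearMap.mulRight_apply]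
  rw [← Finset.mul_sum]
  exact congrArg (fun c => z t * c) (MonoidAlgebra.sum_coeff_single a).symm

theorem DMu_Wd (A : Set G) (r : ℕ → ℕ) (x : ℕ → G) (h : ∀ i, Wd A (r i) (x i)) (n : ℕ) :
    Wd A (∑ i ∈ Finset.range n, r i) ((List.range n).map x).prod := by
  induction n with
  | zero => exact ⟨[], by simp, le_rfl, rfl⟩
  | succ n ih =>
    obtain ⟨l, h1, h2, h3⟩ := ih
    obtain ⟨l', h4, h5, h6⟩ := h n
    refine ⟨l ++ l', fun y hy => (List.mem_append.1 hy).elim (h1 y) (h4 y), ?_, ?_⟩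
    · rw [List.length_append, Finset.sum_range_succ]
      exact add_le_add h2 h5
    · rw [List.prod_append, List.prod_range_succ, h3, h6]

theorem tr_oprod_shift (htr : ∀ a b, tr (a * b) = tr (b * a)) (M : ZMod p → R) :
    tr (oprod p fun i => M (i - 1)) = tr (oprod p M) := by
  have h := DMu_bal htr (fun _ => 1) fun i => M (i - 1)
  simpa only [mul_one, one_mul, add_sub_cancel_right] using h

theorem tr_oprod_bal (htr : ∀ a b, tr (a * b) = tr (b * a)) (M N : ZMod p → R) :
    tr (oprod p fun i => N i * M i) = tr (oprod p fun i => M i * N (i + 1)) := by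
  exact DMu_bal htr M N

theorem mu_Ln {m : ℕ} (b : ZMod p → List G →₀ MonoidAlgebra R G) (hb : ∀ i, b i ∈ Ln κ m) :
    mu κ p tr b ∈ Ln κ m := by
  refine multi_mem κ (W := List (Pw p G) →₀ (Om p G →₀ κ)) (mu κ p tr) _ b fun t ω h => ?_
  rw [mu_single κ p tr t ω]
  refine Finsupp.single_mem_supported _ _ ?_
  simpa [zipL] using DMu_len (hb 0) (h 0)

theorem mu_er {m : ℕ} (b : ZMod p → List G →₀ MonoidAlgebra R G) (hb : ∀ i, b i ∈ Ln κ m)
    (j : ℕ) (hj : j < m) : er κ j (mu κ p tr b) = mu κ p tr fun i => er κ j (b i) := by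
  rw [← LinearMap.compMultilinearMap_apply (er κ j) (mu κ p tr) b,
    ← MultilinearMap.compLinearMap_apply (mu κ p tr) (fun _ => er κ j) b]
  refine DMu_eq _ _ b fun t ω h => ?_
  simp only [MultilinearMap.compLinearMap_apply,
    LinearMap.compMultilinearMap_apply, er_single]
  rw [mu_single κ p tr t ω, mu_single κ p tr (fun i => (t i).eraseIdx j) ω, er_single,
    DMu_er (fun i => DMu_len (hb i) (h i)) hj]

theorem mu_sh (htr : ∀ a b, tr (a * b) = tr (b * a)) {m : ℕ}
    (b : ZMod p → List G →₀ MonoidAlgebra R G) (hb : ∀ i, b i ∈ Ln κ m) :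
    ER κ p G (Wr.sh p G) (mu κ p tr b) = mu κ p tr fun i => b (i - 1) := by
  have h0 := MultilinearMap.domDomCongr_apply (trans (1 : ZMod p)).symm (mu κ p tr) b
  refine Eq.trans ?_ h0
  rw [← LinearMap.compMultilinearMap_apply (ER κ p G (Wr.sh p G)) (mu κ p tr) b]
  refine DMu_eq _ _ b fun t ω h => ?_
  have h1 := mu_single κ p tr (fun i => t (i - 1)) (fun i => ω (i - 1))
    fun i => (b (i - 1) (t (i - 1))).coeff (ω (i - 1))
  rw [tr_oprod_shift htr fun i => (b i (t i)).coeff (ω i)] at h1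
  rw [LinearMap.compMultilinearMap_apply, mu_single κ p tr t ω, DMu_ER,
    DMu_smul fun i => DMu_len (hb i) (h i), MultilinearMap.domDomCongr_apply]
  refine Eq.trans ?_ h1.symm
  have h2 : Wr.sh p G • ω = fun i => ω (i - 1) := funext fun i => by simp [Om.smul_apply]
  rw [h2]
  simp

theorem mu_bal (htr : ∀ a b, tr (a * b) = tr (b * a)) {m : ℕ}
    (b : ZMod p → List G →₀ MonoidAlgebra R G) (hb : ∀ i, b i ∈ Ln κ m)
    (a : ZMod p → MonoidAlgebra R G) :
    (mu κ p tr fun i => La κ (a i) (b i)) - (mu κ p tr fun i => Ra κ (a (i + 1)) (b i)) ∈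
      Jp (ER κ p G) fun w => w.k = 0 := by
  classical
  have h1 : (mu κ p tr fun i => Ra κ (a (i + 1)) (b i)) =
      (mu κ p tr).domDomCongr (trans (1 : ZMod p)) fun i => Ra κ (a i) (b (i - 1)) := by
    simp [trans]
  rw [h1, funext fun i => DMu_La (κ := κ) (a i) (b i),
    funext fun i => DMu_Ra (κ := κ) (a i) (b (i - 1)), MultilinearMap.map_sum_finset,
    MultilinearMap.map_sum_finset]
  refine (Finset.sum_sub_distrib (G := List (Pw p G) →₀ (Om p G →₀ κ)) _ _).symm ▸ ?_
  refine Submodule.sum_mem _ fun g _ => ?_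
  have h2 := DMu_bal1 htr b hb g fun i => (a i).coeff (g i)
  simpa [trans] using h2

theorem mu_OnO (A : Set G) (r : ZMod p → ℕ) (b : ZMod p → List G →₀ MonoidAlgebra R G)
    (hb : ∀ i t ω, (b i t).coeff ω ≠ 0 → Wd A (r i) ω) :
    mu κ p tr b ∈ OnO κ fun ω : Om p G => Wd A (∑ i, r i) (oprod p ω) := by
  refine multi_mem κ (W := List (Pw p G) →₀ (Om p G →₀ κ)) (mu κ p tr) _ b fun t ω h => ?_
  rw [mu_single κ p tr t ω]
  refine single_mem_OnO _ ?_ _
  have h1 : ∑ i, r i = ∑ i ∈ Finset.range p, r (i : ZMod p) := by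
    rw [← (posEquiv p).sum_comp r, Finset.sum_range]
    rfl
  rw [h1, DMu_oprod]
  exact DMu_Wd A _ _ (fun i => hb _ _ _ (h i)) p

end Pool.Agent.MP_f7db47_al.Cv
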