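import Pool.Agent.MP_f7db47_al.Cv.Stmt

/-! Class sums, logarithmic derivatives and the subgroup generated by `(1+ab)(1+ba)⁻¹`. -/

namespace Pool.Agent.MP_f7db47_al.Cv

section csum
variable {A B : Type*} [Ring A] [Ring B] {G : Type*}

open Classical in
/-- The sum of the coefficients at the elements that satisfy `P`. -/
noncomputable def csum (P : G → Prop) : MonoidAlgebra A G →+ A where
  toFun x := x.coeff.sum fun c a => if P c then a else 0
  map_zero' := by simp
  map_add' x y := by
    rw [MonoidAlgebra.coeff_add, Finsupp.sum_add_index']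
    · simp
    · intro c a b
      split_ifs <;> simp

open Classical in
theorem csum_apply (P : G → Prop) (x : MonoidAlgebra A G) :
    csum P x = x.coeff.sum fun c a => if P c then a else 0 := rfl

open Classical in
theorem csum_single (P : G → Prop) (c : G) (a : A) :
    csum P (MonoidAlgebra.single c a) = if P c then a else 0 := by
  rw [csum_apply, MonoidAlgebra.coeff_single, Finsupp.sum_single_index]
  simp

theorem csum_map (P : G → Prop) (f : A →+ B) (x : MonoidAlgebra A G) :
    csum P (MonoidAlgebra.map f x) = f (csum P x) := by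
  classical
  rw [csum_apply, csum_apply, MonoidAlgebra.coeff_map, Finsupp.sum_mapRange_index (by simp),
    map_finsuppSum]
  refine Finsupp.sum_congr fun c _ => ?_
  split_ifs <;> simp

/-- The sum of the coefficients over the conjugacy class of `g`. -/
noncomputable def cs [Group G] (g : G) : MonoidAlgebra A G →+ A := csum fun c => IsConj c g

end csum

/-- The class sums of the trace of nilpotent elements vanish. -/
def TT (k : Type*) [CommRing k] {G : Type*} [Group G] (g : G) : Prop :=
  ∀ (ι : Type) [Fintype ι] [DecidableEq ι] (ν : MonoidAlgebra (Matrix ι ι k) G),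
    IsNilpotent ν → Matrix.trace (cs g ν) = 0

/-- The subgroup generated by the elements `(1 + a b) (1 + b a)⁻¹`. -/
def VW (B : Type*) [Ring B] : Subgroup Bˣ :=
  Subgroup.closure {u | ∃ (v w : Bˣ) (a b : B),
    (v : B) = 1 + a * b ∧ (w : B) = 1 + b * a ∧ u = v * w⁻¹}

theorem VW_map {B B' : Type*} [Ring B] [Ring B'] (f : B →+* B') {u : Bˣ} (hu : u ∈ VW B) :
    Units.map (f : B →* B') u ∈ VW B' := by
  have : VW B ≤ (VW B').comap (Units.map (f : B →* B')) := by
    refine (Subgroup.closure_le _).2 ?_
    rintro _ ⟨v, w, a, b, hv, hw, rfl⟩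
    refine Subgroup.subset_closure ⟨Units.map (f : B →* B') v, Units.map (f : B →* B') w,
      f a, f b, ?_, ?_, by simp⟩
    · simp [hv]
    · simp [hw]
  exact this hu

/-- The Euler derivation on power series. -/
noncomputable def eul {R : Type*} [Ring R] (f : PowerSeries R) : PowerSeries R :=
  PowerSeries.mk fun n => n • PowerSeries.coeff n f

/-- The logarithmic derivative of an invertible matrix of power series, read through `φ`. -/
noncomputable def ell {R Q : Type*} [Ring R] [AddCommGroup Q] (φ : R →+ Q) {ι : Type} [Fintype ι]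
    [DecidableEq ι] (u : (Matrix ι ι (PowerSeries R))ˣ) : ℕ → Q := fun n =>
  φ (PowerSeries.coeff n (Matrix.trace
    ((↑u⁻¹ : Matrix ι ι (PowerSeries R)) * (u : Matrix ι ι (PowerSeries R)).map eul)))

end Pool.Agent.MP_f7db47_al.Cv
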