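import Pool.Agent.MP_f7db47_al.Cv.Tau
import Pool.Agent.MP_f7db47_al.Cv.KDefs

namespace Pool.Agent.MP_f7db47_al.Cv

/-- The product of the first `n` letters of a word. -/
def Tors_P {p : ℕ} {G : Type*} [Group G] (w : Om p G) : ℕ → G
  | 0 => 1
  | n + 1 => Tors_P w n * w (n : ZMod p)

theorem Tors_P_base {p : ℕ} {G : Type*} [Group G] (a : Wr p G) (ha : a.k = 0) (w : Om p G)
    (n : ℕ) : Tors_P (a • w) n = a.x 0 * Tors_P w n * (a.x (n : ZMod p))⁻¹ := by
  induction n with
  | zero => simp [Tors_P]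
  | succ n ih =>
    rw [Tors_P, Tors_P, ih, Om.smul_apply, ha, sub_zero, Nat.cast_succ]
    group

theorem Tors_sh_apply {p : ℕ} {G : Type*} [Group G] (w : Om p G) (i : ZMod p) :
    (Wr.sh p G • w) i = w (i - 1) := by
  rw [Om.smul_apply]
  simp

theorem Tors_P_sh {p : ℕ} {G : Type*} [Group G] (w : Om p G) (n : ℕ) :
    Tors_P (Wr.sh p G • w) n * w ((n : ZMod p) - 1) = w (-1) * Tors_P w n := by
  induction n with
  | zero => simp [Tors_P]
  | succ n ih =>
    rw [Tors_P, Tors_P, Tors_sh_apply, ih, Nat.cast_succ, add_sub_cancel_right, mul_assoc]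

theorem Tors_P_cst {p : ℕ} {G : Type*} [Group G] (c : G) (n : ℕ) :
    Tors_P (Om.cst p c) n = c ^ n := by
  induction n with
  | zero => simp [Tors_P]
  | succ n ih => rw [Tors_P, ih, pow_succ]; rfl

theorem Tors_conj_base {p : ℕ} {G : Type*} [Group G] (a : Wr p G) (ha : a.k = 0) (w : Om p G) :
    IsConj (Tors_P w p) (Tors_P (a • w) p) := by
  rw [Tors_P_base a ha, ZMod.natCast_self]
  exact isConj_iff.2 ⟨_, rfl⟩

theorem Tors_conj_sh {p : ℕ} {G : Type*} [Group G] (w : Om p G) :
    IsConj (Tors_P w p) (Tors_P (Wr.sh p G • w) p) := by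
  have h := Tors_P_sh w p
  rw [ZMod.natCast_self, zero_sub] at h
  refine isConj_iff.2 ⟨w (-1), ?_⟩
  rw [← h, mul_inv_cancel_right]

theorem Tors_fixed {p : ℕ} [Fact p.Prime] {G : Type*} [Group G] {w : Om p G}
    (h : Wr.sh p G • w = w) : w = Om.cst p (w 0) := by
  have key : ∀ n : ℕ, w (n : ZMod p) = w 0 := by
    intro n
    induction n with
    | zero => simp
    | succ n ih =>
      have := Tors_sh_apply w ((n : ZMod p) + 1)
      rw [h, add_sub_cancel_right] at this
      rw [Nat.cast_succ, this, ih]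
  funext i
  have := key i.val
  rw [ZMod.natCast_zmod_val] at this
  exact this

theorem Tors_card {p : ℕ} [Fact p.Prime] {H X : Type*} [Group H] [MulAction H X] (T : H)
    (hT : T ^ p = 1) (s : Finset X) (hs : ∀ x ∈ s, T • x ∈ s) (hf : ∀ x ∈ s, T • x ≠ x) :
    (s.card : ZMod p) = 0 := by
  classical
  let f : Function.End s := fun x => ⟨T • x.1, hs _ x.2⟩
  have hpow : ∀ (n : ℕ) (x : s), ((f ^ n) x).1 = T ^ n • x.1 := by
    intro n
    induction n with
    | zero => intro x; simp [Function.End.one_def]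
    | succ n ih =>
      intro x
      rw [pow_succ, pow_succ, Function.End.mul_def, Function.comp_apply, ih, mul_smul]
  have h1 : f ^ p ^ 1 = 1 := by
    funext x
    apply Subtype.ext
    rw [pow_one, hpow, hT, one_smul]
    rfl
  have h2 := Equiv.Perm.card_fixedPoints_modEq h1
  have h3 : Fintype.card (Function.fixedPoints f) = 0 := by
    rw [Fintype.card_eq_zero_iff]
    exact ⟨fun x => hf _ x.1.2 (congrArg Subtype.val x.2)⟩
  rw [h3, Fintype.card_coe] at h2
  rw [(ZMod.natCast_eq_natCast_iff _ _ _).2 h2, Nat.cast_zero]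

theorem Tors_sum {p : ℕ} [Fact p.Prime] {H X : Type*} [Group H] [MulAction H X] (T : H)
    (hT : T ^ p = 1) (s : Finset X) (hs : ∀ x ∈ s, T • x ∈ s) (hf : ∀ x ∈ s, T • x ≠ x)
    (F : X → ZMod p) (hF : ∀ x, F (T • x) = F x) : ∑ x ∈ s, F x = 0 := by
  classical
  have := Finset.sum_comp (s := s) (fun v : ZMod p => v) F
  rw [this]
  refine Finset.sum_eq_zero fun v _ => ?_
  rw [nsmul_eq_mul, Tors_card T hT, zero_mul]
  · intro x hx
    rw [Finset.mem_filter] at hx ⊢
    exact ⟨hs x hx.1, by rw [hF, hx.2]⟩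
  · intro x hx
    exact hf x (Finset.mem_filter.1 hx).1

theorem modp_pow {p : ℕ} [Fact p.Prime] {G : Type*} [Group G] (g : G) {ι : Type} [Fintype ι]
    [DecidableEq ι] (ν : MonoidAlgebra (Matrix ι ι (ZMod p)) G) (hν : ν ^ p = 0) :
    Matrix.trace (csum (fun c => IsConj (c ^ p) (g ^ p)) ν) = 0 := by
  classical
  obtain ⟨τ, h1, h2, h3⟩ := exists_tau ν p (Fact.out : p.Prime).one_le le_rfl hν
  let μ : Om p G → Prop := fun w => IsConj (Tors_P w p) (g ^ p)
  let L : (Om p G →₀ ZMod p) →ₗ[ZMod p] ZMod p :=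
    Finsupp.lsum (ZMod p) fun w => if μ w then LinearMap.id else 0
  have hL : ∀ w v, L (Finsupp.single w v) = if μ w then v else 0 := by
    intro w v
    simp only [L, Finsupp.lsum_single]
    split_ifs <;> rfl
  have hμ : ∀ (a : Wr p G) w, IsConj (Tors_P w p) (Tors_P (a • w) p) → (μ (a • w) ↔ μ w) :=
    fun a w h => ⟨fun h' => h.trans h', fun h' => h.symm.trans h'⟩
  have hL0 : L τ = 0 := by
    refine (Submodule.mem_bot (ZMod p)).1 (Jp_le (f := L) (N := ⊥) (fun a v ha => ?_) (h3 0))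
    rw [Submodule.mem_bot, sub_eq_zero]
    induction v using Finsupp.induction_linear with
    | zero => simp
    | add a b ha hb => rw [map_add, map_add, map_add, ha, hb]
    | single w v =>
      rw [OmR, pr_single, hL, hL, hμ a w (Tors_conj_base a ha.1 w)]
      rfl
  let F : Om p G → ZMod p := fun w => if μ w then τ w else 0
  have hLF : L τ = ∑ w ∈ τ.support, F w := by
    conv_lhs => rw [← Finsupp.sum_single τ, Finsupp.sum, map_sum]
    exact Finset.sum_congr rfl fun w _ => hL w _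
  have hτ : ∀ w, τ (Wr.sh p G • w) = τ w := by
    intro w
    conv_lhs => rw [← h1]
    exact pr_apply _ _ _ _
  have hF : ∀ w, F (Wr.sh p G • w) = F w := by
    intro w
    simp only [F, hτ, hμ _ w (Tors_conj_sh w)]
  have hfree : ∑ w ∈ τ.support.filter (fun w => ¬ Wr.sh p G • w = w), F w = 0 := by
    refine Tors_sum (Wr.sh p G) Wr.sh_pow _ (fun w hw => ?_)
      (fun w hw => (Finset.mem_filter.1 hw).2) F hF
    rw [Finset.mem_filter, Finsupp.mem_support_iff] at hw ⊢
    exact ⟨by rw [hτ]; exact hw.1, fun e => hw.2 (MulAction.injective _ e)⟩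
  rw [hLF, ← Finset.sum_filter_add_sum_filter_not τ.support (fun w => Wr.sh p G • w = w), hfree,
    add_zero] at hL0
  rw [← hL0, csum_apply, Finsupp.sum, Matrix.trace_sum]
  symm
  refine Finset.sum_of_injOn (fun w => w 0) ?_ ?_ ?_ ?_
  · intro w hw w' hw' e
    rw [Finset.mem_coe, Finset.mem_filter] at hw hw'
    rw [Tors_fixed hw.2, Tors_fixed hw'.2]
    exact congrArg _ e
  · intro w hw
    rw [Finset.mem_coe, Finset.mem_filter, Finsupp.mem_support_iff, Tors_fixed hw.2, h2] at hw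
    rw [Finset.mem_coe, Finsupp.mem_support_iff]
    intro e
    apply hw.1
    rw [e, Matrix.trace_zero]
  · intro c _ hc
    have : τ (Om.cst p c) = 0 := by
      by_contra h0
      refine hc ⟨Om.cst p c, ?_, rfl⟩
      rw [Finset.mem_coe, Finset.mem_filter, Finsupp.mem_support_iff]
      exact ⟨h0, funext fun i => Tors_sh_apply _ i⟩
    rw [h2] at this
    split_ifs
    · exact this
    · exact Matrix.trace_zero _ _
  · intro w hw
    have e := Tors_fixed (Finset.mem_filter.1 hw).2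
    have e1 : μ w ↔ IsConj (w 0 ^ p) (g ^ p) := by
      simp only [μ]
      conv_lhs => rw [e, Tors_P_cst]
    have e2 : τ w = Matrix.trace (ν.coeff (w 0)) := by
      conv_lhs => rw [e, h2]
    simp only [F, e1, e2]
    split_ifs
    · rfl
    · exact (Matrix.trace_zero _ _).symm

theorem Tors_conj_iff {G : Type*} [Group G] {g c : G} {p : ℕ} (hp : p.Prime)
    (hg : IsOfFinOrder g) (h1 : orderOf g < p) (h2 : orderOf c < p) :
    IsConj (c ^ p) (g ^ p) ↔ IsConj c g := by
  refine ⟨fun h => ?_, fun h => h.pow p⟩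
  have hc : IsOfFinOrder c := (IsConj.isOfFinOrder h.symm hg.pow).of_pow hp.ne_zero
  have c1 : p.Coprime (orderOf g) := (Nat.coprime_of_lt_prime hg.orderOf_pos.ne' h1 hp)
  have c2 : p.Coprime (orderOf c) := (Nat.coprime_of_lt_prime hc.orderOf_pos.ne' h2 hp)
  have c3 : p.Coprime (orderOf (c, g)) := by
    rw [Prod.orderOf]
    exact Nat.Coprime.of_dvd_right (Nat.lcm_dvd_mul _ _) (c2.mul_right c1)
  obtain ⟨m, hm⟩ := exists_pow_eq_self_of_coprime c3
  have e1 : (c ^ p) ^ m = c := congrArg Prod.fst hm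
  have e2 : (g ^ p) ^ m = g := congrArg Prod.snd hm
  have := h.pow m
  rwa [e1, e2] at this

theorem TT_int_of_finOrder {G : Type*} [Group G] {g : G} (hg : IsOfFinOrder g) : TT ℤ g := by
  classical
  intro ι _ _ ν ⟨n, hn⟩
  obtain ⟨p, hB, hp⟩ := Nat.exists_infinite_primes (n + (Matrix.trace (cs g ν)).natAbs +
    orderOf g + (∑ c ∈ ν.coeff.support, orderOf c) + 1)
  have : Fact p.Prime := ⟨hp⟩
  let f : Matrix ι ι ℤ →+* Matrix ι ι (ZMod p) := RingHom.mapMatrix (Int.castRingHom (ZMod p))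
  have h0 : (MonoidAlgebra.mapRingHom G f ν) ^ p = 0 := by
    rw [← map_pow, pow_eq_zero_of_le (by omega) hn, map_zero]
  have h1 := modp_pow g _ h0
  have h2 : csum (fun c => IsConj (c ^ p) (g ^ p)) ν = cs g ν := by
    rw [cs, csum_apply, csum_apply]
    refine Finsupp.sum_congr fun c hc => ?_
    have : orderOf c ≤ ∑ c ∈ ν.coeff.support, orderOf c :=
      Finset.single_le_sum (f := fun c => orderOf c) (fun _ _ => Nat.zero_le _) hc
    rw [Tors_conj_iff hp hg (by omega) (by omega)]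
  rw [MonoidAlgebra.coe_mapRingHom, csum_map, h2] at h1
  have h3 : ((Matrix.trace (cs g ν) : ℤ) : ZMod p) = 0 := by
    rw [← h1]
    simp [f, Matrix.trace]
  rw [ZMod.intCast_zmod_eq_zero_iff_dvd] at h3
  exact Int.eq_zero_of_dvd_of_natAbs_lt_natAbs h3 (by rw [Int.natAbs_natCast]; omega)

end Pool.Agent.MP_f7db47_al.Cv
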