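import Pool.Agent.MP_f7db47_al.Cv.DLam
import Pool.Agent.MP_f7db47_al.Cv.DMu
import Pool.Agent.MP_f7db47_al.Cv.Tors

namespace Pool.Agent.MP_f7db47_al.Cv

/-- A shift invariant sum over all words reduces to the constant words. -/
theorem DEval_sum {p : ℕ} [Fact p.Prime] {X : Type*} (s : Finset X)
    (F : (ZMod p → X) → ZMod p) (hF : ∀ r, F (fun i => r (i - 1)) = F r) :
    ∑ r ∈ Fintype.piFinset fun _ => s, F r = ∑ x ∈ s, F fun _ => x := by
  classical
  let T : Equiv.Perm (ZMod p → X) :=
    ⟨fun r i => r (i - 1), fun r i => r (i + 1), fun r => funext fun i => by simp,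
      fun r => funext fun i => by simp⟩
  have hpow : ∀ (n : ℕ) (r : ZMod p → X) (i : ZMod p), (T ^ n) r i = r (i - n) := by
    intro n
    induction n with
    | zero => intro r i; simp
    | succ n ih =>
      intro r i
      rw [pow_succ, Equiv.Perm.mul_apply, ih, Nat.cast_succ, ← sub_sub]
      rfl
  have hT : T ^ p = 1 := by
    ext r i
    rw [hpow, ZMod.natCast_self, sub_zero]
    rfl
  have hfree : ∑ r ∈ (Fintype.piFinset fun _ => s).filter (fun r => ¬ T • r = r), F r = 0 := by
    refine Tors_sum T hT _ (fun r hr => ?_) (fun r hr => (Finset.mem_filter.1 hr).2) F hF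
    rw [Finset.mem_filter, Fintype.mem_piFinset] at hr ⊢
    exact ⟨fun i => hr.1 (i - 1), fun e => hr.2 (MulAction.injective _ e)⟩
  have hfix : ∀ r : ZMod p → X, T • r = r → r = fun _ => r 0 := by
    intro r h
    have key : ∀ n : ℕ, r (n : ZMod p) = r 0 := by
      intro n
      induction n with
      | zero => simp
      | succ n ih =>
        have : r ((n : ZMod p) + 1 - 1) = r ((n : ZMod p) + 1) := congrFun h _
        rw [add_sub_cancel_right] at this
        rw [Nat.cast_succ, ← this, ih]
    funext i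
    have := key i.val
    rwa [ZMod.natCast_zmod_val] at this
  rw [← Finset.sum_filter_add_sum_filter_not _ fun r => T • r = r, hfree, add_zero]
  refine Finset.sum_nbij' (fun r => r 0) (fun x _ => x) (fun r hr => ?_) (fun x hx => ?_)
    (fun r hr => (hfix r (Finset.mem_filter.1 hr).2).symm) (fun _ _ => rfl)
    fun r hr => congrArg F (hfix r (Finset.mem_filter.1 hr).2)
  · exact Fintype.mem_piFinset.1 (Finset.mem_filter.1 hr).1 0
  · exact Finset.mem_filter.2 ⟨Fintype.mem_piFinset.2 fun _ => hx, rfl⟩

/-- The first `n` columns of a family of lists. -/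
def DEval_zip {p : ℕ} {G : Type*} [One G] (n : ℕ) (t : ZMod p → List G) : List (Pw p G) :=
  (List.range n).map fun j i => (t i).getD j 1

theorem DEval_zip_sh {p : ℕ} {G : Type*} [Group G] (n : ℕ) (t : ZMod p → List G) :
    DEval_zip n (fun i => t (i - 1)) = Wr.sh p G • DEval_zip n t := by
  rw [smul_list, DEval_zip, DEval_zip, List.map_map]
  refine List.map_congr_left fun j _ => funext fun i => ?_
  exact (one_mul _).symm

theorem DEval_zip_cst {p : ℕ} {G : Type*} [One G] (t : List G) :
    DEval_zip t.length (fun _ : ZMod p => t) = t.map (cstP p) := by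
  refine List.ext_getElem (by simp [DEval_zip]) fun j h1 h2 => funext fun i => ?_
  have h3 : j < t.length := by simpa using h2
  simp [DEval_zip, cstP, h3]

theorem DEval_lamv {κ : Type*} [CommRing κ] {p : ℕ} {G : Type*} [Group G] (F : List G → G → κ)
    (a : G) (t : List G) (c : G) : lamv F ((a :: t).map (cstP p)) (Om.cst p c) = F (a :: t) c := by
  have hper : Per ((a :: t).map (cstP p)) (Om.cst p c) := by
    refine ⟨Wr.sh p G, rfl, ?_, funext fun i => Tors_sh_apply _ i⟩
    rw [smul_list, List.map_map]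
    exact List.map_congr_left fun x _ => funext fun i => one_mul x
  have hcol : col ((a :: t).map (cstP p)) 0 = a :: t := by
    rw [col, List.map_map]
    exact List.map_id _
  rw [List.map_cons] at hper hcol ⊢
  rw [lamv, if_pos hper, hcol]
  exact congrArg _ (mul_inv_cancel_right c a)

theorem DEval_oprod (p : ℕ) {M : Type*} [Monoid M] (x : M) : oprod p (fun _ => x) = x ^ p := by
  rw [oprod, List.ofFn_const, List.prod_replicate]

theorem LamW_mu_const {p : ℕ} [Fact p.Prime] {R : Type*} [Ring R] [Algebra (ZMod p) R]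
    {G : Type*} [Group G] {tr : R →ₗ[ZMod p] ZMod p} (htr : ∀ a b, tr (a * b) = tr (b * a))
    {F : List G → G → ZMod p} {g : G} (hF : Coc F g) {m : ℕ}
    (b : List G →₀ MonoidAlgebra R G) (hb : b ∈ Ln (ZMod p) (m + 1)) :
    LamW p F (mu (ZMod p) p tr fun _ => b) =
      b.sum fun t x => x.coeff.sum fun ω M => F t ω * tr (M ^ p) := by
  classical
  let s := b.support.sigma fun t => (b t).coeff.support
  let φ : (ZMod p → (_ : List G) × G) → ZMod p := fun r =>
    tr (oprod p fun i => (b (r i).1).coeff (r i).2) *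
      lamv F (DEval_zip (m + 1) fun i => (r i).1) fun i => (r i).2
  have hlen : ∀ x ∈ s, x.1.length = m + 1 := fun x hx =>
    (Finsupp.mem_supported _ _).1 hb (Finset.mem_sigma.1 hx).1
  have h1 : LamW p F (mu (ZMod p) p tr fun _ => b) = ∑ r ∈ Fintype.piFinset fun _ => s, φ r := by
    conv_lhs => rw [eq_sum_pairs b]
    rw [MultilinearMap.map_sum_finset, map_sum]
    refine Finset.sum_congr rfl fun r hr => ?_
    rw [mu_single (ZMod p) p tr (fun i => (r i).1) (fun i => (r i).2), LamW_single, zipL,
      hlen _ (Fintype.mem_piFinset.1 hr 0)]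
    rfl
  have h2 : ∀ r, φ (fun i => r (i - 1)) = φ r := by
    intro r
    simp only [φ]
    rw [tr_oprod_shift htr fun i => (b (r i).1).coeff (r i).2,
      DEval_zip_sh (m + 1) fun i => (r i).1,
      ← lamv_smul hF (Wr.sh p G) (DEval_zip (m + 1) fun i => (r i).1) fun i => (r i).2]
    congr 2
    exact funext fun i => (Tors_sh_apply (fun i => (r i).2) i).symm
  rw [h1, DEval_sum s φ h2, Finsupp.sum, Finset.sum_sigma]
  refine Finset.sum_congr rfl fun t ht => Finset.sum_congr rfl fun c hc => ?_
  have h3 : t.length = m + 1 := hlen ⟨t, c⟩ (Finset.mem_sigma.2 ⟨ht, hc⟩)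
  simp only [φ]
  rw [DEval_oprod, mul_comm, ← h3, DEval_zip_cst]
  obtain ⟨a, t', rfl⟩ := List.exists_cons_of_length_eq_add_one h3
  exact congrArg (· * _) (DEval_lamv F a t' c)

end Pool.Agent.MP_f7db47_al.Cv
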