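import Pool.Agent.MP_f7db47_al.Cv.DDefs

namespace Pool.Agent.MP_f7db47_al.Cv

theorem DJump_prism1 (κ : Type*) [CommRing κ] {X Y : Type*} (f g : X → Y) (l : List X) :
    prism1 κ f g l ∈ Finsupp.supported κ κ
      {M | ∃ A s B, l = A ++ s :: B ∧ M = A.map f ++ f s :: g s :: B.map g} := by
  induction l with
  | nil => exact Submodule.zero_mem _
  | cons s l ih =>
    rw [prism1]
    refine Submodule.sub_mem _ (Finsupp.single_mem_supported _ _ ⟨[], s, l, rfl, rfl⟩) ?_
    refine map_supported (fun M hM v => ?_) ih
    obtain ⟨A, s', B, rfl, rfl⟩ := hM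
    rw [cons_single]
    exact Finsupp.single_mem_supported _ _ ⟨s :: A, s', B, rfl, rfl⟩

open Classical in
theorem DJump_cons {X : Type*} (a b : X) (l : List X) :
    jmp (a :: b :: l) = (if a = b then 0 else 1) + jmp (b :: l) := by
  rw [jmp]

theorem DJump_one {X : Type*} (a : X) : jmp [a] = 0 := by
  simp [jmp]

theorem DJump_nil {X : Type*} : jmp ([] : List X) = 0 := by
  simp [jmp]

theorem DJump_append {X : Type*} (A : List X) (a : X) (B : List X) :
    jmp (A ++ a :: B) = jmp (A ++ [a]) + jmp (a :: B) := by
  induction A with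
  | nil => simp [DJump_one]
  | cons c A ih =>
    cases A with
    | nil => simp only [List.cons_append, List.nil_append, DJump_cons, DJump_one, add_zero]
    | cons d A =>
      simp only [List.cons_append] at ih ⊢
      rw [DJump_cons, DJump_cons, ih, add_assoc]

theorem DJump_const {X : Type*} (x : X) (l : List X) (h : ∀ y ∈ l, y = x) : jmp l = 0 := by
  induction l with
  | nil => exact DJump_nil
  | cons a l ih =>
    cases l with
    | nil => exact DJump_one a
    | cons b l =>
      rw [DJump_cons, ih fun y hy => h y (List.mem_cons_of_mem _ hy), h a (by simp),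
        h b (by simp)]
      simp

theorem DJump_last {X : Type*} (a : X) (l : List X) (y y' : X) :
    jmp (a :: (l ++ [y])) ≤ jmp (a :: (l ++ [y'])) + 1 := by
  induction l generalizing a with
  | nil =>
    simp only [List.nil_append, DJump_cons, DJump_one]
    split_ifs <;> omega
  | cons b l ih =>
    simp only [List.cons_append, DJump_cons]
    have := ih b
    omega

theorem DJump_succ {p : ℕ} [NeZero p] (i j : ZMod p) (h : i + 1 ≠ j) :
    (i + 1 - j).val = (i - j).val + 1 := by
  have hlt := ZMod.val_lt (i - j)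
  have e : i + 1 - j = (((i - j).val + 1 : ℕ) : ZMod p) := by
    push_cast
    rw [ZMod.natCast_zmod_val]
    ring
  rcases Nat.lt_or_ge ((i - j).val + 1) p with h1 | h1
  · rw [e, ZMod.val_cast_of_lt h1]
  · exfalso
    have h2 : (i - j).val + 1 = p := by omega
    rw [h2, ZMod.natCast_self] at e
    exact h (sub_eq_zero.1 e)

theorem DJump_wrap {p : ℕ} [NeZero p] (i j : ZMod p) (h : i + 1 = j) :
    (i - j).val + 1 = p := by
  have hlt := ZMod.val_lt (i - j)
  by_contra hne
  have h1 : (i - j).val + 1 < p := by omega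
  have e : (((i - j).val + 1 : ℕ) : ZMod p) = 0 := by
    push_cast
    rw [ZMod.natCast_zmod_val, ← h]
    ring
  have := ZMod.val_cast_of_lt h1
  rw [e, ZMod.val_zero] at this
  omega

theorem DJump_col {X : Type*} {p : ℕ} [NeZero p] (j : ZMod p) (x : X) {t : ℕ} (ht : t < p)
    (A : List (Pw p X)) (s : Pw p X) (B : List (Pw p X)) (s0 : Pw p X) (i : ZMod p) :
    jmp (col (A.map (fill j x (t + 1)) ++ fill j x (t + 1) s :: fill j x t s ::
        B.map (fill j x t)) i ++ [fill j x (t + 1) s0 (i + 1)]) ≤
      jmp (col (A ++ s :: B) i ++ [s0 (i + 1)]) + (if i = j + t then 1 else 0) +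
        (if i = j - 1 then 1 else 0) := by
  have hlast : t ≤ (i - j).val → jmp (s i :: (col B i ++ [fill j x (t + 1) s0 (i + 1)])) ≤
      jmp (s i :: (col B i ++ [s0 (i + 1)])) + (if i = j - 1 then 1 else 0) := by
    intro h
    by_cases hij : i = j - 1
    · rw [if_pos hij]
      exact DJump_last _ _ _ _
    · have hne : i + 1 ≠ j := fun e => hij (by rw [← e]; ring)
      have e : fill j x (t + 1) s0 (i + 1) = s0 (i + 1) := by
        unfold fill
        rw [DJump_succ i j hne, if_neg (by omega)]
      rw [e, if_neg hij, add_zero]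
  have hold : jmp (col (A ++ s :: B) i ++ [s0 (i + 1)]) =
      jmp (col A i ++ [s i]) + jmp (s i :: (col B i ++ [s0 (i + 1)])) := by
    rw [← DJump_append]
    simp [col]
  rcases lt_trichotomy (i - j).val t with h | h | h
  · have hne : i + 1 ≠ j := fun e => by
      have := DJump_wrap i j e
      omega
    have h1 : ∀ u : Pw p X, fill j x (t + 1) u i = x := fun u => by
      unfold fill
      rw [if_pos (by omega)]
    have h2 : ∀ u : Pw p X, fill j x t u i = x := fun u => by
      unfold fill
      rw [if_pos h]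
    have h3 : fill j x (t + 1) s0 (i + 1) = x := by
      unfold fill
      rw [DJump_succ i j hne, if_pos (by omega)]
    rw [DJump_const x]
    · exact Nat.zero_le _
    · intro y hy
      simp only [col, List.map_append, List.map_cons, List.map_map, List.mem_append,
        List.mem_map, List.mem_cons, Function.comp_apply, h1, h2, h3, List.not_mem_nil,
        or_false] at hy
      rcases hy with (⟨_, _, e⟩ | e | e | ⟨_, _, e⟩) | e
      all_goals simp [e]
  · have h1 : ∀ u : Pw p X, fill j x (t + 1) u i = x := fun u => by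
      unfold fill
      rw [if_pos (by omega)]
    have h2 : ∀ u : Pw p X, fill j x t u i = u i := fun u => by
      unfold fill
      rw [if_neg (by omega)]
    have hi : i = j + t := by
      rw [← h, ZMod.natCast_zmod_val]
      ring
    have e : col (A.map (fill j x (t + 1)) ++ fill j x (t + 1) s :: fill j x t s ::
        B.map (fill j x t)) i ++ [fill j x (t + 1) s0 (i + 1)] =
        A.map (fun _ => x) ++ x :: s i :: (col B i ++ [fill j x (t + 1) s0 (i + 1)]) := by
      simp [col, Function.comp_def, h1, h2]
    rw [e, DJump_append, DJump_const x (_ ++ [x]), DJump_cons, hold, if_pos hi]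
    · have := hlast h.ge
      split_ifs at this ⊢ <;> omega
    · intro y hy
      simp only [List.mem_append, List.mem_map, List.mem_cons, List.not_mem_nil, or_false] at hy
      rcases hy with ⟨_, _, e⟩ | e
      all_goals simp [e]
  · have h1 : ∀ u : Pw p X, fill j x (t + 1) u i = u i := fun u => by
      unfold fill
      rw [if_neg (by omega)]
    have h2 : ∀ u : Pw p X, fill j x t u i = u i := fun u => by
      unfold fill
      rw [if_neg (by omega)]
    have e : col (A.map (fill j x (t + 1)) ++ fill j x (t + 1) s :: fill j x t s ::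
        B.map (fill j x t)) i ++ [fill j x (t + 1) s0 (i + 1)] =
        col A i ++ s i :: s i :: (col B i ++ [fill j x (t + 1) s0 (i + 1)]) := by
      simp [col, Function.comp_def, h1, h2]
    rw [e, DJump_append, DJump_cons, if_pos rfl, hold]
    have := hlast h.le
    omega

theorem DJump_JJ {X : Type*} {p : ℕ} [NeZero p] (j : ZMod p) (x : X) {t : ℕ} (ht : t < p)
    (A : List (Pw p X)) (s : Pw p X) (B : List (Pw p X)) :
    JJ (A.map (fill j x (t + 1)) ++ fill j x (t + 1) s :: fill j x t s :: B.map (fill j x t)) ≤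
      JJ (A ++ s :: B) + 2 := by
  obtain ⟨s0, h1, h2⟩ : ∃ s0 : Pw p X, (∀ i, (col (A ++ s :: B) i).take 1 = [s0 i]) ∧
      ∀ i, (col (A.map (fill j x (t + 1)) ++ fill j x (t + 1) s :: fill j x t s ::
        B.map (fill j x t)) i).take 1 = [fill j x (t + 1) s0 i] := by
    cases A with
    | nil => exact ⟨s, fun i => by simp [col], fun i => by simp [col]⟩
    | cons a A => exact ⟨a, fun i => by simp [col], fun i => by simp [col]⟩
  unfold JJ
  simp only [h1, h2]
  refine (Finset.sum_le_sum fun i _ => DJump_col j x ht A s B s0 i).trans (le_of_eq ?_)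
  rw [Finset.sum_add_distrib, Finset.sum_add_distrib]
  simp

theorem DJump_fill {X : Type*} {p : ℕ} {E : Set X} (j : ZMod p) {x : X} (hx : x ∈ E) (t : ℕ)
    {s : Pw p X} (hs : ∀ i, s i ∈ E) (i : ZMod p) : fill j x t s i ∈ E := by
  unfold fill
  split_ifs
  · exact hx
  · exact hs i

variable {κ : Type*} [CommRing κ] {X : Type*} {p : ℕ} [NeZero p]

theorem Sparse_mono (E : Set X) {r r' : ℕ} (h : r ≤ r') :
    (Sparse κ E r : Submodule κ (List (Pw p X) →₀ κ)) ≤ Sparse κ E r' :=
  Finsupp.supported_mono fun _ hL => ⟨hL.1, hL.2.trans h⟩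

theorem nil_mem_Sparse (E : Set X) (r : ℕ) (c : κ) :
    Finsupp.single ([] : List (Pw p X)) c ∈ Sparse κ E r := by
  refine Finsupp.single_mem_supported _ _ ⟨by simp, ?_⟩
  simp [JJ, col, DJump_nil]

theorem hh_sparse {E : Set X} {r : ℕ} (j : ZMod p) {x : X} (hx : x ∈ E)
    {z : List (Pw p X) →₀ κ} (hz : z ∈ Sparse κ E r) : hh κ j x z ∈ Sparse κ E (r + 2) := by
  refine map_supported (fun L hL c => ?_) hz
  rw [hh, LinearMap.add_apply, LinearMap.sum_apply]
  refine Submodule.add_mem _ (Submodule.sum_mem _ fun t ht => ?_) ?_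
  · rw [prism_single]
    refine Submodule.smul_mem _ _ (Finsupp.supported_mono ?_ (DJump_prism1 κ _ _ L))
    rintro M ⟨A, s, B, rfl, rfl⟩
    refine ⟨fun u hu => ?_, (DJump_JJ j x (Finset.mem_range.1 ht) A s B).trans
      (Nat.add_le_add_right hL.2 2)⟩
    simp only [List.mem_append, List.mem_map, List.mem_cons] at hu
    rcases hu with ⟨a, ha, rfl⟩ | rfl | rfl | ⟨a, ha, rfl⟩
    · exact DJump_fill j hx _ (hL.1 a (by simp [ha]))
    · exact DJump_fill j hx _ (hL.1 s (by simp))
    · exact DJump_fill j hx _ (hL.1 s (by simp))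
    · exact DJump_fill j hx _ (hL.1 a (by simp [ha]))
  · rw [LinearMap.comp_apply, lm_single, cons_single]
    have hf : ∀ (u : Pw p X) i, fill j x p u i = x := fun u i => by
      unfold fill
      rw [if_pos (ZMod.val_lt _)]
    have hall : ∀ u ∈ cstP p x :: L.map (fill j x p), ∀ i, u i = x := by
      intro u hu i
      rcases List.mem_cons.1 hu with rfl | hu
      · rfl
      · obtain ⟨a, _, rfl⟩ := List.mem_map.1 hu
        exact hf a i
    refine Finsupp.single_mem_supported _ _ ⟨fun u hu i => by rw [hall u hu i]; exact hx, ?_⟩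
    have : JJ (cstP p x :: L.map (fill j x p)) = 0 := by
      refine Finset.sum_eq_zero fun i _ => DJump_const x _ fun y hy => ?_
      rcases List.mem_append.1 hy with hy | hy
      · obtain ⟨u, hu, rfl⟩ := List.mem_map.1 hy
        exact hall u hu i
      · obtain ⟨u, hu, rfl⟩ := List.mem_map.1 (List.mem_of_mem_take hy)
        exact hall u hu (i + 1)
    rw [this]
    exact Nat.zero_le _

end Pool.Agent.MP_f7db47_al.Cv
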