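import Pool.Agent.MP_f7db47_al.Cv.DPrism
import Pool.Agent.MP_f7db47_al.Cv.DJump
import Pool.Agent.MP_f7db47_al.Cv.AQ

namespace Pool.Agent.MP_f7db47_al.Cv

section Psi
variable {κ : Type*} [CommRing κ] {p : ℕ} {U : Type*}

/-- Bilinear extension. -/
noncomputable def Psi_B (f : List (ZMod p) → List U → (List (Pw p U) →₀ κ)) :
    (List (ZMod p) →₀ κ) →ₗ[κ] (List U →₀ κ) →ₗ[κ] (List (Pw p U) →₀ κ) :=
  Finsupp.linearCombination κ fun a => Finsupp.linearCombination κ (f a)

theorem Psi_B_single (f : List (ZMod p) → List U → (List (Pw p U) →₀ κ)) (a : List (ZMod p))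
    (c : κ) (l : List U) (d : κ) :
    Psi_B f (Finsupp.single a c) (Finsupp.single l d) = c • d • f a l := by
  rw [Psi_B, Finsupp.linearCombination_single, LinearMap.smul_apply,
    Finsupp.linearCombination_single]

theorem Psi_B_mem {f : List (ZMod p) → List U → (List (Pw p U) →₀ κ)}
    {N : Submodule κ (List (Pw p U) →₀ κ)} {A : Set (List (ZMod p))} {B : Set (List U)}
    (h : ∀ a ∈ A, ∀ l ∈ B, f a l ∈ N) {x : List (ZMod p) →₀ κ} {y : List U →₀ κ}
    (hx : x ∈ Finsupp.supported κ κ A) (hy : y ∈ Finsupp.supported κ κ B) : Psi_B f x y ∈ N :=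
  map_supported (f := (Psi_B f).flip y) (fun a ha c => map_supported (f := Psi_B f _)
    (fun l hl d => by
      rw [Psi_B_single]
      exact N.smul_mem _ (N.smul_mem _ (h a ha l hl))) hy) hx

theorem Psi_ext {W : Type*} [AddCommGroup W] [Module κ W] {A : Set (List (ZMod p))}
    {f g : (List (ZMod p) →₀ κ) →ₗ[κ] (List U →₀ κ) →ₗ[κ] W}
    (h : ∀ a ∈ A, ∀ l, f (Finsupp.single a 1) (Finsupp.single l 1) =
      g (Finsupp.single a 1) (Finsupp.single l 1)) {x : List (ZMod p) →₀ κ}
    (hx : x ∈ Finsupp.supported κ κ A) (y : List U →₀ κ) : f x y = g x y := by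
  have : f x = g x := eq_on_supported (fun a ha c => Finsupp.lhom_ext fun l d => by
    rw [← Finsupp.smul_single_one a c, ← Finsupp.smul_single_one l d]
    simp only [map_smul, LinearMap.smul_apply, h a ha l]) hx
  rw [this]

theorem Psi_univ (x : List (ZMod p) →₀ κ) : x ∈ Finsupp.supported κ κ Set.univ :=
  fun _ _ => trivial

theorem Psi_B_map (f : List (ZMod p) → List U → (List (Pw p U) →₀ κ))
    (g : (List (Pw p U) →₀ κ) →ₗ[κ] (List (Pw p U) →₀ κ)) (x : List (ZMod p) →₀ κ)
    (y : List U →₀ κ) : g (Psi_B f x y) = Psi_B (fun a l => g (f a l)) x y :=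
  Psi_ext (f := (Psi_B f).compr₂ g) (fun a _ l => by simp [Psi_B_single]) (Psi_univ x) y

theorem Psi_B_sub (f g : List (ZMod p) → List U → (List (Pw p U) →₀ κ))
    (x : List (ZMod p) →₀ κ) (y : List U →₀ κ) :
    Psi_B (fun a l => f a l - g a l) x y = Psi_B f x y - Psi_B g x y := by
  rw [eq_sub_iff_add_eq]
  exact Psi_ext (f := Psi_B (fun a l => f a l - g a l) + Psi_B g)
    (fun a _ l => by simp [Psi_B_single]) (Psi_univ x) y

/-- The value on the boundary. -/
noncomputable def Psi_W (f : List (ZMod p) → List U → (List (Pw p U) →₀ κ))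
    (a : List (ZMod p)) (l : List U) : List (Pw p U) →₀ κ :=
  Psi_B f (bd κ (Finsupp.single a 1)) (Finsupp.single l 1) +
    (-1 : κ) ^ a.length • Psi_B f (Finsupp.single a 1) (bd κ (Finsupp.single l 1))

theorem Psi_B_W (f : List (ZMod p) → List U → (List (Pw p U) →₀ κ)) {k : ℕ}
    {x : List (ZMod p) →₀ κ} (hx : x ∈ Finsupp.supported κ κ {a : List (ZMod p) | a.length = k})
    (y : List U →₀ κ) :
    Psi_B (Psi_W f) x y = Psi_B f (bd κ x) y + (-1 : κ) ^ k • Psi_B f x (bd κ y) :=
  Psi_ext (g := Psi_B f ∘ₗ bd κ + (-1 : κ) ^ k • (Psi_B f).compl₂ (bd κ))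
    (fun a (ha : a.length = k) l => by
      rw [Psi_B_single, one_smul, one_smul, Psi_W, ha]
      rfl) hx y

/-- The homotopy. -/
noncomputable def Psi_f (κ : Type*) [CommRing κ] :
    ℕ → List (ZMod p) → List U → (List (Pw p U) →₀ κ)
  | 0 => fun a l => match a with
    | [] => Finsupp.single (l.map (cstP p)) 1
    | _ :: _ => 0
  | n + 1 => fun a l => match a, l with
    | [], l => Finsupp.single (l.map (cstP p)) 1
    | _ :: _, [] => 0
    | i :: a, u :: l => hh κ i u (Psi_W (Psi_f κ n) (i :: a) (u :: l))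

theorem Psi_f_nil (n : ℕ) (l : List U) :
    Psi_f κ n ([] : List (ZMod p)) l = Finsupp.single (l.map (cstP p)) 1 := by
  cases n <;> rfl

theorem Psi_f_nil' (n : ℕ) (i : ZMod p) (a : List (ZMod p)) :
    Psi_f κ n (i :: a) ([] : List U) = 0 := by
  cases n <;> rfl

theorem Psi_f_cons (n : ℕ) (i : ZMod p) (a : List (ZMod p)) (u : U) (l : List U) :
    Psi_f κ (n + 1) (i :: a) (u :: l) = hh κ i u (Psi_W (Psi_f κ n) (i :: a) (u :: l)) := rfl

theorem Psi_B_nil (n : ℕ) (y : List U →₀ κ) :
    Psi_B (Psi_f κ n) (Finsupp.single ([] : List (ZMod p)) 1) y = lm κ (cstP p) y := by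
  induction y using Finsupp.induction_linear with
  | zero => simp
  | add a b ha hb => simp only [map_add, ha, hb]
  | single l d => rw [Psi_B_single, Psi_f_nil, lm_single]; simp

theorem Psi_Gd (n : ℕ) (a : List (ZMod p)) (l : List U) : Psi_f κ n a l ∈ Gd κ a.length := by
  induction n generalizing a l with
  | zero =>
    cases a with
    | nil => exact mem_Gd_zero _
    | cons i a => exact Submodule.zero_mem _
  | succ n ih =>
    cases a with
    | nil => exact mem_Gd_zero _
    | cons i a =>
      cases l with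
      | nil => exact Submodule.zero_mem _
      | cons u l =>
        rw [Psi_f_cons]
        refine hh_Gd _ _ (Submodule.add_mem _ ?_ (Submodule.smul_mem _ _ ?_))
        · refine Psi_B_mem (B := Set.univ) (fun a' (h : _ ∧ _) l' _ => ?_) (bd_single_mem _ _)
            fun _ _ => trivial
          have e : a'.length = a.length := by simpa using h.2
          exact e ▸ ih a' l'
        · exact Psi_B_mem (A := {i :: a}) (B := Set.univ)
            (fun a' (h : a' = i :: a) l' _ => Gd_anti (Nat.le_succ _) (h ▸ ih a' l'))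
            (Finsupp.single_mem_supported _ _ rfl) fun _ _ => trivial

theorem Psi_sparse [NeZero p] (E : Set U) (n : ℕ) (a : List (ZMod p)) (l : List U)
    (hn : a.length + l.length = n + 1) (hl : ∀ u ∈ l, u ∈ E) :
    Psi_W (Psi_f κ n) a l - bd κ (Psi_f κ (n + 1) a l) ∈ Sparse κ E (2 * (n + 1)) := by
  induction n generalizing a l with
  | zero =>
    cases a with
    | nil =>
      rw [Psi_W, bd_nil, map_zero, LinearMap.zero_apply, Psi_B_nil, lm_bd, lm_single, Psi_f_nil]
      simp
    | cons i a =>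
      obtain rfl : l = [] := List.length_eq_zero_iff.1 (by simp at hn; omega)
      obtain rfl : a = [] := List.length_eq_zero_iff.1 (by simpa using hn)
      rw [Psi_W, bd_nil, map_zero, smul_zero, add_zero, Psi_f_nil', map_zero, sub_zero,
        bd_single_cons, bd_nil, map_zero, sub_zero, Psi_B_nil, lm_single]
      exact nil_mem_Sparse _ _ _
  | succ m ih =>
    cases a with
    | nil =>
      rw [Psi_W, bd_nil, map_zero, LinearMap.zero_apply, Psi_B_nil, lm_bd, lm_single, Psi_f_nil]
      simp
    | cons i a =>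
      cases l with
      | nil =>
        rw [Psi_W, bd_nil, map_zero, smul_zero, add_zero, Psi_f_nil', map_zero, sub_zero]
        refine Psi_B_mem (B := {[]}) (fun a' (h : _ ∧ _) l' (hl' : l' = []) => ?_)
          (bd_single_mem _ _) (Finsupp.single_mem_supported _ _ rfl)
        cases a' with
        | nil =>
          have := h.2
          simp only [List.length_cons, List.length_nil] at this hn
          omega
        | cons i' a' =>
          rw [hl', Psi_f_nil']
          exact Submodule.zero_mem _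
      | cons u l =>
        rw [Psi_f_cons, hh_bd, sub_sub_cancel, show 2 * (m + 1 + 1) = 2 * (m + 1) + 2 by ring]
        refine hh_sparse i (hl u (by simp)) ?_
        have e : ∀ x y, bd κ (Psi_B (Psi_f κ (m + 1)) x y) =
            Psi_B (Psi_W (Psi_f κ m)) x y - Psi_B (fun (a : List (ZMod p)) (l : List U) =>
              Psi_W (Psi_f κ m) a l - bd κ (Psi_f κ (m + 1) a l)) x y := by
          intro x y
          rw [Psi_B_sub, Psi_B_map, sub_sub_cancel]
        have hx1 : bd κ (Finsupp.single (i :: a) (1 : κ)) ∈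
            Finsupp.supported κ κ {a' : List (ZMod p) | a'.length = a.length} :=
          Finsupp.supported_mono (fun a' (h : _ ∧ _) => by simpa using h.2) (bd_single_mem _ _)
        have hx2 : Finsupp.single (i :: a) (1 : κ) ∈
            Finsupp.supported κ κ {a' : List (ZMod p) | a'.length = a.length + 1} :=
          Finsupp.single_mem_supported _ _ rfl
        have s1 := Psi_B_mem (N := Sparse κ E (2 * (m + 1))) (B := {u :: l})
          (fun a' (h : a'.length = a.length) l' (hl' : l' = u :: l) =>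
            ih a' l' (by rw [h, hl']; simp at hn ⊢; omega) (hl' ▸ hl)) hx1
          (Finsupp.single_mem_supported κ (1 : κ) rfl)
        have s2 := Psi_B_mem (N := Sparse κ E (2 * (m + 1)))
          (fun a' (h : a'.length = a.length + 1) l' (hl' : _ ∧ _) =>
            ih a' l' (by have := hl'.2; simp at hn this; omega)
              fun x hx => hl x (hl'.1.subset hx)) hx2 (bd_single_mem (u :: l) (1 : κ))
        rw [Psi_W, map_add, map_smul, e, e, Psi_B_W _ hx1, Psi_B_W _ hx2, bd_bd, bd_bd]
        have := Submodule.neg_mem _ (Submodule.add_mem _ s1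
          (Submodule.smul_mem _ ((-1 : κ) ^ (a.length + 1)) s2))
        convert this using 1
        simp only [map_zero, LinearMap.zero_apply, List.length_cons, pow_succ]
        module

theorem Psi_equi [Group U] (w : Wr p U) (u : U) (hw : ∀ i, w.x i = u) (n : ℕ)
    (x : List (ZMod p) →₀ κ) (y : List U →₀ κ) :
    LR κ p U w (Psi_B (Psi_f κ n) x y) =
      Psi_B (Psi_f κ n) (pr (List (ZMod p)) (Representation.trivial κ (Wr p U) κ) w x)
        (pr (List U) (Representation.trivial κ U κ) u y) := by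
  have key : ∀ f : List (ZMod p) → List U → (List (Pw p U) →₀ κ),
      (∀ a l, LR κ p U w (f a l) = f (w • a) (u • l)) → ∀ x y, LR κ p U w (Psi_B f x y) =
        Psi_B f (pr (List (ZMod p)) (Representation.trivial κ (Wr p U) κ) w x)
          (pr (List U) (Representation.trivial κ U κ) u y) := fun f hf x y =>
    Psi_ext (f := (Psi_B f).compr₂ (LR κ p U w))
      (g := (Psi_B f).compl₁₂ (pr (List (ZMod p)) (Representation.trivial κ (Wr p U) κ) w)
        (pr (List U) (Representation.trivial κ U κ) u))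
      (fun a _ l => by simp [Psi_B_single, hf]) (Psi_univ x) y
  have hΔ : ∀ l : List U, LR κ p U w (Finsupp.single (l.map (cstP p)) 1) =
      Finsupp.single ((u • l).map (cstP p)) 1 := by
    intro l
    rw [pr_single, smul_list, smul_list, List.map_map, List.map_map]
    congr 2
    funext v i
    exact congrArg (· * v) (hw i)
  refine key _ ?_ x y
  clear x y
  induction n with
  | zero =>
    intro a l
    cases a with
    | nil => exact hΔ l
    | cons i a => exact map_zero _
  | succ n ih =>
    intro a l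
    cases a with
    | nil => exact hΔ l
    | cons i a =>
      cases l with
      | nil => exact map_zero _
      | cons v l =>
        rw [smul_cons, smul_cons, Psi_f_cons, Psi_f_cons, hh_equi w u hw, Psi_W, Psi_W, map_add,
          map_smul, key _ ih, key _ ih, pr_bd, pr_bd, pr_single, pr_single]
        simp [Wr.smul_pos]

end Psi

theorem exists_Y2 {κ : Type*} [CommRing κ] {p : ℕ} [NeZero p] {U : Type*} [Group U] (E : Set U)
    (n : ℕ) (z : List U →₀ κ)
    (hz : z ∈ Finsupp.supported κ κ {l : List U | l.length = n + 1 ∧ ∀ u ∈ l, u ∈ E})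
    (hc : bd κ z ∈ Jp (pr (List U) (Representation.trivial κ U κ)) fun _ => True) :
    ∃ Y : ℕ → List (Pw p U) →₀ κ, Y 0 = lm κ (cstP p) z ∧ (∀ k, Y k ∈ Gd κ k) ∧
      bd κ (Y 1) - Y 0 ∈ Jp (LR κ p U) Dg ⊔ Sparse κ E (2 * (n + 2)) ∧
      ∀ k, 1 ≤ k → bd κ (Y (k + 1)) - th (LR κ p U) (Wr.sh p U) p k (Y k) ∈
        Jp (LR κ p U) Dg ⊔ Sparse κ E (2 * (k + n + 2)) := by
  obtain ⟨ε, e0, eL, e1, e2⟩ := exists_eps (κ := κ) (Wr.sh_pow (p := p) (G := U)) (0 : ZMod p)
  have hJ : ∀ m x, Psi_B (Psi_f κ m) x (bd κ z) ∈ Jp (LR κ p U) Dg := fun m x => by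
    refine Jp_le (f := Psi_B (Psi_f κ m) x) (fun u y _ => ?_) hc
    have h2 : pr (List (ZMod p)) (Representation.trivial κ (Wr p U) κ) ⟨fun _ => u, 0⟩ x = x := by
      induction x using Finsupp.induction_linear with
      | zero => simp
      | add a b ha hb => rw [map_add, ha, hb]
      | single a c =>
        rw [pr_single, smul_list]
        simp [Wr.smul_pos]
    have h1 := Psi_equi ⟨fun _ => u, 0⟩ u (fun _ => rfl) m x y
    rw [h2] at h1
    rw [← h1]
    exact mem_Jp _ ⟨rfl, u, fun _ => rfl⟩ _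
  have main : ∀ k, bd κ (Psi_B (Psi_f κ (k + 1 + n + 1)) (ε (k + 1)) z) -
      Psi_B (Psi_f κ (k + n + 1)) (bd κ (ε (k + 1))) z ∈
        Jp (LR κ p U) Dg ⊔ Sparse κ E (2 * (k + n + 2)) := by
    intro k
    have s := Psi_B_mem (N := Sparse κ E (2 * (k + n + 1 + 1)))
      (fun a (h : a.length = k + 1) l (hl : _ ∧ _) =>
        Psi_sparse E (k + n + 1) a l (by rw [h, hl.1]; ring) hl.2) (eL (k + 1)) hz
    rw [Psi_B_sub, Psi_B_W _ (eL (k + 1)), ← Psi_B_map] at s
    have := Submodule.sub_mem _
      (Submodule.mem_sup_left (T := Sparse κ E (2 * (k + n + 1 + 1)))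
        (Submodule.smul_mem _ ((-1 : κ) ^ (k + 1)) (hJ (k + n + 1) (ε (k + 1)))))
      (Submodule.mem_sup_right s)
    rw [show k + 1 + n + 1 = k + n + 1 + 1 by ring]
    convert this using 1
    abel
  refine ⟨fun k => Psi_B (Psi_f κ (k + n + 1)) (ε k) z, ?_, fun k => ?_, ?_, fun k hk => ?_⟩
  · show Psi_B (Psi_f κ (0 + n + 1)) (ε 0) z = _
    rw [e0, Psi_B_nil]
  · exact Psi_B_mem (B := Set.univ) (fun a (h : a.length = k) l _ => h ▸ Psi_Gd _ a l) (eL k)
      fun _ _ => trivial
  · have := main 0
    rw [show bd κ (ε (0 + 1)) = ε 0 from e1] at this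
    simpa using this
  · have := main k
    rwa [e2 k hk, ← LinearMap.flip_apply (Psi_B (Psi_f κ (k + n + 1))),
      map_th_eq (ρ := pr (List (ZMod p)) (Representation.trivial κ (Wr p U) κ))
        (σ := LR κ p U) (T := Wr.sh p U) (T' := Wr.sh p U)
        (f := (Psi_B (Psi_f κ (k + n + 1))).flip z) fun v => by
          rw [LinearMap.flip_apply, LinearMap.flip_apply,
            Psi_equi (Wr.sh p U) 1 (fun _ => rfl), map_one, Module.End.one_apply]] at this

end Pool.Agent.MP_f7db47_al.Cv
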