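import Pool.Agent.MP_f7db47_al.Cv.DQ
import Pool.Agent.MP_f7db47_al.Cv.DMu

namespace Pool.Agent.MP_f7db47_al.Cv

variable {κ : Type*} [CommRing κ] {R : Type*} [Ring R] [Algebra κ R] {G : Type*} [Group G]
variable {p : ℕ} [NeZero p] {tr : R →ₗ[κ] κ}

section
variable {W : Type*} [AddCommGroup W] [Module κ W] {N N' : Submodule κ W} {a b c d : W}

theorem DTr_add (h : a - b ∈ N) (h' : c - d ∈ N) : a + c - (b + d) ∈ N :=
  add_sub_add_comm a c b d ▸ N.add_mem h h'

theorem DTr_smul (x : κ) (h : a - b ∈ N) : x • a - x • b ∈ N := smul_sub x a b ▸ N.smul_mem x h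

theorem DTr_sup (h : a - b ∈ N) (h' : a ∈ N') : b ∈ N ⊔ N' :=
  sub_sub_cancel a b ▸ sub_mem (Submodule.mem_sup_right h') (Submodule.mem_sup_left h)

end

omit [NeZero p] in
theorem DTr_Ln (L : List (Pw p (MonoidAlgebra R G)ˣ)) (i : ZMod p) :
    QQ κ (col L i) ∈ Ln κ L.length := by
  have := QQ_Ln (κ := κ) (col L i)
  rwa [col, List.length_map] at this

theorem TrP_bd (z : List (Pw p (MonoidAlgebra R G)ˣ) →₀ κ) :
    TrP κ p tr (bd κ z) = bd κ (TrP κ p tr z) := by
  induction z using Finsupp.induction_linear with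
  | zero => simp
  | add a b ha hb => simp only [map_add, ha, hb]
  | single L c =>
    rw [bd_eq_sum, map_sum, TrP_single, map_smul, bd_eq_sum_er κ (mu_Ln _ (DTr_Ln L)),
      Finset.smul_sum]
    refine Finset.sum_congr rfl fun j hj => ?_
    rw [Finset.mem_range] at hj
    rw [map_smul, TrP_single, smul_comm, mu_er _ (DTr_Ln L) j hj]
    congr 3
    funext i
    rw [QQ_er _ _ (by rwa [col, List.length_map]), col, col, List.eraseIdx_map]

theorem TrP_Gd {m : ℕ} {z : List (Pw p (MonoidAlgebra R G)ˣ) →₀ κ} (hz : z ∈ Gd κ m) :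
    TrP κ p tr z ∈ Gd κ m := by
  refine map_supported (W := List (Pw p G) →₀ (Om p G →₀ κ)) (fun L hL c => ?_) hz
  rw [TrP_single]
  exact Submodule.smul_mem _ _ fun l h => le_of_le_of_eq hL (mu_Ln _ (DTr_Ln L) h).symm

theorem TrP_sh (htr : ∀ a b, tr (a * b) = tr (b * a))
    (z : List (Pw p (MonoidAlgebra R G)ˣ) →₀ κ) :
    TrP κ p tr (LR κ p _ (Wr.sh p _) z) = ER κ p G (Wr.sh p G) (TrP κ p tr z) := by
  induction z using Finsupp.induction_linear with
  | zero => simp
  | add a b ha hb => simp only [map_add, ha, hb]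
  | single L c =>
    rw [pr_single, TrP_single, TrP_single, map_smul, mu_sh htr _ (DTr_Ln L)]
    congr 2
    funext i
    rw [col, col, smul_list, List.map_map]
    exact congrArg _ (List.map_congr_left fun s _ => one_smul (MonoidAlgebra R G)ˣ (s (i - 1)))

theorem TrP_J (htr : ∀ a b, tr (a * b) = tr (b * a))
    {z : List (Pw p (MonoidAlgebra R G)ˣ) →₀ κ} (hz : z ∈ Jp (LR κ p _) Dg) :
    TrP κ p tr z ∈ Jp (ER κ p G) fun w => w.k = 0 := by
  refine Jp_le (W := List (Pw p G) →₀ (Om p G →₀ κ)) (fun w v ⟨hk, u, hu⟩ => ?_) hz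
  induction v using Finsupp.induction_linear with
  | zero => simp
  | add a b ha hb =>
    simp only [map_add]
    exact DTr_add (W := List (Pw p G) →₀ (Om p G →₀ κ)) ha hb
  | single L c =>
    have e : ∀ i, col (w • L) i = u • col L i := fun i => by
      rw [col, col, smul_list, smul_list, List.map_map, List.map_map]
      refine List.map_congr_left fun s _ => ?_
      change w.x i • s (i - w.k) = u • s i
      rw [hu, hk, sub_zero]
    have h := mu_bal htr (fun i => Ra κ (u⁻¹).val (QQ κ (col L i)))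
      (fun i => Ra_Ln _ (DTr_Ln L i)) fun _ => u.val
    simp only [← Ra_mul, Units.inv_mul, Ra_one, ← QQ_smul, ← e] at h
    rw [pr_single, TrP_single, TrP_single]
    exact DTr_smul (W := List (Pw p G) →₀ (Om p G →₀ κ)) c h

theorem TrP_sparse (htr : ∀ a b, tr (a * b) = tr (b * a)) {E : Set (MonoidAlgebra R G)ˣ}
    {A : Set G} (hA : ∀ a ∈ E, ∀ b ∈ E, ∀ c, (a⁻¹ * b).val.coeff c ≠ 0 → c ∈ A) {r : ℕ}
    {z : List (Pw p (MonoidAlgebra R G)ˣ) →₀ κ} (hz : z ∈ Sparse κ E r) :
    TrP κ p tr z ∈ (Jp (ER κ p G) fun w => w.k = 0) ⊔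
      OnO κ fun ω : Om p G => Wd A r (oprod p ω) := by
  refine map_supported (W := List (Pw p G) →₀ (Om p G →₀ κ)) (fun L hL c => ?_) hz
  rw [TrP_single]
  refine Submodule.smul_mem _ _ ?_
  cases L with
  | nil =>
    refine Submodule.mem_sup_right ?_
    exact mu_single κ p tr (fun _ => []) (fun _ => (1 : G)) (fun _ => 1) ▸
      single_mem_OnO _ ⟨[], by simp, by simp, by simp [oprod]⟩ _
  | cons s L =>
    have h := mu_bal htr (fun i => Ra κ (s (i + 1)).val (QQ κ (col (s :: L) i)))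
      (fun i => Ra_Ln _ (DTr_Ln _ i)) fun i => ((s i)⁻¹).val
    simp only [← Ra_mul, Units.mul_inv, Ra_one] at h
    have h2 := mu_OnO (tr := tr) A (fun i => jmp (col (s :: L) i ++ [s (i + 1)]))
      (fun i => La κ ((s i)⁻¹).val (Ra κ (s (i + 1)).val (QQ κ (col (s :: L) i))))
      fun i t ω => QQ_supp hA (s i) (col L i) (s (i + 1)) (fun x hx => by
        obtain ⟨y, hy, rfl⟩ := List.mem_map.1 (show x ∈ col (s :: L) i from hx)
        exact hL.1 y hy i) (hL.1 s List.mem_cons_self _) t ω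
    refine DTr_sup (W := List (Pw p G) →₀ (Om p G →₀ κ)) h (OnO_mono ?_ h2)
    exact fun ω ⟨l, a, b, e⟩ => ⟨l, a, b.trans hL.2, e⟩

end Pool.Agent.MP_f7db47_al.Cv
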