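import Pool.Agent.MP_f7db47_al.Cv.DMain
import Pool.Agent.MP_f7db47_al.Cv.DPsi
import Pool.Agent.MP_f7db47_al.Cv.DTr
import Pool.Agent.MP_f7db47_al.Cv.DEval

namespace Pool.Agent.MP_f7db47_al.Cv

theorem TrP_th {κ : Type*} [CommRing κ] {R : Type*} [Ring R] [Algebra κ R] {G : Type*} [Group G]
    {p : ℕ} [NeZero p] {tr : R →ₗ[κ] κ} (htr : ∀ a b, tr (a * b) = tr (b * a)) (k : ℕ)
    (z : List (Pw p (MonoidAlgebra R G)ˣ) →₀ κ) :
    TrP κ p tr (th (LR κ p (MonoidAlgebra R G)ˣ) (Wr.sh p _) p k z) =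
      th (ER κ p G) (Wr.sh p G) p k (TrP κ p tr z) :=
  map_th_eq (W := List (Pw p G) →₀ (Om p G →₀ κ)) (fun v => TrP_sh htr v) p k z

theorem dennis_core {p : ℕ} [Fact p.Prime] {G : Type} [Group G] {g : G} {D : ℕ}
    (hD : Res D (Representation.trivial (ZMod p) (Subgroup.centralizer ({g ^ p} : Set G))
      (ZMod p)))
    {R : Type*} [Ring R] [Algebra (ZMod p) R] {tr : R →ₗ[ZMod p] ZMod p}
    (htr : ∀ a b, tr (a * b) = tr (b * a)) {F : List G → G → ZMod p} (hF : Coc F g) {n : ℕ}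
    {E : Set (MonoidAlgebra R G)ˣ} {A : Set G}
    (hA : ∀ a ∈ E, ∀ b ∈ E, ∀ c, (a⁻¹ * b).val.coeff c ≠ 0 → c ∈ A)
    (hfar : ∀ x, Wd A (2 * (D + n + 4)) x → ¬ IsConj x (g ^ p))
    (z : List (MonoidAlgebra R G)ˣ →₀ ZMod p)
    (hz : z ∈ Finsupp.supported (ZMod p) (ZMod p)
      {l : List (MonoidAlgebra R G)ˣ | l.length = n + 1 ∧ ∀ u ∈ l, u ∈ E})
    (hc : bd (ZMod p) z ∈ Jp (pr (List (MonoidAlgebra R G)ˣ)
      (Representation.trivial (ZMod p) (MonoidAlgebra R G)ˣ (ZMod p))) fun _ => True) :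
    (z.sum fun l c => c * (QQ (ZMod p) l).sum fun t x =>
      x.coeff.sum fun ω M => F t ω * tr (M ^ p)) = 0 := by
  obtain ⟨Y, hY0, hYG, hY1, hY2⟩ := exists_Y2 (p := p) E n z hz hc
  have key : ∀ r, r ≤ 2 * (D + n + 4) → ∀ y ∈ Jp (LR (ZMod p) p (MonoidAlgebra R G)ˣ) Dg ⊔
      Sparse (ZMod p) E r, TrP (ZMod p) p tr y ∈ (Jp (ER (ZMod p) p G) fun w => w.k = 0) ⊔
        OnO (ZMod p) fun ω : Om p G => ¬ Phi_Orb p g ω := by
    intro r hr y hy
    obtain ⟨a, ha, b, hb, rfl⟩ := Submodule.mem_sup.1 hy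
    rw [map_add]
    refine Submodule.add_mem _ (Submodule.mem_sup_left (TrP_J htr ha)) ?_
    obtain ⟨c, hc', d, hd, e⟩ := Submodule.mem_sup.1 (TrP_sparse (p := p) htr hA hb)
    rw [← e]
    refine Submodule.add_mem _ (Submodule.mem_sup_left hc')
      (Submodule.mem_sup_right (OnO_mono (fun ω hω ho => ?_) hd))
    obtain ⟨l, h1, h2, h3⟩ := hω
    exact hfar _ ⟨l, h1, h2.trans hr, h3⟩ (orb_conj ho)
  have e : ∀ a b : List (Pw p (MonoidAlgebra R G)ˣ) →₀ ZMod p, TrP (ZMod p) p tr (a - b) =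
      TrP (ZMod p) p tr a - TrP (ZMod p) p tr b := fun a b => map_sub (TrP (ZMod p) p tr) a b
  have h := wmain hD hF (fun k => TrP (ZMod p) p tr (Y k)) (fun k => TrP_Gd (hYG k))
    (by rw [← TrP_bd, ← e]; exact key _ (by omega) _ hY1)
    (fun k h1 h2 => by
      have h3 := key _ (by omega) _ (hY2 k h1)
      rwa [e, TrP_bd, TrP_th htr] at h3)
  rw [hY0] at h
  rw [← h]
  conv_rhs => rw [← Finsupp.sum_single z, Finsupp.sum, map_sum, map_sum, map_sum]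
  refine Finset.sum_congr rfl fun l hl => ?_
  have hcol : ∀ i : ZMod p, col (l.map (cstP p)) i = l := fun i => by
    rw [col, List.map_map]
    exact List.map_id l
  rw [lm_single, TrP_single, map_smul, smul_eq_mul]
  simp only [hcol]
  rw [LamW_mu_const htr hF (m := n) _ ((hz hl).1 ▸ QQ_Ln l)]

end Pool.Agent.MP_f7db47_al.Cv
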