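import Mathlib

/-! Definitions used in the statement about the Dennis trace. -/

namespace Pool.Agent.MP_f7db47_al.Cv

/-- For suitable primes `p` the centraliser of `g ^ p` has finite mod `p` cohomological dimension
`D` and `g ^ p` is not conjugate to a word of length about `D` in a given finite set. -/
def Far {G : Type} [Group G] (g : G) : Prop :=
  ∀ (A : Finset G) (N : ℕ), ∃ p D : ℕ, p.Prime ∧
    CategoryTheory.HasProjectiveDimensionLE
      (Rep.trivial (ZMod p) (Subgroup.centralizer ({g ^ p} : Set G)) (ZMod p)) D ∧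
    ∀ l : List G, (∀ x ∈ l, x ∈ A) → l.length ≤ N * (D + 1) → ¬ IsConj l.prod (g ^ p)

/-- Integral Hochschild cocycles of the group ring. -/
def HCocycle {G : Type*} [Group G] {n : ℕ} (φ : (Fin (n + 1) → G) → ℤ) : Prop :=
  ∀ t : Fin (n + 2) → G,
    ∑ j : Fin (n + 1), (-1) ^ (j : ℕ) * φ (Fin.contractNth j.castSucc (· * ·) t) +
      (-1) ^ (n + 1) * φ (Fin.cons (t (Fin.last _) * t 0) fun i : Fin n => t i.succ.castSucc) = 0

/-- The value of `φ` on the generalised trace of `a 0 ⊗ … ⊗ a n`. -/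
noncomputable def trPair {k G ι : Type*} [CommRing k] [Fintype ι] [DecidableEq ι] {n : ℕ}
    (φ : (Fin (n + 1) → G) → ℤ) (a : Fin (n + 1) → Matrix ι ι (MonoidAlgebra k G)) : k :=
  ∑ᶠ t : Fin (n + 1) → G,
    φ t • Matrix.trace (List.ofFn fun j => (a j).map fun x => x.coeff (t j)).prod

/-- The value of `φ` on the Dennis trace `(u 1 ⋯ u n)⁻¹ ⊗ u 1 ⊗ … ⊗ u n` of a bar simplex. -/
noncomputable def dennis {k G ι : Type*} [CommRing k] [Group G] [Fintype ι] [DecidableEq ι]
    {n : ℕ} (φ : (Fin (n + 1) → G) → ℤ) (u : Fin n → GL ι (MonoidAlgebra k G)) : k :=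
  trPair φ (Fin.cons ((List.ofFn u).prod⁻¹).val fun i => (u i).val)

end Pool.Agent.MP_f7db47_al.Cv
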