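import Pool.Agent.MP_f7db47_al.Cv.Phi
import Pool.Agent.MP_f7db47_al.Cv.DStmt

/-! Prisms, jumps, the bar construction on units and the trace map. -/

open scoped TensorProduct

namespace Pool.Agent.MP_f7db47_al.Cv

section lists
variable (κ : Type*) [CommRing κ] {X Y : Type*}

/-- The map induced on chains of lists. -/
noncomputable def lm (f : X → Y) : (List X →₀ κ) →ₗ[κ] (List Y →₀ κ) :=
  Finsupp.lmapDomain κ κ (List.map f)

@[simp] theorem lm_single (f : X → Y) (l : List X) (c : κ) :
    lm κ f (Finsupp.single l c) = Finsupp.single (l.map f) c := by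
  simp [lm]

/-- The prism over one list. -/
noncomputable def prism1 (f g : X → Y) : List X → (List Y →₀ κ)
  | [] => 0
  | s :: l => Finsupp.single (f s :: g s :: l.map g) 1 - cons κ κ (f s) (prism1 f g l)

/-- The prism operator. -/
noncomputable def prism (f g : X → Y) : (List X →₀ κ) →ₗ[κ] (List Y →₀ κ) :=
  Finsupp.linearCombination κ (prism1 κ f g)

theorem prism_single (f g : X → Y) (l : List X) (c : κ) :
    prism κ f g (Finsupp.single l c) = c • prism1 κ f g l :=
  Finsupp.linearCombination_single _ _ _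

/-- Deleting the entry at position `j`. -/
noncomputable def er {V : Type*} [AddCommGroup V] [Module κ V] (j : ℕ) :
    (List X →₀ V) →ₗ[κ] (List X →₀ V) := Finsupp.lmapDomain V κ fun l => l.eraseIdx j

@[simp] theorem er_single {V : Type*} [AddCommGroup V] [Module κ V] (j : ℕ) (l : List X) (v : V) :
    er κ j (Finsupp.single l v) = Finsupp.single (l.eraseIdx j) v := by
  simp [er]

/-- Chains of lists of length exactly `m`. -/
def Ln {V : Type*} [AddCommGroup V] [Module κ V] (m : ℕ) : Submodule κ (List X →₀ V) :=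
  Finsupp.supported V κ {l | l.length = m}

theorem bd_eq_sum {V : Type*} [AddCommGroup V] [Module κ V] (l : List X) (v : V) :
    bd κ (Finsupp.single l v) =
      ∑ j ∈ Finset.range l.length, (-1 : κ) ^ j • Finsupp.single (l.eraseIdx j) v := by
  induction l with
  | nil => simp
  | cons s l ih =>
    rw [bd_single_cons, ih, List.length_cons, Finset.sum_range_succ', map_sum, sub_eq_neg_add,
      ← Finset.sum_neg_distrib]
    simp [pow_succ]

theorem bd_eq_sum_er {V : Type*} [AddCommGroup V] [Module κ V] {m : ℕ} {z : List X →₀ V}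
    (hz : z ∈ Ln κ m) : bd κ z = ∑ j ∈ Finset.range m, (-1 : κ) ^ j • er κ j z := by
  have := eq_on_supported (f := bd κ) (g := ∑ j ∈ Finset.range m, (-1 : κ) ^ j • er κ j)
    (fun l (hl : l.length = m) v => by
      rw [bd_eq_sum, hl]
      simp [LinearMap.sum_apply]) hz
  rw [this]
  simp [LinearMap.sum_apply]

end lists

section pw
variable {p : ℕ} {X : Type*}

/-- The constant point. -/
def cstP (p : ℕ) (x : X) : Pw p X := fun _ => x

/-- Replace the entries at the positions `j, …, j + t - 1` by `x`. -/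
def fill (j : ZMod p) (x : X) (t : ℕ) (s : Pw p X) : Pw p X :=
  fun i => if (i - j).val < t then x else s i

/-- A contraction of the complex of lists that changes one position at a time. -/
noncomputable def hh (κ : Type*) [CommRing κ] (j : ZMod p) (x : X) :
    (List (Pw p X) →₀ κ) →ₗ[κ] (List (Pw p X) →₀ κ) :=
  ∑ t ∈ Finset.range p, prism κ (fill j x (t + 1)) (fill j x t) +
    cons κ κ (cstP p x) ∘ₗ lm κ (fill j x p)

open Classical in
/-- The number of places where two consecutive entries differ. -/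
noncomputable def jmp : List X → ℕ
  | a :: b :: l => (if a = b then 0 else 1) + jmp (b :: l)
  | _ => 0

/-- The entries at position `i`. -/
def col (L : List (Pw p X)) (i : ZMod p) : List X := L.map fun s => s i

/-- The number of jumps of the cyclic word attached to a list. -/
noncomputable def JJ [NeZero p] (L : List (Pw p X)) : ℕ :=
  ∑ i : ZMod p, jmp (col L i ++ (col L (i + 1)).take 1)

/-- Chains of lists with values in `E` and at most `r` jumps. -/
def Sparse (κ : Type*) [CommRing κ] [NeZero p] (E : Set X) (r : ℕ) :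
    Submodule κ (List (Pw p X) →₀ κ) :=
  Finsupp.supported κ κ {L | (∀ s ∈ L, ∀ i, s i ∈ E) ∧ JJ L ≤ r}

/-- Diagonal elements of the base group. -/
def Dg {U : Type*} [Group U] (w : Wr p U) : Prop := w.k = 0 ∧ ∃ u, ∀ i, w.x i = u

/-- The representation on chains of lists of points. -/
noncomputable abbrev LR (κ : Type*) [CommRing κ] (p : ℕ) (U : Type*) [Group U] :
    Representation κ (Wr p U) (List (Pw p U) →₀ κ) :=
  pr (List (Pw p U)) (Representation.trivial κ (Wr p U) κ)

/-- The representation on chains of lists of points with cyclic words as coefficients. -/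
noncomputable abbrev ER (κ : Type*) [CommRing κ] (p : ℕ) (G : Type*) [Group G] :
    Representation κ (Wr p G) (List (Pw p G) →₀ (Om p G →₀ κ)) :=
  pr (List (Pw p G)) (OmR κ p G)

/-- The ordered product over all positions. -/
def oprod (p : ℕ) {M : Type*} [Monoid M] (x : ZMod p → M) : M :=
  (List.ofFn fun i : Fin p => x ((i : ℕ) : ZMod p)).prod

/-- Put `p` lists of the same length together. -/
def zipL {G : Type*} [One G] (t : ZMod p → List G) : List (Pw p G) :=
  (List.range (t 0).length).map fun j i => (t i).getD j 1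

/-- `x` is a product of at most `r` elements of `A`. -/
def Wd {G : Type*} [Group G] (A : Set G) (r : ℕ) (x : G) : Prop :=
  ∃ l : List G, (∀ y ∈ l, y ∈ A) ∧ l.length ≤ r ∧ l.prod = x

end pw

/-- Chains whose coefficients are supported on the elements that satisfy `P`. -/
noncomputable def OnO (κ : Type*) [CommRing κ] {α β : Type*} (P : β → Prop) : Submodule κ (α →₀ (β →₀ κ)) :=
  Submodule.span κ {z | ∃ l ω a, P ω ∧ z = Finsupp.single l (Finsupp.single ω a)}

theorem single_mem_OnO {κ : Type*} [CommRing κ] {α β : Type*} {P : β → Prop} (l : α) {ω : β}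
    (h : P ω) (a : κ) : Finsupp.single l (Finsupp.single ω a) ∈ OnO κ P :=
  Submodule.subset_span ⟨l, ω, a, h, rfl⟩

theorem OnO_le {κ : Type*} [CommRing κ] {α β W : Type*} [AddCommGroup W] [Module κ W]
    {P : β → Prop} {f : (α →₀ (β →₀ κ)) →ₗ[κ] W} {N : Submodule κ W}
    (h : ∀ l ω a, P ω → f (Finsupp.single l (Finsupp.single ω a)) ∈ N) {z : α →₀ (β →₀ κ)}
    (hz : z ∈ OnO κ P) : f z ∈ N := by
  have : OnO κ P ≤ N.comap f := Submodule.span_le.2 fun _ ⟨l, ω, a, hP, e⟩ => by
    rw [e]
    exact h l ω a hP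
  exact this hz

theorem OnO_mono {κ : Type*} [CommRing κ] {α β : Type*} {P Q : β → Prop} (h : ∀ ω, P ω → Q ω) :
    (OnO κ P : Submodule κ (α →₀ (β →₀ κ))) ≤ OnO κ Q :=
  Submodule.span_mono fun _ ⟨l, ω, a, hP, e⟩ => ⟨l, ω, a, h ω hP, e⟩

section bar
variable (κ : Type*) [CommRing κ] {R : Type*} [Ring R] [Algebra κ R] {G : Type*} [Group G]

/-- The left action of the group ring on lists with coefficients in the group ring. -/
noncomputable def La (a : MonoidAlgebra R G) :
    (List G →₀ MonoidAlgebra R G) →ₗ[κ] (List G →₀ MonoidAlgebra R G) :=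
  a.coeff.sum fun g M => Em (LinearMap.mulLeft κ (MonoidAlgebra.single g M)) ∘ₗ
    Finsupp.lmapDomain (MonoidAlgebra R G) κ (g • ·)

/-- The right action. -/
noncomputable def Ra (a : MonoidAlgebra R G) :
    (List G →₀ MonoidAlgebra R G) →ₗ[κ] (List G →₀ MonoidAlgebra R G) :=
  Em (LinearMap.mulRight κ a)

@[simp] theorem La_zero : La κ (0 : MonoidAlgebra R G) = 0 := by
  simp [La]

theorem La_add (a b : MonoidAlgebra R G) : La κ (a + b) = La κ a + La κ b := by
  unfold La
  rw [MonoidAlgebra.coeff_add, Finsupp.sum_add_index']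
  · intro g
    ext l x
    simp
  · intro g M N
    refine Finsupp.lhom_ext fun l x => ?_
    simp [MonoidAlgebra.single_add, add_mul, Finsupp.single_add]

theorem La_single (g : G) (M : R) (t : List G) (b : MonoidAlgebra R G) :
    La κ (MonoidAlgebra.single g M) (Finsupp.single t b) =
      Finsupp.single (g • t) (MonoidAlgebra.single g M * b) := by
  unfold La
  rw [MonoidAlgebra.coeff_single, Finsupp.sum_single_index]
  · simp
  · ext l x
    simp

@[simp] theorem Ra_single (a : MonoidAlgebra R G) (t : List G) (b : MonoidAlgebra R G) :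
    Ra κ a (Finsupp.single t b) = Finsupp.single t (b * a) := by
  simp [Ra]

/-- The element `u 0 ⊗ (u 0)⁻¹ u 1 ⊗ … ⊗ (u m)⁻¹` of the bar construction. -/
noncomputable def QQ : List (MonoidAlgebra R G)ˣ → (List G →₀ MonoidAlgebra R G)
  | [] => Finsupp.single [] 1
  | u :: l => La κ u.val (cons κ _ 1 (La κ (u⁻¹).val (QQ l)))

/-- The positions as residues. -/
def posEquiv (p : ℕ) [NeZero p] : Fin p ≃ ZMod p where
  toFun i := ((i : ℕ) : ZMod p)
  invFun i := ⟨i.val, ZMod.val_lt i⟩
  left_inv i := Fin.ext (ZMod.val_cast_of_lt i.2)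
  right_inv i := ZMod.natCast_zmod_val i

open Classical in
/-- The trace of the cyclic product of coefficients. -/
noncomputable def muI (G : Type*) [Group G] (p : ℕ) [NeZero p] (tr : R →ₗ[κ] κ) :
    (⨂[κ] _ : ZMod p, MonoidAlgebra R G) →ₗ[κ] ((ZMod p → G) →₀ κ) :=
  Em (tr ∘ₗ PiTensorProduct.lift
      ((MultilinearMap.mkPiAlgebraFin κ p R).domDomCongr (posEquiv p))) ∘ₗ
    (PiTensorProduct.ofFinsuppEquiv (R := κ) (κ := fun _ : ZMod p => G)
      (M := fun _ : ZMod p => R)).toLinearMap ∘ₗ
    PiTensorProduct.map fun _ : ZMod p =>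
      (MonoidAlgebra.coeffLinearEquiv κ : MonoidAlgebra R G ≃ₗ[κ] (G →₀ R)).toLinearMap

theorem muI_tprod (p : ℕ) [NeZero p] (tr : R →ₗ[κ] κ) (ω : ZMod p → G) (M : ZMod p → R) :
    muI κ G p tr (PiTensorProduct.tprod κ fun i => MonoidAlgebra.single (ω i) (M i)) =
      Finsupp.single ω (tr (oprod p M)) := by
  classical
  simp only [muI, LinearMap.comp_apply, LinearEquiv.coe_coe,
    PiTensorProduct.ofFinsuppEquiv_tprod_single, PiTensorProduct.map_tprod,
    MonoidAlgebra.coeffLinearEquiv_apply, MonoidAlgebra.coeff_single, Em_single,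
    PiTensorProduct.lift.tprod]
  rfl

/-- The same map with values in chains of cyclic words. -/
noncomputable def muO (G : Type*) [Group G] (p : ℕ) [NeZero p] (tr : R →ₗ[κ] κ) :
    (⨂[κ] _ : ZMod p, MonoidAlgebra R G) →ₗ[κ] (Om p G →₀ κ) := muI κ G p tr

theorem muO_tprod (p : ℕ) [NeZero p] (tr : R →ₗ[κ] κ) (ω : Om p G) (M : ZMod p → R) :
    muO κ G p tr (PiTensorProduct.tprod κ fun i => MonoidAlgebra.single (ω i) (M i)) =
      Finsupp.single ω (tr (oprod p M)) := muI_tprod κ p tr ω M

open Classical in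
/-- The cyclic tensor product followed by the trace. -/
noncomputable def mu (p : ℕ) [NeZero p] (tr : R →ₗ[κ] κ) :
    MultilinearMap κ (fun _ : ZMod p => List G →₀ MonoidAlgebra R G)
      (List (Pw p G) →₀ (Om p G →₀ κ)) :=
  ((Finsupp.lsum κ fun t : ZMod p → List G => Finsupp.lsingle (zipL t) ∘ₗ muO κ G p tr) ∘ₗ
    (PiTensorProduct.ofFinsuppEquiv (R := κ) (κ := fun _ : ZMod p => List G)
      (M := fun _ : ZMod p => MonoidAlgebra R G)).toLinearMap).compMultilinearMap
    (PiTensorProduct.tprod κ)

theorem mu_single (p : ℕ) [NeZero p] (tr : R →ₗ[κ] κ) (t : ZMod p → List G) (ω : Om p G)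
    (M : ZMod p → R) :
    mu κ p tr (fun i => Finsupp.single (t i) (MonoidAlgebra.single (ω i) (M i))) =
      Finsupp.single (zipL t) (Finsupp.single ω (tr (oprod p M))) := by
  classical
  simp only [mu, LinearMap.compMultilinearMap_apply, LinearMap.comp_apply, LinearEquiv.coe_coe,
    PiTensorProduct.ofFinsuppEquiv_tprod_single, Finsupp.lsum_single, Finsupp.lsingle_apply,
    muO_tprod]

/-- An element written as a sum over pairs (list, group element). -/
theorem eq_sum_pairs (b : List G →₀ MonoidAlgebra R G) :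
    b = ∑ x ∈ b.support.sigma fun t => (b t).coeff.support,
      Finsupp.single x.1 (MonoidAlgebra.single x.2 ((b x.1).coeff x.2)) := by
  rw [Finset.sum_sigma]
  conv_lhs => rw [← Finsupp.sum_single b, Finsupp.sum]
  refine Finset.sum_congr rfl fun t _ => ?_
  rw [← Finsupp.single_finsetSum]
  congr 1
  exact (MonoidAlgebra.sum_coeff_single (b t)).symm

/-- To show that a multilinear map takes a value in `N` it is enough to look at the terms. -/
theorem multi_mem {ι : Type*} [Fintype ι] {W : Type*} [AddCommGroup W] [Module κ W]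
    (f : MultilinearMap κ (fun _ : ι => List G →₀ MonoidAlgebra R G) W) (N : Submodule κ W)
    (b : ι → List G →₀ MonoidAlgebra R G)
    (h : ∀ (t : ι → List G) (ω : ι → G), (∀ i, (b i (t i)).coeff (ω i) ≠ 0) →
      f (fun i => Finsupp.single (t i)
        (MonoidAlgebra.single (ω i) ((b i (t i)).coeff (ω i)))) ∈ N) : f b ∈ N := by
  classical
  have e : b = fun i => ∑ x ∈ (b i).support.sigma fun t => (b i t).coeff.support,
      Finsupp.single x.1 (MonoidAlgebra.single x.2 ((b i x.1).coeff x.2)) :=
    funext fun i => eq_sum_pairs (b i)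
  rw [e, f.map_sum_finset]
  refine N.sum_mem fun r hr => h (fun i => (r i).1) (fun i => (r i).2) fun i => ?_
  exact Finsupp.mem_support_iff.1 (Finset.mem_sigma.1 (Fintype.mem_piFinset.1 hr i)).2

/-- The trace map on chains of lists of points. -/
noncomputable def TrP (p : ℕ) [NeZero p] (tr : R →ₗ[κ] κ) :
    (List (Pw p (MonoidAlgebra R G)ˣ) →₀ κ) →ₗ[κ] (List (Pw p G) →₀ (Om p G →₀ κ)) :=
  Finsupp.linearCombination κ fun L => mu κ p tr fun i => QQ κ (col L i)

theorem TrP_single (p : ℕ) [NeZero p] (tr : R →ₗ[κ] κ) (L : List (Pw p (MonoidAlgebra R G)ˣ))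
    (c : κ) : TrP κ p tr (Finsupp.single L c) = c • mu κ p tr fun i => QQ κ (col L i) :=
  Finsupp.linearCombination_single _ _ _

end bar

section lam
variable {κ : Type*} [CommRing κ] {p : ℕ} {G : Type*} [Group G]

/-- The list and the word are fixed by an element of degree one. -/
def Per (L : List (Pw p G)) (ω : Om p G) : Prop :=
  ∃ w : Wr p G, w.k = 1 ∧ w • L = L ∧ w • ω = ω

open Classical in
/-- The value of `F` on a periodic list. -/
noncomputable def lamv (F : List G → G → κ) : List (Pw p G) → Om p G → κ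
  | [], _ => 0
  | s :: L, ω => if Per (s :: L) ω then F (col (s :: L) 0) (ω 0 * s 1 * (s 0)⁻¹) else 0

/-- The functional attached to `F`. -/
noncomputable def LamW (p : ℕ) (F : List G → G → κ) :
    (List (Pw p G) →₀ (Om p G →₀ κ)) →ₗ[κ] κ :=
  Finsupp.lsum κ fun L => Finsupp.linearCombination κ (lamv F L)

theorem LamW_single (F : List G → G → κ) (L : List (Pw p G)) (ω : Om p G) (a : κ) :
    LamW p F (Finsupp.single L (Finsupp.single ω a)) = a * lamv F L ω := by
  rw [LamW, Finsupp.lsum_single, Finsupp.linearCombination_single, smul_eq_mul]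

/-- A homogeneous cocycle supported on the class of `g`. -/
structure Coc (F : List G → G → κ) (g : G) : Prop where
  inv : ∀ (h : G) t c, F (h • t) (h * c * h⁻¹) = F t c
  supp : ∀ t c, F t c ≠ 0 → IsConj c g
  nil : ∀ c, F [] c = 0
  coc : ∀ t c, Finsupp.linearCombination κ (fun t' => F t' c) (bd κ (Finsupp.single t 1)) = 0

/-- The homogeneous form of a Hochschild cochain. -/
def toF {n : ℕ} (φ : (Fin (n + 1) → G) → ℤ) (t : List G) (c : G) : ℤ :=
  if t.length = n + 1 then
    φ (Fin.cons ((t.getD n 1)⁻¹ * c * t.getD 0 1)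
      fun j : Fin n => (t.getD j 1)⁻¹ * t.getD (j + 1) 1)
  else 0

end lam

/-- The differential of the inhomogeneous bar complex. -/
noncomputable def dI {U : Type*} [Group U] (n : ℕ) :
    ((Fin (n + 1) → U) →₀ ℤ) →ₗ[ℤ] ((Fin n → U) →₀ ℤ) :=
  Finsupp.lsum ℤ fun u => Finsupp.lsingle (fun i : Fin n => u i.succ) +
    ∑ j : Fin (n + 1), (-1 : ℤ) ^ ((j : ℕ) + 1) • Finsupp.lsingle (Fin.contractNth j (· * ·) u)

theorem dI_single {U : Type*} [Group U] (n : ℕ) (u : Fin (n + 1) → U) (a : ℤ) :
    dI n (Finsupp.single u a) = Finsupp.single (fun i : Fin n => u i.succ) a +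
      ∑ j : Fin (n + 1), (-1 : ℤ) ^ ((j : ℕ) + 1) •
        Finsupp.single (Fin.contractNth j (· * ·) u) a := by
  simp [dI, LinearMap.sum_apply]

/-- From inhomogeneous to homogeneous chains. -/
noncomputable def HC (κ : Type*) [CommRing κ] {U : Type*} [Group U] (n : ℕ) :
    ((Fin n → U) →₀ ℤ) →ₗ[ℤ] (List U →₀ κ) :=
  Finsupp.linearCombination ℤ fun u => Finsupp.single (List.ofFn (Fin.partialProd u)) 1

theorem HC_single (κ : Type*) [CommRing κ] {U : Type*} [Group U] (n : ℕ) (u : Fin n → U)
    (a : ℤ) : HC κ n (Finsupp.single u a) =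
      Finsupp.single (List.ofFn (Fin.partialProd u)) (a : κ) := by
  simp [HC]

/-- Change of coefficient ring on invertible matrices over the group ring. -/
noncomputable def glMap {k k' : Type*} [CommRing k] [CommRing k'] (G : Type*) [Group G]
    (ι : Type*) [Fintype ι] [DecidableEq ι] (f : k →+* k') :
    GL ι (MonoidAlgebra k G) →* GL ι (MonoidAlgebra k' G) :=
  Units.map ((MonoidAlgebra.mapRingHom G f).mapMatrix (m := ι)).toMonoidHom

theorem glMap_coeff {k k' : Type*} [CommRing k] [CommRing k'] {G : Type*} [Group G]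
    {ι : Type*} [Fintype ι] [DecidableEq ι] (f : k →+* k') (u : GL ι (MonoidAlgebra k G))
    (a b : ι) (c : G) :
    ((glMap G ι f u).val a b).coeff c = f ((u.val a b).coeff c) :=
  MonoidAlgebra.coeff_mapRingHom f _ c

end Pool.Agent.MP_f7db47_al.Cv
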