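import Pool.Agent.MP_f7db47_al.Cv.DDefs

namespace Pool.Agent.MP_f7db47_al.Cv

variable {G : Type*} [Group G] {ι : Type*} [Fintype ι] [DecidableEq ι]

omit [Group G] in
theorem DLift_fin {k : Type*} [CommRing k] {n : ℕ} (φ : (Fin (n + 1) → G) → ℤ)
    (a : Fin (n + 1) → Matrix ι ι (MonoidAlgebra k G)) :
    (Function.support fun t : Fin (n + 1) → G =>
      φ t • Matrix.trace (List.ofFn fun j => (a j).map fun x => x.coeff (t j)).prod).Finite := by
  classical
  refine (Fintype.piFinset fun j => Finset.univ.biUnion fun c : ι × ι =>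
    (a j c.1 c.2).coeff.support).finite_toSet.subset fun t ht => ?_
  rw [Finset.mem_coe, Fintype.mem_piFinset]
  intro j
  by_contra hj
  apply ht
  have h0 : ((a j).map fun x => x.coeff (t j)) = 0 := by
    ext r c
    by_contra h
    exact hj (Finset.mem_biUnion.2 ⟨(r, c), Finset.mem_univ _, Finsupp.mem_support_iff.2 h⟩)
  have h1 : (List.ofFn fun j => (a j).map fun x => x.coeff (t j)).prod = 0 :=
    List.prod_eq_zero (List.mem_ofFn.2 ⟨j, h0⟩)
  simp only [h1, Matrix.trace_zero, smul_zero]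

omit [Group G] in
theorem DLift_tr {k k' : Type*} [CommRing k] [CommRing k'] (f : k →+* k') {n : ℕ}
    (φ : (Fin (n + 1) → G) → ℤ) (a : Fin (n + 1) → Matrix ι ι (MonoidAlgebra k G))
    (a' : Fin (n + 1) → Matrix ι ι (MonoidAlgebra k' G))
    (h : ∀ j r c g, (a' j r c).coeff g = f ((a j r c).coeff g)) :
    trPair φ a' = f (trPair φ a) := by
  rw [trPair, trPair, map_finsum f (DLift_fin φ a)]
  refine finsum_congr fun t => ?_
  rw [map_zsmul, AddMonoidHom.map_trace, ← RingHom.mapMatrix_apply, map_list_prod, List.map_ofFn]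
  congr 4
  funext j
  ext r c
  exact h j r c (t j)

omit [DecidableEq ι] [Fintype ι] in
theorem DLift_mat {k : Type*} [CommRing k] (k₀ : Subalgebra ℤ k)
    (M : Matrix ι ι (MonoidAlgebra k G)) (h : ∀ r c g, (M r c).coeff g ∈ k₀) :
    ∃ M₀ : Matrix ι ι (MonoidAlgebra k₀ G),
      M₀.map (MonoidAlgebra.mapRingHom G k₀.val.toRingHom) = M := by
  refine ⟨fun r c => MonoidAlgebra.ofCoeff (Finsupp.onFinset (M r c).coeff.support
    (fun g => ⟨(M r c).coeff g, h r c g⟩) fun g hg => Finsupp.mem_support_iff.2 fun h0 =>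
      hg (Subtype.ext h0)), ?_⟩
  ext r c g
  exact MonoidAlgebra.coeff_mapRingHom k₀.val.toRingHom _ g

theorem DLift_inj {k k' : Type*} [CommRing k] [CommRing k'] (f : k →+* k')
    (hf : Function.Injective f) :
    Function.Injective ((MonoidAlgebra.mapRingHom G f).mapMatrix (m := ι)) := by
  intro M N h
  ext r c g
  apply hf
  rw [← MonoidAlgebra.coeff_mapRingHom, ← MonoidAlgebra.coeff_mapRingHom]
  exact congrArg (fun A : Matrix ι ι (MonoidAlgebra k' G) => (A r c).coeff g) h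

theorem DLift_gl {k : Type*} [CommRing k] (k₀ : Subalgebra ℤ k) (v : GL ι (MonoidAlgebra k G))
    (h : ∀ r c g, (v.val r c).coeff g ∈ k₀) (h' : ∀ r c g, ((v⁻¹).val r c).coeff g ∈ k₀) :
    ∃ v₀ : GL ι (MonoidAlgebra k₀ G), glMap G ι k₀.val.toRingHom v₀ = v := by
  obtain ⟨M, hM⟩ := DLift_mat k₀ _ h
  obtain ⟨N, hN⟩ := DLift_mat k₀ _ h'
  have hi := DLift_inj (G := G) (ι := ι) k₀.val.toRingHom Subtype.val_injective
  refine ⟨⟨M, N, hi ?_, hi ?_⟩, Units.ext hM⟩
  · rw [map_mul, map_one, RingHom.mapMatrix_apply, RingHom.mapMatrix_apply, hM, hN, Units.mul_inv]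
  · rw [map_mul, map_one, RingHom.mapMatrix_apply, RingHom.mapMatrix_apply, hM, hN, Units.inv_mul]

omit [Group G] [DecidableEq ι] in
theorem DLift_cf {k : Type*} [CommRing k] (M : Matrix ι ι (MonoidAlgebra k G)) :
    {x : k | ∃ r c g, (M r c).coeff g = x}.Finite := by
  have : {x : k | ∃ r c g, (M r c).coeff g = x} = ⋃ r, ⋃ c, Set.range (M r c).coeff := by
    ext x
    simp
  rw [this]
  exact Set.finite_iUnion fun r => Set.finite_iUnion fun c => Finsupp.finite_range _

theorem dennis_map {k k' : Type*} [CommRing k] [CommRing k'] (f : k →+* k') {n : ℕ}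
    (φ : (Fin (n + 1) → G) → ℤ) (u : Fin n → GL ι (MonoidAlgebra k G)) :
    dennis φ (fun i => glMap G ι f (u i)) = f (dennis φ u) := by
  refine DLift_tr f φ _ _ fun j r c g => ?_
  refine Fin.cases ?_ (fun i => ?_) j
  · have h : (List.ofFn fun i => glMap G ι f (u i)).prod⁻¹ = glMap G ι f (List.ofFn u).prod⁻¹ := by
      rw [map_inv, map_list_prod, List.map_ofFn]
      rfl
    rw [Fin.cons_zero, Fin.cons_zero, h, glMap_coeff]
  · rw [Fin.cons_succ, Fin.cons_succ, glMap_coeff]

theorem glMap_injective {k k' : Type*} [CommRing k] [CommRing k'] (f : k →+* k')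
    (hf : Function.Injective f) : Function.Injective (glMap G ι f) := by
  intro u v h
  exact Units.ext (DLift_inj f hf (congrArg Units.val h))

theorem exists_lift {k : Type*} [CommRing k] {n : ℕ}
    (z : (Fin n → GL ι (MonoidAlgebra k G)) →₀ ℤ) :
    ∃ (k₀ : Subalgebra ℤ k) (_ : Algebra.FiniteType ℤ k₀)
      (z₀ : (Fin n → GL ι (MonoidAlgebra k₀ G)) →₀ ℤ),
      z = Finsupp.mapDomain (fun u i => glMap G ι k₀.val.toRingHom (u i)) z₀ := by
  classical
  let S : Set k := ⋃ u ∈ (z.support : Set (Fin n → GL ι (MonoidAlgebra k G))), ⋃ i,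
    ({x : k | ∃ r c g, ((u i).val r c).coeff g = x} ∪
      {x : k | ∃ r c g, (((u i)⁻¹).val r c).coeff g = x})
  have hS : S.Finite := z.support.finite_toSet.biUnion fun u _ => Set.finite_iUnion fun i =>
    (DLift_cf _).union (DLift_cf _)
  have key : ∀ u : Fin n → GL ι (MonoidAlgebra k G),
      ∃ u₀ : Fin n → GL ι (MonoidAlgebra (Algebra.adjoin ℤ S) G), u ∈ z.support →
        (fun i => glMap G ι (Algebra.adjoin ℤ S).val.toRingHom (u₀ i)) = u := by
    intro u
    by_cases hu : u ∈ z.support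
    · have h1 : ∀ i, ∃ v₀ : GL ι (MonoidAlgebra (Algebra.adjoin ℤ S) G),
          glMap G ι (Algebra.adjoin ℤ S).val.toRingHom v₀ = u i := fun i =>
        DLift_gl _ (u i)
          (fun r c g => Algebra.subset_adjoin
            (Set.mem_biUnion hu (Set.mem_iUnion.2 ⟨i, Or.inl ⟨r, c, g, rfl⟩⟩)))
          fun r c g => Algebra.subset_adjoin
            (Set.mem_biUnion hu (Set.mem_iUnion.2 ⟨i, Or.inr ⟨r, c, g, rfl⟩⟩))
      choose u₀ h₀ using h1
      exact ⟨u₀, fun _ => funext h₀⟩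
    · exact ⟨fun _ => 1, fun h => absurd h hu⟩
  choose L hL using key
  refine ⟨Algebra.adjoin ℤ S, Algebra.FiniteType.adjoin_of_finite hS, Finsupp.mapDomain L z, ?_⟩
  rw [← Finsupp.mapDomain_comp]
  exact ((Finsupp.mapDomain_congr (g := id) hL).trans Finsupp.mapDomain_id).symm

end Pool.Agent.MP_f7db47_al.Cv
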