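import Pool.Agent.MP_f7db47_al.Cv.DQ

namespace Pool.Agent.MP_f7db47_al.Cv

section
variable {R : Type*} [Ring R] {G : Type*} [Group G] {Q : Type*} [AddCommGroup Q]

/-- The pairing on one group ring element. -/
noncomputable def DPair_in (T : R →+ Q) (f : G → ℤ) : MonoidAlgebra R G →+ Q where
  toFun x := x.coeff.sum fun ω M => f ω • T M
  map_zero' := by simp
  map_add' a b := by
    rw [MonoidAlgebra.coeff_add, Finsupp.sum_add_index']
    · intro g
      simp
    · intro g M N
      rw [map_add, smul_add]

omit [Group G] in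
theorem DPair_in_single (T : R →+ Q) (f : G → ℤ) (ω : G) (M : R) :
    DPair_in T f (MonoidAlgebra.single ω M) = f ω • T M := by
  show (MonoidAlgebra.single ω M).coeff.sum (fun ω M => f ω • T M) = _
  rw [MonoidAlgebra.coeff_single, Finsupp.sum_single_index]
  simp

/-- The pairing on chains. -/
noncomputable def DPair_th (T : R →+ Q) (ψ : List G → G → ℤ) :
    (List G →₀ MonoidAlgebra R G) →+ Q :=
  Finsupp.liftAddHom fun t => DPair_in T (ψ t)

theorem DPair_th_single (T : R →+ Q) (ψ : List G → G → ℤ) (t : List G)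
    (x : MonoidAlgebra R G) : DPair_th T ψ (Finsupp.single t x) = DPair_in T (ψ t) x := by
  simp [DPair_th]

theorem DPair_th_apply (T : R →+ Q) (ψ : List G → G → ℤ) (z : List G →₀ MonoidAlgebra R G) :
    DPair_th T ψ z = z.sum fun t x => x.coeff.sum fun ω M => ψ t ω • T M := by
  rw [DPair_th, Finsupp.liftAddHom_apply]
  rfl

variable (κ : Type*) [CommRing κ] [Algebra κ R]

theorem DPair_th_cons (T : R →+ Q) (ψ : List G → G → ℤ) (z : List G →₀ MonoidAlgebra R G) :
    DPair_th T ψ (cons κ _ 1 z) = DPair_th T (fun t ω => ψ (1 :: t) ω) z := by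
  induction z using Finsupp.induction_linear with
  | zero => simp
  | add a b ha hb => simp only [map_add, ha, hb]
  | single t x => rw [cons_single, DPair_th_single, DPair_th_single]

theorem DPair_th_La_single (T : R →+ Q) (ψ : List G → G → ℤ) (g : G) (M : R)
    (z : List G →₀ MonoidAlgebra R G) :
    DPair_th T ψ (La κ (MonoidAlgebra.single g M) z) =
      DPair_th (T.comp (AddMonoidHom.mulLeft M)) (fun t ω => ψ (g • t) (g * ω)) z := by
  induction z using Finsupp.induction_linear with
  | zero => simp
  | add a b ha hb => simp only [map_add, ha, hb]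
  | single t x =>
    rw [La_single, DPair_th_single, DPair_th_single]
    induction x using MonoidAlgebra.induction_linear with
    | zero => simp
    | add a b ha hb => simp only [mul_add, map_add, ha, hb]
    | single ω N =>
      rw [MonoidAlgebra.single_mul_single, DPair_in_single, DPair_in_single]
      rfl

theorem DPair_La_sum {ι : Type*} (s : Finset ι) (a : ι → MonoidAlgebra R G) :
    La κ (∑ i ∈ s, a i) = ∑ i ∈ s, La κ (a i) := by
  classical
  induction s using Finset.induction_on with
  | empty => simp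
  | insert i s hi ih => rw [Finset.sum_insert hi, Finset.sum_insert hi, La_add, ih]

theorem DPair_th_La (T : R →+ Q) (ψ : List G → G → ℤ) (a : MonoidAlgebra R G)
    (z : List G →₀ MonoidAlgebra R G) :
    DPair_th T ψ (La κ a z) = ∑ g ∈ a.coeff.support,
      DPair_th (T.comp (AddMonoidHom.mulLeft (a.coeff g))) (fun t ω => ψ (g • t) (g * ω)) z := by
  conv_lhs => rw [← MonoidAlgebra.sum_coeff_single a, Finsupp.sum, DPair_La_sum]
  rw [LinearMap.sum_apply, map_sum]
  exact Finset.sum_congr rfl fun g _ => DPair_th_La_single κ T ψ g _ z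

/-- The normalised bar element. -/
noncomputable def DPair_bar :
    List (MonoidAlgebra R G) → MonoidAlgebra R G → (List G →₀ MonoidAlgebra R G)
  | [], b => cons κ _ 1 (Finsupp.single [] b)
  | a :: l, b => cons κ _ 1 (La κ a (DPair_bar l b))

theorem DPair_QQ {n : ℕ} (u : Fin n → (MonoidAlgebra R G)ˣ) (v : (MonoidAlgebra R G)ˣ) :
    QQ κ (List.ofFn fun i => v * Fin.partialProd u i) =
      La κ v.val (DPair_bar κ (List.ofFn fun i => (u i).val) ((v * (List.ofFn u).prod)⁻¹).val) := by
  induction n generalizing v with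
  | zero =>
    simp only [List.ofFn_succ, List.ofFn_zero, Fin.partialProd_zero, mul_one, List.prod_nil, QQ,
      DPair_bar, La_nil]
  | succ n ih =>
    rw [List.ofFn_succ, List.ofFn_succ (f := fun i => (u i).val), List.ofFn_succ (f := u)]
    simp only [Fin.partialProd_zero, mul_one, Fin.partialProd_succ', ← mul_assoc, QQ, DPair_bar,
      List.prod_cons]
    rw [ih (Fin.tail u) (v * u 0), ← La_mul, Units.val_mul, ← mul_assoc, Units.inv_mul, one_mul]
    rfl

omit [Group G] in
theorem DPair_sum_cons {n : ℕ} (S : Fin (n + 1) → Finset G) (F : (Fin (n + 1) → G) → Q) :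
    ∑ t ∈ Fintype.piFinset S, F t =
      ∑ c ∈ S 0, ∑ g ∈ Fintype.piFinset fun j : Fin n => S j.succ, F (Fin.cons c g) := by
  classical
  rw [← Finset.sum_product']
  refine Finset.sum_bij' (fun t _ => (t 0, Fin.tail t)) (fun x _ => Fin.cons x.1 x.2) ?_ ?_ ?_ ?_ ?_
  · intro t ht
    rw [Fin.mem_piFinset_iff_zero_tail] at ht
    exact Finset.mem_product.2 ht
  · intro x hx
    rw [Fin.mem_piFinset_iff_zero_tail]
    rw [Fin.cons_zero, Fin.tail_cons]
    exact Finset.mem_product.1 hx
  · intro t _
    exact Fin.cons_self_tail t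
  · intro x _
    simp
  · intro t _
    simp

theorem DPair_th_bar {n : ℕ} (a : Fin n → MonoidAlgebra R G) (b : MonoidAlgebra R G)
    (T : R →+ Q) (ψ : List G → G → ℤ) :
    DPair_th T ψ (DPair_bar κ (List.ofFn a) b) =
      ∑ g ∈ Fintype.piFinset fun j => (a j).coeff.support, ∑ c ∈ b.coeff.support,
        ψ (List.ofFn (Fin.partialProd g)) ((List.ofFn g).prod * c) •
          T ((List.ofFn fun j => (a j).coeff (g j)).prod * b.coeff c) := by
  induction n generalizing T ψ with
  | zero =>
    rw [List.ofFn_zero, DPair_bar, cons_single, DPair_th_single, Fintype.piFinset_of_isEmpty,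
      Finset.univ_unique, Finset.sum_singleton]
    simp only [List.ofFn_succ, List.ofFn_zero, Fin.partialProd_zero, List.prod_nil, one_mul]
    rfl
  | succ n ih =>
    rw [List.ofFn_succ, DPair_bar, DPair_th_cons, DPair_th_La, DPair_sum_cons]
    refine Finset.sum_congr rfl fun g0 _ => ?_
    rw [ih]
    refine Finset.sum_congr rfl fun g _ => Finset.sum_congr rfl fun c _ => ?_
    have e1 : List.ofFn (Fin.partialProd (Fin.cons g0 g : Fin (n + 1) → G)) =
        1 :: g0 • List.ofFn (Fin.partialProd g) := by
      rw [List.ofFn_succ, smul_list, List.map_ofFn]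
      simp only [Fin.partialProd_zero, Fin.partialProd_succ', Fin.cons_zero, Fin.tail_cons]
      rfl
    rw [e1, List.ofFn_succ (f := (Fin.cons g0 g : Fin (n + 1) → G)),
      List.ofFn_succ (f := fun j => (a j).coeff ((Fin.cons g0 g : Fin (n + 1) → G) j))]
    simp only [Fin.cons_zero, Fin.cons_succ, List.prod_cons, mul_assoc]
    rfl

theorem DPair_toF {n : ℕ} (φ : (Fin (n + 1) → G) → ℤ) (g : Fin n → G) (c : G) :
    toF φ (List.ofFn (Fin.partialProd g)) ((List.ofFn g).prod * c) = φ (Fin.cons c g) := by
  have h : ∀ i : Fin (n + 1), (List.ofFn (Fin.partialProd g)).getD i 1 = Fin.partialProd g i := by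
    intro i
    rw [List.getD_eq_getElem _ _ (by simpa using i.2), List.getElem_ofFn]
  have hl : Fin.partialProd g (Fin.last n) = (List.ofFn g).prod := by
    simp [Fin.partialProd, List.take_of_length_le]
  rw [toF, if_pos (List.length_ofFn ..)]
  congr 2
  · have h1 := h (Fin.last n)
    have h0 := h 0
    rw [Fin.val_last] at h1
    rw [Fin.val_zero] at h0
    rw [h1, h0, hl, Fin.partialProd_zero, inv_mul_cancel_left, mul_one]
  · funext j
    have h1 := h j.castSucc
    have h2 := h j.succ
    rw [Fin.val_castSucc] at h1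
    rw [Fin.val_succ] at h2
    rw [h1, h2, Fin.partialProd_right_inv]

end

theorem pair_QQ (κ : Type*) [CommRing κ] {R : Type*} [Ring R] [Algebra κ R] {G : Type*} [Group G]
    {Q : Type*} [AddCommGroup Q] (T : R →+ Q) (hT : ∀ a b, T (a * b) = T (b * a)) {n : ℕ}
    (φ : (Fin (n + 1) → G) → ℤ) (u : Fin n → (MonoidAlgebra R G)ˣ) :
    ((QQ κ (List.ofFn (Fin.partialProd u))).sum fun t x =>
        x.coeff.sum fun ω M => toF φ t ω • T M) =
      ∑ᶠ t : Fin (n + 1) → G, φ t • T (List.ofFn fun j =>
        ((Fin.cons ((List.ofFn u).prod⁻¹).val fun i => (u i).val :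
          Fin (n + 1) → MonoidAlgebra R G) j).coeff (t j)).prod := by
  classical
  have hq := DPair_QQ κ u 1
  simp only [one_mul, Units.val_one, La_one] at hq
  rw [← DPair_th_apply]
  have hq' : QQ κ (List.ofFn (Fin.partialProd u)) = DPair_bar κ (List.ofFn fun i => (u i).val)
      ((List.ofFn u).prod⁻¹).val := hq
  rw [hq', DPair_th_bar]
  generalize ((List.ofFn u).prod⁻¹).val = b
  rw [finsum_eq_sum_of_support_subset (s := Fintype.piFinset fun j =>
    ((Fin.cons b fun i => (u i).val : Fin (n + 1) → MonoidAlgebra R G) j).coeff.support)]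
  · rw [DPair_sum_cons, Finset.sum_comm]
    simp only [Fin.cons_zero, Fin.cons_succ]
    refine Finset.sum_congr rfl fun c _ => Finset.sum_congr rfl fun g _ => ?_
    rw [DPair_toF, hT, List.ofFn_succ]
    simp only [Fin.cons_zero, Fin.cons_succ, List.prod_cons]
  · intro t ht
    rw [Finset.mem_coe, Fintype.mem_piFinset]
    intro j
    rw [Finsupp.mem_support_iff]
    intro h0
    apply ht
    have h1 : (List.ofFn fun j => ((Fin.cons b fun i => (u i).val :
        Fin (n + 1) → MonoidAlgebra R G) j).coeff (t j)).prod = 0 :=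
      List.prod_eq_zero (List.mem_ofFn.2 ⟨j, h0⟩)
    show φ t • T _ = 0
    rw [h1, map_zero, smul_zero]

end Pool.Agent.MP_f7db47_al.Cv
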