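import Pool.Agent.MP_f7db47_al.Cv.KDefs

namespace Pool.Agent.MP_f7db47_al.Cv

section
open Matrix
variable {ι : Type} [Fintype ι] [DecidableEq ι] {R : Type*} [Ring R]

theorem ElemVW_U (a : Matrix ι ι R) :
    fromBlocks (1 : Matrix ι ι R) a 0 (1 : Matrix ι ι R) ∈ Elem (ι ⊕ ι) R := by
  induction a using Matrix.induction_on' with
  | h_zero => rw [fromBlocks_one]; exact one_mem _
  | h_add p q hp hq => simpa [fromBlocks_multiply, add_comm] using mul_mem hp hq
  | h_std_basis i j c =>
    refine Submonoid.subset_closure ⟨.inl i, .inr j, c, Sum.inl_ne_inr, ?_⟩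
    ext (x | x) (y | y) <;> simp [one_apply, single]

theorem ElemVW_L (a : Matrix ι ι R) :
    fromBlocks (1 : Matrix ι ι R) 0 a (1 : Matrix ι ι R) ∈ Elem (ι ⊕ ι) R := by
  induction a using Matrix.induction_on' with
  | h_zero => rw [fromBlocks_one]; exact one_mem _
  | h_add p q hp hq => simpa [fromBlocks_multiply, add_comm] using mul_mem hp hq
  | h_std_basis i j c =>
    refine Submonoid.subset_closure ⟨.inr i, .inl j, c, Sum.inr_ne_inl, ?_⟩
    ext (x | x) (y | y) <;> simp [one_apply, single]

theorem ElemVW_diag {v w : (Matrix ι ι R)ˣ} {a b : Matrix ι ι R} (hv : v.val = 1 + a * b)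
    (hw : w.val = 1 + b * a) : fromBlocks v.val 0 0 w⁻¹.val ∈ Elem (ι ⊕ ι) R := by
  have e : w⁻¹.val = 1 - b * v⁻¹.val * a := by
    refine (Units.inv_eq_of_mul_eq_one_right ?_)
    have : (1 + b * a) * (1 - b * v⁻¹.val * a) = 1 + b * a - b * ((1 + a * b) * v⁻¹.val) * a := by
      noncomm_ring
    rw [hw, this, ← hv, v.mul_inv, mul_one, add_sub_cancel_right]
  have h := mul_mem (mul_mem (ElemVW_L (-(b * v⁻¹.val))) (mul_mem (ElemVW_U a) (ElemVW_L b)))
    (ElemVW_U (-(v⁻¹.val * a)))
  simp only [fromBlocks_multiply, mul_one, one_mul, mul_zero, zero_mul, add_zero, zero_add, ← hv,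
    neg_mul, mul_neg, Units.inv_mul_cancel_right, Units.mul_inv_cancel_left, neg_add_cancel,
    neg_zero] at h
  rwa [e, sub_eq_neg_add]

theorem ElemVW_gen {v w : (Matrix ι ι R)ˣ} {a b : Matrix ι ι R} (hv : v.val = 1 + a * b)
    (hw : w.val = 1 + b * a) :
    fromBlocks (v * w⁻¹).val 0 0 (1 : Matrix ι ι R) ∈ Elem (ι ⊕ ι) R := by
  have h := mul_mem (ElemVW_diag hv hw)
    (ElemVW_diag (v := w⁻¹) (w := w⁻¹) (a := w⁻¹.val - 1) (b := 1) (by simp) (by simp))
  simpa only [fromBlocks_multiply, mul_zero, zero_mul, add_zero, zero_add, inv_inv, Units.inv_mul,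
    Units.val_mul] using h

end

theorem elem_of_VW {ι : Type} [Fintype ι] [DecidableEq ι] {R : Type*} [Ring R]
    {u : (Matrix ι ι R)ˣ} (hu : u ∈ VW (Matrix ι ι R)) :
    Matrix.fromBlocks (u : Matrix ι ι R) 0 0 (1 : Matrix ι ι R) ∈ Elem (ι ⊕ ι) R := by
  induction hu using Subgroup.closure_induction'' with
  | mem x hx =>
    obtain ⟨v, w, a, b, hv, hw, rfl⟩ := hx
    exact ElemVW_gen hv hw
  | inv_mem x hx =>
    obtain ⟨v, w, a, b, hv, hw, rfl⟩ := hx
    rw [mul_inv_rev, inv_inv]
    exact ElemVW_gen hw hv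
  | one => rw [Units.val_one, Matrix.fromBlocks_one]; exact one_mem _
  | mul x y _ _ hx hy => simpa [Matrix.fromBlocks_multiply] using mul_mem hx hy

/-- Power series over matrices are matrices over power series. -/
theorem exists_ms (ι : Type) [Fintype ι] [DecidableEq ι] (R : Type*) [Ring R] :
    ∃ e : PowerSeries (Matrix ι ι R) ≃+* Matrix ι ι (PowerSeries R),
      ∀ f n i j, PowerSeries.coeff n (e f i j) = PowerSeries.coeff n f i j := by
  refine ⟨{ toFun := fun f => Matrix.of fun i j => PowerSeries.mk fun n => PowerSeries.coeff n f i j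
            invFun := fun M => PowerSeries.mk fun n => Matrix.of fun i j =>
              PowerSeries.coeff n (M i j)
            left_inv := fun f => by ext; simp
            right_inv := fun M => by ext; simp
            map_mul' := fun f g => ?_
            map_add' := fun f g => by ext; simp }, fun f n i j => by simp⟩
  ext i j n
  simp only [Matrix.of_apply, PowerSeries.coeff_mk, PowerSeries.coeff_mul, Matrix.mul_apply,
    Matrix.sum_apply, map_sum]
  exact Finset.sum_comm

/-- Group rings over matrices are matrices over group rings. -/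
theorem exists_gm (ι : Type) [Fintype ι] [DecidableEq ι] (k : Type*) [CommRing k] (G : Type*)
    [Group G] : ∃ e : MonoidAlgebra (Matrix ι ι k) G ≃+* Matrix ι ι (MonoidAlgebra k G),
      ∀ x c i j, (e x i j).coeff c = x.coeff c i j := by
  let f : MonoidAlgebra (Matrix ι ι k) G →+ Matrix ι ι (MonoidAlgebra k G) := AddMonoidHom.mk'
    (fun x => Matrix.of fun i j => x.map (Matrix.entryAddMonoidHom k i j)) fun x y => by
      refine Matrix.ext fun i j => ?_
      exact MonoidAlgebra.map_add (Matrix.entryAddMonoidHom k i j) x y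
  have hf : ∀ x c i j, (f x i j).coeff c = x.coeff c i j := fun _ _ _ _ => rfl
  have hs : ∀ c a i j, f (MonoidAlgebra.single c a) i j = MonoidAlgebra.single c (a i j) :=
    fun c a i j => MonoidAlgebra.map_single (Matrix.entryAddMonoidHom k i j) a c
  have hb : Function.Bijective f := by
    refine ⟨fun x y e => ?_, fun M => ?_⟩
    · ext c i j
      rw [← hf, e, hf]
    · refine ⟨∑ i, ∑ j, (M i j).map (Matrix.singleAddMonoidHom i j), ?_⟩
      ext i j c
      simp [hf, MonoidAlgebra.coeff_sum, Matrix.sum_apply, Matrix.single, ite_and]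
  refine ⟨{ AddEquiv.ofBijective f hb with map_mul' := fun x y => ?_ }, hf⟩
  change f (x * y) = f x * f y
  induction x using MonoidAlgebra.induction_linear with
  | zero => simp
  | add x x' h h' => rw [add_mul, map_add, map_add, h, h', add_mul]
  | single c a =>
    induction y using MonoidAlgebra.induction_linear with
    | zero => simp
    | add y y' h h' => rw [mul_add, map_add, map_add, h, h', mul_add]
    | single d b =>
      refine Matrix.ext fun i j => ?_
      simp only [MonoidAlgebra.single_mul_single, hs, Matrix.mul_apply]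
      exact map_sum (MonoidAlgebra.singleAddHom (c * d)) _ _

theorem trace_of_TT {k : Type*} [CommRing k] {G : Type*} [Group G] {g : G} (h : TT k g)
    {ι : Type} [Fintype ι] [DecidableEq ι] (M : Matrix ι ι (MonoidAlgebra k G))
    (hM : IsNilpotent M) : cs g (Matrix.trace M) = 0 := by
  obtain ⟨e, he⟩ := exists_gm ι k G
  obtain ⟨x, rfl⟩ := e.surjective M
  rw [← h ι x ((IsNilpotent.map_iff e.injective).1 hM), Matrix.trace, Matrix.trace, map_sum]
  refine Finset.sum_congr rfl fun i _ => ?_
  have : e x i i = x.map (Matrix.entryAddMonoidHom k i i) := by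
    ext c
    exact he x c i i
  rw [Matrix.diag_apply, this]
  exact csum_map _ _ _

end Pool.Agent.MP_f7db47_al.Cv
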