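import Pool.Agent.MP_f7db47_al.Cv.Defs

namespace Pool.Agent.MP_f7db47_al.Cv

section aux
open CategoryTheory

variable {κ : Type} [Field κ] {G : Type} [Group G]

theorem ResPd_FR (B : Type) (h : G) (y : FB G B) (a : κ) :
    FR κ G B h (Finsupp.single y a) = Finsupp.single (h • y) a := by
  simp [FR]

/-- The equivariant map with prescribed values on the generators. -/
noncomputable def ResPd_lift {B V : Type} [AddCommGroup V] [Module κ V] (σ : Representation κ G V)
    (s : B → V) : (FB G B →₀ κ) →ₗ[κ] V :=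
  Finsupp.linearCombination κ fun y => σ y.g (s y.b)

theorem ResPd_lift_single {B V : Type} [AddCommGroup V] [Module κ V] (σ : Representation κ G V)
    (s : B → V) (y : FB G B) (a : κ) :
    ResPd_lift σ s (Finsupp.single y a) = a • σ y.g (s y.b) := by
  simp [ResPd_lift]

theorem ResPd_lift_equi {B V : Type} [AddCommGroup V] [Module κ V] (σ : Representation κ G V)
    (s : B → V) : Equi (FR κ G B) σ (ResPd_lift σ s) := by
  intro h z
  induction z using Finsupp.induction_linear with
  | zero => simp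
  | add a b ha hb => simp [ha, hb]
  | single y a => rw [ResPd_FR, ResPd_lift_single, ResPd_lift_single]; simp

/-- An equivariant map as a morphism of representations. -/
noncomputable def ResPd_hom {V W : Type} [AddCommGroup V] [Module κ V] [AddCommGroup W]
    [Module κ W] {ρ : Representation κ G V} {σ : Representation κ G W} (f : V →ₗ[κ] W)
    (hf : Equi ρ σ f) : Rep.of ρ ⟶ Rep.of σ :=
  Rep.ofHom ⟨f, fun g => LinearMap.ext fun v => hf g v⟩

theorem ResPd_proj (B : Type) : Projective (Rep.of (FR κ G B)) where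
  factors {E X} f e he := by
    choose s hs using (Rep.epi_iff_surjective e).1 he
    refine ⟨ResPd_hom (ResPd_lift E.ρ fun b => s (f.hom (Finsupp.single ⟨1, b⟩ 1)))
      (ResPd_lift_equi _ _), ?_⟩
    refine Rep.hom_ext (Representation.IntertwiningMap.ext (LinearMap.ext fun z => ?_))
    show e.hom (ResPd_lift E.ρ (fun b => s (f.hom (Finsupp.single ⟨1, b⟩ 1))) z) = f.hom z
    induction z using Finsupp.induction_linear with
    | zero => simp
    | add a b ha hb => rw [map_add, map_add, map_add, ha, hb]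
    | single y a =>
      rw [ResPd_lift_single, map_smul, Rep.hom_comm_apply, hs, ← Rep.hom_comm_apply, ← map_smul]
      congr 1
      show a • FR κ G B y.g (Finsupp.single ⟨1, y.b⟩ 1) = Finsupp.single y a
      rw [ResPd_FR, Finsupp.smul_single, smul_eq_mul, mul_one]
      congr 1
      exact FB.ext (mul_one _) rfl

theorem ResPd_surj (K : Rep.{0} κ G) :
    Function.Surjective (ResPd_lift K.ρ (id : K.V → K.V)) := fun v =>
  ⟨Finsupp.single ⟨1, v⟩ 1, by rw [ResPd_lift_single]; simp⟩

variable {V : Type} [AddCommGroup V] [Module κ V]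

theorem ResPd_step (ρ : Representation κ G V) (K : Rep.{0} κ G) (f : V →ₗ[κ] K.V)
    (hf : Equi ρ K.ρ f) (hs : Function.Surjective f) (hP : Projective (Rep.of ρ)) (n : ℕ)
    (h : HasProjectiveDimensionLE K (n + 1)) :
    HasProjectiveDimensionLE (Rep.of (X := LinearMap.ker f)
      (ρ.subrepresentation (LinearMap.ker f) (ker_le_comap hf))) n := by
  let q : Rep.of ρ ⟶ K := ResPd_hom _ hf
  let i : Rep.of (X := LinearMap.ker f)
      (ρ.subrepresentation (LinearMap.ker f) (ker_le_comap hf)) ⟶ Rep.of ρ :=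
    ResPd_hom (V := LinearMap.ker f) (LinearMap.ker f).subtype fun _ _ => rfl
  let S : ShortComplex (Rep.{0} κ G) := ShortComplex.mk i q
    (Rep.hom_ext (Representation.IntertwiningMap.ext (LinearMap.ext fun z => z.2)))
  have hS : S.ShortExact :=
    { exact := by
        rw [← S.exact_map_iff_of_faithful (forget₂ _ (ModuleCat κ)),
          ShortComplex.moduleCat_exact_iff]
        intro x hx
        exact ⟨⟨x, hx⟩, rfl⟩
      mono_f := (Rep.mono_iff_injective i).2 Subtype.val_injective
      epi_g := (Rep.epi_iff_surjective q).2 hs }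
  exact (hS.hasProjectiveDimensionLT_X₃_iff n hP).1 h

theorem ResPd_range (σ : Representation κ G V) (t : G) (m : ℕ) (x : V) :
    σ (t ^ m) x - x ∈ LinearMap.range (sg σ t) := by
  induction m with
  | zero => simp
  | succ m ih =>
    have h1 : σ (t ^ (m + 1)) x - x = -(sg σ t (σ (t ^ m) x)) + (σ (t ^ m) x - x) := by
      rw [sg_apply, pow_succ', map_mul, Module.End.mul_apply]
      abel
    rw [h1]
    exact Submodule.add_mem _ (Submodule.neg_mem _ ⟨_, rfl⟩) ih

theorem ResPd_inv (σ : Representation κ G V) (t : G) (p : ℕ) (x : V) :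
    ∑ m ∈ Finset.range p, σ (t ^ m)⁻¹ x = σ (t ^ (p - 1))⁻¹ (NT σ t p x) := by
  rw [NT_apply, map_sum,
    ← Finset.sum_range_reflect (fun m => σ (t ^ (p - 1))⁻¹ (σ (t ^ m) x)) p]
  refine Finset.sum_congr rfl fun m hm => ?_
  have h1 : p - 1 = m + (p - 1 - m) := by
    have := Finset.mem_range.1 hm
    omega
  have h2 : (t ^ (p - 1))⁻¹ * t ^ (p - 1 - m) = (t ^ m)⁻¹ := by
    conv_lhs => rw [show t ^ (p - 1) = t ^ (p - 1 - m) * t ^ m by
      rw [← pow_add, add_comm, ← h1]]
    group
  rw [← Module.End.mul_apply, ← map_mul, h2]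

/-- Exactness of the periodic complex. -/
def ResPd_P (σ : Representation κ G V) (t : G) (p : ℕ) : Prop :=
  ∀ n v, th σ t p n v = 0 → ∃ w, v = th σ t p (n + 1) w

theorem ResPd_higman (σ : Representation κ G V) (t : G) (p : ℕ) (e : V →ₗ[κ] V)
    (he : ∀ v, ∑ m ∈ Finset.range p, σ (t ^ m) (e (σ (t ^ m)⁻¹ v)) = v) : ResPd_P σ t p := by
  intro n v hv
  unfold th at hv ⊢
  by_cases h : n % 2 = 0
  · rw [if_pos h] at hv
    rw [if_neg (by omega)]
    have h1 : ∑ m ∈ Finset.range p, e (σ (t ^ m)⁻¹ v) = 0 := by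
      rw [← map_sum, ResPd_inv, hv, map_zero, map_zero]
    have h2 : ∑ m ∈ Finset.range p, (σ (t ^ m) (e (σ (t ^ m)⁻¹ v)) - e (σ (t ^ m)⁻¹ v)) ∈
        LinearMap.range (sg σ t) := Submodule.sum_mem _ fun m _ => ResPd_range σ t m _
    rw [Finset.sum_sub_distrib, he, h1, sub_zero] at h2
    obtain ⟨w, hw⟩ := h2
    exact ⟨w, hw.symm⟩
  · rw [if_neg h, sg_apply, sub_eq_zero] at hv
    rw [if_pos (by omega)]
    have h1 : ∀ m, σ (t ^ m) v = v := by
      intro m
      induction m with
      | zero => simp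
      | succ m ih => rw [pow_succ, map_mul, Module.End.mul_apply, ← hv, ih]
    have h2 : ∀ m, σ (t ^ m)⁻¹ v = v := by
      intro m
      conv_lhs => rw [← h1 m]
      rw [← Module.End.mul_apply, ← map_mul, inv_mul_cancel, map_one, Module.End.one_apply]
    refine ⟨e v, ?_⟩
    rw [NT_apply]
    conv_lhs => rw [← he v]
    simp only [h2]

theorem ResPd_free {t : G} {p : ℕ} (hp : 0 < p) (ho : orderOf t = p) (B : Type) :
    ResPd_P (FR κ G B) t p := by
  classical
  obtain ⟨T, hT, -⟩ := (Subgroup.zpowers t).exists_isComplement_right 1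
  rw [Subgroup.isComplement_iff_existsUnique_inv_mul_mem] at hT
  have hfin : IsOfFinOrder t := orderOf_pos_iff.1 (ho ▸ hp)
  refine ResPd_higman _ t p
    (Finsupp.lsum κ fun y : FB G B => if y.g ∈ T then Finsupp.lsingle y else 0) fun v => ?_
  induction v using Finsupp.induction_linear with
  | zero => simp
  | add a b ha hb => simp only [map_add, Finset.sum_add_distrib, ha, hb]
  | single y a =>
    obtain ⟨s, hs, hu⟩ := hT y.g
    have hs2 : (s : G) ∈ Subgroup.zpowers t := s.2
    rw [hfin.mem_zpowers_iff_mem_range_orderOf, ho, Finset.mem_image] at hs2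
    obtain ⟨m, hm, hms⟩ := hs2
    rw [Finset.sum_eq_single m]
    · rw [ResPd_FR, Finsupp.lsum_single, if_pos (by rw [FB.smul_g, hms]; exact hs),
        Finsupp.lsingle_apply, ResPd_FR, smul_inv_smul]
    · intro j hj hjm
      rw [ResPd_FR, Finsupp.lsum_single, if_neg, LinearMap.zero_apply, map_zero]
      intro hc
      have h1 := hu ⟨t ^ j, Subgroup.npow_mem_zpowers t j⟩ hc
      have h2 : t ^ j = t ^ m := by rw [hms, ← h1]
      exact hjm (pow_injOn_Iio_orderOf (by rw [ho]; exact Finset.mem_range.1 hj)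
        (by rw [ho]; exact Finset.mem_range.1 hm) h2)
    · intro h
      exact absurd hm h

theorem ResPd_th2 (σ : Representation κ G V) (t : G) (p n : ℕ) :
    th σ t p (n + 1 + 1) = th σ t p n := by
  unfold th
  rw [show (n + 1 + 1) % 2 = n % 2 by omega]

theorem ResPd_res {t : G} {p : ℕ} (hp : 0 < p) (ho : orderOf t = p) (n : ℕ) :
    ∀ {K : Type} [AddCommGroup K] [Module κ K] (σ : Representation κ G K), Res n σ →
      ResPd_P σ t p := by
  have ht : t ^ p = 1 := ho ▸ pow_orderOf_eq_one t
  induction n with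
  | zero =>
    rintro K _ _ σ ⟨B, i, q, hi, hq, hqi⟩ j v hv
    obtain ⟨w, hw⟩ := ResPd_free (κ := κ) hp ho B j (i v)
      (by rw [← map_th_eq (hi t), hv, map_zero])
    exact ⟨q w, by rw [← map_th_eq (hq t), ← hw, hqi]⟩
  | succ n ih =>
    rintro K _ _ σ ⟨B, f, hf, hs, hr⟩ j v hv
    obtain ⟨u, rfl⟩ := hs v
    have hsub : ∀ (m : ℕ) (x : LinearMap.ker f),
        (LinearMap.ker f).subtype (th ((FR κ G B).subrepresentation (LinearMap.ker f)
          (ker_le_comap hf)) t p m x) = th (FR κ G B) t p m x :=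
      fun m x => map_th_eq (f := (LinearMap.ker f).subtype) (fun _ => rfl) p m x
    have hk : th (FR κ G B) t p j u ∈ LinearMap.ker f := by
      rw [LinearMap.mem_ker, map_th_eq (hf t), hv]
    obtain ⟨w, hw⟩ := ih _ hr (j + 1) ⟨_, hk⟩ (by
      apply Subtype.ext
      exact (hsub (j + 1) ⟨_, hk⟩).trans (th_th _ ht j u))
    have h1 : th (FR κ G B) t p j u = th (FR κ G B) t p j w := by
      have h2 := congrArg (LinearMap.ker f).subtype hw
      rw [hsub, ResPd_th2] at h2
      exact h2
    obtain ⟨z, hz⟩ := ResPd_free (κ := κ) hp ho B j (u - w) (by rw [map_sub, h1, sub_self])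
    refine ⟨f z, ?_⟩
    rw [← map_th_eq (hf t), ← hz, map_sub, LinearMap.mem_ker.1 w.2, sub_zero]

end aux

theorem res_of_pd {κ : Type} [Field κ] {G : Type} [Group G] (n : ℕ) (K : Rep.{0} κ G)
    (h : CategoryTheory.HasProjectiveDimensionLE K n) : Res n K.ρ := by
  induction n generalizing K with
  | zero =>
    have hP := (CategoryTheory.projective_iff_hasProjectiveDimensionLE_zero K).2 h
    let q : Rep.of (FR κ G K.V) ⟶ K := ResPd_hom _ (ResPd_lift_equi K.ρ id)
    have : CategoryTheory.Epi q := (Rep.epi_iff_surjective q).2 (ResPd_surj K)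
    obtain ⟨i, hi⟩ := hP.factors (CategoryTheory.CategoryStruct.id K) q
    refine ⟨K.V, i.hom.toLinearMap, ResPd_lift K.ρ id, fun g v => Rep.hom_comm_apply i g v,
      ResPd_lift_equi K.ρ id, fun v => ?_⟩
    exact congrArg (fun φ : K ⟶ K => φ.hom v) hi
  | succ n ih =>
    have hf := ResPd_lift_equi K.ρ (id : K.V → K.V)
    refine ⟨K.V, ResPd_lift K.ρ id, hf, ResPd_surj K, ?_⟩
    exact ih (Rep.of (X := LinearMap.ker (ResPd_lift K.ρ id)) _)
      (ResPd_step (FR κ G K.V) K _ hf (ResPd_surj K) (ResPd_proj K.V) n h)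

theorem res_zmod {p : ℕ} [Fact p.Prime] {G : Type} [Group G] (n : ℕ)
    (h : CategoryTheory.HasProjectiveDimensionLE (Rep.trivial (ZMod p) G (ZMod p)) n) :
    Res n (Representation.trivial (ZMod p) G (ZMod p)) :=
  res_of_pd n (Rep.trivial (ZMod p) G (ZMod p)) h

/-- A group of finite cohomological dimension mod `p` has no element of order `p`. -/
theorem no_torsion {κ : Type} [Field κ] {G : Type} [Group G] {p : ℕ} (hp : p.Prime)
    (h0 : (p : κ) = 0) {n : ℕ} (h : Res n (Representation.trivial κ G κ)) (t : G)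
    (ht : t ^ p = 1) : t = 1 := by
  by_contra h1
  have : Fact p.Prime := ⟨hp⟩
  obtain ⟨w, hw⟩ := ResPd_res hp.pos (orderOf_eq_prime ht h1) n _ h 1 1 (by
    unfold th
    rw [if_neg (by omega), sg_apply]
    simp)
  unfold th at hw
  rw [if_pos (by omega), NT_apply] at hw
  simp [h0] at hw

end Pool.Agent.MP_f7db47_al.Cv
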