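import Pool.Agent.MP_f7db47_al.Cv.DCore
import Pool.Agent.MP_f7db47_al.Cv.DConv
import Pool.Agent.MP_f7db47_al.Cv.DPair
import Pool.Agent.MP_f7db47_al.Cv.DChar
import Pool.Agent.MP_f7db47_al.Cv.DLift
import Pool.Agent.MP_f7db47_al.Cv.ElemVW
import Pool.Agent.MP_f7db47_al.Cv.ResPd

namespace Pool.Agent.MP_f7db47_al.Cv

theorem map_pprod {U U' : Type*} [Group U] [Group U'] (ψ : U →* U') {n : ℕ} (u : Fin n → U)
    (i : Fin (n + 1)) : Fin.partialProd (fun j => ψ (u j)) i = ψ (Fin.partialProd u i) := by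
  induction i using Fin.induction with
  | zero => simp
  | succ i ih => rw [Fin.partialProd_succ, Fin.partialProd_succ, ih, map_mul]

theorem dennis_hom {p : ℕ} [Fact p.Prime] {G : Type} [Group G] {g : G} {D : ℕ}
    (hD : Res D (Representation.trivial (ZMod p) (Subgroup.centralizer ({g ^ p} : Set G))
      (ZMod p)))
    {R : Type*} [Ring R] [Algebra (ZMod p) R] {tr : R →ₗ[ZMod p] ZMod p}
    (htr : ∀ a b, tr (a * b) = tr (b * a)) {F : List G → G → ZMod p} (hF : Coc F g) {n : ℕ}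
    {U : Type*} [Group U] (ψ : U →* (MonoidAlgebra R G)ˣ) (z : (Fin (n + 1) → U) →₀ ℤ)
    (hz : dI n z = 0) {A : Set G}
    (hA : ∀ u ∈ z.support, ∀ v ∈ z.support, ∀ i j c,
      (ψ ((Fin.partialProd u i)⁻¹ * Fin.partialProd v j)).val.coeff c ≠ 0 → c ∈ A)
    (hfar : ∀ x, Wd A (2 * (D + (n + 1) + 4)) x → ¬ IsConj x (g ^ p)) :
    (z.sum fun u a => (a : ZMod p) *
      (QQ (ZMod p) (List.ofFn (Fin.partialProd fun i => ψ (u i)))).sum fun t x =>
        x.coeff.sum fun ω M => F t ω * tr (M ^ p)) = 0 := by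
  have hc := HC_bd (ZMod p) n (Finsupp.mapDomain (fun u i => ψ (u i)) z)
  rw [dI_map, hz, Finsupp.mapDomain_zero, map_zero, sub_zero] at hc
  have e : HC (ZMod p) (n + 1) (Finsupp.mapDomain (fun u i => ψ (u i)) z) =
      ∑ u ∈ z.support, Finsupp.single (List.ofFn (Fin.partialProd fun i => ψ (u i)))
        ((z u : ℤ) : ZMod p) := by
    rw [Finsupp.mapDomain, Finsupp.sum, map_sum]
    exact Finset.sum_congr rfl fun u _ => HC_single _ _ _ _
  rw [e] at hc
  have h := dennis_core hD htr hF (n := n + 1)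
    (E := {w | ∃ u ∈ z.support, ∃ i, w = ψ (Fin.partialProd u i)}) (A := A)
    (by
      rintro _ ⟨u, hu, i, rfl⟩ _ ⟨v, hv, j, rfl⟩ c hc'
      refine hA u hu v hv i j c ?_
      rwa [map_mul, map_inv])
    hfar _
    (Submodule.sum_mem _ fun u hu => Finsupp.single_mem_supported _ _
      ⟨List.length_ofFn, fun w hw => by
        obtain ⟨i, rfl⟩ := List.mem_ofFn.1 hw
        exact ⟨u, hu, i, map_pprod ψ u i⟩⟩) hc
  have e2 : ∀ (S : List (MonoidAlgebra R G)ˣ → ZMod p)
      (y : List (MonoidAlgebra R G)ˣ →₀ ZMod p),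
      (y.sum fun l c => c * S l) = Finsupp.linearCombination (ZMod p) S y := fun S y => rfl
  rw [e2, map_sum] at h
  rw [← h, Finsupp.sum]
  exact Finset.sum_congr rfl fun u _ => by
    rw [Finsupp.linearCombination_single, smul_eq_mul]

theorem dennis_ft {k : Type} [CommRing k] [IsReduced k] [IsAddTorsionFree k]
    [Algebra.FiniteType ℤ k] {G : Type} [Group G] {g : G} (hg : Far g) {ι : Type} [Fintype ι]
    [DecidableEq ι] {n : ℕ} (z : (Fin (n + 1) → GL ι (MonoidAlgebra k G)) →₀ ℤ)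
    (hz : dI n z = 0) {φ : (Fin (n + 2) → G) → ℤ} (hφ : HCocycle φ)
    (hs : ∀ t, φ t ≠ 0 → IsConj (List.ofFn t).prod g) :
    (z.sum fun u a => a • dennis φ u) = 0 := by
  classical
  by_contra ha
  obtain ⟨N₀, hN⟩ := exists_charp k _ ha
  let A : Finset G := (z.support.biUnion fun u => z.support.biUnion fun v =>
    Finset.univ.biUnion fun x : Fin (n + 2) × Fin (n + 2) × ι × ι =>
      (((Fin.partialProd u x.1)⁻¹ * Fin.partialProd v x.2.1).val x.2.2.1 x.2.2.2).coeff.support) ∪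
    (Finset.range (N₀ + 1)).image fun q => g ^ q
  obtain ⟨p, D, hp, hD, hfar⟩ := hg A (2 * (n + 5))
  have hpN : N₀ < p := by
    by_contra h
    refine hfar [g ^ p] (fun x hx => ?_) ?_ (by rw [List.prod_singleton])
    · rw [List.mem_singleton.1 hx]
      exact Finset.mem_union_right _
        (Finset.mem_image.2 ⟨p, Finset.mem_range.2 (by omega), rfl⟩)
    · rw [List.length_singleton]
      exact Nat.succ_le_of_lt (by positivity)
  obtain ⟨K, _, f, hK, hf⟩ := hN p hp hpN
  haveI := Fact.mk hp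
  letI : Algebra (ZMod p) K := ZMod.algebra K p
  obtain ⟨e, he⟩ := exists_gm ι K G
  let ψ₀ : GL ι (MonoidAlgebra K G) →* (MonoidAlgebra (Matrix ι ι K) G)ˣ :=
    Units.map e.symm.toRingHom.toMonoidHom
  have hψ₀ : ∀ (u : GL ι (MonoidAlgebra K G)) c,
      (ψ₀ u).val.coeff c = u.val.map fun x => x.coeff c := fun u c => by
    ext a b
    rw [← he]
    exact congrArg (fun M : Matrix ι ι (MonoidAlgebra K G) => (M a b).coeff c)
      (e.apply_symm_apply u.val)
  have hd : ∀ u : Fin (n + 1) → GL ι (MonoidAlgebra K G),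
      ((QQ (ZMod p) (List.ofFn (Fin.partialProd fun i => ψ₀ (u i)))).sum fun t x =>
        x.coeff.sum fun ω M => toF φ t ω • Matrix.trace M) = dennis φ u := fun u => by
    have := pair_QQ (ZMod p) (Matrix.traceAddMonoidHom ι K)
      (fun a b => Matrix.trace_mul_comm a b) φ fun i => ψ₀ (u i)
    refine this.trans (finsum_congr fun t => ?_)
    congr 1
    refine congrArg (fun l : List (Matrix ι ι K) => Matrix.trace l.prod)
      (congrArg List.ofFn (funext fun j => ?_))
    refine Fin.cases ?_ (fun i => ?_) j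
    · rw [Fin.cons_zero, Fin.cons_zero, ← hψ₀, map_inv, map_list_prod, List.map_ofFn]
      rfl
    · rw [Fin.cons_succ, Fin.cons_succ, hψ₀]
  refine hf (frobenius_inj K p ((Module.forall_dual_apply_eq_zero_iff (ZMod p) _).1
    (fun χ => ?_) |>.trans (map_zero _).symm))
  have h := dennis_hom (res_zmod D hD) (tr := χ ∘ₗ Matrix.traceLinearMap ι (ZMod p) K)
    (fun a b => congrArg χ (Matrix.trace_mul_comm a b)) (coc_toF (ZMod p) hφ hs)
    (ψ₀.comp (glMap G ι f)) z hz (A := A)
    (fun u hu v hv i j c hc => by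
      rw [MonoidHom.comp_apply, hψ₀] at hc
      by_contra hn
      refine hc (Matrix.ext fun a b => ?_)
      rw [Matrix.map_apply, glMap_coeff, Matrix.zero_apply]
      by_contra h0
      refine hn (Finset.mem_coe.2 (Finset.mem_union_left _ (Finset.mem_biUnion.2 ⟨u, hu,
        Finset.mem_biUnion.2 ⟨v, hv, Finset.mem_biUnion.2 ⟨(i, j, a, b), Finset.mem_univ _,
          Finsupp.mem_support_iff.2 fun h1 => h0 ?_⟩⟩⟩)))
      rw [h1, map_zero])
    (by
      rintro x ⟨l, h1, h2, rfl⟩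
      exact hfar l h1 (h2.trans (by nlinarith [Nat.zero_le (n * D)])))
  let Θ : K →+ ZMod p := χ.toAddMonoidHom.comp (frobenius K p).toAddMonoidHom
  have hΘ : ∀ x, χ (frobenius K p x) = Θ x := fun _ => rfl
  rw [hΘ, ← h, Finsupp.sum, Finsupp.sum, map_sum, map_sum]
  refine Finset.sum_congr rfl fun u _ => ?_
  rw [map_zsmul, map_zsmul, zsmul_eq_mul, ← dennis_map, ← hd, map_finsuppSum]
  congr 1
  refine Finsupp.sum_congr fun t _ => ?_
  rw [map_finsuppSum]
  refine Finsupp.sum_congr fun ω _ => ?_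
  rw [map_zsmul, zsmul_eq_mul, ← hΘ, frobenius_def, ← trace_pow_char]
  rfl

theorem dennis_all {k : Type} [CommRing k] [IsReduced k] [IsAddTorsionFree k]
    {G : Type} [Group G] {g : G} (hg : Far g) {ι : Type} [Fintype ι]
    [DecidableEq ι] {n : ℕ} (z : (Fin (n + 1) → GL ι (MonoidAlgebra k G)) →₀ ℤ)
    (hz : dI n z = 0) {φ : (Fin (n + 2) → G) → ℤ} (hφ : HCocycle φ)
    (hs : ∀ t, φ t ≠ 0 → IsConj (List.ofFn t).prod g) :
    (z.sum fun u a => a • dennis φ u) = 0 := by
  obtain ⟨k₀, _, z₀, rfl⟩ := exists_lift z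
  have hinj : Function.Injective k₀.val.toRingHom := Subtype.val_injective
  haveI : IsReduced k₀ := isReduced_of_injective k₀.val.toRingHom hinj
  haveI : IsAddTorsionFree k₀ := hinj.isAddTorsionFree k₀.val.toRingHom.toAddMonoidHom
  have h0 : dI n z₀ = 0 := by
    rw [dI_map] at hz
    refine Finsupp.mapDomain_injective (f := fun (u : Fin n → _) i =>
      glMap G ι k₀.val.toRingHom (u i)) (fun u v huv => funext fun i =>
        glMap_injective _ hinj (congrFun huv i)) ?_
    rw [hz, Finsupp.mapDomain_zero]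
  rw [Finsupp.sum_mapDomain_index (h := fun u (a : ℤ) => a • dennis φ u)
    (fun _ => zero_smul _ _) fun _ _ _ => add_smul _ _ _]
  have := congrArg k₀.val.toRingHom (dennis_ft hg z₀ h0 hφ hs)
  rw [map_zero, map_finsuppSum] at this
  rw [← this]
  exact Finsupp.sum_congr fun u _ => by rw [map_zsmul, dennis_map]

end Pool.Agent.MP_f7db47_al.Cv
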