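import Pool.Agent.MP_f7db47_al.Cv.DDefs

namespace Pool.Agent.MP_f7db47_al.Cv

variable {κ : Type*} [CommRing κ] {p : ℕ} {G : Type*} [Group G] {F : List G → G → κ} {g : G}

theorem DLam_per_smul (w : Wr p G) {L : List (Pw p G)} {ω : Om p G} (h : Per L ω) :
    Per (w • L) (w • ω) := by
  obtain ⟨v, hk, h1, h2⟩ := h
  refine ⟨w * v * w⁻¹, by simp [hk], ?_, ?_⟩
  · rw [mul_smul, inv_smul_smul, mul_smul, h1]
  · rw [mul_smul, inv_smul_smul, mul_smul, h2]

theorem DLam_per_iff (w : Wr p G) (L : List (Pw p G)) (ω : Om p G) :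
    Per (w • L) (w • ω) ↔ Per L ω :=
  ⟨fun h => by simpa using DLam_per_smul w⁻¹ h, DLam_per_smul w⟩

theorem DLam_col_base {u : Wr p G} (hu : u.k = 0) (L : List (Pw p G)) :
    col (u • L) 0 = u.x 0 • col L 0 := by
  simp only [col, smul_list, List.map_map]
  refine List.map_congr_left fun s _ => ?_
  simp only [Function.comp_apply, Pw.smul_apply, hu, sub_zero]

theorem DLam_base (hF : Coc F g) {u : Wr p G} (hu : u.k = 0) (L : List (Pw p G))
    (ω : Om p G) : lamv F (u • L) (u • ω) = lamv F L ω := by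
  cases L with
  | nil => rfl
  | cons s L =>
    have e : lamv F (u • (s :: L)) (u • ω) = lamv F (u • s :: u • L) (u • ω) := rfl
    rw [e, lamv, lamv, ← smul_cons, DLam_per_iff, DLam_col_base hu]
    split_ifs
    · rw [← hF.inv (u.x 0) (col (s :: L) 0)]
      congr 1
      rw [Om.smul_apply, Pw.smul_apply, Pw.smul_apply, hu, sub_zero, sub_zero, zero_add,
        smul_eq_mul, smul_eq_mul]
      group
    · rfl

theorem DLam_not_per {L : List (Pw p G)} {ω : Om p G} (h : ¬ Per L ω) : lamv F L ω = 0 := by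
  cases L with
  | nil => rfl
  | cons s L => rw [lamv, if_neg h]

theorem DLam_prod {u : Wr p G} (hu : u.k = 0) (ω : Om p G) (n : ℕ) :
    (List.ofFn fun i : Fin n => (u • ω) ((i : ℕ) : ZMod p)).prod =
      u.x 0 * (List.ofFn fun i : Fin n => ω ((i : ℕ) : ZMod p)).prod * (u.x (n : ZMod p))⁻¹ := by
  induction n with
  | zero => simp
  | succ n ih =>
    rw [List.ofFn_succ', List.ofFn_succ', List.prod_concat, List.prod_concat]
    simp only [Fin.val_castSucc, Fin.val_last]
    rw [ih, Om.smul_apply, hu, sub_zero, Nat.cast_succ]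
    group

theorem DLam_face (hF : Coc F g) {δ : Wr p G} (hk : δ.k = 1)
    (hδ : δ • Om.cst p g = Om.cst p g) {l : List (Pw p G)} (hl : ∀ t ∈ l, δ • t = t) :
    lamv F l (Om.cst p g) = F (col l 0) (g * δ.x 1) := by
  cases l with
  | nil => exact (hF.nil _).symm
  | cons t l =>
    have hP : Per (t :: l) (Om.cst p g) := by
      refine ⟨δ, hk, ?_, hδ⟩
      rw [smul_list]
      exact (List.map_congr_left hl).trans (List.map_id' _)
    have h1 := congrFun (hl t (by simp)) 1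
    rw [Pw.smul_apply, hk, sub_self, smul_eq_mul] at h1
    rw [lamv, if_pos hP, ← h1]
    congr 1
    show g * (δ.x 1 * t 0) * (t 0)⁻¹ = g * δ.x 1
    group

theorem lamv_smul [NeZero p] (hF : Coc F g) (w : Wr p G) (L : List (Pw p G)) (ω : Om p G) :
    lamv F (w • L) (w • ω) = lamv F L ω := by
  by_cases h : Per L ω
  · obtain ⟨v, hk, h1, h2⟩ := h
    have e1 : (v ^ w.k.val)⁻¹ • L = L :=
      (MulAction.stabilizer (Wr p G) L).inv_mem ((MulAction.stabilizer (Wr p G) L).pow_mem h1 _)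
    have e2 : (v ^ w.k.val)⁻¹ • ω = ω :=
      (MulAction.stabilizer (Wr p G) ω).inv_mem ((MulAction.stabilizer (Wr p G) ω).pow_mem h2 _)
    have hu : (w * (v ^ w.k.val)⁻¹).k = 0 := by
      rw [Wr.mul_k, Wr.inv_k, Wr.pow_k, hk, ZMod.natCast_zmod_val, mul_one, add_neg_cancel]
    have := DLam_base hF hu L ω
    rwa [mul_smul, mul_smul, e1, e2] at this
  · rw [DLam_not_per h, DLam_not_per fun c => h ((DLam_per_iff w L ω).1 c)]

theorem LamW_inv [NeZero p] (hF : Coc F g) (w : Wr p G)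
    (z : List (Pw p G) →₀ (Om p G →₀ κ)) : LamW p F (ER κ p G w z) = LamW p F z := by
  have := Phi_mem' (f := LamW p F ∘ₗ ER κ p G w - LamW p F) (N := ⊥) (fun l ω a => by
    have e : ER κ p G w (Finsupp.single l (Finsupp.single ω a)) =
        Finsupp.single (w • l) (Finsupp.single (w • ω) a) := by
      rw [pr_single, OmR, pr_single]
      rfl
    rw [Submodule.mem_bot, LinearMap.sub_apply, LinearMap.comp_apply, e, LamW_single,
      LamW_single, lamv_smul hF, sub_self]) z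
  simpa [sub_eq_zero] using this

theorem lamv_off [NeZero p] (hF : Coc F g) (L : List (Pw p G)) {ω : Om p G}
    (h : ¬ Phi_Orb p g ω) : lamv F L ω = 0 := by
  by_contra h0
  apply h
  cases L with
  | nil => exact (h0 rfl).elim
  | cons s L =>
    have hP : Per (s :: L) ω := by
      by_contra c
      exact h0 (DLam_not_per c)
    rw [lamv, if_pos hP] at h0
    obtain ⟨y, hy⟩ := isConj_iff.1 (hF.supp _ _ h0)
    obtain ⟨v, hk, h1, h2⟩ := hP
    have hs : v • s = s := fix_of_smul_list h1 s (by simp)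
    have a1 : ∀ i, s (i + 1) = v.x (i + 1) * s i := fun i => by
      have := congrFun hs (i + 1)
      rw [Pw.smul_apply, hk, add_sub_cancel_right, smul_eq_mul] at this
      exact this.symm
    have a2 : ∀ i, ω (i + 1) = v.x (i + 1) * ω i * (v.x (i + 1 + 1))⁻¹ := fun i => by
      have := congrFun h2 (i + 1)
      rw [Om.smul_apply, hk, add_sub_cancel_right] at this
      exact this.symm
    have a3 : ∀ m : ℕ, (s m)⁻¹ * ω m * s (m + 1) = (s 0)⁻¹ * ω 0 * s 1 := fun m => by
      induction m with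
      | zero => simp
      | succ m ih =>
        rw [← ih, Nat.cast_succ, a1 ((m : ZMod p) + 1), a2]
        conv_lhs => rw [a1 (m : ZMod p)]
        conv_rhs => rw [a1 (m : ZMod p)]
        group
    refine ⟨⟨fun i => y * s 0 * (s i)⁻¹, 0⟩, funext fun i => ?_⟩
    have a4 := a3 i.val
    rw [ZMod.natCast_zmod_val] at a4
    show y * s 0 * (s i)⁻¹ * ω (i - 0) * (y * s 0 * (s (i + 1))⁻¹)⁻¹ = g
    have a5 : y * s 0 * (s i)⁻¹ * ω i * (y * s 0 * (s (i + 1))⁻¹)⁻¹ =
        y * s 0 * ((s i)⁻¹ * ω i * s (i + 1)) * (s 0)⁻¹ * y⁻¹ := by group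
    rw [sub_zero, a5, a4, ← hy]
    group

theorem LamW_bd [Fact p.Prime] (hF : Coc F g) {L : List (Pw p G)} (hL : Fix (GamR p g) L)
    (a : κ) : LamW p F (bd κ (Finsupp.single L (Finsupp.single (Om.cst p g) a))) = 0 := by
  rcases eq_or_ne L [] with rfl | hne
  · rw [bd_nil, map_zero]
  obtain ⟨s, hs⟩ := List.exists_mem_of_ne_nil L hne
  obtain ⟨γ, hγ, hγs, -⟩ := hL s hs s hs
  have hk := Gam_k_ne hγ hγs
  obtain ⟨δ, hδk, hδ, hδs⟩ : ∃ δ : Wr p G, δ.k = 1 ∧ δ • Om.cst p g = Om.cst p g ∧ δ • s = s :=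
    ⟨_, Gam_pow_k hk 1, (Gam p g).pow_mem γ.2 _, Gam_pow_fix hγs _⟩
  have hall : ∀ t ∈ L, δ • t = t := fun t ht => by
    obtain ⟨γ', hγ', h1, h2⟩ := hL s hs t ht
    have hk' := Gam_k_ne hγ' h1
    rw [Gam_eq_of_fix (hδk.trans (Gam_pow_k hk' 1).symm) hδs (Gam_pow_fix h1 _)]
    exact Gam_pow_fix h2 _
  have hc := hF.coc (col L 0) (g * δ.x 1)
  rw [bd_eq_sum, map_sum] at hc
  rw [bd_eq_sum, map_sum, ← mul_zero a, ← hc, Finset.mul_sum]
  have hlen : (col L 0).length = L.length := List.length_map _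
  rw [hlen]
  refine Finset.sum_congr rfl fun j _ => ?_
  rw [map_smul, map_smul, LamW_single, Finsupp.linearCombination_single,
    DLam_face hF hδk hδ fun t ht => hall t (List.mem_of_mem_eraseIdx ht), col, col,
    List.eraseIdx_map, one_smul, smul_eq_mul, smul_eq_mul]
  ring

theorem orb_conj [NeZero p] {ω : Om p G} (h : Phi_Orb p g ω) : IsConj (oprod p ω) (g ^ p) := by
  obtain ⟨X, hX⟩ := Phi_choice p g
  obtain ⟨h1, h2⟩ := hX ω h
  have h3 := DLam_prod h1 ω p
  rw [h2, ZMod.natCast_self] at h3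
  have h4 : (List.ofFn fun i : Fin p => Om.cst p g ((i : ℕ) : ZMod p)).prod = g ^ p := by
    simp [Om.cst]
  rw [h4] at h3
  exact isConj_iff.2 ⟨_, h3.symm⟩

end Pool.Agent.MP_f7db47_al.Cv
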