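import Pool.Agent.MP_f7db47_al.Cv.DFin

namespace Pool.Agent.MP_f7db47_al.Cv

variable {G : Type} [Group G] {ι : Type} [Fintype ι] [DecidableEq ι]

theorem prod_contract {n : ℕ} (j : Fin (n + 1)) (t : Fin (n + 2) → G) :
    (List.ofFn (Fin.contractNth j.castSucc (· * ·) t)).prod = (List.ofFn t).prod := by
  have h : ∀ (m : ℕ) (u : Fin m → G), (List.ofFn u).prod = Fin.partialProd u (Fin.last m) :=
    fun m u => by
      rw [Fin.partialProd, List.take_of_length_le (by simp)]
  rw [h, h, Fin.partialProd_contractNth, Function.comp_apply]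
  congr 1
  rw [Fin.succAbove_of_le_castSucc, Fin.succ_last]
  exact Fin.le_def.2 (by simp; omega)

theorem prod_rot {n : ℕ} (t : Fin (n + 2) → G) :
    IsConj (List.ofFn (Fin.cons (t (Fin.last _) * t 0) fun i : Fin n => t i.succ.castSucc :
      Fin (n + 1) → G)).prod (List.ofFn t).prod := by
  rw [List.ofFn_cons, List.prod_cons, List.ofFn_succ' t, List.concat_eq_append, List.prod_append,
    List.prod_singleton, List.ofFn_succ, List.prod_cons]
  exact isConj_iff.2 ⟨(t (Fin.last _))⁻¹, by
    rw [inv_inv, mul_assoc (t (Fin.last _)), inv_mul_cancel_left]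
    rfl⟩

open Classical in
theorem hcoc_cls {n : ℕ} {φ : (Fin (n + 1) → G) → ℤ} (hφ : HCocycle φ) (c : ConjClasses G) :
    HCocycle fun t => if ConjClasses.mk (List.ofFn t).prod = c then φ t else 0 := by
  intro t
  have h := ConjClasses.mk_eq_mk_iff_isConj.2 (prod_rot t)
  simp only [prod_contract, h]
  split_ifs
  · exact hφ t
  · simp

theorem dennis_cls {k : Type} [CommRing k] [IsReduced k] [IsAddTorsionFree k] {n : ℕ}
    (z : (Fin (n + 1) → GL ι (MonoidAlgebra k G)) →₀ ℤ) (hz : dI n z = 0)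
    {φ : (Fin (n + 2) → G) → ℤ} (hφ : HCocycle φ)
    (hs : ∀ t, φ t ≠ 0 → Far (List.ofFn t).prod) : (z.sum fun u a => a • dennis φ u) = 0 := by
  classical
  let a : (Fin (n + 1) → GL ι (MonoidAlgebra k G)) → Fin (n + 2) →
      Matrix ι ι (MonoidAlgebra k G) := fun u =>
    Fin.cons ((List.ofFn u).prod⁻¹).val fun i => (u i).val
  let T : (Fin (n + 1) → GL ι (MonoidAlgebra k G)) → (Fin (n + 2) → G) → k := fun u t =>
    Matrix.trace (List.ofFn fun j => (a u j).map fun x => x.coeff (t j)).prod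
  let S : Finset (Fin (n + 2) → G) :=
    z.support.biUnion fun u => (DLift_fin (fun _ => 1) (a u)).toFinset
  have hd : ∀ (ψ : (Fin (n + 2) → G) → ℤ), ∀ u ∈ z.support,
      dennis ψ u = ∑ t ∈ S, ψ t • T u t := fun ψ u hu => by
    refine finsum_eq_sum_of_support_subset (fun t => ψ t • T u t) fun t ht => ?_
    refine Finset.mem_coe.2 (Finset.mem_biUnion.2 ⟨u, hu, (Set.Finite.mem_toFinset _).2 ?_⟩)
    intro h0
    apply ht
    exact (congrArg (ψ t • ·) ((one_smul ℤ (T u t)).symm.trans h0)).trans (smul_zero _)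
  let C := S.image fun t => ConjClasses.mk (List.ofFn t).prod
  have h : ∀ c ∈ C, (z.sum fun u a => a • dennis
      (fun t => if ConjClasses.mk (List.ofFn t).prod = c then φ t else 0) u) = 0 := by
    intro c _
    by_cases hc : ∃ t, φ t ≠ 0 ∧ ConjClasses.mk (List.ofFn t).prod = c
    · obtain ⟨t₀, h0, rfl⟩ := hc
      refine dennis_all (hs t₀ h0) z hz (hcoc_cls hφ _) fun t ht => ?_
      by_contra hn
      exact ht (if_neg fun e => hn (ConjClasses.mk_eq_mk_iff_isConj.1 e))
    · refine Finset.sum_eq_zero fun u hu => ?_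
      beta_reduce
      rw [hd _ u hu, Finset.sum_eq_zero, smul_zero]
      intro t _
      split_ifs with e
      · rw [show φ t = 0 from by_contra fun h1 => hc ⟨t, h1, e⟩, zero_smul]
      · exact zero_smul _ _
  rw [← Finset.sum_eq_zero h, Finsupp.sum]
  simp only [Finsupp.sum]
  rw [Finset.sum_comm]
  refine Finset.sum_congr rfl fun u hu => ?_
  rw [← Finset.smul_sum, hd φ u hu, Finset.sum_congr rfl fun c _ => hd _ u hu, Finset.sum_comm]
  congr 1
  refine Finset.sum_congr rfl fun t ht => ?_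
  rw [← Finset.sum_smul, Finset.sum_ite_eq, if_pos (Finset.mem_image_of_mem _ ht)]

/-- Invertible matrices over the group ring of a subgroup. -/
noncomputable def glSub (k : Type*) [CommRing k] (ι : Type) [Fintype ι] [DecidableEq ι]
    (H : Subgroup G) : GL ι (MonoidAlgebra k H) →* GL ι (MonoidAlgebra k G) :=
  Units.map ((MonoidAlgebra.mapDomainRingHom k H.subtype).mapMatrix (m := ι)).toMonoidHom

theorem glSub_coeff {k : Type*} [CommRing k] (H : Subgroup G) (u : GL ι (MonoidAlgebra k H))
    (a b : ι) : ((glSub k ι H u).val a b).coeff =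
      Finsupp.mapDomain H.subtype (u.val a b).coeff := rfl

theorem sub_inj (k : Type*) [CommRing k] (H : Subgroup G) :
    Function.Injective ((MonoidAlgebra.mapDomainRingHom k H.subtype).mapMatrix (m := ι)) := by
  intro M N h
  ext1 a b
  exact MonoidAlgebra.mapDomain_injective Subtype.val_injective (congrFun (congrFun h a) b)

theorem trPair_sub {k : Type*} [CommRing k] (H : Subgroup G) {n : ℕ}
    (φ : (Fin (n + 1) → G) → ℤ) (a : Fin (n + 1) → Matrix ι ι (MonoidAlgebra k H))
    (a' : Fin (n + 1) → Matrix ι ι (MonoidAlgebra k G))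
    (h : ∀ j r c, (a' j r c).coeff = Finsupp.mapDomain H.subtype (a j r c).coeff) :
    trPair φ a' = trPair (fun t : Fin (n + 1) → H => φ fun i => t i) a := by
  have hinj : Function.Injective fun (t : Fin (n + 1) → H) i => (t i : G) :=
    fun s t e => funext fun i => Subtype.ext (congrFun e i)
  rw [trPair, trPair, ← finsum_mem_univ, finsum_mem_inter_support_eq' _ _ (Set.range
    fun (t : Fin (n + 1) → H) i => (t i : G)), finsum_mem_range hinj]
  · refine finsum_congr fun t => ?_
    congr 4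
    funext j
    ext r c
    rw [Matrix.map_apply, Matrix.map_apply, h]
    exact Finsupp.mapDomain_apply Subtype.val_injective _ _
  · intro t ht
    refine ⟨fun _ => ?_, fun _ => trivial⟩
    have : ∀ j, t j ∈ H := fun j => by
      by_contra hj
      apply ht
      have h0 : ((a' j).map fun x => x.coeff (t j)) = 0 := by
        ext r c
        rw [Matrix.map_apply, h]
        exact Finsupp.mapDomain_notin_range _ _ fun ⟨y, hy⟩ => hj (hy ▸ y.2)
      have h1 : (List.ofFn fun j => (a' j).map fun x => x.coeff (t j)).prod = 0 :=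
        List.prod_eq_zero (List.mem_ofFn.2 ⟨j, h0⟩)
      simp only [h1, Matrix.trace_zero, smul_zero]
    exact ⟨fun j => ⟨t j, this j⟩, rfl⟩

theorem dennis_sub {k : Type*} [CommRing k] (H : Subgroup G) {n : ℕ}
    (φ : (Fin (n + 1) → G) → ℤ) (u : Fin n → GL ι (MonoidAlgebra k H)) :
    dennis φ (fun i => glSub k ι H (u i)) =
      dennis (fun t : Fin (n + 1) → H => φ fun i => t i) u := by
  refine trPair_sub H φ _ _ fun j r c => ?_
  refine Fin.cases ?_ (fun i => ?_) j
  · have h : (List.ofFn fun i => glSub k ι H (u i)).prod⁻¹ =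
        glSub k ι H (List.ofFn u).prod⁻¹ := by
      rw [map_inv, map_list_prod, List.map_ofFn]
      rfl
    rw [Fin.cons_zero, Fin.cons_zero, h, glSub_coeff]
  · rw [Fin.cons_succ, Fin.cons_succ, glSub_coeff]

theorem hcoc_sub (H : Subgroup G) {n : ℕ} {φ : (Fin (n + 1) → G) → ℤ} (hφ : HCocycle φ) :
    HCocycle fun t : Fin (n + 1) → H => φ fun i => t i := by
  intro t
  refine Eq.trans ?_ (hφ fun i => t i)
  congr 1
  · refine Finset.sum_congr rfl fun j _ => ?_
    refine congrArg (fun x => _ * φ x) (funext fun i => ?_)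
    simp only [Fin.contractNth]
    split_ifs <;> rfl
  · exact congrArg (fun x => _ * φ x) (funext fun i => Fin.cases rfl (fun i => rfl) i)

theorem exists_sub {k : Type*} [CommRing k] {n : ℕ}
    (z : (Fin n → GL ι (MonoidAlgebra k G)) →₀ ℤ) :
    ∃ (H : Subgroup G) (_ : H.FG) (z₀ : (Fin n → GL ι (MonoidAlgebra k H)) →₀ ℤ),
      z = Finsupp.mapDomain (fun u i => glSub k ι H (u i)) z₀ := by
  classical
  let A : Finset G := z.support.biUnion fun u => Finset.univ.biUnion fun x : Fin n × ι × ι =>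
    ((u x.1).val x.2.1 x.2.2).coeff.support ∪ (((u x.1)⁻¹).val x.2.1 x.2.2).coeff.support
  let H : Subgroup G := Subgroup.closure (A : Set G)
  have hM : ∀ M : Matrix ι ι (MonoidAlgebra k G), (∀ a b, (M a b).coeff.support ⊆ A) →
      ∃ M₀, (MonoidAlgebra.mapDomainRingHom k H.subtype).mapMatrix (m := ι) M₀ = M := by
    intro M h
    refine ⟨Matrix.of fun a b => MonoidAlgebra.ofCoeff ((M a b).coeff.comapDomain H.subtype
      Subtype.val_injective.injOn), ?_⟩
    ext1 a b
    apply MonoidAlgebra.coeff_injective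
    refine Finsupp.mapDomain_comapDomain _ Subtype.val_injective _ fun c hc => ?_
    exact ⟨⟨c, Subgroup.subset_closure (h a b hc)⟩, rfl⟩
  have key : ∀ u : Fin n → GL ι (MonoidAlgebra k G), ∃ u₀ : Fin n → GL ι (MonoidAlgebra k H),
      u ∈ z.support → (fun i => glSub k ι H (u₀ i)) = u := by
    intro u
    by_cases hu : u ∈ z.support
    · have h1 : ∀ i, ∃ v₀ : GL ι (MonoidAlgebra k H), glSub k ι H v₀ = u i := fun i => by
        obtain ⟨M, hM'⟩ := hM (u i).val fun a b c hc => Finset.mem_biUnion.2 ⟨u, hu,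
          Finset.mem_biUnion.2 ⟨(i, a, b), Finset.mem_univ _, Finset.mem_union_left _ hc⟩⟩
        obtain ⟨N, hN⟩ := hM ((u i)⁻¹).val fun a b c hc => Finset.mem_biUnion.2 ⟨u, hu,
          Finset.mem_biUnion.2 ⟨(i, a, b), Finset.mem_univ _, Finset.mem_union_right _ hc⟩⟩
        refine ⟨⟨M, N, sub_inj k H ?_, sub_inj k H ?_⟩, Units.ext hM'⟩
        · rw [map_mul, map_one, hM', hN, Units.mul_inv]
        · rw [map_mul, map_one, hM', hN, Units.inv_mul]
      choose u₀ h₀ using h1
      exact ⟨u₀, fun _ => funext h₀⟩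
    · exact ⟨fun _ => 1, fun h => absurd h hu⟩
  choose L hL using key
  refine ⟨H, ⟨A, rfl⟩, Finsupp.mapDomain L z, ?_⟩
  rw [← Finsupp.mapDomain_comp]
  exact ((Finsupp.mapDomain_congr (g := id) hL).trans Finsupp.mapDomain_id).symm

theorem dennis_loc {k : Type} [CommRing k] [IsReduced k] [IsAddTorsionFree k] {n : ℕ}
    (z : (Fin (n + 1) → GL ι (MonoidAlgebra k G)) →₀ ℤ) (hz : dI n z = 0)
    {φ : (Fin (n + 2) → G) → ℤ} (hφ : HCocycle φ)
    (hs : ∀ t, φ t ≠ 0 → ∀ H : Subgroup G, H.FG → ∀ h : H, (h : G) = (List.ofFn t).prod →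
      Far h) : (z.sum fun u a => a • dennis φ u) = 0 := by
  obtain ⟨H, hH, z₀, rfl⟩ := exists_sub z
  have h0 : dI n z₀ = 0 := by
    rw [dI_map] at hz
    refine Finsupp.mapDomain_injective (f := fun (u : Fin n → _) i => glSub k ι H (u i))
      (fun u v huv => funext fun i =>
        Units.ext (sub_inj k H (congrArg Units.val (congrFun huv i)))) ?_
    rw [hz, Finsupp.mapDomain_zero]
  rw [Finsupp.sum_mapDomain_index (h := fun u (a : ℤ) => a • dennis φ u)
    (fun _ => zero_smul _ _) fun _ _ _ => add_smul _ _ _]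
  simp only [dennis_sub]
  refine dennis_cls z₀ h0 (hcoc_sub H hφ) fun t ht => hs _ ht H hH _ ?_
  rw [← H.coe_subtype, map_list_prod, List.map_ofFn]
  rfl

end Pool.Agent.MP_f7db47_al.Cv
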