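import Pool.Agent.MP_f7db47_al.Cv.Defs

namespace Pool.Agent.MP_f7db47_al.Cv

variable {κ : Type*} [CommRing κ] {Γ : Type*} [Group Γ] {S : Type*} [MulAction Γ S]
variable {V : Type*} [AddCommGroup V] [Module κ V]
variable {p : ℕ} [NeZero p] {π : Γ →* Multiplicative (ZMod p)} {T : Γ}

set_option linter.unusedSectionVars false

theorem Desc_pi_pow (hc : Cyc p π T) (m : ℕ) : π (T ^ m) = Multiplicative.ofAdd (m : ZMod p) := by
  rw [map_pow, hc.gen, ← ofAdd_nsmul, nsmul_one]

theorem Desc_pr_Jp (ρ : Representation κ Γ V) (γ : Γ) {z : V}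
    (hz : z ∈ Jp ρ fun c => π c = 1) : ρ γ z ∈ Jp ρ fun c => π c = 1 := by
  refine Jp_le (f := ρ γ) (fun c v hc => ?_) hz
  have e : ρ γ (ρ c v) = ρ (γ * c * γ⁻¹) (ρ γ v) := by
    rw [← Module.End.mul_apply, ← Module.End.mul_apply, ← map_mul, ← map_mul,
      inv_mul_cancel_right]
  rw [e]
  exact mem_Jp ρ (by simp [hc]) _

theorem Desc_pr_NN {r : S → S → Prop} (hr : Rel Γ r) (ρ : Representation κ Γ V) (γ : Γ)
    {z : List S →₀ V} (hz : z ∈ NN ρ r fun c => π c = 1) :
    pr (List S) ρ γ z ∈ NN ρ r fun c => π c = 1 :=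
  NN_le (f := pr (List S) ρ γ) (fun _ h => Fx_le_NN _ _ _ (pr_mem_Fx hr ρ γ h))
    (fun _ h => Jp_le_NN _ _ _ (Desc_pr_Jp _ γ h)) hz

theorem Desc_pow_sub (ρ : Representation κ Γ V) (T : Γ) (m : ℕ) (v : V) :
    ∃ w, ρ (T ^ m) v - v = sg ρ T w := by
  induction m with
  | zero => exact ⟨0, by simp⟩
  | succ m ih =>
    obtain ⟨w, hw⟩ := ih
    refine ⟨w - ρ (T ^ m) v, ?_⟩
    rw [map_sub, ← hw, sg_apply, pow_succ', map_mul, Module.End.mul_apply]
    abel

/-- The Higman operator. -/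
theorem Desc_higman (hc : Cyc p π T) {r : S → S → Prop} (hr : Rel Γ r)
    (ρ : Representation κ Γ V) : ∃ e : (List S →₀ V) →ₗ[κ] (List S →₀ V),
      (∀ z ∈ NN ρ r fun c => π c = 1, e z ∈ NN ρ r fun c => π c = 1) ∧
      ∀ z, z - ∑ m ∈ Finset.range p, pr (List S) ρ (T ^ m) (e (pr (List S) ρ (T ^ m)⁻¹ z)) ∈
        NN ρ r fun c => π c = 1 := by
  classical
  obtain ⟨lab, hlab⟩ := hr.exists_label
  let e : (List S →₀ V) →ₗ[κ] (List S →₀ V) := Finsupp.lsum κ fun l =>
    if ¬ Fix r l ∧ π (lab l) = 1 then Finsupp.lsingle l else 0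
  have he : ∀ l v, e (Finsupp.single l v) =
      if ¬ Fix r l ∧ π (lab l) = 1 then Finsupp.single l v else 0 := by
    intro l v
    simp only [e, Finsupp.lsum_single]
    split_ifs <;> rfl
  refine ⟨e, fun z hz => NN_le (fun z hz => ?_) (fun z hz => ?_) hz, fun z => ?_⟩
  · refine map_supported (fun l hl v => ?_) hz
    rw [he, if_neg fun h => h.1 hl]
    exact Submodule.zero_mem _
  · refine Jp_le_NN _ _ _ (map_Jp (fun c z hc => ?_) hz)
    induction z using Finsupp.induction_linear with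
    | zero => simp
    | add a b ha hb => simp [ha, hb]
    | single l v =>
      rw [pr_single, he, he]
      by_cases hl : Fix r l
      · rw [if_neg fun h => h.1 (hr.fix_smul c hl), if_neg fun h => h.1 hl, map_zero]
      · have h1 : (¬ Fix r (c • l) ∧ π (lab (c • l)) = 1) ↔ (¬ Fix r l ∧ π (lab l) = 1) := by
          rw [hr.fix_smul_iff, hlab c l hl, map_mul, hc, one_mul]
        by_cases h2 : ¬ Fix r l ∧ π (lab l) = 1
        · rw [if_pos h2, if_pos (h1.2 h2), pr_single]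
        · rw [if_neg h2, if_neg fun h => h2 (h1.1 h), map_zero]
  · induction z using Finsupp.induction_linear with
    | zero => simp
    | add a b ha hb =>
      have := Submodule.add_mem _ ha hb
      convert this using 1
      simp only [map_add, Finset.sum_add_distrib]
      abel
    | single l v =>
      by_cases hl : Fix r l
      · refine Submodule.sub_mem _ (Fx_le_NN _ _ _ (single_mem_Fx hl v))
          (Submodule.sum_mem _ fun m _ => ?_)
        rw [pr_single, he, if_neg fun h => h.1 (hr.fix_smul _ hl), map_zero]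
        exact Submodule.zero_mem _
      · have hcond : ∀ m : ℕ, (¬ Fix r ((T ^ m)⁻¹ • l) ∧ π (lab ((T ^ m)⁻¹ • l)) = 1) ↔
            (m : ZMod p) = (π (lab l)).toAdd := by
          intro m
          rw [hr.fix_smul_iff, hlab _ l hl, map_mul, map_inv, Desc_pi_pow hc, inv_mul_eq_one]
          exact ⟨fun h => congrArg Multiplicative.toAdd h.2,
            fun h => ⟨hl, congrArg Multiplicative.ofAdd h⟩⟩
        rw [Finset.sum_eq_single (π (lab l)).toAdd.val]
        · rw [pr_single, he, if_pos ((hcond _).2 (ZMod.natCast_zmod_val _)), pr_single,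
            smul_inv_smul, ← Module.End.mul_apply, ← map_mul, mul_inv_cancel, map_one]
          simp
        · intro m hm hne
          rw [pr_single, he, if_neg, map_zero]
          intro h
          apply hne
          rw [← (hcond m).1 h, ZMod.val_cast_of_lt (Finset.mem_range.1 hm)]
        · intro h
          exact absurd (Finset.mem_range.2 (ZMod.val_lt _)) h

theorem Desc_sum_inv (hT : T ^ p = 1) (ρ : Representation κ Γ V) (v : V) :
    ∑ m ∈ Finset.range p, ρ (T ^ m)⁻¹ v = NT ρ T p v := by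
  obtain ⟨q, rfl⟩ := Nat.exists_eq_succ_of_ne_zero (NeZero.ne p)
  rw [NT_apply, Finset.sum_range_succ', Finset.sum_range_succ', ← Finset.sum_range_reflect]
  congr 1
  · refine Finset.sum_congr rfl fun m hm => ?_
    have hm' := Finset.mem_range.1 hm
    have : (T ^ (q - 1 - m + 1))⁻¹ = T ^ (m + 1) := by
      rw [inv_eq_iff_mul_eq_one, ← pow_add, ← hT]
      congr 1
      omega
    rw [this]
  · simp

/-- Modulo the neglected chains the complex is free over the cyclic group. -/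
theorem th_exact (hc : Cyc p π T) {r : S → S → Prop} (hr : Rel Γ r) (ρ : Representation κ Γ V)
    (n : ℕ) (z : List S →₀ V) (hz : th (pr (List S) ρ) T p n z ∈ NN ρ r fun γ => π γ = 1) :
    ∃ b, z - th (pr (List S) ρ) T p (n + 1) b ∈ NN ρ r fun γ => π γ = 1 := by
  obtain ⟨e, he1, he2⟩ := Desc_higman hc hr ρ
  unfold th at hz ⊢
  by_cases hn : n % 2 = 0
  · rw [if_pos hn] at hz
    rw [if_neg (by omega)]
    choose w hw using fun m => Desc_pow_sub (pr (List S) ρ) T m (e (pr (List S) ρ (T ^ m)⁻¹ z))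
    refine ⟨∑ m ∈ Finset.range p, w m, ?_⟩
    have h1 := he1 _ hz
    rw [← Desc_sum_inv hc.pow, map_sum] at h1
    have h2 := Submodule.add_mem _ (he2 z) h1
    convert h2 using 1
    rw [map_sum, ← Finset.sum_congr rfl fun m _ => hw m, Finset.sum_sub_distrib]
    abel
  · rw [if_neg hn] at hz
    rw [if_pos (by omega)]
    refine ⟨e z, ?_⟩
    have h0 : ∀ m : ℕ, z - pr (List S) ρ (T ^ m) z ∈ NN ρ r fun γ => π γ = 1 := by
      intro m
      induction m with
      | zero => simp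
      | succ m ih =>
        have := Submodule.add_mem _ hz (Desc_pr_NN hr ρ T ih)
        rw [sg_apply, map_sub, sub_add_sub_cancel] at this
        rwa [pow_succ', map_mul]
    have h1 : ∀ m : ℕ, pr (List S) ρ (T ^ m) (e (pr (List S) ρ (T ^ m)⁻¹ z)) -
        pr (List S) ρ (T ^ m) (e z) ∈ NN ρ r fun γ => π γ = 1 := by
      intro m
      rw [← map_sub, ← map_sub]
      refine Desc_pr_NN hr ρ _ (he1 _ ?_)
      have := Desc_pr_NN hr ρ (T ^ m)⁻¹ (h0 m)
      rwa [map_sub, ← Module.End.mul_apply _ (pr (List S) ρ (T ^ m)), ← map_mul, inv_mul_cancel,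
        map_one, Module.End.one_apply] at this
    have h2 := Submodule.add_mem _ (he2 z)
      (Submodule.sum_mem _ fun m (_ : m ∈ Finset.range p) => h1 m)
    rwa [Finset.sum_sub_distrib, sub_add_sub_cancel, ← NT_apply] at h2

theorem Desc_NN_top (hc : Cyc p π T) {r : S → S → Prop} (ρ : Representation κ Γ V)
    {z : List S →₀ V} (hz : z ∈ NN ρ r fun _ => True) :
    ∃ b, z - sg (pr (List S) ρ) T b ∈ NN ρ r fun γ => π γ = 1 := by
  have : z ∈ (NN ρ r fun γ => π γ = 1) ⊔ LinearMap.range (sg (pr (List S) ρ) T) := by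
    refine NN_le (f := LinearMap.id) (fun z h => Submodule.mem_sup_left (Fx_le_NN _ _ _ h))
      (fun z h => Jp_le (f := LinearMap.id) (fun γ v _ => ?_) h) hz
    have hk : π ((T ^ (π γ).toAdd.val)⁻¹ * γ) = 1 := by
      rw [map_mul, map_inv, Desc_pi_pow hc, ZMod.natCast_zmod_val]
      simp
    obtain ⟨w, hw⟩ := Desc_pow_sub (pr (List S) ρ) T (π γ).toAdd.val
      (pr (List S) ρ ((T ^ (π γ).toAdd.val)⁻¹ * γ) v)
    rw [← Module.End.mul_apply, ← map_mul, mul_inv_cancel_left] at hw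
    have h1 := Submodule.add_mem _
      (Submodule.mem_sup_right (S := NN ρ r fun γ => π γ = 1) 
        (LinearMap.mem_range_self (sg (pr (List S) ρ) T) w))
      (Submodule.mem_sup_left (Jp_le_NN ρ r _ (mem_Jp (pr (List S) ρ) hk v)))
    rwa [← hw, sub_add_sub_cancel] at h1
  obtain ⟨a, ha, _, ⟨b, rfl⟩, rfl⟩ := Submodule.mem_sup.1 this
  exact ⟨b, by simpa using ha⟩

theorem Desc_bd_th (ρ : Representation κ Γ V) (n : ℕ) (z : List S →₀ V) :
    bd κ (th (pr (List S) ρ) T p n z) = th (pr (List S) ρ) T p n (bd κ z) :=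
  map_th_eq (fun v => (pr_bd ρ T v).symm) p n z

theorem Desc_extend (hc : Cyc p π T) {r : S → S → Prop} (hr : Rel Γ r)
    (ρ : Representation κ Γ V) (y : ℕ → List S →₀ V) (n₀ : ℕ) (hn : 2 ≤ n₀)
    (hG : ∀ n, y n ∈ Gd κ n)
    (h2 : ∀ n, 1 ≤ n → n < n₀ → bd κ (y (n + 1)) - th (pr (List S) ρ) T p n (y n) ∈
      NN ρ r fun γ => π γ = 1)
    (hC : Van ρ r (fun γ => π γ = 1) n₀) (d : ℕ) :
    ∃ y' : ℕ → List S →₀ V, y' 1 = y 1 ∧ (∀ n, y' n ∈ Gd κ n) ∧
      ∀ n, 1 ≤ n → n < n₀ + d → bd κ (y' (n + 1)) - th (pr (List S) ρ) T p n (y' n) ∈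
        NN ρ r fun γ => π γ = 1 := by
  induction d with
  | zero => exact ⟨y, rfl, hG, h2⟩
  | succ d ih =>
    obtain ⟨y', e1, hG', h'⟩ := ih
    obtain ⟨m, hm⟩ : ∃ m, n₀ + d = m + 1 := ⟨n₀ + d - 1, by omega⟩
    have hb : bd κ (th (pr (List S) ρ) T p (m + 1) (y' (m + 1))) ∈ NN ρ r fun γ => π γ = 1 := by
      have := th_mem (ρ := pr (List S) ρ) (T := T) (fun w hw => Desc_pr_NN hr ρ T hw) p (m + 1)
        (h' m (by omega) (by omega))
      rwa [map_sub, th_th _ hc.pow, sub_zero, ← Desc_bd_th] at this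
    obtain ⟨a, ha, h3⟩ := hC (m + 1) (by omega) _
      (th_mem (fun w hw => pr_mem_Gd ρ T hw) p (m + 1) (hG' (m + 1))) hb
    refine ⟨Function.update y' (m + 2) a, Function.update_of_ne (show 1 ≠ m + 2 by omega) _ _ ▸ e1, fun n => ?_,
      fun n h1 h2 => ?_⟩
    · by_cases e : n = m + 2
      · rw [e, Function.update_self]
        exact ha
      · rw [Function.update_of_ne e]
        exact hG' n
    · rw [Function.update_of_ne (show n ≠ m + 2 by omega)]
      by_cases e : n = m + 1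
      · rw [e, Function.update_self]
        simpa using Submodule.neg_mem _ h3
      · rw [Function.update_of_ne (by omega)]
        exact h' n h1 (by omega)

theorem descend (hc : Cyc p π T) {r : S → S → Prop} (hr : Rel Γ r) (ρ : Representation κ Γ V)
    (y : ℕ → List S →₀ V) (n₀ m₁ : ℕ) (hn : 2 ≤ n₀) (hG : ∀ n, y n ∈ Gd κ n)
    (h1 : bd κ (y 1) - y 0 ∈ Jp (pr (List S) ρ) fun γ => π γ = 1)
    (h2 : ∀ n, 1 ≤ n → n < n₀ → bd κ (y (n + 1)) - th (pr (List S) ρ) T p n (y n) ∈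
      Jp (pr (List S) ρ) fun γ => π γ = 1)
    (hC : Van ρ r (fun γ => π γ = 1) n₀) (hΓ : Van ρ r (fun _ => True) m₁) :
    ∃ b, ∃ f ∈ Fx κ r, y 0 - NT (pr (List S) ρ) T p b - bd κ f ∈
      Jp (pr (List S) ρ) fun γ => π γ = 1 := by
  obtain ⟨y', e1, hG', h'⟩ := Desc_extend hc hr ρ y n₀ hn hG
    (fun n a b => Jp_le_NN _ _ _ (h2 n a b)) hC (2 * m₁ + 2)
  have step : ∀ n, 1 ≤ n → n < n₀ + (2 * m₁ + 2) →
      (∃ a b, y' (n + 1) - bd κ a - th (pr (List S) ρ) T p (n + 2) b ∈
        NN ρ r fun γ => π γ = 1) →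
      ∃ a b, y' n - bd κ a - th (pr (List S) ρ) T p (n + 1) b ∈ NN ρ r fun γ => π γ = 1 := by
    rintro n h1 h2 ⟨a, b, hab⟩
    have h3 := bd_mem_NN hab
    have e : th (pr (List S) ρ) T p (n + 2) = th (pr (List S) ρ) T p n := by
      unfold th
      rw [Nat.add_mod_right]
    rw [map_sub, map_sub, bd_bd, sub_zero, Desc_bd_th, e] at h3
    have h4 := Submodule.sub_mem _ h3 (h' n h1 h2)
    rw [sub_sub_sub_cancel_left, ← map_sub] at h4
    obtain ⟨b', hb'⟩ := th_exact hc hr ρ n _ h4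
    exact ⟨b, b', hb'⟩
  have top : ∃ a b, y' (2 * m₁ + 2) - bd κ a - th (pr (List S) ρ) T p (2 * m₁ + 2 + 1) b ∈
      NN ρ r fun γ => π γ = 1 := by
    have h3 := NN_mono ρ r (Q := fun _ => True) (fun _ _ => trivial)
      (h' (2 * m₁ + 1) (by omega) (by omega))
    have h4 : th (pr (List S) ρ) T p (2 * m₁ + 1) (y' (2 * m₁ + 1)) ∈ NN ρ r fun _ => True := by
      unfold th
      rw [if_neg (by omega), sg_apply, ← neg_sub]
      exact Submodule.neg_mem _ (Jp_le_NN _ _ _ (mem_Jp _ trivial _))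
    have h5 := Submodule.add_mem _ h3 h4
    rw [sub_add_cancel] at h5
    obtain ⟨a, -, ha⟩ := hΓ (2 * m₁ + 2) (by omega) _ (hG' _) h5
    obtain ⟨b, hb⟩ := Desc_NN_top hc ρ ha
    refine ⟨a, b, ?_⟩
    unfold th
    rwa [if_neg (by omega)]
  have down : ∀ d n, 1 ≤ n → n + d = 2 * m₁ + 2 →
      ∃ a b, y' n - bd κ a - th (pr (List S) ρ) T p (n + 1) b ∈ NN ρ r fun γ => π γ = 1 := by
    intro d
    induction d with
    | zero =>
      intro n _ e
      rw [add_zero] at e
      rw [e]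
      exact top
    | succ d ih =>
      intro n h1 e
      exact step n h1 (by omega) (ih (n + 1) (by omega) (by omega))
  obtain ⟨a, b, hab⟩ := down (2 * m₁ + 1) 1 le_rfl (by omega)
  obtain ⟨f, hf, j, hj, e⟩ := Submodule.mem_sup.1 hab
  refine ⟨bd κ b, f, hf, ?_⟩
  have e2 := congrArg (bd κ) e
  rw [map_add, map_sub, map_sub, bd_bd, sub_zero, Desc_bd_th, e1] at e2
  have e3 : th (pr (List S) ρ) T p (1 + 1) = NT (pr (List S) ρ) T p := by
    unfold th
    rw [if_pos rfl]
  rw [e3] at e2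
  have h6 := Submodule.sub_mem _ (bd_mem_Jp hj) h1
  convert h6 using 1
  rw [eq_sub_of_add_eq' e2]
  abel

end Pool.Agent.MP_f7db47_al.Cv
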