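import Pool.Agent.MP_f7db47_al.Cv.Tr

open scoped TensorProduct

namespace Pool.Agent.MP_f7db47_al.Cv

section aux

open PiTensorProduct

variable {κ : Type} [Field κ] {p : ℕ} [Fact p.Prime]
  {F K : Type} [AddCommGroup F] [Module κ F] [AddCommGroup K] [Module κ K]

open Classical in
/-- the positions where the vector lies in the kernel -/
noncomputable def TIFil_A (f : F →ₗ[κ] K) (v : ZMod p → F) : Finset (ZMod p) :=
  Finset.univ.filter fun i => f (v i) = 0

theorem TIFil_memA {f : F →ₗ[κ] K} {v : ZMod p → F} {i : ZMod p} :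
    i ∈ TIFil_A f v ↔ f (v i) = 0 := by
  simp [TIFil_A]

/-- the filtration -/
noncomputable def TIFil_F (p : ℕ) [Fact p.Prime] (f : F →ₗ[κ] K) (j : ℕ) :
    Submodule κ (⨂[κ] _ : ZMod p, F) :=
  Submodule.span κ {z | ∃ v : ZMod p → F, j ≤ (TIFil_A f v).card ∧ z = tprod κ v}

theorem TIFil_mem {f : F →ₗ[κ] K} {j : ℕ} {v : ZMod p → F} (h : j ≤ (TIFil_A f v).card) :
    tprod κ v ∈ TIFil_F p f j := Submodule.subset_span ⟨v, h, rfl⟩

theorem TIFil_anti (f : F →ₗ[κ] K) {i j : ℕ} (h : i ≤ j) : TIFil_F p f j ≤ TIFil_F p f i :=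
  Submodule.span_mono fun _ ⟨v, hv, e⟩ => ⟨v, h.trans hv, e⟩

theorem TIFil_le {f : F →ₗ[κ] K} {j : ℕ} {W : Type} [AddCommGroup W] [Module κ W]
    (g : (⨂[κ] _ : ZMod p, F) →ₗ[κ] W) {N : Submodule κ W}
    (h : ∀ v : ZMod p → F, j ≤ (TIFil_A f v).card → g (tprod κ v) ∈ N) :
    ∀ z ∈ TIFil_F p f j, g z ∈ N := by
  have : TIFil_F p f j ≤ N.comap g := Submodule.span_le.2 fun _ ⟨v, hv, e⟩ => e ▸ h v hv
  exact this

/-- the projections -/
noncomputable def TIFil_e (f : F →ₗ[κ] K) (s : K →ₗ[κ] F) (J : Finset (ZMod p)) :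
    (⨂[κ] _ : ZMod p, F) →ₗ[κ] (⨂[κ] _ : ZMod p, F) :=
  PiTensorProduct.map fun i => if i ∈ J then LinearMap.id - s ∘ₗ f else s ∘ₗ f

omit [Fact p.Prime] in
theorem TIFil_e_tprod (f : F →ₗ[κ] K) (s : K →ₗ[κ] F) (J : Finset (ZMod p)) (v : ZMod p → F) :
    TIFil_e f s J (tprod κ v) =
      tprod κ (J.piecewise (fun i => v i - s (f (v i))) fun i => s (f (v i))) := by
  rw [TIFil_e, map_tprod]
  congr 1
  funext i
  by_cases h : i ∈ J <;> simp [h]

theorem TIFil_e_sum (f : F →ₗ[κ] K) (s : K →ₗ[κ] F) (z : ⨂[κ] _ : ZMod p, F) :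
    ∑ J, TIFil_e f s J z = z := by
  induction z using PiTensorProduct.induction_on with
  | smul_tprod c v =>
    simp only [map_smul, TIFil_e_tprod]
    rw [← Finset.smul_sum, ← MultilinearMap.map_add_univ]
    congr 2
    funext i
    simp
  | add a b ha hb => simp only [map_add, Finset.sum_add_distrib, ha, hb]

theorem TIFil_e_mem {f : F →ₗ[κ] K} {s : K →ₗ[κ] F} (hs : ∀ k, f (s k) = k)
    (J : Finset (ZMod p)) (z : ⨂[κ] _ : ZMod p, F) : TIFil_e f s J z ∈ TIFil_F p f J.card := by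
  induction z using PiTensorProduct.induction_on with
  | smul_tprod c v =>
    rw [map_smul, TIFil_e_tprod]
    refine Submodule.smul_mem _ _ (TIFil_mem (Finset.card_le_card fun i hi => ?_))
    rw [TIFil_memA, Finset.piecewise_eq_of_mem _ _ _ hi, map_sub, hs, sub_self]
  | add a b ha hb => rw [map_add]; exact Submodule.add_mem _ ha hb

theorem TIFil_e_zero (f : F →ₗ[κ] K) (s : K →ₗ[κ] F) {J : Finset (ZMod p)} {v : ZMod p → F}
    (h : ¬ TIFil_A f v ⊆ J) : TIFil_e f s J (tprod κ v) = 0 := by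
  obtain ⟨i, hi, hJ⟩ := Finset.not_subset.1 h
  rw [TIFil_e_tprod]
  refine MultilinearMap.map_coord_zero _ i ?_
  rw [Finset.piecewise_eq_of_notMem _ _ _ hJ, TIFil_memA.1 hi, map_zero]

/-- the centre of a set of positions -/
def TIFil_c (j : ℕ) (J : Finset (ZMod p)) : ZMod p := (∑ i ∈ J, i) * (j : ZMod p)⁻¹

/-- the projection onto the sets of size `j` with centre zero -/
noncomputable def TIFil_E (p : ℕ) [Fact p.Prime] (f : F →ₗ[κ] K) (s : K →ₗ[κ] F) (j : ℕ) :
    (⨂[κ] _ : ZMod p, F) →ₗ[κ] (⨂[κ] _ : ZMod p, F) :=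
  ∑ J ∈ Finset.univ.filter fun J : Finset (ZMod p) => J.card = j ∧ TIFil_c j J = 0, TIFil_e f s J

theorem TIFil_key {f : F →ₗ[κ] K} {s : K →ₗ[κ] F} (hs : ∀ k, f (s k) = k) {j : ℕ}
    {v : ZMod p → F} (h : j ≤ (TIFil_A f v).card) :
    TIFil_E p f s j (tprod κ v) -
      (if (TIFil_A f v).card = j ∧ TIFil_c j (TIFil_A f v) = 0 then tprod κ v else 0) ∈
        TIFil_F p f (j + 1) := by
  have h1 : ∀ J ∈ Finset.univ.filter fun J : Finset (ZMod p) => J.card = j ∧ TIFil_c j J = 0,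
      J ≠ TIFil_A f v → TIFil_e f s J (tprod κ v) = 0 := fun J hJ hne =>
    TIFil_e_zero f s fun hsub => hne (Finset.eq_of_subset_of_card_le hsub
      ((Finset.mem_filter.1 hJ).2.1.le.trans h)).symm
  rw [TIFil_E, LinearMap.sum_apply]
  split_ifs with hc
  · rw [Finset.sum_eq_single_of_mem (TIFil_A f v) (by simpa using hc) h1,
      ← neg_sub, Submodule.neg_mem_iff]
    nth_rewrite 1 [← TIFil_e_sum f s (tprod κ v)]
    rw [← Finset.sum_erase_eq_sub (Finset.mem_univ _)]
    refine Submodule.sum_mem _ fun J hJ => ?_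
    by_cases hsub : TIFil_A f v ⊆ J
    · refine TIFil_anti f ?_ (TIFil_e_mem hs J _)
      rw [← hc.1]
      exact Finset.card_lt_card ⟨hsub, fun h2 => (Finset.mem_erase.1 hJ).1 (h2.antisymm hsub)⟩
    · rw [TIFil_e_zero f s hsub]
      exact Submodule.zero_mem _
  · rw [sub_zero, Finset.sum_eq_zero fun J hJ => h1 J hJ fun e => hc (e ▸ (Finset.mem_filter.1 hJ).2)]
    exact Submodule.zero_mem _

variable {G : Type*} [Group G] {Γ : Type*} [Group Γ] {ρ : Representation κ G F}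
  {σ : Representation κ G K} {f : F →ₗ[κ] K}

theorem TIFil_act (hf : Equi ρ σ f) (w : Wr p G) (v : ZMod p → F) :
    TIFil_A f (fun i => ρ (w.x i) (v (i - w.k))) =
      (TIFil_A f v).map (trans w.k).toEmbedding := by
  ext i
  rw [Finset.mem_map_equiv, TIFil_memA, TIFil_memA, hf]
  refine ⟨fun h => ?_, fun h => ?_⟩
  · have := congrArg (σ (w.x i)⁻¹) h
    rwa [map_zero, Representation.inv_self_apply] at this
  · have h2 : f (v (i - w.k)) = 0 := h
    rw [h2, map_zero]

theorem TIFil_inv (ψ : Γ →* Wr p G) (hf : Equi ρ σ f) (j : ℕ) (γ : Γ) :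
    TIFil_F p f j ≤ (TIFil_F p f j).comap (TIr ψ ρ γ) :=
  TIFil_le (TIr ψ ρ γ) fun v hv => by
    rw [TIr_tprod]
    exact TIFil_mem (by rwa [TIFil_act hf, Finset.card_map])

theorem TIFil_c_map {j : ℕ} (h0 : 0 < j) (hp : j < p) {J : Finset (ZMod p)} (hJ : J.card = j)
    (k : ZMod p) : TIFil_c j (J.map (trans k).toEmbedding) = TIFil_c j J + k := by
  have h1 : (j : ZMod p) ≠ 0 := fun h =>
    absurd (Nat.le_of_dvd h0 ((ZMod.natCast_eq_zero_iff j p).1 h)) (not_le.2 hp)
  have h2 : ∑ i ∈ J, (trans k).toEmbedding i = ∑ i ∈ J, (i + k) := rfl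
  rw [TIFil_c, TIFil_c, Finset.sum_map, h2, Finset.sum_add_distrib, Finset.sum_const, hJ,
    nsmul_eq_mul]
  field_simp

theorem TIFil_key2 (ψ : Γ →* Wr p G) (hf : Equi ρ σ f) {s : K →ₗ[κ] F} (hs : ∀ k, f (s k) = k)
    {j : ℕ} (h0 : 0 < j) (hp : j < p) {v : ZMod p → F} (h : j ≤ (TIFil_A f v).card) (γ : Γ) :
    TIFil_E p f s j (TIr ψ ρ γ (tprod κ v)) -
      TIr ψ ρ γ (if (TIFil_A f v).card = j ∧ TIFil_c j (TIFil_A f v) + (ψ γ).k = 0 then tprod κ v
        else 0) ∈ TIFil_F p f (j + 1) := by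
  have h1 := TIFil_key hs (j := j) (v := fun i => ρ ((ψ γ).x i) (v (i - (ψ γ).k)))
    (by rwa [TIFil_act hf, Finset.card_map])
  rw [TIFil_act hf, Finset.card_map, ← TIr_tprod] at h1
  rw [apply_ite (TIr ψ ρ γ), map_zero]
  by_cases hc : (TIFil_A f v).card = j
  · rwa [TIFil_c_map h0 hp hc] at h1
  · rw [if_neg fun e => hc e.1] at h1 ⊢
    exact h1

theorem TIFil_step {S : Type*} [MulAction Γ S] (ψ : Γ →* Wr p G) {T : Γ}
    (hc : Cyc p ((Wr.deg p G).comp ψ) T) {r : S → S → Prop} (hr : Rel Γ r) (hf : Equi ρ σ f)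
    {s : K →ₗ[κ] F} (hs : ∀ k, f (s k) = k) {n j : ℕ} (h0 : 0 < j) (hp : j < p)
    (hC : ∀ (V : Type) [AddCommGroup V] [Module κ V] (τ : Representation κ Γ V),
      Van τ r (fun γ => (Wr.deg p G).comp ψ γ = 1) n)
    (h : Van (V := TIFil_F p f (j + 1))
      ((TIr ψ ρ).subrepresentation _ (TIFil_inv ψ hf (j + 1))) r (fun _ => True) n) :
    Van (V := TIFil_F p f j) ((TIr ψ ρ).subrepresentation _ (TIFil_inv ψ hf j)) r
      (fun _ => True) n := by
  refine Van.trsub hc hr (TIr ψ ρ) _ _ _ _ (TIFil_anti f j.le_succ) (TIFil_E p f s j)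
    (fun u _ => ?_) (TIFil_le _ fun v hv => ?_) (fun c hk => ?_) ?_ hC h
  · rw [TIFil_E, LinearMap.sum_apply]
    refine Submodule.sum_mem _ fun J hJ => ?_
    have := TIFil_e_mem hs J u
    rwa [(Finset.mem_filter.1 hJ).2.1] at this
  · have := TIFil_key hs (j.le_succ.trans hv)
    rwa [if_neg fun e => by omega, sub_zero] at this
  · refine TIFil_le (TIFil_E p f s j ∘ₗ TIr ψ ρ c - TIr ψ ρ c ∘ₗ TIFil_E p f s j) fun v hv => ?_
    have h1 := TIFil_key2 ψ hf hs h0 hp hv c
    have h2 : (ψ c).k = 0 := hk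
    rw [h2, add_zero] at h1
    have h3 := Submodule.sub_mem _ h1 (TIFil_inv ψ hf (j + 1) c (TIFil_key hs hv))
    rw [map_sub, sub_sub_sub_cancel_right] at h3
    exact h3
  · have hT : (ψ T).k = 1 := Multiplicative.ofAdd.injective hc.gen
    have key := TIFil_le (f := f) (j := j) (N := TIFil_F p f (j + 1))
      (∑ m ∈ Finset.range p, TIr ψ ρ (T ^ m) ∘ₗ TIFil_E p f s j ∘ₗ TIr ψ ρ (T ^ m)⁻¹ -
        LinearMap.id) fun v hv => by
      have h1 : ∀ m ∈ Finset.range p,
          TIr ψ ρ (T ^ m) (TIFil_E p f s j (TIr ψ ρ (T ^ m)⁻¹ (tprod κ v))) -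
            (if (TIFil_A f v).card = j ∧ TIFil_c j (TIFil_A f v) = m then tprod κ v else 0) ∈
              TIFil_F p f (j + 1) := fun m _ => by
        have h2 := TIFil_inv ψ hf (j + 1) (T ^ m) (TIFil_key2 ψ hf hs h0 hp hv (T ^ m)⁻¹)
        rw [Submodule.mem_comap, map_sub, Representation.self_inv_apply, map_inv ψ, map_pow ψ,
          Wr.inv_k, Wr.pow_k, hT, mul_one] at h2
        simpa only [add_neg_eq_zero] using h2
      have h2 := Submodule.sum_mem _ h1
      rw [Finset.sum_sub_distrib] at h2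
      rw [LinearMap.sub_apply, LinearMap.sum_apply, LinearMap.id_apply]
      by_cases h3 : (TIFil_A f v).card = j
      · rwa [Finset.sum_eq_single_of_mem (f := fun m : ℕ => if (TIFil_A f v).card = j ∧
            TIFil_c j (TIFil_A f v) = m then tprod κ v else 0) (TIFil_c j (TIFil_A f v)).val
          (Finset.mem_range.2 (ZMod.val_lt _)) fun m hm hne => if_neg fun e => hne (by
            rw [e.2, ZMod.val_cast_of_lt (Finset.mem_range.1 hm)]),
          if_pos ⟨h3, (ZMod.natCast_zmod_val _).symm⟩] at h2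
      · rw [Finset.sum_eq_zero (f := fun m : ℕ => if (TIFil_A f v).card = j ∧
            TIFil_c j (TIFil_A f v) = m then tprod κ v else 0) fun m _ => if_neg fun e => h3 e.1,
          sub_zero] at h2
        exact Submodule.sub_mem _ h2 (TIFil_mem (by omega))
    intro u hu
    have := key u hu
    rwa [LinearMap.sub_apply, LinearMap.sum_apply, LinearMap.id_apply] at this

omit [Fact p.Prime] in
theorem TIFil_left {K' : Type} [AddCommGroup K'] [Module κ K'] (a : K →ₗ[κ] K') (b : K' →ₗ[κ] K)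
    (h : ∀ k, b (a k) = k) (z : ⨂[κ] _ : ZMod p, K) : TIm p b (TIm p a z) = z := by
  induction z using PiTensorProduct.induction_on with
  | smul_tprod c v => simp only [map_smul, TIm_tprod, h]
  | add x y hx hy => rw [map_add, map_add, hx, hy]

theorem TIFil_top {S : Type*} [MulAction Γ S] (ψ : Γ →* Wr p G) {r : S → S → Prop}
    (hf : Equi ρ σ f) {s : K →ₗ[κ] F} (hs : ∀ k, f (s k) = k) {n : ℕ}
    (hK : Van (TIr ψ (K := LinearMap.ker f)
      (ρ.subrepresentation (LinearMap.ker f) (ker_le_comap hf))) r (fun _ => True) n) :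
    Van (V := TIFil_F p f p) ((TIr ψ ρ).subrepresentation _ (TIFil_inv ψ hf p)) r
      (fun _ => True) n := by
  have h1 : ∀ z, TIm p (LinearMap.ker f).subtype z ∈ TIFil_F p f p := fun z => by
    induction z using PiTensorProduct.induction_on with
    | smul_tprod c v =>
      rw [map_smul, TIm_tprod]
      refine Submodule.smul_mem _ _ (TIFil_mem ?_)
      rw [Finset.eq_univ_of_forall (s := TIFil_A f fun i => (LinearMap.ker f).subtype (v i))
        fun i => TIFil_memA.2 (v i).2, Finset.card_univ, ZMod.card]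
    | add x y hx hy => rw [map_add]; exact Submodule.add_mem _ hx hy
  refine hK.of_bijective ((TIm p (LinearMap.ker f).subtype).codRestrict _ h1)
    (fun γ z => Subtype.ext (TIm_equi' ψ (fun _ _ => rfl) γ z)) ⟨fun x y e => ?_, fun z => ?_⟩
  · have h2 : ∀ x, (LinearMap.id - s ∘ₗ f : F →ₗ[κ] F) x ∈ LinearMap.ker f := fun x => by
      simp [hs]
    have h3 := TIFil_left (p := p) (LinearMap.ker f).subtype
      ((LinearMap.id - s ∘ₗ f).codRestrict _ h2) fun k => Subtype.ext (by simp)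
    have h4 : TIm p (LinearMap.ker f).subtype x = TIm p (LinearMap.ker f).subtype y :=
      congrArg Subtype.val e
    rw [← h3 x, h4, h3]
  · obtain ⟨y, hy⟩ := TIFil_le (f := f) (j := p) LinearMap.id
      (N := LinearMap.range (TIm p (LinearMap.ker f).subtype)) (fun v hv => by
        have h2 : TIFil_A f v = Finset.univ :=
          Finset.eq_univ_of_card _ (le_antisymm (Finset.card_le_univ _) (by rwa [ZMod.card]))
        exact ⟨tprod κ fun i => ⟨v i, TIFil_memA.1 (h2 ▸ Finset.mem_univ i)⟩, TIm_tprod _ _ _⟩)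
      z.1 z.2
    exact ⟨y, Subtype.ext hy⟩

theorem TIFil_exact {s : K →ₗ[κ] F} (hs : ∀ k, f (s k) = k) :
    Function.Exact (TIFil_F p f 1).subtype (TIm p f) := by
  intro z
  refine ⟨fun h => ⟨⟨z, ?_⟩, rfl⟩, ?_⟩
  · rw [← TIFil_e_sum f s z]
    refine Submodule.sum_mem _ fun J _ => ?_
    rcases J.eq_empty_or_nonempty with rfl | hJ
    · have h1 : TIFil_e f s (∅ : Finset (ZMod p)) = TIm p s ∘ₗ TIm p f := by
        ext v
        simp [TIFil_e_tprod, TIm_tprod]
      rw [h1, LinearMap.comp_apply, h, map_zero]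
      exact Submodule.zero_mem _
    · exact TIFil_anti f hJ.card_pos (TIFil_e_mem hs J z)
  · rintro ⟨y, rfl⟩
    refine TIFil_le (TIm p f) (N := ⊥) (fun v hv => ?_) y.1 y.2
    obtain ⟨i, hi⟩ := Finset.card_pos.1 hv
    rw [TIm_tprod, Submodule.mem_bot]
    exact MultilinearMap.map_coord_zero _ i (TIFil_memA.1 hi)

end aux

theorem van_TI_step {κ : Type} [Field κ] {G : Type*} [Group G] {p : ℕ} [Fact p.Prime]
    {Γ : Type*} [Group Γ] {S : Type*} [MulAction Γ S] (ψ : Γ →* Wr p G) {T : Γ}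
    (hc : Cyc p ((Wr.deg p G).comp ψ) T) {r : S → S → Prop} (hr : Rel Γ r)
    {F K : Type} [AddCommGroup F] [Module κ F] [AddCommGroup K] [Module κ K]
    (ρ : Representation κ G F) (σ : Representation κ G K) (f : F →ₗ[κ] K) (hf : Equi ρ σ f)
    (fsurj : Function.Surjective f) {j : ℕ}
    (hC : ∀ (V : Type) [AddCommGroup V] [Module κ V] (τ : Representation κ Γ V),
      Van τ r (fun γ => (Wr.deg p G).comp ψ γ = 1) j)
    (hK : Van (TIr ψ (K := LinearMap.ker f)
      (ρ.subrepresentation (LinearMap.ker f) (ker_le_comap hf))) r (fun _ => True) j)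
    (hF : Van (TIr ψ ρ) r (fun _ => True) (j + 1)) :
    Van (TIr ψ σ) r (fun _ => True) (j + 1) := by
  obtain ⟨s, hs'⟩ := f.exists_rightInverse_of_surjective (LinearMap.range_eq_top.2 fsurj)
  have hs : ∀ k, f (s k) = k := fun k => LinearMap.congr_fun hs' k
  have h1 : ∀ n i, i + n = p → 0 < i → Van (V := TIFil_F p f i)
      ((TIr ψ ρ).subrepresentation _ (TIFil_inv ψ hf i)) r (fun _ => True) j := by
    intro n
    induction n with
    | zero =>
      intro i hi _
      obtain rfl : i = p := hi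
      exact TIFil_top ψ hf hs hK
    | succ n ih =>
      intro i hi h0
      exact TIFil_step ψ hc hr hf hs h0 (by omega) hC (ih (i + 1) (by omega) (by omega))
  have hp := (Fact.out : p.Prime).pos
  exact Van.x3 hr (TIFil_F p f 1).subtype (TIm p f) (fun _ _ => rfl) (TIm_equi' ψ hf)
    Subtype.val_injective (fun z => ⟨_, TIFil_left s f hs z⟩) (TIFil_exact hs)
    (h1 (p - 1) 1 (by omega) one_pos) hF

end Pool.Agent.MP_f7db47_al.Cv
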