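import Pool.Agent.MP_f7db47_al.Cv.Defs
import Pool.Agent.MP_f7db47_al.Cv.Cone
import Pool.Agent.MP_f7db47_al.Cv.TIFil

open scoped TensorProduct

namespace Pool.Agent.MP_f7db47_al.Cv

variable {κ : Type} [Field κ] {G : Type} [Group G] {p : ℕ} [Fact p.Prime]
  {Γ : Type*} [Group Γ] {S : Type*} [MulAction Γ S]

theorem TIBase_equiv (κ : Type) [Field κ] (p : ℕ) [Fact p.Prime] (Y : Type) :
    ∃ f : (Pw p Y →₀ κ) →ₗ[κ] (⨂[κ] _ : ZMod p, (Y →₀ κ)), Function.Bijective f ∧
      ∀ y : Pw p Y, f (Finsupp.single y 1) =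
        PiTensorProduct.tprod κ fun i => Finsupp.single (y i) 1 := by
  classical
  let e := PiTensorProduct.ofFinsuppEquiv' (R := κ) (κ := fun _ : ZMod p => Y)
  refine ⟨e.symm.toLinearMap, e.symm.bijective, fun y => ?_⟩
  refine (LinearEquiv.symm_apply_eq e).2 ?_
  have := PiTensorProduct.ofFinsuppEquiv'_tprod_single (R := κ) (κ := fun _ : ZMod p => Y) y
    fun _ => 1
  rw [Finset.prod_const_one] at this
  exact this.symm

theorem TIBase_one {B : Type} {w : Wr p G} {y : Pw p (FB G B)} (h : w • y = y) (hk : w.k = 0) :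
    w = 1 := by
  refine Wr.ext (funext fun i => ?_) hk
  have := congrArg FB.g (congrFun h i)
  rw [Pw.smul_apply, hk, sub_zero, FB.smul_g] at this
  exact mul_eq_right.1 this

theorem TIBase_pow {M Y : Type*} [Monoid M] [MulAction M Y] {w : M} {y : Y} (h : w • y = y)
    (m : ℕ) : w ^ m • y = y := by
  induction m with
  | zero => simp
  | succ m ih => rw [pow_succ, mul_smul, h, ih]

theorem van_TI_free (ψ : Γ →* Wr p G) (hψ : Function.Injective ψ) {r : S → S → Prop}
    (hr : Rel Γ r) (hfix : ∀ γ : Γ, γ ^ p = 1 → ∃ s : S, γ • s = s)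
    (htor : ∀ γ : Γ, γ ^ p = 1 → ∀ s : S, r (γ • s) s → γ • s = s) (B : Type) :
    Van (TIr ψ (FR κ G B)) r (fun _ => True) 3 := by
  let _ := MulAction.compHom (Pw p (FB G B)) ψ
  have hs : ∀ (h : Γ) (y : Pw p (FB G B)), h • y = ψ h • y := fun _ _ => rfl
  have h1 : ∀ (h : Γ) (y : Pw p (FB G B)), h • y = y → (ψ h).k = 0 → h = 1 := fun h y e hk =>
    hψ ((TIBase_one e hk).trans (map_one ψ).symm)
  have h2 : ∀ (h : Γ) (y : Pw p (FB G B)), h • y = y → h ^ p = 1 := fun h y e =>
    h1 _ y (TIBase_pow e p) (by simp)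
  obtain ⟨f, hb, hf⟩ := TIBase_equiv κ p (FB G B)
  refine (van_perm (Y := Pw p (FB G B)) (Representation.trivial κ Γ κ) hr (fun y => ?_)
    fun h y s e => htor h (h2 h y e) s).of_bijective f (fun h z => ?_) hb
  · by_cases h0 : ∃ h0 : Γ, h0 • y = y ∧ h0 ≠ 1
    · obtain ⟨h0, e0, n0⟩ := h0
      obtain ⟨s, hs0⟩ := hfix h0 (h2 h0 y e0)
      refine ⟨s, fun h e => ?_⟩
      have hk : (ψ h0).k ≠ 0 := fun c => n0 (h1 h0 y e0 c)
      have h3 : h⁻¹ * h0 ^ ((ψ h).k * (ψ h0).k⁻¹).val = 1 := by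
        refine h1 _ y (by rw [mul_smul, TIBase_pow e0, inv_smul_eq_iff, e]) ?_
        rw [map_mul, map_inv, map_pow, Wr.mul_k, Wr.inv_k, Wr.pow_k, ZMod.natCast_zmod_val,
          inv_mul_cancel_right₀ hk, neg_add_cancel]
      rw [inv_mul_eq_one.1 h3]
      exact TIBase_pow hs0 _
    · obtain ⟨s, -⟩ := hfix 1 (one_pow p)
      refine ⟨s, fun h e => ?_⟩
      by_contra c
      exact h0 ⟨h, e, fun c' => c (by rw [c', one_smul])⟩
  · induction z using Finsupp.induction_linear with
    | zero => simp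
    | add a b ha hb => simp only [map_add, ha, hb]
    | single y c =>
      rw [← mul_one c, ← smul_eq_mul, ← Finsupp.smul_single]
      simp only [map_smul]
      rw [pr_single, Representation.trivial_apply, hf, hf, TIr_tprod]
      congr 2
      funext i
      rw [FR, pr_single, Representation.trivial_apply]
      rfl

theorem van_of_TI_trivial (ψ : Γ →* Wr p G) {r : S → S → Prop} {j : ℕ}
    (h : Van (TIr ψ (Representation.trivial κ G κ)) r (fun _ => True) j) :
    Van (Representation.trivial κ Γ κ) r (fun _ => True) j := by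
  let e := (PiTensorProduct.constantBaseRingEquiv (ZMod p) κ).toLinearEquiv
  refine h.of_bijective e.toLinearMap (fun γ z => ?_) e.bijective
  have : e.toLinearMap ∘ₗ TIr ψ (Representation.trivial κ G κ) γ = e.toLinearMap := by
    refine PiTensorProduct.ext (MultilinearMap.ext fun v => ?_)
    simp only [LinearMap.compMultilinearMap_apply, LinearMap.comp_apply, TIr_tprod,
      Representation.trivial_apply]
    exact (PiTensorProduct.constantBaseRingEquiv_tprod _).trans
      ((Equiv.prod_comp (trans (ψ γ).k).symm v).trans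
        (PiTensorProduct.constantBaseRingEquiv_tprod _).symm)
  exact LinearMap.congr_fun this z

theorem van_Gamma (ψ : Γ →* Wr p G) (hψ : Function.Injective ψ) {T : Γ}
    (hc : Cyc p ((Wr.deg p G).comp ψ) T) {r : S → S → Prop}
    (hr : Rel Γ r) (hfix : ∀ γ : Γ, γ ^ p = 1 → ∃ s : S, γ • s = s)
    (htor : ∀ γ : Γ, γ ^ p = 1 → ∀ s : S, r (γ • s) s → γ • s = s) {m : ℕ}
    (hC : ∀ (V : Type) [AddCommGroup V] [Module κ V] (τ : Representation κ Γ V),
      Van τ r (fun γ => (Wr.deg p G).comp ψ γ = 1) m)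
    {D : ℕ} (hD : Res D (Representation.trivial κ G κ)) :
    ∃ j, Van (Representation.trivial κ Γ κ) r (fun _ => True) j := by
  have key : ∀ (n : ℕ) (K : Type) [AddCommGroup K] [Module κ K] (σ : Representation κ G K),
      Res n σ → ∃ j, Van (TIr ψ σ) r (fun _ => True) j := by
    intro n
    induction n with
    | zero =>
      rintro K _ _ σ ⟨B, i, q, hi, hq, hqi⟩
      refine ⟨3, (van_TI_free ψ hψ hr hfix htor B).retract (TIm p i) (TIm p q)
        (TIm_equi' ψ hi) (TIm_equi' ψ hq) fun z => ?_⟩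
      have : TIm p q ∘ₗ TIm p i = LinearMap.id := by
        ext v
        simp [TIm_tprod, hqi]
      exact LinearMap.congr_fun this z
    | succ n ih =>
      rintro K _ _ σ ⟨B, f, hf, hs, hR⟩
      obtain ⟨j, hj⟩ := ih _ _ hR
      exact ⟨max j (max m 3) + 1, van_TI_step ψ hc hr _ σ f hf hs
        (fun V _ _ τ => (hC V τ).mono (by omega)) (fun i hi => hj i (by omega))
        ((van_TI_free ψ hψ hr hfix htor B).mono (by omega))⟩
  obtain ⟨j, hj⟩ := key D κ _ hD
  exact ⟨j, van_of_TI_trivial ψ hj⟩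

end Pool.Agent.MP_f7db47_al.Cv
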