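import Pool.Agent.MP_f7db47_al.Cv.Base

namespace Pool.Agent.MP_f7db47_al.Cv

variable {κ : Type*} [CommRing κ] {H : Type*} [Group H] {S : Type*} [MulAction H S]
variable {V' V V'' : Type*} [AddCommGroup V'] [Module κ V'] [AddCommGroup V] [Module κ V]
  [AddCommGroup V''] [Module κ V'']

open Classical in
/-- The normal form of a chain modulo the neglected chains. -/
noncomputable def LES_nf (ρ : Representation κ H V) (r : S → S → Prop) (e : List S → H) :
    (List S →₀ V) →ₗ[κ] (List S →₀ V) :=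
  Finsupp.lsum κ fun l => if Fix r l then 0 else Finsupp.lsingle ((e l)⁻¹ • l) ∘ₗ ρ (e l)⁻¹

section
variable {ρ' : Representation κ H V'} {ρ : Representation κ H V} {ρ'' : Representation κ H V''}
  {r : S → S → Prop} {e : List S → H}

theorem LES_pos {l : List S} (h : Fix r l) (v : V) : LES_nf ρ r e (Finsupp.single l v) = 0 := by
  simp [LES_nf, h]

theorem LES_neg {l : List S} (h : ¬ Fix r l) (v : V) :
    LES_nf ρ r e (Finsupp.single l v) = pr (List S) ρ (e l)⁻¹ (Finsupp.single l v) := by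
  simp [LES_nf, h]

theorem LES_zero (hr : Rel H r) (he : ∀ (h : H) l, ¬ Fix r l → e (h • l) = h * e l)
    {z : List S →₀ V} (hz : z ∈ NN ρ r fun _ => True) : LES_nf ρ r e z = 0 := by
  rw [← Submodule.mem_bot κ]
  refine NN_le (fun z hz => map_supported (fun l hl v => LES_pos hl v) hz)
    (fun z hz => Jp_le (fun g z _ => ?_) hz) hz
  rw [Submodule.mem_bot, sub_eq_zero]
  induction z using Finsupp.induction_linear with
  | zero => simp
  | add a b ha hb => simp only [map_add, ha, hb]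
  | single l v =>
    by_cases hl : Fix r l
    · rw [pr_single, LES_pos hl, LES_pos (hr.fix_smul g hl)]
    · rw [LES_neg hl, pr_single, LES_neg fun c => hl ((hr.fix_smul_iff g).1 c), he g l hl,
        ← pr_single, ← Module.End.mul_apply, ← map_mul, mul_inv_rev, inv_mul_cancel_right]

theorem LES_sub (z : List S →₀ V) : z - LES_nf ρ r e z ∈ NN ρ r fun _ => True := by
  induction z using Finsupp.induction_linear with
  | zero => simp
  | add a b ha hb =>
    rw [map_add, add_sub_add_comm]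
    exact Submodule.add_mem _ ha hb
  | single l v =>
    by_cases hl : Fix r l
    · rw [LES_pos hl, sub_zero]
      exact Fx_le_NN _ _ _ (single_mem_Fx hl v)
    · rw [LES_neg hl, ← neg_sub]
      exact Submodule.neg_mem _ (Jp_le_NN _ _ _ (mem_Jp _ trivial _))

theorem LES_Gd {i : ℕ} {z : List S →₀ V} (hz : z ∈ Gd κ i) : LES_nf ρ r e z ∈ Gd κ i :=
  map_supported (fun l hl v => by
    by_cases h : Fix r l
    · rw [LES_pos h]
      exact Submodule.zero_mem _
    · rw [LES_neg h]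
      exact pr_mem_Gd _ _ (single_mem_Gd hl v)) hz

theorem LES_Em {f : V' →ₗ[κ] V} (hf : Equi ρ' ρ f) (z : List S →₀ V') :
    Em f (LES_nf ρ' r e z) = LES_nf ρ r e (Em f z) := by
  induction z using Finsupp.induction_linear with
  | zero => simp
  | add a b ha hb => simp only [map_add, ha, hb]
  | single l v =>
    by_cases h : Fix r l
    · rw [Em_single, LES_pos h, LES_pos h, map_zero]
    · rw [LES_neg h, Em_pr (hf _), Em_single, LES_neg h]

theorem LES_inj (hr : Rel H r) {f : V' →ₗ[κ] V} (hf : Equi ρ' ρ f) (finj : Function.Injective f)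
    {z : List S →₀ V'} (hz : Em f z ∈ NN ρ r fun _ => True) : z ∈ NN ρ' r fun _ => True := by
  obtain ⟨e, he⟩ := hr.exists_label
  have h1 := LES_zero hr he hz
  rw [← LES_Em hf] at h1
  have h2 : LES_nf ρ' r e z = 0 := by
    ext l
    exact finj (by simpa using DFunLike.congr_fun h1 l)
  have h3 := LES_sub (ρ := ρ') (r := r) (e := e) z
  rwa [h2, sub_zero] at h3

omit [MulAction H S] in
theorem LES_lift (f : V' →ₗ[κ] V) {i : ℕ} {z : List S →₀ V} (hz : z ∈ Gd κ i)
    (h : ∀ l, ∃ v, f v = z l) : ∃ z' ∈ Gd κ i, Em f z' = z := by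
  choose v hv using h
  refine ⟨∑ l ∈ z.support, Finsupp.single l (v l),
    Submodule.sum_mem _ fun l hl => single_mem_Gd (hz hl) _, ?_⟩
  simp only [map_sum, Em_single, hv]
  exact Finsupp.sum_single z

theorem LES_ex (hr : Rel H r) {f : V' →ₗ[κ] V} {g : V →ₗ[κ] V''} (hg : Equi ρ ρ'' g)
    (hex : Function.Exact f g) {i : ℕ} {z : List S →₀ V} (hz : z ∈ Gd κ i)
    (h : Em g z ∈ NN ρ'' r fun _ => True) :
    ∃ z' ∈ Gd κ i, z - Em f z' ∈ NN ρ r fun _ => True := by
  obtain ⟨e, he⟩ := hr.exists_label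
  have h1 := LES_zero hr he h
  rw [← LES_Em hg] at h1
  obtain ⟨z', h2, h3⟩ := LES_lift f (LES_Gd (ρ := ρ) (r := r) (e := e) hz) fun l =>
    (hex _).1 (by simpa using DFunLike.congr_fun h1 l)
  exact ⟨z', h2, h3 ▸ LES_sub z⟩

end

theorem Van.x2 {ρ' : Representation κ H V'} {ρ : Representation κ H V}
    {ρ'' : Representation κ H V''} {r : S → S → Prop} (hr : Rel H r) (f : V' →ₗ[κ] V)
    (g : V →ₗ[κ] V'') (hf : Equi ρ' ρ f) (hg : Equi ρ ρ'' g) (finj : Function.Injective f)
    (gsurj : Function.Surjective g) (hex : Function.Exact f g) {j : ℕ}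
    (h1 : Van ρ' r (fun _ => True) j) (h3 : Van ρ'' r (fun _ => True) j) :
    Van ρ r (fun _ => True) j := by
  intro i hi z hz hb
  obtain ⟨a'', ha'', e1⟩ := h3 i hi (Em g z) (Em_mem_supported g hz)
    (by rw [← Em_bd]; exact Em_mem_NN (fun h v _ => hg h v) hb)
  obtain ⟨a, ha, rfl⟩ := LES_lift g ha'' fun l => gsurj _
  rw [← Em_bd, ← map_sub] at e1
  obtain ⟨z', hz', e2⟩ := LES_ex hr hg hex (Submodule.sub_mem _ hz (bd_mem_Gd ha)) e1
  have e3 := bd_mem_NN e2
  rw [map_sub, map_sub, bd_bd, sub_zero, ← Em_bd] at e3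
  obtain ⟨a', ha', e4⟩ := h1 i hi z' hz' (LES_inj hr hf finj
    (by simpa using Submodule.sub_mem _ hb e3))
  refine ⟨a + Em f a', Submodule.add_mem _ ha (Em_mem_supported f ha'), ?_⟩
  have e5 := Submodule.add_mem _ e2 (Em_mem_NN (σ := ρ) (fun h v _ => hf h v) e4)
  rw [map_sub, Em_bd] at e5
  rw [map_add]
  convert e5 using 1
  abel

theorem Van.x3 {ρ' : Representation κ H V'} {ρ : Representation κ H V}
    {ρ'' : Representation κ H V''} {r : S → S → Prop} (hr : Rel H r) (f : V' →ₗ[κ] V)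
    (g : V →ₗ[κ] V'') (hf : Equi ρ' ρ f) (hg : Equi ρ ρ'' g) (finj : Function.Injective f)
    (gsurj : Function.Surjective g) (hex : Function.Exact f g) {j : ℕ}
    (h1 : Van ρ' r (fun _ => True) j) (h2 : Van ρ r (fun _ => True) (j + 1)) :
    Van ρ'' r (fun _ => True) (j + 1) := by
  intro i hi z'' hz'' hb
  obtain ⟨i, rfl⟩ : ∃ i', i = i' + 1 := ⟨i - 1, by omega⟩
  obtain ⟨z, hz, rfl⟩ := LES_lift g hz'' fun l => gsurj _
  rw [← Em_bd] at hb
  obtain ⟨z', hz', e2⟩ := LES_ex hr hg hex (bd_mem_Gd hz) hb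
  have e3 := bd_mem_NN e2
  rw [map_sub, bd_bd, zero_sub, ← Em_bd, Submodule.neg_mem_iff] at e3
  obtain ⟨a', ha', e4⟩ := h1 i (by omega) z' hz' (LES_inj hr hf finj e3)
  have e5 := Submodule.add_mem _ e2 (Em_mem_NN (σ := ρ) (fun h v _ => hf h v) e4)
  rw [map_sub, Em_bd, sub_add_sub_cancel, ← map_sub] at e5
  obtain ⟨a, ha, e6⟩ := h2 (i + 1) hi _ (Submodule.sub_mem _ hz (Em_mem_supported f ha')) e5
  refine ⟨Em g a, Em_mem_supported g ha, ?_⟩
  have e7 := Em_mem_NN (σ := ρ'') (fun h v _ => hg h v) e6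
  have e8 : Em g (Em f a') = 0 := by
    ext l
    simpa using hex.apply_apply_eq_zero _
  rwa [map_sub, map_sub, e8, sub_zero, Em_bd] at e7

end Pool.Agent.MP_f7db47_al.Cv
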