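import Pool.Agent.MP_f7db47_al.Cv.Defs
import Pool.Agent.MP_f7db47_al.Cv.LES
import Pool.Agent.MP_f7db47_al.Cv.Cone

namespace Pool.Agent.MP_f7db47_al.Cv

open TensorProduct

section
variable {κ : Type} [Field κ] {G : Type} [Group G] {H : Type*} [Group H]
variable {V : Type*} [AddCommGroup V] [Module κ V]

/-- The tensor product of a restricted representation with `ρ`. -/
noncomputable def VanC_T (φ : H →* G) (ρ : Representation κ H V) {K : Type} [AddCommGroup K]
    [Module κ K] (σ : Representation κ G K) : Representation κ H (K ⊗[κ] V) :=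
  Representation.tprod (σ.comp φ) ρ

theorem VanC_T_tmul (φ : H →* G) (ρ : Representation κ H V) {K : Type} [AddCommGroup K]
    [Module κ K] (σ : Representation κ G K) (h : H) (x : K) (v : V) :
    VanC_T φ ρ σ h (x ⊗ₜ v) = σ (φ h) x ⊗ₜ ρ h v := rfl

theorem VanC_equi (φ : H →* G) (ρ : Representation κ H V) {K K' : Type} [AddCommGroup K]
    [Module κ K] [AddCommGroup K'] [Module κ K'] {σ : Representation κ G K}
    {σ' : Representation κ G K'} {f : K →ₗ[κ] K'} (hf : Equi σ σ' f) :
    Equi (VanC_T φ ρ σ) (VanC_T φ ρ σ') (f.rTensor V) := by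
  intro h z
  induction z using TensorProduct.induction_on with
  | zero => simp
  | add a b ha hb => simp only [map_add, ha, hb]
  | tmul x v =>
    rw [VanC_T_tmul, LinearMap.rTensor_tmul, LinearMap.rTensor_tmul, VanC_T_tmul, hf]

theorem VanC_free (φ : H →* G) (hφ : Function.Injective φ) {S : Type*} [MulAction H S]
    [Nonempty S] {r : S → S → Prop} (hr : Rel H r) (ρ : Representation κ H V) (B : Type) :
    Van (VanC_T φ ρ (FR κ G B)) r (fun _ => True) 3 := by
  classical
  let : MulAction H (FB G B) := MulAction.compHom (FB G B) φ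
  have hfree : ∀ (h : H) (y : FB G B), h • y = y → h = 1 := fun h y e => by
    have e1 : φ h * y.g = y.g := congrArg FB.g e
    apply hφ
    rw [map_one]
    exact mul_eq_right.1 e1
  have h1 : Van (pr (FB G B) ρ) r (fun _ => True) 3 :=
    van_perm ρ hr
      (fun y => ⟨Classical.arbitrary S, fun h e => by rw [hfree h y e, one_smul]⟩)
      (fun h y s e _ => by rw [hfree h y e, one_smul])
  refine h1.of_bijective (finsuppScalarLeft κ V (FB G B)).symm.toLinearMap ?_
    (finsuppScalarLeft κ V (FB G B)).symm.bijective
  intro h z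
  induction z using Finsupp.induction_linear with
  | zero => simp
  | add a b ha hb => simp only [map_add, ha, hb]
  | single y v =>
    rw [pr_single, LinearEquiv.coe_coe, finsuppScalarLeft_symm_apply_single,
      finsuppScalarLeft_symm_apply_single, VanC_T_tmul, FR, pr_single]
    rfl

theorem VanC_step (φ : H →* G) {S : Type*} [MulAction H S] {r : S → S → Prop} (hr : Rel H r)
    (ρ : Representation κ H V) {K' K K'' : Type} [AddCommGroup K'] [Module κ K'] [AddCommGroup K]
    [Module κ K] [AddCommGroup K''] [Module κ K''] {σ' : Representation κ G K'}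
    {σ : Representation κ G K} {σ'' : Representation κ G K''} (f : K' →ₗ[κ] K) (g : K →ₗ[κ] K'')
    (hf : Equi σ' σ f) (hg : Equi σ σ'' g) (finj : Function.Injective f)
    (gsurj : Function.Surjective g) (hex : Function.Exact f g) {j : ℕ}
    (h1 : Van (VanC_T φ ρ σ') r (fun _ => True) j)
    (h2 : Van (VanC_T φ ρ σ) r (fun _ => True) (j + 1)) :
    Van (VanC_T φ ρ σ'') r (fun _ => True) (j + 1) :=
  Van.x3 hr (f.rTensor V) (g.rTensor V) (VanC_equi φ ρ hf) (VanC_equi φ ρ hg)
    (Module.Flat.rTensor_preserves_injective_linearMap f finj)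
    (LinearMap.rTensor_surjective V gsurj) (rTensor_exact V hex gsurj) h1 h2

theorem VanC_res (φ : H →* G) (hφ : Function.Injective φ) {S : Type*} [MulAction H S]
    [Nonempty S] {r : S → S → Prop} (hr : Rel H r) (ρ : Representation κ H V) (n : ℕ) :
    ∀ {K : Type} [AddCommGroup K] [Module κ K] (σ : Representation κ G K), Res n σ →
      Van (VanC_T φ ρ σ) r (fun _ => True) (n + 3) := by
  induction n with
  | zero =>
    intro K _ _ σ hσ
    obtain ⟨B, i, q, hi, hq, hqi⟩ := hσ
    refine (VanC_free φ hφ hr ρ B).retract (i.rTensor V) (q.rTensor V) (VanC_equi φ ρ hi)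
      (VanC_equi φ ρ hq) fun z => ?_
    have e : q ∘ₗ i = LinearMap.id := LinearMap.ext hqi
    rw [← LinearMap.comp_apply, ← LinearMap.rTensor_comp, e, LinearMap.rTensor_id,
      LinearMap.id_apply]
  | succ n ih =>
    intro K _ _ σ hσ
    obtain ⟨B, f, hf, hs, hk⟩ := hσ
    have h1 := ih _ hk
    have hsub : Equi (V := LinearMap.ker f)
        ((FR κ G B).subrepresentation (LinearMap.ker f) (ker_le_comap hf)) (FR κ G B)
        (LinearMap.ker f).subtype := by
      intro g v
      rfl
    exact VanC_step (K' := LinearMap.ker f) φ hr ρ (LinearMap.ker f).subtype f hsub hf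
      Subtype.val_injective hs (LinearMap.exact_subtype_ker_map f) h1
      ((VanC_free φ hφ hr ρ B).mono (by omega))

end

theorem vanC {κ : Type} [Field κ] {G : Type} [Group G] {D : ℕ}
    (hD : Res D (Representation.trivial κ G κ)) {H : Type*} [Group H] (φ : H →* G)
    (hφ : Function.Injective φ) {S : Type*} [MulAction H S] [Nonempty S] {r : S → S → Prop}
    (hr : Rel H r) {V : Type*} [AddCommGroup V] [Module κ V] (ρ : Representation κ H V) :
    Van ρ r (fun _ => True) (D + 3) := by
  refine (VanC_res φ hφ hr ρ D _ hD).of_bijective (TensorProduct.lid κ V).toLinearMap ?_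
    (TensorProduct.lid κ V).bijective
  intro h z
  induction z using TensorProduct.induction_on with
  | zero => simp
  | add a b ha hb => simp only [map_add, ha, hb]
  | tmul x v => simp [VanC_T_tmul]

end Pool.Agent.MP_f7db47_al.Cv
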