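import Pool.Agent.MP_f7db47_al.Cv.DLam
import Pool.Agent.MP_f7db47_al.Cv.Desc
import Pool.Agent.MP_f7db47_al.Cv.VanC
import Pool.Agent.MP_f7db47_al.Cv.TIBase
import Pool.Agent.MP_f7db47_al.Cv.ResPd

namespace Pool.Agent.MP_f7db47_al.Cv

section
variable {κ : Type*} [CommRing κ] {p : ℕ} [NeZero p] {G : Type*} [Group G] {g : G}
  {X : Om p G → Wr p G}

theorem DMain_Gd (n : ℕ) {z : List (Pw p G) →₀ (Om p G →₀ κ)} (hz : z ∈ Gd κ n) :
    Phi_map κ g X z ∈ Gd κ n := by
  refine Phi_mem (fun l hl ω a => ?_) hz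
  by_cases h : Phi_Orb p g ω
  · rw [Phi_pos X l h]
    exact single_mem_Gd (by rw [length_smul]; exact hl) a
  · rw [Phi_neg X l h]
    exact Submodule.zero_mem _

theorem DMain_J (hX : ∀ ω, Phi_Orb p g ω → (X ω).k = 0 ∧ X ω • ω = Om.cst p g)
    {z : List (Pw p G) →₀ (Om p G →₀ κ)}
    (hz : z ∈ (Jp (ER κ p G) fun w => w.k = 0) ⊔ OnO κ fun ω : Om p G => ¬ Phi_Orb p g ω) :
    Phi_map κ g X z ∈ Jp (pr (List (Pw p G)) (Representation.trivial κ (Gam p g) κ))
      fun γ => GamPi p g γ = 1 := by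
  obtain ⟨a, ha, b, hb, rfl⟩ := Submodule.mem_sup.1 hz
  rw [map_add]
  refine Submodule.add_mem _ (Jp_le (fun u v hu => ?_) ha) (OnO_le (fun l ω a h => ?_) hb)
  · refine Phi_mem' (f := Phi_map κ g X ∘ₗ pr (List (Pw p G)) (OmR κ p G) u - Phi_map κ g X)
      (fun l ω a => ?_) v
    obtain ⟨γ, h1, h2⟩ := Phi_tr hX u l ω a
    rw [LinearMap.sub_apply, LinearMap.comp_apply, h2]
    exact mem_Jp _ (P := fun γ => GamPi p g γ = 1) ((GamPi_eq_one γ).2 (h1.trans hu)) _
  · rw [Phi_neg X l h]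
    exact Submodule.zero_mem _

theorem DMain_th (hX : ∀ ω, Phi_Orb p g ω → (X ω).k = 0 ∧ X ω • ω = Om.cst p g) (n : ℕ)
    (z : List (Pw p G) →₀ (Om p G →₀ κ)) :
    Phi_map κ g X (th (ER κ p G) (Wr.sh p G) p n z) -
      th (pr (List (Pw p G)) (Representation.trivial κ (Gam p g) κ)) (GamT p g) p n
        (Phi_map κ g X z) ∈
      Jp (pr (List (Pw p G)) (Representation.trivial κ (Gam p g) κ))
        fun γ => GamPi p g γ = 1 := by
  refine map_th (fun w hw => Desc_pr_Jp _ _ hw) (fun v => ?_) p n z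
  refine Phi_mem' (f := Phi_map κ g X ∘ₗ pr (List (Pw p G)) (OmR κ p G) (Wr.sh p G) -
    pr (List (Pw p G)) (Representation.trivial κ (Gam p g) κ) (GamT p g) ∘ₗ Phi_map κ g X)
    (fun l ω a => ?_) v
  obtain ⟨γ, h1, h2⟩ := Phi_tr hX (Wr.sh p G) l ω a
  rw [LinearMap.sub_apply, LinearMap.comp_apply, LinearMap.comp_apply, h2]
  have := mem_Jp (pr (List (Pw p G)) (Representation.trivial κ (Gam p g) κ))
    (P := fun γ => GamPi p g γ = 1) (h := γ * (GamT p g)⁻¹)
    ((GamPi_eq_one _).2 (by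
      change (γ : Wr p G).k + -(Wr.sh p G).k = 0
      rw [h1, add_neg_cancel]))
    (pr (List (Pw p G)) (Representation.trivial κ (Gam p g) κ) (GamT p g)
      (Phi_map κ g X (Finsupp.single l (Finsupp.single ω a))))
  rwa [← Module.End.mul_apply, ← map_mul, inv_mul_cancel_right] at this

/-- The functional on the chains of the stabiliser. -/
noncomputable def DMain_lam (p : ℕ) (F : List G → G → κ) (g : G) :
    (List (Pw p G) →₀ κ) →ₗ[κ] κ :=
  LamW p F ∘ₗ Em (κ := κ) (Finsupp.lsingle (Om.cst p g))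

omit [NeZero p] in
theorem DMain_lam_single (F : List G → G → κ) (L : List (Pw p G)) (a : κ) :
    DMain_lam p F g (Finsupp.single L a) = a * lamv F L (Om.cst p g) := by
  rw [DMain_lam, LinearMap.comp_apply, Em_single, Finsupp.lsingle_apply, LamW_single]

theorem DMain_lam_Phi {F : List G → G → κ} (hF : Coc F g)
    (hX : ∀ ω, Phi_Orb p g ω → (X ω).k = 0 ∧ X ω • ω = Om.cst p g)
    (z : List (Pw p G) →₀ (Om p G →₀ κ)) : DMain_lam p F g (Phi_map κ g X z) = LamW p F z := by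
  have := Phi_mem' (f := DMain_lam p F g ∘ₗ Phi_map κ g X - LamW p F) (N := ⊥) (fun l ω a => by
    rw [Submodule.mem_bot, LinearMap.sub_apply, LinearMap.comp_apply, LamW_single, sub_eq_zero]
    by_cases h : Phi_Orb p g ω
    · rw [Phi_pos X l h, DMain_lam_single, ← (hX ω h).2, lamv_smul hF]
    · rw [Phi_neg X l h, map_zero, lamv_off hF l h, mul_zero]) z
  rwa [Submodule.mem_bot, LinearMap.sub_apply, sub_eq_zero] at this

theorem DMain_lam_inv {F : List G → G → κ} (hF : Coc F g) (γ : Gam p g)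
    (z : List (Pw p G) →₀ κ) :
    DMain_lam p F g (pr (List (Pw p G)) (Representation.trivial κ (Gam p g) κ) γ z) =
      DMain_lam p F g z := by
  induction z using Finsupp.induction_linear with
  | zero => simp
  | add a b ha hb => simp only [map_add, ha, hb]
  | single L a =>
    rw [pr_single, DMain_lam_single, DMain_lam_single,
      ← lamv_smul hF (γ : Wr p G) L (Om.cst p g), MulAction.mem_stabilizer_iff.1 γ.2]
    rfl

end

theorem wmain {p : ℕ} [Fact p.Prime] {G : Type} [Group G] {g : G} {D : ℕ}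
    (hD : Res D (Representation.trivial (ZMod p) (Subgroup.centralizer ({g ^ p} : Set G))
      (ZMod p)))
    {F : List G → G → ZMod p} (hF : Coc F g)
    (Y : ℕ → List (Pw p G) →₀ (Om p G →₀ ZMod p)) (hG : ∀ n, Y n ∈ Gd (ZMod p) n)
    (h1 : bd (ZMod p) (Y 1) - Y 0 ∈ (Jp (ER (ZMod p) p G) fun w => w.k = 0) ⊔
      OnO (ZMod p) fun ω : Om p G => ¬ Phi_Orb p g ω)
    (h2 : ∀ n, 1 ≤ n → n < D + 3 →
      bd (ZMod p) (Y (n + 1)) - th (ER (ZMod p) p G) (Wr.sh p G) p n (Y n) ∈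
        (Jp (ER (ZMod p) p G) fun w => w.k = 0) ⊔
          OnO (ZMod p) fun ω : Om p G => ¬ Phi_Orb p g ω) :
    LamW p F (Y 0) = 0 := by
  have hpp : p.Prime := Fact.out
  have h0 : ((p : ℕ) : ZMod p) = 0 := ZMod.natCast_self p
  have hnt : ∀ t : Subgroup.centralizer ({g ^ p} : Set G), t ^ p = 1 → t = 1 :=
    no_torsion hpp h0 hD
  obtain ⟨X, hX⟩ := Phi_choice p g
  obtain ⟨φ, hφ⟩ := Gam_ker (p := p) g
  have : Nonempty (Pw p G) := ⟨fun _ => 1⟩
  have hC : ∀ (V : Type) [AddCommGroup V] [Module (ZMod p) V]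
      (σ : Representation (ZMod p) (Gam p g) V),
      Van σ (GamR p g) (fun γ => GamPi p g γ = 1) (D + 3) := by
    intro V _ _ σ
    exact (Van_subgroup σ (GamR p g) (GamPi p g).ker (D + 3)).1
      (vanC hD φ hφ ((Gam_rel g).subgroup _) _)
  obtain ⟨m₁, hΓ⟩ := van_Gamma (GamPsi p g) (GamPsi_injective g) (Gam_cyc g) (Gam_rel g)
    (Gam_fix g hnt) (Gam_tor g hnt) hC hD
  have e : ∀ a b, Phi_map (ZMod p) g X (a - b) =
      Phi_map (ZMod p) g X a - Phi_map (ZMod p) g X b := fun a b => map_sub _ a b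
  obtain ⟨b, f, hf, hb⟩ := descend (Gam_cyc g) (Gam_rel g)
    (Representation.trivial (ZMod p) (Gam p g) (ZMod p))
    (fun n => Phi_map (ZMod p) g X (Y n)) (D + 3) m₁
    (by omega) (fun n => DMain_Gd n (hG n))
    (by rw [← Phi_bd, ← e]; exact DMain_J hX h1)
    (fun n a1 a2 => by
      have a3 := DMain_J hX (h2 n a1 a2)
      rw [e] at a3
      have a4 := Submodule.add_mem _ a3 (DMain_th hX n (Y n))
      rwa [sub_add_sub_cancel, Phi_bd] at a4)
    (hC _ _) hΓ
  have z1 := Jp_le (f := DMain_lam p F g) (N := ⊥) (fun γ v _ => by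
    rw [DMain_lam_inv hF, sub_self]; exact Submodule.zero_mem _) hb
  have z2 : DMain_lam p F g (NT (pr (List (Pw p G))
      (Representation.trivial (ZMod p) (Gam p g) (ZMod p))) (GamT p g) p b) = 0 := by
    rw [NT_apply, map_sum]
    simp only [DMain_lam_inv hF]
    rw [Finset.sum_const, Finset.card_range, nsmul_eq_mul, h0, zero_mul]
  have z3 : DMain_lam p F g (bd (ZMod p) f) = 0 := by
    have := map_supported (f := DMain_lam p F g ∘ₗ bd (ZMod p)) (N := ⊥) (fun L hL a => by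
      rw [Submodule.mem_bot, LinearMap.comp_apply, DMain_lam, LinearMap.comp_apply, Em_bd,
        Em_single]
      exact LamW_bd hF hL a) hf
    exact this
  rwa [Submodule.mem_bot, map_sub, map_sub, z2, z3, sub_zero, sub_zero,
    DMain_lam_Phi hF hX] at z1

end Pool.Agent.MP_f7db47_al.Cv
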