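import Pool.Agent.MP_f7db47_al.Cv.DDefs

namespace Pool.Agent.MP_f7db47_al.Cv

variable {κ : Type*} [CommRing κ] {X Y : Type*} {p : ℕ}

theorem DPrism_lm_cons (f : X → Y) (s : X) (z : List X →₀ κ) :
    lm κ f (cons κ κ s z) = cons κ κ (f s) (lm κ f z) := by
  induction z using Finsupp.induction_linear with
  | zero => simp
  | add a b ha hb => simp only [map_add, ha, hb]
  | single l v => simp

theorem DPrism_cons (f g : X → Y) (s : X) (z : List X →₀ κ) :
    prism κ f g (cons κ κ s z) =
      cons κ κ (f s) (cons κ κ (g s) (lm κ g z)) - cons κ κ (f s) (prism κ f g z) := by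
  induction z using Finsupp.induction_linear with
  | zero => simp
  | add a b ha hb => simp only [map_add, ha, hb]; abel
  | single l v =>
    rw [cons_single, prism_single, prism_single, prism1, lm_single, cons_single, cons_single,
      smul_sub, map_smul, Finsupp.smul_single, smul_eq_mul, mul_one]

theorem DPrism_nil (f g : X → Y) (c : κ) : prism κ f g (Finsupp.single [] c) = 0 := by
  rw [prism_single, prism1, smul_zero]

theorem DPrism_lm_id (z : List X →₀ κ) : lm κ (fun s : X => s) z = z := by
  induction z using Finsupp.induction_linear with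
  | zero => simp
  | add a b ha hb => simp only [map_add, ha, hb]
  | single l v => simp

theorem DPrism_lm_lm {Z : Type*} (f : X → Y) (h : Y → Z) (z : List X →₀ κ) :
    lm κ h (lm κ f z) = lm κ (fun s => h (f s)) z := by
  induction z using Finsupp.induction_linear with
  | zero => simp
  | add a b ha hb => simp only [map_add, ha, hb]
  | single l v => simp [Function.comp_def]

theorem DPrism_lm_prism {Z : Type*} (f g : X → Y) (h : Y → Z) (z : List X →₀ κ) :
    lm κ h (prism κ f g z) = prism κ (fun s => h (f s)) (fun s => h (g s)) z := by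
  induction z using Finsupp.induction_linear with
  | zero => simp
  | add a b ha hb => simp only [map_add, ha, hb]
  | single l v =>
    induction l with
    | nil => rw [DPrism_nil, DPrism_nil, map_zero]
    | cons s l ih =>
      rw [← cons_single (κ := κ), DPrism_cons, DPrism_cons, map_sub, DPrism_lm_cons,
        DPrism_lm_cons, DPrism_lm_cons, ih, DPrism_lm_lm]

theorem DPrism_prism_lm {Z : Type*} (f g : Y → Z) (h : X → Y) (z : List X →₀ κ) :
    prism κ f g (lm κ h z) = prism κ (fun s => f (h s)) (fun s => g (h s)) z := by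
  induction z using Finsupp.induction_linear with
  | zero => simp
  | add a b ha hb => simp only [map_add, ha, hb]
  | single l v =>
    induction l with
    | nil => rw [lm_single, List.map_nil, DPrism_nil, DPrism_nil]
    | cons s l ih =>
      rw [← cons_single (κ := κ), DPrism_lm_cons, DPrism_cons, DPrism_cons, ih, DPrism_lm_lm]

theorem DPrism_Gd1 (f g : X → Y) (l : List X) : prism1 κ f g l ∈ Gd κ (l.length + 1) := by
  induction l with
  | nil => exact Submodule.zero_mem _
  | cons s l ih =>
    rw [prism1]
    exact Submodule.sub_mem _ (single_mem_Gd (by simp) _) (cons_mem_Gd _ ih)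

theorem DPrism_Gd (f g : X → Y) {m : ℕ} {z : List X →₀ κ} (hz : z ∈ Gd κ m) :
    prism κ f g z ∈ Gd κ (m + 1) :=
  map_supported (fun l hl v => by
    rw [prism_single]
    exact Submodule.smul_mem _ _ (Gd_anti (Nat.succ_le_succ hl) (DPrism_Gd1 f g l))) hz

theorem DPrism_lm_Gd (f : X → Y) {m : ℕ} {z : List X →₀ κ} (hz : z ∈ Gd κ m) :
    lm κ f z ∈ Gd κ m :=
  map_supported (fun l hl v => by
    rw [lm_single]
    exact single_mem_Gd (by rw [List.length_map]; exact hl) _) hz

theorem DPrism_LR {U : Type*} [Group U] (w : Wr p U) (z : List (Pw p U) →₀ κ) :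
    LR κ p U w z = lm κ (fun s => w • s) z := by
  induction z using Finsupp.induction_linear with
  | zero => simp
  | add a b ha hb => simp only [map_add, ha, hb]
  | single l v =>
    rw [pr_single, lm_single]
    rfl

theorem DPrism_fill {U : Type*} [Group U] (w : Wr p U) (u : U) (hw : ∀ i, w.x i = u) (j : ZMod p)
    (x : U) (t : ℕ) (s : Pw p U) : w • fill j x t s = fill (j + w.k) (u * x) t (w • s) := by
  funext i
  rw [Pw.smul_apply]
  unfold fill
  rw [Pw.smul_apply, sub_sub, add_comm w.k j, hw]
  split_ifs <;> rfl

theorem lm_bd (f : X → Y) (z : List X →₀ κ) : lm κ f (bd κ z) = bd κ (lm κ f z) := by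
  induction z using Finsupp.induction_linear with
  | zero => simp
  | add a b ha hb => simp only [map_add, ha, hb]
  | single l v =>
    induction l with
    | nil => simp
    | cons s l ih =>
      rw [← cons_single (κ := κ), bd_cons, DPrism_lm_cons, bd_cons, map_sub, DPrism_lm_cons, ih]

theorem prism_bd (f g : X → Y) (z : List X →₀ κ) :
    bd κ (prism κ f g z) + prism κ f g (bd κ z) = lm κ g z - lm κ f z := by
  induction z using Finsupp.induction_linear with
  | zero => simp
  | add a b ha hb =>
    simp only [map_add]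
    rw [add_add_add_comm, ha, hb]
    abel
  | single l v =>
    induction l with
    | nil => simp [DPrism_nil]
    | cons s l ih =>
      have h := congrArg (cons κ κ (f s)) ih
      rw [map_add, map_sub] at h
      rw [← cons_single (κ := κ), bd_cons, DPrism_cons, map_sub, map_sub, DPrism_cons, bd_cons,
        bd_cons, bd_cons, DPrism_lm_cons, DPrism_lm_cons, map_sub, lm_bd,
        eq_sub_of_add_eq h]
      abel

theorem hh_bd [NeZero p] (j : ZMod p) (x : X) (z : List (Pw p X) →₀ κ) :
    bd κ (hh κ j x z) = z - hh κ j x (bd κ z) := by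
  have h0 : lm κ (fill j x 0) z = z := by
    have e : fill j x 0 = fun s : Pw p X => s := by
      funext s i
      simp [fill]
    rw [e, DPrism_lm_id]
  have h1 : ∑ t ∈ Finset.range p, bd κ (prism κ (fill j x (t + 1)) (fill j x t) z) +
      ∑ t ∈ Finset.range p, prism κ (fill j x (t + 1)) (fill j x t) (bd κ z) =
      z - lm κ (fill j x p) z := by
    rw [← Finset.sum_add_distrib, Finset.sum_congr rfl fun t _ => prism_bd _ _ z,
      Finset.sum_range_sub' (fun t => lm κ (fill j x t) z), h0]
  simp only [hh, LinearMap.add_apply, LinearMap.comp_apply, LinearMap.sum_apply, map_add, map_sum]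
  rw [bd_cons, lm_bd, eq_sub_of_add_eq h1]
  abel

theorem hh_Gd (j : ZMod p) (x : X) {m : ℕ} {z : List (Pw p X) →₀ κ} (hz : z ∈ Gd κ m) :
    hh κ j x z ∈ Gd κ (m + 1) := by
  simp only [hh, LinearMap.add_apply, LinearMap.comp_apply, LinearMap.sum_apply]
  exact Submodule.add_mem _ (Submodule.sum_mem _ fun t _ => DPrism_Gd _ _ hz)
    (cons_mem_Gd _ (DPrism_lm_Gd _ hz))

theorem hh_equi {U : Type*} [Group U] (w : Wr p U) (u : U) (hw : ∀ i, w.x i = u) (j : ZMod p)
    (x : U) (z : List (Pw p U) →₀ κ) :
    LR κ p U w (hh κ j x z) = hh κ (j + w.k) (u * x) (LR κ p U w z) := by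
  have hc : w • cstP p x = cstP p (u * x) := by
    funext i
    rw [Pw.smul_apply, hw]
    rfl
  rw [DPrism_LR, DPrism_LR]
  simp only [hh, LinearMap.add_apply, LinearMap.comp_apply, LinearMap.sum_apply, map_add, map_sum,
    DPrism_lm_prism, DPrism_prism_lm, DPrism_lm_cons, DPrism_lm_lm, DPrism_fill w u hw, hc]

end Pool.Agent.MP_f7db47_al.Cv
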