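import Pool.Agent.MP_f7db47_al.Cv.DDefs

namespace Pool.Agent.MP_f7db47_al.Cv

variable {κ : Type*} [CommRing κ] {R : Type*} [Ring R] [Algebra κ R] {G : Type*} [Group G]

theorem La_one (z : List G →₀ MonoidAlgebra R G) : La κ 1 z = z := by
  induction z using Finsupp.induction_linear with
  | zero => simp
  | add x y hx hy => rw [map_add, hx, hy]
  | single t b =>
    have h := La_single κ (1 : G) (1 : R) t b
    rwa [← MonoidAlgebra.one_def, one_smul, one_mul] at h

theorem La_mul (a b : MonoidAlgebra R G) (z : List G →₀ MonoidAlgebra R G) :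
    La κ (a * b) z = La κ a (La κ b z) := by
  induction a using MonoidAlgebra.induction_linear with
  | zero => simp
  | add x y hx hy => rw [add_mul, La_add, La_add, LinearMap.add_apply, LinearMap.add_apply, hx, hy]
  | single g M =>
    induction b using MonoidAlgebra.induction_linear with
    | zero => simp
    | add x y hx hy =>
      rw [mul_add, La_add, La_add, LinearMap.add_apply, LinearMap.add_apply, hx, hy, map_add]
    | single h N =>
      induction z using Finsupp.induction_linear with
      | zero => simp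
      | add x y hx hy => rw [map_add, map_add, map_add, hx, hy]
      | single t c =>
        rw [MonoidAlgebra.single_mul_single, La_single, La_single, La_single, mul_smul,
          ← mul_assoc, MonoidAlgebra.single_mul_single]

theorem Ra_one (z : List G →₀ MonoidAlgebra R G) : Ra κ 1 z = z := by
  induction z using Finsupp.induction_linear with
  | zero => simp
  | add x y hx hy => rw [map_add, hx, hy]
  | single t b => rw [Ra_single, mul_one]

theorem Ra_mul (a b : MonoidAlgebra R G) (z : List G →₀ MonoidAlgebra R G) :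
    Ra κ (a * b) z = Ra κ b (Ra κ a z) := by
  induction z using Finsupp.induction_linear with
  | zero => simp
  | add x y hx hy => rw [map_add, map_add, map_add, hx, hy]
  | single t c => rw [Ra_single, Ra_single, Ra_single, mul_assoc]

theorem La_Ra (a b : MonoidAlgebra R G) (z : List G →₀ MonoidAlgebra R G) :
    La κ a (Ra κ b z) = Ra κ b (La κ a z) := by
  induction a using MonoidAlgebra.induction_linear with
  | zero => simp
  | add x y hx hy => rw [La_add, LinearMap.add_apply, LinearMap.add_apply, hx, hy, map_add]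
  | single g M =>
    induction z using Finsupp.induction_linear with
    | zero => simp
    | add x y hx hy => rw [map_add, map_add, map_add, map_add, hx, hy]
    | single t c => rw [Ra_single, La_single, La_single, Ra_single, mul_assoc]

theorem La_nil (a b : MonoidAlgebra R G) :
    La κ a (Finsupp.single [] b) = Finsupp.single [] (a * b) := by
  induction a using MonoidAlgebra.induction_linear with
  | zero => simp
  | add x y hx hy => rw [La_add, LinearMap.add_apply, hx, hy, add_mul, Finsupp.single_add]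
  | single g M => rw [La_single, smul_nil]

theorem La_Ln (a : MonoidAlgebra R G) {m : ℕ} {z : List G →₀ MonoidAlgebra R G}
    (hz : z ∈ Ln κ m) : La κ a z ∈ Ln κ m := by
  induction a using MonoidAlgebra.induction_linear with
  | zero => simp
  | add x y hx hy =>
    rw [La_add, LinearMap.add_apply]
    exact add_mem hx hy
  | single g M =>
    refine map_supported (fun l hl v => ?_) hz
    rw [La_single]
    exact Finsupp.single_mem_supported _ _ ((length_smul g l).trans hl)

theorem Ra_Ln (a : MonoidAlgebra R G) {m : ℕ} {z : List G →₀ MonoidAlgebra R G}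
    (hz : z ∈ Ln κ m) : Ra κ a z ∈ Ln κ m :=
  Em_mem_supported _ hz

theorem DQ_cons_Ln (s : G) {m : ℕ} {z : List G →₀ MonoidAlgebra R G} (hz : z ∈ Ln κ m) :
    cons κ _ s z ∈ Ln κ (m + 1) := by
  refine map_supported (fun l hl v => ?_) hz
  rw [cons_single]
  exact Finsupp.single_mem_supported _ _ (congrArg (· + 1) hl)

theorem QQ_Ln (l : List (MonoidAlgebra R G)ˣ) : QQ κ l ∈ Ln κ l.length := by
  induction l with
  | nil => exact Finsupp.single_mem_supported _ _ rfl
  | cons u l ih => exact La_Ln _ (DQ_cons_Ln _ (La_Ln _ ih))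

theorem DQ_er_La (j : ℕ) (a : MonoidAlgebra R G) (z : List G →₀ MonoidAlgebra R G) :
    er κ j (La κ a z) = La κ a (er κ j z) := by
  induction a using MonoidAlgebra.induction_linear with
  | zero => simp
  | add x y hx hy => rw [La_add, LinearMap.add_apply, LinearMap.add_apply, map_add, hx, hy]
  | single g M =>
    induction z using Finsupp.induction_linear with
    | zero => simp
    | add x y hx hy => rw [map_add, map_add, map_add, map_add, hx, hy]
    | single t c =>
      rw [La_single, er_single, er_single, La_single, smul_list, smul_list, List.eraseIdx_map]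

theorem DQ_er_zero (s : G) (z : List G →₀ MonoidAlgebra R G) : er κ 0 (cons κ _ s z) = z := by
  induction z using Finsupp.induction_linear with
  | zero => simp
  | add x y hx hy => rw [map_add, map_add, hx, hy]
  | single t c => rw [cons_single, er_single, List.eraseIdx_cons_zero]

theorem DQ_er_succ (j : ℕ) (s : G) (z : List G →₀ MonoidAlgebra R G) :
    er κ (j + 1) (cons κ _ s z) = cons κ _ s (er κ j z) := by
  induction z using Finsupp.induction_linear with
  | zero => simp
  | add x y hx hy => rw [map_add, map_add, map_add, map_add, hx, hy]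
  | single t c => rw [cons_single, er_single, er_single, cons_single, List.eraseIdx_cons_succ]

theorem DQ_Ra_cons (a : MonoidAlgebra R G) (s : G) (z : List G →₀ MonoidAlgebra R G) :
    Ra κ a (cons κ _ s z) = cons κ _ s (Ra κ a z) := Em_cons _ s z

theorem DQ_La_La (u : (MonoidAlgebra R G)ˣ) (z : List G →₀ MonoidAlgebra R G) :
    La κ u.val (La κ (u⁻¹).val z) = z := by
  rw [← La_mul, Units.mul_inv, La_one]

theorem DQ_La_La' (u : (MonoidAlgebra R G)ˣ) (z : List G →₀ MonoidAlgebra R G) :
    La κ (u⁻¹).val (La κ u.val z) = z := by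
  rw [← La_mul, Units.inv_mul, La_one]

theorem QQ_er (l : List (MonoidAlgebra R G)ˣ) (j : ℕ) (hj : j < l.length) :
    er κ j (QQ κ l) = QQ κ (l.eraseIdx j) := by
  induction l generalizing j with
  | nil => simp at hj
  | cons u l ih =>
    rcases j with _ | j
    · rw [QQ, DQ_er_La, DQ_er_zero, DQ_La_La, List.eraseIdx_cons_zero]
    · rw [QQ, DQ_er_La, DQ_er_succ, DQ_er_La, ih j (by simpa using hj), List.eraseIdx_cons_succ, QQ]

theorem QQ_smul (u : (MonoidAlgebra R G)ˣ) (l : List (MonoidAlgebra R G)ˣ) :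
    QQ κ (u • l) = La κ u.val (Ra κ (u⁻¹).val (QQ κ l)) := by
  induction l with
  | nil => rw [smul_nil, QQ, Ra_single, La_nil, one_mul, Units.mul_inv]
  | cons v l ih =>
    rw [smul_cons, smul_eq_mul, QQ, QQ, ih, mul_inv_rev, Units.val_mul, Units.val_mul, La_mul,
      La_mul, DQ_La_La', ← La_Ra, DQ_Ra_cons, ← La_Ra]

/-- Chains all of whose coefficients are supported on elements satisfying `P`. -/
def DQ_S (R : Type*) [Ring R] (P : G → Prop) : AddSubmonoid (List G →₀ MonoidAlgebra R G) where
  carrier := {z | ∀ t ω, (z t).coeff ω ≠ 0 → P ω}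
  zero_mem' := fun t ω h => by simp at h
  add_mem' := fun {x y} hx hy t ω h => by
    by_cases h1 : (x t).coeff ω = 0
    · refine hy t ω fun h2 => h ?_
      simp [h1, h2]
    · exact hx t ω h1

theorem DQ_single {P : G → Prop} (t : List G) {b : MonoidAlgebra R G}
    (h : ∀ ω, b.coeff ω ≠ 0 → P ω) : Finsupp.single t b ∈ DQ_S R P := by
  classical
  intro t' ω h1
  rw [Finsupp.single_apply] at h1
  split_ifs at h1
  · exact h ω h1
  · simp at h1

theorem DQ_single' {P : G → Prop} (t : List G) {ω : G} (h : P ω) (M : R) :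
    Finsupp.single t (MonoidAlgebra.single ω M) ∈ DQ_S R P := by
  refine DQ_single t fun ω' h1 => ?_
  rw [MonoidAlgebra.coeff_single] at h1
  rw [(Finsupp.single_apply_ne_zero.1 h1).1]
  exact h

theorem DQ_le {P Q : G → Prop}
    {f : (List G →₀ MonoidAlgebra R G) →ₗ[κ] (List G →₀ MonoidAlgebra R G)}
    (h : ∀ t ω M, P ω → f (Finsupp.single t (MonoidAlgebra.single ω M)) ∈ DQ_S R Q)
    {z : List G →₀ MonoidAlgebra R G} (hz : z ∈ DQ_S R P) : f z ∈ DQ_S R Q := by
  rw [eq_sum_pairs z, map_sum]
  refine sum_mem fun x hx => h _ _ _ (hz x.1 x.2 ?_)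
  exact Finsupp.mem_support_iff.1 (Finset.mem_sigma.1 hx).2

theorem DQ_cons {P : G → Prop} (s : G) {z : List G →₀ MonoidAlgebra R G} (hz : z ∈ DQ_S R P) :
    cons κ _ s z ∈ DQ_S R P :=
  DQ_le (fun t ω M h => by rw [cons_single]; exact DQ_single' _ h M) hz

theorem DQ_La {P Q : G → Prop} (a : MonoidAlgebra R G)
    (h : ∀ c ω, a.coeff c ≠ 0 → P ω → Q (c * ω)) {z : List G →₀ MonoidAlgebra R G}
    (hz : z ∈ DQ_S R P) : La κ a z ∈ DQ_S R Q := by
  refine DQ_le (fun t ω M hω => ?_) hz
  rw [La, Finsupp.sum, LinearMap.sum_apply]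
  refine sum_mem fun c hc => ?_
  rw [LinearMap.comp_apply, Finsupp.lmapDomain_apply, Finsupp.mapDomain_single, Em_single,
    LinearMap.mulLeft_apply, MonoidAlgebra.single_mul_single]
  exact DQ_single' _ (h c ω (Finsupp.mem_support_iff.1 hc) hω) _

theorem DQ_wd_mul {A : Set G} {r s : ℕ} {x y : G} (hx : Wd A r x) (hy : Wd A s y) :
    Wd A (r + s) (x * y) := by
  obtain ⟨l, h1, h2, rfl⟩ := hx
  obtain ⟨l', h3, h4, rfl⟩ := hy
  refine ⟨l ++ l', fun z hz => (List.mem_append.1 hz).elim (h1 z) (h3 z), ?_, List.prod_append⟩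
  rw [List.length_append]
  omega

theorem DQ_wd {E : Set (MonoidAlgebra R G)ˣ} {A : Set G}
    (hA : ∀ a ∈ E, ∀ b ∈ E, ∀ c, (a⁻¹ * b).val.coeff c ≠ 0 → c ∈ A)
    {a b : (MonoidAlgebra R G)ˣ} [Decidable (a = b)] (ha : a ∈ E) (hb : b ∈ E) {c : G}
    (h : (a⁻¹ * b).val.coeff c ≠ 0) : Wd A (if a = b then 0 else 1) c := by
  split_ifs with h1
  · rw [h1, inv_mul_cancel, Units.val_one, MonoidAlgebra.one_def, MonoidAlgebra.coeff_single] at h
    exact ⟨[], by simp, le_rfl, (Finsupp.single_apply_ne_zero.1 h).1.symm⟩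
  · exact ⟨[c], by simpa using hA a ha b hb c h, le_rfl, by simp⟩

theorem QQ_supp {E : Set (MonoidAlgebra R G)ˣ} {A : Set G}
    (hA : ∀ a ∈ E, ∀ b ∈ E, ∀ c, (a⁻¹ * b).val.coeff c ≠ 0 → c ∈ A)
    (u : (MonoidAlgebra R G)ˣ) (l : List (MonoidAlgebra R G)ˣ) (v : (MonoidAlgebra R G)ˣ)
    (hl : ∀ x ∈ u :: l, x ∈ E) (hv : v ∈ E) (t : List G) (ω : G)
    (h : (La κ (u⁻¹).val (Ra κ v.val (QQ κ (u :: l))) t).coeff ω ≠ 0) :
    Wd A (jmp (u :: l ++ [v])) ω := by
  suffices H : La κ (u⁻¹).val (Ra κ v.val (QQ κ (u :: l))) ∈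
      DQ_S R (Wd A (jmp (u :: l ++ [v]))) from H t ω h
  clear h
  induction l generalizing u with
  | nil =>
    rw [QQ, ← La_Ra, DQ_La_La', DQ_Ra_cons, ← La_Ra, QQ, Ra_single, La_nil, one_mul,
      ← Units.val_mul]
    refine DQ_cons _ (DQ_single _ fun c hc => ?_)
    exact @DQ_wd R _ G _ E A hA u v (Classical.propDecidable _) (hl u (by simp)) hv c hc
  | cons u' l ih =>
    have h1 := ih u' fun x hx => hl x (List.mem_cons_of_mem _ hx)
    rw [QQ, ← La_Ra, DQ_La_La', DQ_Ra_cons, ← La_Ra,
      ← DQ_La_La (κ := κ) u' (Ra κ v.val (QQ κ (u' :: l))), ← La_mul, ← Units.val_mul]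
    refine DQ_cons _ (DQ_La _ (fun c ω hc hω => ?_) h1)
    exact DQ_wd_mul (@DQ_wd R _ G _ E A hA u u' (Classical.propDecidable _) (hl u (by simp))
      (hl u' (by simp)) c hc) hω

end Pool.Agent.MP_f7db47_al.Cv
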