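import Pool.Agent.MP_f7db47_al.Cv.Base

/-! Cyclic quotients, resolutions, wreath products and tensor induction. -/

open scoped TensorProduct

namespace Pool.Agent.MP_f7db47_al.Cv

section cyc
variable {κ : Type*} [CommRing κ] {Γ : Type*} [Group Γ]
variable {V : Type*} [AddCommGroup V] [Module κ V]

/-- `π` maps `Γ` onto the cyclic group of order `p` and is split by `T`. -/
structure Cyc (p : ℕ) (π : Γ →* Multiplicative (ZMod p)) (T : Γ) : Prop where
  gen : π T = Multiplicative.ofAdd 1
  pow : T ^ p = 1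

/-- The norm of `T`. -/
noncomputable def NT (ρ : Representation κ Γ V) (T : Γ) (p : ℕ) : V →ₗ[κ] V :=
  ∑ m ∈ Finset.range p, ρ (T ^ m)

/-- The operator `1 - T`. -/
noncomputable def sg (ρ : Representation κ Γ V) (T : Γ) : V →ₗ[κ] V := 1 - ρ T

/-- The differentials of the periodic resolution. -/
noncomputable def th (ρ : Representation κ Γ V) (T : Γ) (p n : ℕ) : V →ₗ[κ] V :=
  if n % 2 = 0 then NT ρ T p else sg ρ T

theorem NT_apply (ρ : Representation κ Γ V) (T : Γ) (p : ℕ) (v : V) :
    NT ρ T p v = ∑ m ∈ Finset.range p, ρ (T ^ m) v := by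
  simp [NT, LinearMap.sum_apply]

theorem sg_apply (ρ : Representation κ Γ V) (T : Γ) (v : V) : sg ρ T v = v - ρ T v := rfl

theorem sg_NT (ρ : Representation κ Γ V) {T : Γ} {p : ℕ} (hT : T ^ p = 1) (v : V) :
    sg ρ T (NT ρ T p v) = 0 := by
  have h : ∀ m, ρ T (ρ (T ^ m) v) = ρ (T ^ (m + 1)) v := fun m => by
    rw [pow_succ', map_mul]; rfl
  rw [sg_apply, NT_apply, map_sum, ← Finset.sum_sub_distrib]
  simp only [h]
  rw [Finset.sum_range_sub' (fun m => ρ (T ^ m) v), hT, pow_zero, sub_self]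

theorem NT_sg (ρ : Representation κ Γ V) {T : Γ} {p : ℕ} (hT : T ^ p = 1) (v : V) :
    NT ρ T p (sg ρ T v) = 0 := by
  have h : ∀ m, ρ (T ^ m) (ρ T v) = ρ (T ^ (m + 1)) v := fun m => by
    rw [pow_succ, map_mul]; rfl
  rw [sg_apply, NT_apply]
  simp only [map_sub, h]
  rw [Finset.sum_range_sub' (fun m => ρ (T ^ m) v), hT, pow_zero, sub_self]

theorem th_th (ρ : Representation κ Γ V) {T : Γ} {p : ℕ} (hT : T ^ p = 1) (n : ℕ) (v : V) :
    th ρ T p (n + 1) (th ρ T p n v) = 0 := by
  unfold th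
  by_cases h : n % 2 = 0
  · rw [if_pos h, if_neg (by omega)]
    exact sg_NT ρ hT v
  · rw [if_neg h, if_pos (by omega)]
    exact NT_sg ρ hT v

/-- A linear map that commutes with `T` modulo a `T`-invariant submodule commutes with `th`
modulo that submodule. -/
theorem map_th {Γ' W : Type*} [Group Γ'] [AddCommGroup W] [Module κ W]
    {ρ : Representation κ Γ V} {σ : Representation κ Γ' W} {T : Γ} {T' : Γ'}
    {f : V →ₗ[κ] W} {N : Submodule κ W} (hN : ∀ w ∈ N, σ T' w ∈ N)
    (hf : ∀ v, f (ρ T v) - σ T' (f v) ∈ N) (p n : ℕ) (v : V) :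
    f (th ρ T p n v) - th σ T' p n (f v) ∈ N := by
  have key : ∀ m v, f (ρ (T ^ m) v) - σ (T' ^ m) (f v) ∈ N := by
    intro m
    induction m with
    | zero => intro v; simp
    | succ m ih =>
      intro v
      have h1 := hf (ρ (T ^ m) v)
      have h2 := hN _ (ih v)
      have := N.add_mem h1 h2
      rw [map_sub, sub_add_sub_cancel] at this
      rw [pow_succ', pow_succ', map_mul, map_mul]
      exact this
  unfold th
  split_ifs
  · rw [NT_apply, NT_apply, map_sum, ← Finset.sum_sub_distrib]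
    exact N.sum_mem fun m _ => key m v
  · rw [sg_apply, sg_apply, map_sub]
    have := N.neg_mem (hf v)
    convert this using 1
    abel

theorem map_th_eq {Γ' W : Type*} [Group Γ'] [AddCommGroup W] [Module κ W]
    {ρ : Representation κ Γ V} {σ : Representation κ Γ' W} {T : Γ} {T' : Γ'}
    {f : V →ₗ[κ] W} (hf : ∀ v, f (ρ T v) = σ T' (f v)) (p n : ℕ) (v : V) :
    f (th ρ T p n v) = th σ T' p n (f v) := by
  have := map_th (ρ := ρ) (σ := σ) (T := T) (T' := T') (f := f) (N := ⊥)
    (fun w hw => by rw [Submodule.mem_bot] at hw ⊢; rw [hw, map_zero])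
    (fun v => by rw [hf, sub_self]; exact Submodule.zero_mem _) p n v
  rwa [Submodule.mem_bot, sub_eq_zero] at this

/-- A `T`-invariant submodule is invariant under `th`. -/
theorem th_mem {ρ : Representation κ Γ V} {T : Γ} {N : Submodule κ V}
    (hN : ∀ w ∈ N, ρ T w ∈ N) (p n : ℕ) {v : V} (hv : v ∈ N) : th ρ T p n v ∈ N := by
  have key : ∀ m, ρ (T ^ m) v ∈ N := by
    intro m
    induction m with
    | zero => simpa using hv
    | succ m ih => rw [pow_succ', map_mul]; exact hN _ ih
  unfold th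
  split_ifs
  · rw [NT_apply]
    exact N.sum_mem fun m _ => key m
  · rw [sg_apply]
    exact N.sub_mem hv (hN _ hv)

end cyc

/-- The free `G`-set on `B`. -/
@[ext] structure FB (G B : Type) where
  g : G
  b : B

instance FB.act {G B : Type} [Group G] : MulAction G (FB G B) where
  smul h y := ⟨h * y.g, y.b⟩
  one_smul y := FB.ext (one_mul y.g) rfl
  mul_smul g h y := FB.ext (mul_assoc g h y.g) rfl

@[simp] theorem FB.smul_g {G B : Type} [Group G] (h : G) (y : FB G B) : (h • y).g = h * y.g := rfl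

@[simp] theorem FB.smul_b {G B : Type} [Group G] (h : G) (y : FB G B) : (h • y).b = y.b := rfl

/-- The free representation on `B`. -/
noncomputable def FR (κ : Type) [Field κ] (G B : Type) [Group G] :
    Representation κ G (FB G B →₀ κ) := pr (FB G B) (Representation.trivial κ G κ)

theorem ker_le_comap {κ : Type*} [CommRing κ] {H : Type*} [Group H] {V W : Type*}
    [AddCommGroup V] [Module κ V] [AddCommGroup W] [Module κ W] {ρ : Representation κ H V}
    {σ : Representation κ H W} {f : V →ₗ[κ] W} (hf : Equi ρ σ f) (g : H) :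
    LinearMap.ker f ≤ (LinearMap.ker f).comap (ρ g) := fun v hv => by
  show f (ρ g v) = 0
  rw [hf, LinearMap.mem_ker.1 hv, map_zero]

/-- The representation `σ` has a projective resolution of length at most `n`. -/
def Res {κ : Type} [Field κ] {G : Type} [Group G] :
    ℕ → {K : Type} → [AddCommGroup K] → [Module κ K] → Representation κ G K → Prop
  | 0, K, _, _, σ => ∃ (B : Type) (i : K →ₗ[κ] (FB G B →₀ κ)) (q : (FB G B →₀ κ) →ₗ[κ] K),
      Equi σ (FR κ G B) i ∧ Equi (FR κ G B) σ q ∧ ∀ v, q (i v) = v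
  | n + 1, K, _, _, σ => ∃ (B : Type) (f : (FB G B →₀ κ) →ₗ[κ] K) (hf : Equi (FR κ G B) σ f),
      Function.Surjective f ∧ Res n (K := LinearMap.ker f)
        ((FR κ G B).subrepresentation (LinearMap.ker f) (ker_le_comap hf))

/-- The wreath product of `G` with the cyclic group of order `p`. -/
@[ext] structure Wr (p : ℕ) (G : Type*) where
  x : ZMod p → G
  k : ZMod p

namespace Wr
variable {p : ℕ} {G : Type*} [Group G]

instance : Mul (Wr p G) := ⟨fun a b => ⟨fun i => a.x i * b.x (i - a.k), a.k + b.k⟩⟩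
instance : One (Wr p G) := ⟨⟨fun _ => 1, 0⟩⟩
instance : Inv (Wr p G) := ⟨fun a => ⟨fun i => (a.x (i + a.k))⁻¹, -a.k⟩⟩

@[simp] theorem mul_x (a b : Wr p G) (i : ZMod p) : (a * b).x i = a.x i * b.x (i - a.k) := rfl
@[simp] theorem mul_k (a b : Wr p G) : (a * b).k = a.k + b.k := rfl
@[simp] theorem one_x (i : ZMod p) : (1 : Wr p G).x i = 1 := rfl
@[simp] theorem one_k : (1 : Wr p G).k = 0 := rfl
@[simp] theorem inv_x (a : Wr p G) (i : ZMod p) : a⁻¹.x i = (a.x (i + a.k))⁻¹ := rfl
@[simp] theorem inv_k (a : Wr p G) : a⁻¹.k = -a.k := rfl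

instance : Group (Wr p G) :=
  Group.ofLeftAxioms
    (fun a b c => Wr.ext (funext fun i => by simp [mul_assoc, sub_sub]) (by simp [add_assoc]))
    (fun a => Wr.ext (funext fun i => by simp) (by simp))
    (fun a => Wr.ext (funext fun i => by simp) (by simp))

/-- The projection to the cyclic group. -/
def deg (p : ℕ) (G : Type*) [Group G] : Wr p G →* Multiplicative (ZMod p) where
  toFun a := Multiplicative.ofAdd a.k
  map_one' := rfl
  map_mul' _ _ := rfl

@[simp] theorem deg_apply (a : Wr p G) : deg p G a = Multiplicative.ofAdd a.k := rfl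

theorem deg_eq_one (a : Wr p G) : deg p G a = 1 ↔ a.k = 0 := Iff.rfl

/-- The shift. -/
def sh (p : ℕ) (G : Type*) [Group G] : Wr p G := ⟨fun _ => 1, 1⟩

@[simp] theorem sh_x (i : ZMod p) : (sh p G).x i = 1 := rfl
@[simp] theorem sh_k : (sh p G).k = 1 := rfl

@[simp] theorem pow_k (a : Wr p G) (m : ℕ) : (a ^ m).k = m * a.k := by
  induction m with
  | zero => simp
  | succ m ih => rw [pow_succ, mul_k, ih]; push_cast; ring

@[simp] theorem sh_pow_x (m : ℕ) (i : ZMod p) : (sh p G ^ m).x i = 1 := by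
  induction m generalizing i with
  | zero => simp
  | succ m ih => rw [pow_succ, mul_x, ih]; simp

theorem sh_pow : sh p G ^ p = 1 := Wr.ext (funext fun i => by simp) (by simp)

theorem cyc : Cyc p (deg p G) (sh p G) := ⟨rfl, sh_pow⟩

/-- The action on positions. -/
instance posAct : MulAction (Wr p G) (ZMod p) where
  smul a i := i + a.k
  one_smul i := add_zero i
  mul_smul a b i := by
    show i + (a.k + b.k) = i + b.k + a.k
    ring

theorem smul_pos (a : Wr p G) (i : ZMod p) : a • i = i + a.k := rfl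

end Wr

/-- The `p`-th power of a `G`-set. -/
def Pw (p : ℕ) (Y : Type*) := ZMod p → Y

instance Pw.act {p : ℕ} {G Y : Type*} [Group G] [MulAction G Y] :
    MulAction (Wr p G) (Pw p Y) where
  smul a y := fun i => a.x i • y (i - a.k)
  one_smul y := funext fun i => by
    show (1 : G) • y (i - 0) = y i
    simp
  mul_smul a b y := funext fun i => by
    show (a.x i * b.x (i - a.k)) • y (i - (a.k + b.k)) =
      a.x i • b.x (i - a.k) • y (i - a.k - b.k)
    rw [mul_smul, sub_sub]

theorem Pw.smul_apply {p : ℕ} {G Y : Type*} [Group G] [MulAction G Y] (a : Wr p G) (y : Pw p Y)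
    (i : ZMod p) : (a • y) i = a.x i • y (i - a.k) := rfl

/-- Cyclic words of length `p`. -/
def Om (p : ℕ) (G : Type*) := ZMod p → G

instance Om.act {p : ℕ} {G : Type*} [Group G] : MulAction (Wr p G) (Om p G) where
  smul a ω := fun i => a.x i * ω (i - a.k) * (a.x (i + 1))⁻¹
  one_smul ω := funext fun i => by
    show (1 : G) * ω (i - 0) * (1 : G)⁻¹ = ω i
    simp
  mul_smul a b ω := funext fun i => by
    show a.x i * b.x (i - a.k) * ω (i - (a.k + b.k)) * (a.x (i + 1) * b.x (i + 1 - a.k))⁻¹ =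
      a.x i * (b.x (i - a.k) * ω (i - a.k - b.k) * (b.x (i - a.k + 1))⁻¹) * (a.x (i + 1))⁻¹
    rw [sub_sub, show i - a.k + 1 = i + 1 - a.k by ring]
    group

theorem Om.smul_apply {p : ℕ} {G : Type*} [Group G] (a : Wr p G) (ω : Om p G) (i : ZMod p) :
    (a • ω) i = a.x i * ω (i - a.k) * (a.x (i + 1))⁻¹ := rfl

/-- The constant word. -/
def Om.cst (p : ℕ) {G : Type*} (c : G) : Om p G := fun _ => c

/-- The elements of the base group that are trivial outside `U`. -/
def WU {p : ℕ} {G : Type*} [Group G] (U : Set (ZMod p)) (w : Wr p G) : Prop :=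
  w.k = 0 ∧ ∀ j, j ∉ U → w.x j = 1

/-- The positions `i + 1, …, i + N - 1`. -/
def Win {p : ℕ} (N : ℕ) (i : ZMod p) : Set (ZMod p) := {j | ∃ m : ℕ, 1 ≤ m ∧ m < N ∧ j = i + m}

/-- The permutation representation on cyclic words. -/
noncomputable def OmR (κ : Type*) [CommRing κ] (p : ℕ) (G : Type*) [Group G] :
    Representation κ (Wr p G) (Om p G →₀ κ) :=
  pr (Om p G) (Representation.trivial κ (Wr p G) κ)

section ti
variable {κ : Type*} [CommRing κ] {G : Type*} [Group G]
variable {K K' : Type*} [AddCommGroup K] [Module κ K] [AddCommGroup K'] [Module κ K']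

/-- The translation of positions. -/
def trans {p : ℕ} (k : ZMod p) : ZMod p ≃ ZMod p where
  toFun i := i + k
  invFun i := i - k
  left_inv i := add_sub_cancel_right i k
  right_inv i := sub_add_cancel i k

/-- The operator of one element on the tensor power. -/
noncomputable def TI1 (p : ℕ) (σ : Representation κ G K) (w : Wr p G) :
    (⨂[κ] _ : ZMod p, K) →ₗ[κ] (⨂[κ] _ : ZMod p, K) :=
  PiTensorProduct.map (fun i => σ (w.x i)) ∘ₗ
    (PiTensorProduct.reindex κ (fun _ : ZMod p => K) (trans w.k)).toLinearMap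

theorem TI1_tprod (p : ℕ) (σ : Representation κ G K) (w : Wr p G) (v : ZMod p → K) :
    TI1 p σ w (PiTensorProduct.tprod κ v) =
      PiTensorProduct.tprod κ fun i => σ (w.x i) (v (i - w.k)) := by
  simp [TI1, trans]

/-- Tensor induction. -/
noncomputable def TI (p : ℕ) (σ : Representation κ G K) :
    Representation κ (Wr p G) (⨂[κ] _ : ZMod p, K) where
  toFun := TI1 p σ
  map_one' := by
    ext v
    simp [TI1_tprod]
    congr 1
    funext i
    rw [sub_zero]
  map_mul' a b := by
    ext v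
    simp [TI1_tprod]
    congr 1
    funext i
    rw [sub_sub]

theorem TI_tprod (p : ℕ) (σ : Representation κ G K) (w : Wr p G) (v : ZMod p → K) :
    TI p σ w (PiTensorProduct.tprod κ v) =
      PiTensorProduct.tprod κ fun i => σ (w.x i) (v (i - w.k)) := TI1_tprod p σ w v

/-- The tensor power of a linear map. -/
noncomputable def TIm (p : ℕ) (f : K →ₗ[κ] K') :
    (⨂[κ] _ : ZMod p, K) →ₗ[κ] (⨂[κ] _ : ZMod p, K') := PiTensorProduct.map fun _ => f

theorem TIm_tprod (p : ℕ) (f : K →ₗ[κ] K') (v : ZMod p → K) :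
    TIm p f (PiTensorProduct.tprod κ v) = PiTensorProduct.tprod κ fun i => f (v i) := by
  simp [TIm]

theorem TIm_equi (p : ℕ) {σ : Representation κ G K} {σ' : Representation κ G K'}
    {f : K →ₗ[κ] K'} (hf : Equi σ σ' f) : Equi (TI p σ) (TI p σ') (TIm p f) := by
  intro w z
  have : TIm p f ∘ₗ TI p σ w = TI p σ' w ∘ₗ TIm p f := by
    ext v
    simp [TI_tprod, TIm_tprod, hf _]
  exact LinearMap.congr_fun this z

/-- Tensor induction restricted along `ψ`. -/
noncomputable def TIr {p : ℕ} {Γ : Type*} [Group Γ] (ψ : Γ →* Wr p G)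
    (σ : Representation κ G K) : Representation κ Γ (⨂[κ] _ : ZMod p, K) := (TI p σ).comp ψ

theorem TIr_apply {p : ℕ} {Γ : Type*} [Group Γ] (ψ : Γ →* Wr p G) (σ : Representation κ G K)
    (γ : Γ) : TIr ψ σ γ = TI p σ (ψ γ) := rfl

theorem TIr_tprod {p : ℕ} {Γ : Type*} [Group Γ] (ψ : Γ →* Wr p G) (σ : Representation κ G K)
    (γ : Γ) (v : ZMod p → K) : TIr ψ σ γ (PiTensorProduct.tprod κ v) =
      PiTensorProduct.tprod κ fun i => σ ((ψ γ).x i) (v (i - (ψ γ).k)) := TI_tprod p σ _ v

theorem TIm_equi' {p : ℕ} {Γ : Type*} [Group Γ] (ψ : Γ →* Wr p G) {σ : Representation κ G K}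
    {σ' : Representation κ G K'} {f : K →ₗ[κ] K'} (hf : Equi σ σ' f) :
    Equi (TIr ψ σ) (TIr ψ σ') (TIm p f) := fun γ z => TIm_equi p hf (ψ γ) z

end ti

end Pool.Agent.MP_f7db47_al.Cv
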