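import Pool.Agent.MP_f7db47_al.Cv.KDefs

namespace Pool.Agent.MP_f7db47_al.Cv

variable {R Q : Type*} [Ring R] [AddCommGroup Q] {φ : R →+ Q}
variable {ι : Type} [Fintype ι] [DecidableEq ι]

section aux

open Matrix Finset

/-- The matrix of the coefficients in degree `n`. -/
noncomputable def Ell_cf {ι : Type} (n : ℕ) : Matrix ι ι (PowerSeries R) →+ Matrix ι ι R where
  toFun M := M.map (PowerSeries.coeff n)
  map_zero' := by ext; simp
  map_add' M N := by ext; simp

omit [Fintype ι] [DecidableEq ι] in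
theorem Ell_cf_apply (n : ℕ) (M : Matrix ι ι (PowerSeries R)) (a b : ι) :
    Ell_cf n M a b = PowerSeries.coeff n (M a b) := rfl

omit [Fintype ι] [DecidableEq ι] in
theorem Ell_ext {M N : Matrix ι ι (PowerSeries R)} (h : ∀ n, Ell_cf n M = Ell_cf n N) : M = N := by
  ext a b n
  exact congrFun (congrFun (h n) a) b

omit [DecidableEq ι] in
theorem Ell_cf_mul (n : ℕ) (M N : Matrix ι ι (PowerSeries R)) :
    Ell_cf n (M * N) = ∑ p ∈ antidiagonal n, Ell_cf p.1 M * Ell_cf p.2 N := by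
  ext a b
  simp only [Ell_cf_apply, Matrix.mul_apply, map_sum, PowerSeries.coeff_mul, Matrix.sum_apply]
  exact sum_comm

omit [Fintype ι] in
theorem Ell_cf_one (n : ℕ) :
    Ell_cf n (1 : Matrix ι ι (PowerSeries R)) = if n = 0 then 1 else 0 := by
  ext a b
  by_cases h : a = b <;> by_cases hn : n = 0 <;>
    simp [Ell_cf_apply, Matrix.one_apply, h, hn, PowerSeries.coeff_one]

omit [Fintype ι] [DecidableEq ι] in
theorem Ell_cf_eul (n : ℕ) (M : Matrix ι ι (PowerSeries R)) :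
    Ell_cf n (M.map eul) = n • Ell_cf n M := by
  ext a b
  simp only [Ell_cf_apply, Matrix.map_apply, eul, PowerSeries.coeff_mk, Matrix.smul_apply]

omit [DecidableEq ι] in
theorem Ell_eul_mul (M N : Matrix ι ι (PowerSeries R)) :
    (M * N).map eul = M.map eul * N + M * N.map eul := by
  refine Ell_ext fun n => ?_
  rw [map_add, Ell_cf_eul, Ell_cf_mul, Ell_cf_mul, Ell_cf_mul, ← sum_add_distrib, smul_sum]
  refine sum_congr rfl fun p hp => ?_
  rw [Ell_cf_eul, Ell_cf_eul, smul_mul_assoc, mul_smul_comm, ← add_smul, mem_antidiagonal.1 hp]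

omit [Fintype ι] [DecidableEq ι] in
theorem Ell_eul_add (M N : Matrix ι ι (PowerSeries R)) :
    (M + N).map eul = M.map eul + N.map eul := by
  refine Ell_ext fun n => ?_
  rw [map_add, Ell_cf_eul, Ell_cf_eul, Ell_cf_eul, map_add, smul_add]

omit [Fintype ι] in
theorem Ell_eul_one : (1 : Matrix ι ι (PowerSeries R)).map eul = 0 := by
  refine Ell_ext fun n => ?_
  rw [Ell_cf_eul, Ell_cf_one, map_zero]
  split_ifs with h <;> simp [h]

omit [Fintype ι] [DecidableEq ι] in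
theorem Ell_eul_zero : (0 : Matrix ι ι (PowerSeries R)).map eul = 0 := by
  refine Ell_ext fun n => ?_
  rw [Ell_cf_eul, map_zero, smul_zero]

/-- The trace read through `φ`. -/
noncomputable def Ell_tr (φ : R →+ Q) (M : Matrix ι ι (PowerSeries R)) : ℕ → Q :=
  fun n => φ (Matrix.trace (Ell_cf n M))

theorem Ell_eq (u : (Matrix ι ι (PowerSeries R))ˣ) :
    ell φ u = Ell_tr φ ((↑u⁻¹ : Matrix ι ι (PowerSeries R)) *
      (u : Matrix ι ι (PowerSeries R)).map eul) := by
  funext n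
  simp only [ell, Ell_tr, Matrix.trace, map_sum, Matrix.diag_apply, Ell_cf_apply]

omit [DecidableEq ι] in
theorem Ell_tr_add (M N : Matrix ι ι (PowerSeries R)) :
    Ell_tr φ (M + N) = Ell_tr φ M + Ell_tr φ N := by
  funext n
  simp only [Ell_tr, map_add, trace_add, Pi.add_apply]

omit [DecidableEq ι] in
theorem Ell_tr_comm (hφ : ∀ a b, φ (a * b) = φ (b * a)) (M N : Matrix ι ι (PowerSeries R)) :
    Ell_tr φ (M * N) = Ell_tr φ (N * M) := by
  have key : ∀ A B : Matrix ι ι R, φ (trace (A * B)) = φ (trace (B * A)) := by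
    intro A B
    simp only [Matrix.trace, Matrix.diag_apply, Matrix.mul_apply, map_sum]
    rw [sum_comm]
    exact sum_congr rfl fun a _ => sum_congr rfl fun b _ => hφ _ _
  funext n
  simp only [Ell_tr, Ell_cf_mul, trace_sum, map_sum]
  rw [← Finset.Nat.sum_antidiagonal_swap]
  exact sum_congr rfl fun p _ => key _ _

theorem Ell_mul (hφ : ∀ a b, φ (a * b) = φ (b * a)) (u v : (Matrix ι ι (PowerSeries R))ˣ) :
    ell φ (u * v) = ell φ u + ell φ v := by
  rw [Ell_eq, Ell_eq, Ell_eq, _root_.mul_inv_rev, Units.val_mul, Units.val_mul, Ell_eul_mul,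
    mul_add, Ell_tr_add]
  congr 1
  · rw [← mul_assoc, Ell_tr_comm hφ, ← mul_assoc, Units.mul_inv_cancel_left]
  · rw [mul_assoc, Units.inv_mul_cancel_left]

theorem Ell_cf_inv (u : (Matrix ι ι (PowerSeries R))ˣ)
    (h : Ell_cf 0 (u : Matrix ι ι (PowerSeries R)) = 1) :
    Ell_cf 0 (↑u⁻¹ : Matrix ι ι (PowerSeries R)) = 1 := by
  have := Ell_cf_mul 0 (↑u⁻¹ : Matrix ι ι (PowerSeries R)) u
  rw [Units.inv_mul, Ell_cf_one, if_pos rfl, Finset.Nat.antidiagonal_zero, sum_singleton, h,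
    mul_one] at this
  exact this.symm

/-- Almost all coefficients vanish. -/
def Ell_Fin {ι : Type} (M : Matrix ι ι (PowerSeries R)) : Prop := ∃ N, ∀ m, N ≤ m → Ell_cf m M = 0

omit [DecidableEq ι] in
theorem Ell_Fin.mul {M N : Matrix ι ι (PowerSeries R)} (hM : Ell_Fin M) (hN : Ell_Fin N) :
    Ell_Fin (M * N) := by
  obtain ⟨a, ha⟩ := hM
  obtain ⟨b, hb⟩ := hN
  refine ⟨a + b, fun m hm => ?_⟩
  rw [Ell_cf_mul]
  refine sum_eq_zero fun p hp => ?_
  have := mem_antidiagonal.1 hp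
  by_cases h : a ≤ p.1
  · rw [ha _ h, zero_mul]
  · rw [hb _ (by omega), mul_zero]

omit [Fintype ι] [DecidableEq ι] in
theorem Ell_cf_blocks (n : ℕ) (A B C D : Matrix ι ι (PowerSeries R)) :
    Ell_cf n (fromBlocks A B C D) =
      fromBlocks (Ell_cf n A) (Ell_cf n B) (Ell_cf n C) (Ell_cf n D) :=
  fromBlocks_map _ _ _ _ _

omit [Fintype ι] [DecidableEq ι] in
theorem Ell_Fin.blocks {A B C D : Matrix ι ι (PowerSeries R)} (hA : Ell_Fin A) (hB : Ell_Fin B)
    (hC : Ell_Fin C) (hD : Ell_Fin D) : Ell_Fin (fromBlocks A B C D) := by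
  obtain ⟨a, ha⟩ := hA
  obtain ⟨b, hb⟩ := hB
  obtain ⟨c, hc⟩ := hC
  obtain ⟨d, hd⟩ := hD
  refine ⟨a + b + c + d, fun m hm => ?_⟩
  rw [Ell_cf_blocks, ha m (by omega), hb m (by omega), hc m (by omega), hd m (by omega),
    fromBlocks_zero]

omit [Fintype ι] [DecidableEq ι] in
theorem Ell_fin_zero : Ell_Fin (0 : Matrix ι ι (PowerSeries R)) := ⟨0, fun _ _ => map_zero _⟩

omit [Fintype ι] in
theorem Ell_fin_one : Ell_Fin (1 : Matrix ι ι (PowerSeries R)) :=
  ⟨1, fun m hm => by rw [Ell_cf_one, if_neg (by omega)]⟩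

/-- A matrix concentrated in one degree. -/
noncomputable def Ell_mon {ι : Type} (n : ℕ) (B : Matrix ι ι R) : Matrix ι ι (PowerSeries R) :=
  B.map (PowerSeries.monomial n)

omit [Fintype ι] [DecidableEq ι] in
theorem Ell_cf_mon (m n : ℕ) (B : Matrix ι ι R) :
    Ell_cf m (Ell_mon n B) = if m = n then B else 0 := by
  ext a b
  by_cases h : m = n <;> simp [Ell_cf_apply, Ell_mon, PowerSeries.coeff_monomial, h]

omit [Fintype ι] [DecidableEq ι] in
theorem Ell_fin_mon (n : ℕ) (B : Matrix ι ι R) : Ell_Fin (Ell_mon n B) :=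
  ⟨n + 1, fun m hm => by rw [Ell_cf_mon, if_neg (by omega)]⟩

omit [Fintype ι] [DecidableEq ι] in
theorem Ell_Fin.neg {M : Matrix ι ι (PowerSeries R)} (hM : Ell_Fin M) : Ell_Fin (-M) := by
  obtain ⟨a, ha⟩ := hM
  exact ⟨a, fun m hm => by rw [map_neg, ha m hm, neg_zero]⟩

theorem Ell_mon_mul (n : ℕ) (B : Matrix ι ι R) :
    Ell_mon n B * Ell_mon 1 (-1) = Ell_mon (n + 1) (-B) := by
  refine Ell_ext fun m => ?_
  rw [Ell_cf_mul, Ell_cf_mon]
  split_ifs with h
  · rw [sum_eq_single (n, 1)]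
    · simp [Ell_cf_mon]
    · rintro ⟨i, j⟩ hp hne
      have := mem_antidiagonal.1 hp
      rw [Ell_cf_mon, Ell_cf_mon]
      by_cases hi : i = n
      · rw [if_neg (show ¬ j = 1 from fun hj => hne (by rw [hi, hj])), mul_zero]
      · rw [if_neg hi, zero_mul]
    · intro hn
      exact absurd (mem_antidiagonal.2 h.symm) hn
  · refine sum_eq_zero fun p hp => ?_
    have := mem_antidiagonal.1 hp
    rw [Ell_cf_mon, Ell_cf_mon]
    by_cases hi : p.1 = n
    · rw [if_neg (show ¬ p.2 = 1 by omega), mul_zero]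
    · rw [if_neg hi, zero_mul]

omit [DecidableEq ι] in
theorem Ell_tr_blocks (A B C D : Matrix ι ι (PowerSeries R)) :
    Ell_tr φ (fromBlocks A B C D) = Ell_tr φ A + Ell_tr φ D := by
  funext n
  simp [Ell_tr, Ell_cf_blocks, Matrix.trace, Fintype.sum_sum_type]

omit [DecidableEq ι] in
theorem Ell_tr_zero : Ell_tr φ (0 : Matrix ι ι (PowerSeries R)) = 0 := by
  funext n
  simp [Ell_tr]

/-- Upper block unipotent units. -/
noncomputable def Ell_up (P : Matrix ι ι (PowerSeries R)) :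
    (Matrix (ι ⊕ ι) (ι ⊕ ι) (PowerSeries R))ˣ where
  val := fromBlocks 1 P 0 1
  inv := fromBlocks 1 (-P) 0 1
  val_inv := by simp [fromBlocks_multiply]
  inv_val := by simp [fromBlocks_multiply]

/-- Lower block unipotent units. -/
noncomputable def Ell_lo (P : Matrix ι ι (PowerSeries R)) :
    (Matrix (ι ⊕ ι) (ι ⊕ ι) (PowerSeries R))ˣ where
  val := fromBlocks 1 0 P 1
  inv := fromBlocks 1 0 (-P) 1
  val_inv := by simp [fromBlocks_multiply]
  inv_val := by simp [fromBlocks_multiply]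

/-- Stabilisation. -/
noncomputable def Ell_dg (u : (Matrix ι ι (PowerSeries R))ˣ) :
    (Matrix (ι ⊕ ι) (ι ⊕ ι) (PowerSeries R))ˣ where
  val := fromBlocks u 0 0 1
  inv := fromBlocks ↑u⁻¹ 0 0 1
  val_inv := by simp [fromBlocks_multiply]
  inv_val := by simp [fromBlocks_multiply]

theorem Ell_ell_up (P : Matrix ι ι (PowerSeries R)) : ell φ (Ell_up P) = 0 := by
  rw [Ell_eq]
  change Ell_tr φ (fromBlocks 1 (-P) 0 1 * (fromBlocks 1 P 0 1).map eul) = 0
  rw [fromBlocks_map, Ell_eul_one, Ell_eul_zero, fromBlocks_multiply, Ell_tr_blocks]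
  simp [Ell_tr_zero]

theorem Ell_ell_lo (P : Matrix ι ι (PowerSeries R)) : ell φ (Ell_lo P) = 0 := by
  rw [Ell_eq]
  change Ell_tr φ (fromBlocks 1 0 (-P) 1 * (fromBlocks 1 0 P 1).map eul) = 0
  rw [fromBlocks_map, Ell_eul_one, Ell_eul_zero, fromBlocks_multiply, Ell_tr_blocks]
  simp [Ell_tr_zero]

theorem Ell_ell_dg (u : (Matrix ι ι (PowerSeries R))ˣ) : ell φ (Ell_dg u) = ell φ u := by
  rw [Ell_eq, Ell_eq]
  change Ell_tr φ (fromBlocks (↑u⁻¹ : Matrix ι ι (PowerSeries R)) 0 0 1 *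
    (fromBlocks (u : Matrix ι ι (PowerSeries R)) 0 0 1).map eul) = _
  rw [fromBlocks_map, Ell_eul_one, Ell_eul_zero, fromBlocks_multiply, Ell_tr_blocks]
  simp [Ell_tr_zero]

theorem Ell_base
    (hnil : ∀ (ι : Type) [Fintype ι] [DecidableEq ι] (M : Matrix ι ι R), IsNilpotent M →
      φ (Matrix.trace M) = 0) (u : (Matrix ι ι (PowerSeries R))ˣ)
    (h0 : Ell_cf 0 (u : Matrix ι ι (PowerSeries R)) = 1)
    (hd : ∀ m, 1 < m → Ell_cf m (u : Matrix ι ι (PowerSeries R)) = 0)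
    (hi : Ell_Fin (↑u⁻¹ : Matrix ι ι (PowerSeries R))) : ell φ u = 0 := by
  set ν := -Ell_cf 1 (u : Matrix ι ι (PowerSeries R)) with hν
  have hV : ∀ n, Ell_cf n (↑u⁻¹ : Matrix ι ι (PowerSeries R)) = ν ^ n := by
    intro n
    induction n with
    | zero => rw [Ell_cf_inv u h0, pow_zero]
    | succ n ih =>
      have := Ell_cf_mul (n + 1) (↑u⁻¹ : Matrix ι ι (PowerSeries R)) u
      rw [Units.inv_mul, Ell_cf_one, if_neg (by omega), Finset.Nat.sum_antidiagonal_succ',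
        sum_eq_single (n, 0), h0, mul_one, ih] at this
      · rw [pow_succ, hν, mul_neg]
        exact eq_neg_of_add_eq_zero_left this.symm
      · rintro ⟨i, j⟩ hp hne
        have := mem_antidiagonal.1 hp
        have hj : j ≠ 0 := fun hj => hne (by simp only [hj, add_zero] at this; rw [this, hj])
        rw [hd _ (by omega), mul_zero]
      · intro hn
        exact absurd (mem_antidiagonal.2 (add_zero n)) hn
  have hn : IsNilpotent ν := by
    obtain ⟨N, hN⟩ := hi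
    exact ⟨N, by rw [← hV, hN N le_rfl]⟩
  rw [Ell_eq]
  funext n
  rw [Ell_tr, Ell_cf_mul, Pi.zero_apply]
  cases n with
  | zero => simp [Ell_cf_eul]
  | succ n =>
    rw [Finset.Nat.sum_antidiagonal_succ', sum_eq_single (n, 0), Ell_cf_eul, Ell_cf_eul, hV n,
      zero_smul, mul_zero, zero_add, zero_add, one_smul, ← neg_neg (Ell_cf 1 _), ← hν, mul_neg,
      ← pow_succ]
    · exact hnil ι _ (hn.pow_succ n).neg
    · rintro ⟨i, j⟩ hp hne
      have := mem_antidiagonal.1 hp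
      have hj : j ≠ 0 := fun hj => hne (by simp only [hj, add_zero] at this; rw [this, hj])
      rw [Ell_cf_eul, hd _ (by omega), smul_zero, mul_zero]
    · intro hn
      exact absurd (mem_antidiagonal.2 (add_zero n)) hn

theorem Ell_higman (hφ : ∀ a b, φ (a * b) = φ (b * a))
    (hnil : ∀ (ι : Type) [Fintype ι] [DecidableEq ι] (M : Matrix ι ι R), IsNilpotent M →
      φ (Matrix.trace M) = 0) (d : ℕ) : ∀ (ι : Type) [Fintype ι] [DecidableEq ι]
    (u : (Matrix ι ι (PowerSeries R))ˣ), Ell_cf 0 (u : Matrix ι ι (PowerSeries R)) = 1 →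
    (∀ m, d + 1 < m → Ell_cf m (u : Matrix ι ι (PowerSeries R)) = 0) →
    Ell_Fin (↑u⁻¹ : Matrix ι ι (PowerSeries R)) → ell φ u = 0 := by
  induction d with
  | zero => exact fun ι _ _ u h0 hd hi => Ell_base hnil u h0 hd hi
  | succ d ih =>
    intro ι _ _ u h0 hd hi
    set B := Ell_cf (d + 2) (u : Matrix ι ι (PowerSeries R)) with hB
    have hv : ((Ell_up (Ell_mon (d + 1) B) * Ell_dg u * Ell_lo (Ell_mon 1 (-1)) :
        (Matrix (ι ⊕ ι) (ι ⊕ ι) (PowerSeries R))ˣ) : Matrix (ι ⊕ ι) (ι ⊕ ι) (PowerSeries R)) =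
        fromBlocks ((u : Matrix ι ι (PowerSeries R)) + Ell_mon (d + 2) (-B)) (Ell_mon (d + 1) B)
          (Ell_mon 1 (-1)) 1 := by
      change fromBlocks 1 _ 0 1 * fromBlocks _ 0 0 1 * fromBlocks 1 0 _ 1 = _
      simp [fromBlocks_multiply, Ell_mon_mul]
    have := ih (ι ⊕ ι) (Ell_up (Ell_mon (d + 1) B) * Ell_dg u * Ell_lo (Ell_mon 1 (-1))) ?_ ?_ ?_
    · rwa [Ell_mul hφ, Ell_mul hφ, Ell_ell_up, Ell_ell_lo, Ell_ell_dg, zero_add, add_zero] at this
    · rw [hv, Ell_cf_blocks, map_add, h0, Ell_cf_one]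
      simp [Ell_cf_mon]
    · intro m hm
      rw [hv, Ell_cf_blocks, map_add, Ell_cf_one, Ell_cf_mon, Ell_cf_mon, Ell_cf_mon,
        if_neg (show ¬ m = d + 1 by omega), if_neg (show ¬ m = 1 by omega),
        if_neg (show ¬ m = 0 by omega)]
      split_ifs with h
      · rw [h, ← hB, add_neg_cancel, fromBlocks_zero]
      · rw [hd m (by omega), add_zero, fromBlocks_zero]
    · rw [_root_.mul_inv_rev, _root_.mul_inv_rev, Units.val_mul, Units.val_mul]
      exact Ell_Fin.mul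
        (Ell_Fin.blocks Ell_fin_one Ell_fin_zero (Ell_fin_mon _ _).neg Ell_fin_one)
        (Ell_Fin.mul (Ell_Fin.blocks hi Ell_fin_zero Ell_fin_zero Ell_fin_one)
          (Ell_Fin.blocks Ell_fin_one (Ell_fin_mon _ _).neg Ell_fin_zero Ell_fin_one))

omit [DecidableEq ι] in
theorem Ell_fin_poly (U : Matrix ι ι (Polynomial R)) : Ell_Fin (U.map Polynomial.toPowerSeries) := by
  refine ⟨(univ.sup fun p : ι × ι => (U p.1 p.2).natDegree) + 1, fun m hm => ?_⟩
  ext a b
  have : (U a b).natDegree ≤ univ.sup fun p : ι × ι => (U p.1 p.2).natDegree :=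
    le_sup (f := fun p : ι × ι => (U p.1 p.2).natDegree) (mem_univ (a, b))
  rw [Ell_cf_apply, Matrix.map_apply, Polynomial.coeff_coe,
    Polynomial.coeff_eq_zero_of_natDegree_lt (by omega), Matrix.zero_apply]

end aux

theorem ell_mul (hφ : ∀ a b, φ (a * b) = φ (b * a)) (u v : (Matrix ι ι (PowerSeries R))ˣ) :
    ell φ (u * v) = ell φ u + ell φ v := by
  exact Ell_mul hφ u v

theorem ell_ab (hφ : ∀ a b, φ (a * b) = φ (b * a)) (v w : (Matrix ι ι (PowerSeries R))ˣ)
    (a b : Matrix ι ι (PowerSeries R)) (hv : (v : Matrix ι ι (PowerSeries R)) = 1 + a * b)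
    (hw : (w : Matrix ι ι (PowerSeries R)) = 1 + b * a) : ell φ v = ell φ w := by
  have h1 : (↑v⁻¹ : Matrix ι ι (PowerSeries R)) * a = a * (↑w⁻¹ : Matrix ι ι (PowerSeries R)) := by
    rw [Units.inv_mul_eq_iff_eq_mul, ← mul_assoc, Units.eq_mul_inv_iff_mul_eq, hv, hw]
    noncomm_ring
  have h2 : b * (↑v⁻¹ : Matrix ι ι (PowerSeries R)) = (↑w⁻¹ : Matrix ι ι (PowerSeries R)) * b := by
    rw [Units.mul_inv_eq_iff_eq_mul, mul_assoc, Units.eq_inv_mul_iff_mul_eq, hv, hw]
    noncomm_ring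
  rw [Ell_eq, Ell_eq, hv, hw, Ell_eul_add, Ell_eul_add, Ell_eul_one, zero_add, zero_add,
    Ell_eul_mul, Ell_eul_mul, mul_add, mul_add, Ell_tr_add, Ell_tr_add, add_comm]
  congr 1
  · rw [← mul_assoc, h1, mul_assoc, Ell_tr_comm hφ, mul_assoc]
  · rw [← mul_assoc, Ell_tr_comm hφ, ← mul_assoc, h2, mul_assoc]

theorem ell_lead (n : ℕ) (hn : 1 ≤ n) (u : (Matrix ι ι (PowerSeries R))ˣ)
    (hu : ∀ i < n, ∀ a b, PowerSeries.coeff i (((u : Matrix ι ι (PowerSeries R)) - 1) a b) = 0) :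
    ell φ u n = n • φ (Matrix.trace
      ((u : Matrix ι ι (PowerSeries R)).map (PowerSeries.coeff n))) := by
  have h : ∀ i < n, Ell_cf i (u : Matrix ι ι (PowerSeries R)) = if i = 0 then 1 else 0 := by
    intro i hi
    rw [← Ell_cf_one, ← sub_eq_zero, ← map_sub]
    ext a b
    exact hu i hi a b
  rw [Ell_eq, Ell_tr, Ell_cf_mul, Finset.sum_eq_single (0, n), Ell_cf_eul,
    Ell_cf_inv u (by rw [h 0 (by omega), if_pos rfl]), one_mul, Matrix.trace_smul, map_nsmul]
  · rfl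
  · rintro ⟨i, j⟩ hp hne
    have := Finset.HasAntidiagonal.mem_antidiagonal.1 hp
    have hi : i ≠ 0 := fun hi => hne (by simp only [hi, zero_add] at this; rw [this, hi])
    rw [Ell_cf_eul, h j (by omega)]
    split_ifs with hj
    · rw [hj, zero_smul, mul_zero]
    · rw [smul_zero, mul_zero]
  · intro hn
    exact absurd (Finset.HasAntidiagonal.mem_antidiagonal.2 (zero_add n)) hn

/-- Higman's trick. -/
theorem ell_poly (hφ : ∀ a b, φ (a * b) = φ (b * a))
    (hnil : ∀ (ι : Type) [Fintype ι] [DecidableEq ι] (M : Matrix ι ι R), IsNilpotent M →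
      φ (Matrix.trace M) = 0)
    (U V : Matrix ι ι (Polynomial R)) (hUV : U * V = 1) (hVU : V * U = 1)
    (h0 : U.map (fun f => f.coeff 0) = 1) (u : (Matrix ι ι (PowerSeries R))ˣ)
    (hu : (u : Matrix ι ι (PowerSeries R)) = U.map Polynomial.toPowerSeries) :
    ell φ u = 0 := by
  have hi : (↑u⁻¹ : Matrix ι ι (PowerSeries R)) = V.map Polynomial.toPowerSeries := by
    refine Units.inv_eq_of_mul_eq_one_right ?_
    have := congrArg (Polynomial.coeToPowerSeries.ringHom (R := R)).mapMatrix hUV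
    rw [map_mul, map_one] at this
    rw [hu]
    exact this
  obtain ⟨N, hN⟩ := Ell_fin_poly U
  refine Ell_higman hφ hnil N ι u ?_ (fun m hm => by rw [hu, hN m (by omega)])
    (hi ▸ Ell_fin_poly V)
  rw [hu, ← h0]
  ext a b
  simp [Ell_cf_apply]

end Pool.Agent.MP_f7db47_al.Cv
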