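import Pool.Agent.MP_f7db47_al.Cv.Defs

namespace Pool.Agent.MP_f7db47_al.Cv

variable {p : ℕ} {G : Type*} [Group G]

/-- The stabiliser of the constant word. -/
abbrev Gam (p : ℕ) (g : G) : Subgroup (Wr p G) := MulAction.stabilizer (Wr p G) (Om.cst p g)

theorem mem_Gam {g : G} {w : Wr p G} : w ∈ Gam p g ↔ ∀ i, w.x i * g * (w.x (i + 1))⁻¹ = g :=
  ⟨fun h i => congrFun h i, fun h => funext h⟩

/-- The shift as an element of the stabiliser. -/
def GamT (p : ℕ) (g : G) : Gam p g := ⟨Wr.sh p G, mem_Gam.2 fun i => by simp⟩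

/-- Two points are fixed by the same nontrivial element. -/
def GamR (p : ℕ) (g : G) (s s' : Pw p G) : Prop :=
  ∃ γ : Gam p g, γ ≠ 1 ∧ γ • s = s ∧ γ • s' = s'

theorem Gam_succ {g : G} (γ : Gam p g) (i : ZMod p) :
    (γ : Wr p G).x (i + 1) = g⁻¹ * (γ : Wr p G).x i * g := by
  have h := mem_Gam.1 γ.2 i
  rw [mul_inv_eq_iff_eq_mul] at h
  rw [mul_assoc, h, inv_mul_cancel_left]

theorem Gam_add {g : G} (γ : Gam p g) (i : ZMod p) (m : ℕ) :
    (γ : Wr p G).x (i + m) = (g ^ m)⁻¹ * (γ : Wr p G).x i * g ^ m := by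
  induction m with
  | zero => simp
  | succ m ih =>
    rw [Nat.cast_succ, ← add_assoc, Gam_succ, ih, pow_succ]
    group

theorem Gam_one_of_fix {w : Wr p G} {s : Pw p G} (hk : w.k = 0) (hs : w • s = s) : w = 1 := by
  refine Wr.ext (funext fun i => ?_) hk
  have h := congrFun hs i
  rw [Pw.smul_apply, hk, sub_zero, smul_eq_mul] at h
  simpa using h

theorem Gam_eq_of_fix {a b : Wr p G} {s : Pw p G} (hk : a.k = b.k) (ha : a • s = s)
    (hb : b • s = s) : a = b := by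
  have h : a⁻¹ * b = 1 := Gam_one_of_fix (s := s) (by simp [hk])
    (by rw [mul_smul, hb, inv_smul_eq_iff, ha])
  exact inv_mul_eq_one.1 h

theorem Gam_pow_fix {a : Wr p G} {s : Pw p G} (ha : a • s = s) (m : ℕ) : a ^ m • s = s :=
  (MulAction.stabilizer (Wr p G) s).pow_mem ha m

theorem Gam_pow_k [Fact p.Prime] {a : Wr p G} (hk : a.k ≠ 0) (j : ZMod p) :
    (a ^ (j / a.k).val).k = j := by
  rw [Wr.pow_k, ZMod.natCast_zmod_val, div_mul_cancel₀ _ hk]

theorem Gam_k_ne {g : G} {γ : Gam p g} (h : γ ≠ 1) {s : Pw p G} (hs : γ • s = s) :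
    (γ : Wr p G).k ≠ 0 := fun hk => h (Subtype.ext (Gam_one_of_fix hk hs))

theorem Gam_pow_x {a : Wr p G} (hk : a.k = 0) (m : ℕ) (i : ZMod p) : (a ^ m).x i = a.x i ^ m := by
  induction m with
  | zero => simp
  | succ m ih => rw [pow_succ', pow_succ', Wr.mul_x, hk, sub_zero, ih]

theorem Gam_comm [NeZero p] {g : G} (γ : Gam p g) (i : ZMod p) :
    (γ : Wr p G).x i ∈ Subgroup.centralizer ({g ^ p} : Set G) := by
  rw [Subgroup.mem_centralizer_iff]
  rintro _ rfl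
  have h := Gam_add γ i p
  rw [ZMod.natCast_self, add_zero, mul_assoc, eq_inv_mul_iff_mul_eq] at h
  exact h

/-- The stabiliser lies in the wreath product of the centraliser. -/
def GamPsi (p : ℕ) [NeZero p] (g : G) :
    Gam p g →* Wr p (Subgroup.centralizer ({g ^ p} : Set G)) where
  toFun γ := ⟨fun i => ⟨(γ : Wr p G).x i, Gam_comm γ i⟩, (γ : Wr p G).k⟩
  map_one' := rfl
  map_mul' _ _ := rfl

/-- The degree on the stabiliser. -/
abbrev GamPi (p : ℕ) [NeZero p] (g : G) : Gam p g →* Multiplicative (ZMod p) :=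
  (Wr.deg p _).comp (GamPsi p g)

theorem GamPi_eq_one [NeZero p] {g : G} (γ : Gam p g) :
    GamPi p g γ = 1 ↔ (γ : Wr p G).k = 0 := Iff.rfl

theorem GamPsi_injective [NeZero p] (g : G) : Function.Injective (GamPsi p g) := by
  intro a b h
  have hk : (GamPsi p g a).k = (GamPsi p g b).k := congrArg Wr.k h
  refine Subtype.ext (Wr.ext (funext fun i => ?_) hk)
  exact congrArg Subtype.val (congrFun (congrArg Wr.x h) i)

theorem Gam_cyc [NeZero p] (g : G) : Cyc p (GamPi p g) (GamT p g) := by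
  exact ⟨rfl, Subtype.ext Wr.sh_pow⟩

theorem Gam_ker [NeZero p] (g : G) :
    ∃ φ : (GamPi p g).ker →* Subgroup.centralizer ({g ^ p} : Set G), Function.Injective φ := by
  refine ⟨MonoidHom.mk' (fun c => (GamPsi p g c.1).x 0) fun a b => ?_, ?_⟩
  · have ha : (GamPsi p g a.1).k = 0 := a.2
    rw [Subgroup.coe_mul, map_mul, Wr.mul_x, ha, sub_zero]
  · rw [injective_iff_map_eq_one]
    intro c hc
    have h0 : (c.1 : Wr p G).x 0 = 1 := congrArg Subtype.val hc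
    refine Subtype.ext (Subtype.ext (Wr.ext (funext fun i => ?_) c.2))
    have h := Gam_add c.1 0 i.val
    rw [ZMod.natCast_zmod_val, zero_add, h0] at h
    simpa using h

theorem Gam_rel [Fact p.Prime] (g : G) : Rel (Gam p g) (GamR p g) := by
  refine ⟨?_, ?_, ?_, fun h a b hh ha hb => ⟨h, hh, ha, hb⟩⟩
  · rintro a b ⟨γ, h, ha, hb⟩
    exact ⟨γ, h, hb, ha⟩
  · rintro a b c ⟨γ, h, ha, hb⟩ ⟨δ, h', hb', hc⟩
    refine ⟨γ, h, ha, ?_⟩
    have hk := Gam_k_ne h' hb'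
    have e := Gam_eq_of_fix (Gam_pow_k hk (γ : Wr p G).k) (Gam_pow_fix hb' _) hb
    show (γ : Wr p G) • c = c
    rw [← e]
    exact Gam_pow_fix hc _
  · rintro h a b ⟨γ, hγ, ha, hb⟩
    refine ⟨h * γ * h⁻¹, by simpa using hγ, ?_, ?_⟩
    · rw [mul_smul, inv_smul_smul, mul_smul, ha]
    · rw [mul_smul, inv_smul_smul, mul_smul, hb]

theorem Gam_k0 [Fact p.Prime] {g : G}
    (hnt : ∀ t : Subgroup.centralizer ({g ^ p} : Set G), t ^ p = 1 → t = 1) (γ : Gam p g)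
    (hγ : γ ^ p = 1) (hk : (γ : Wr p G).k = 0) : γ = 1 := by
  refine Subtype.ext (Wr.ext (funext fun i => ?_) hk)
  have h1 : (γ : Wr p G) ^ p = 1 := congrArg Subtype.val hγ
  have h2 := Gam_pow_x hk p i
  rw [h1] at h2
  exact congrArg Subtype.val (hnt ⟨_, Gam_comm γ i⟩ (Subtype.ext h2.symm))

theorem Gam_fix [Fact p.Prime] (g : G)
    (hnt : ∀ t : Subgroup.centralizer ({g ^ p} : Set G), t ^ p = 1 → t = 1) (γ : Gam p g)
    (hγ : γ ^ p = 1) : ∃ s : Pw p G, γ • s = s := by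
  by_cases hk : (γ : Wr p G).k = 0
  · exact ⟨fun _ => 1, by rw [Gam_k0 hnt γ hγ hk, one_smul]⟩
  have h1 : (γ : Wr p G) ^ p = 1 := congrArg Subtype.val hγ
  refine ⟨fun i => ((γ : Wr p G) ^ (i / (γ : Wr p G).k).val).x i, funext fun i => ?_⟩
  show ((γ : Wr p G) * (γ : Wr p G) ^ ((i - (γ : Wr p G).k) / (γ : Wr p G).k).val).x i =
    ((γ : Wr p G) ^ (i / (γ : Wr p G).k).val).x i
  rw [← pow_succ', pow_eq_pow_mod _ h1, pow_eq_pow_mod (i / (γ : Wr p G).k).val h1]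
  congr 2
  refine (ZMod.natCast_eq_natCast_iff _ _ _).1 ?_
  rw [Nat.cast_succ, ZMod.natCast_zmod_val, ZMod.natCast_zmod_val, sub_div, div_self hk,
    sub_add_cancel]

theorem Gam_tor [Fact p.Prime] (g : G)
    (hnt : ∀ t : Subgroup.centralizer ({g ^ p} : Set G), t ^ p = 1 → t = 1) (γ : Gam p g)
    (hγ : γ ^ p = 1) (s : Pw p G) (h : GamR p g (γ • s) s) : γ • s = s := by
  obtain ⟨δ, hδ, h1, h2⟩ := h
  have hk := Gam_k_ne hδ h2
  have hc : γ⁻¹ * δ * γ = δ := by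
    refine Subtype.ext (Gam_eq_of_fix (s := s) (by simp) ?_ h2)
    show (γ⁻¹ * δ * γ) • s = s
    rw [mul_smul, mul_smul, h1, inv_smul_smul]
  have hc' : Commute γ δ := by
    rw [mul_assoc, inv_mul_eq_iff_eq_mul] at hc
    exact hc.symm
  have hp : δ ^ p = 1 :=
    Subtype.ext (Gam_one_of_fix (s := s) (by simp) (Gam_pow_fix h2 p))
  set m := ((γ : Wr p G).k / (δ : Wr p G).k).val with hm
  have he : γ * (δ ^ m)⁻¹ = 1 := by
    refine Gam_k0 hnt _ ?_ ?_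
    · rw [(hc'.pow_right m).inv_right.mul_pow, hγ, inv_pow, ← pow_mul, mul_comm m, pow_mul, hp]
      simp
    · have := Gam_pow_k hk (γ : Wr p G).k
      rw [Subgroup.coe_mul, Subgroup.coe_inv, Subgroup.coe_pow, Wr.mul_k, Wr.inv_k, hm, this,
        add_neg_cancel]
  rw [mul_inv_eq_one.1 he]
  exact Gam_pow_fix h2 m

/-- The points whose associated word is constant and conjugate to `g`. -/
def Lam (p : ℕ) (g : G) (s : Pw p G) : Prop :=
  ∃ c, IsConj c g ∧ ∀ i, (s i)⁻¹ * g * s (i + 1) = c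

theorem Lam_smul (g : G) (γ : Gam p g) (s : Pw p G) : Lam p g (γ • s) ↔ Lam p g s := by
  have key : ∀ i, ((γ • s) i)⁻¹ * g * (γ • s) (i + 1) =
      (s (i - (γ : Wr p G).k))⁻¹ * g * s (i - (γ : Wr p G).k + 1) := fun i => by
    show ((γ : Wr p G).x i * s (i - (γ : Wr p G).k))⁻¹ * g *
      ((γ : Wr p G).x (i + 1) * s (i + 1 - (γ : Wr p G).k)) = _
    rw [Gam_succ, add_sub_right_comm]
    group
  constructor
  · rintro ⟨c, hc, h⟩
    refine ⟨c, hc, fun i => ?_⟩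
    have := h (i + (γ : Wr p G).k)
    rwa [key, add_sub_cancel_right] at this
  · rintro ⟨c, hc, h⟩
    exact ⟨c, hc, fun i => by rw [key, h]⟩

theorem Lam_of_GamR [Fact p.Prime] (g : G) {s s' : Pw p G} (h : GamR p g s s')
    (hs : Lam p g s) : Lam p g s' := by
  obtain ⟨γ, hγ, h1, h2⟩ := h
  obtain ⟨c, hc, hs⟩ := hs
  have hk := Gam_k_ne hγ h1
  obtain ⟨δ, hδ, h3, h4⟩ : ∃ δ : Wr p G, δ.k = 1 ∧ δ • s = s ∧ δ • s' = s' :=
    ⟨_, Gam_pow_k hk 1, Gam_pow_fix h1 _, Gam_pow_fix h2 _⟩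
  have h5 : ∀ i, (s (i + 1))⁻¹ * s' (i + 1) = (s i)⁻¹ * s' i := fun i => by
    have e1 := congrFun h3 (i + 1)
    have e2 := congrFun h4 (i + 1)
    rw [Pw.smul_apply, hδ, add_sub_cancel_right, smul_eq_mul] at e1 e2
    rw [← e1, ← e2]
    group
  have h6 : ∀ m : ℕ, (s m)⁻¹ * s' m = (s 0)⁻¹ * s' 0 := fun m => by
    induction m with
    | zero => simp
    | succ m ih => rw [Nat.cast_succ, h5, ih]
  obtain ⟨t, ht⟩ : ∃ t, ∀ i, s' i = s i * t := ⟨(s 0)⁻¹ * s' 0, fun i => by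
    have := h6 i.val
    rw [ZMod.natCast_zmod_val] at this
    rw [← this, mul_inv_cancel_left]⟩
  refine ⟨t⁻¹ * c * t, IsConj.trans (isConj_iff.2 ⟨t, by group⟩) hc, fun i => ?_⟩
  rw [ht, ht, ← hs i]
  group

end Pool.Agent.MP_f7db47_al.Cv
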