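import Pool.Agent.MP_f7db47_al.Cv.KDefs

namespace Pool.Agent.MP_f7db47_al.Cv

/-- Sums of commutators with the members of a family. -/
def HH0_Cm {B J : Type*} [Ring B] [Fintype J] (x : J → B) : AddSubgroup B where
  carrier := {a | ∃ z : J → B, a = ∑ i, (x i * z i - z i * x i)}
  zero_mem' := ⟨0, by simp⟩
  add_mem' := by
    rintro _ _ ⟨z, rfl⟩ ⟨w, rfl⟩
    refine ⟨z + w, ?_⟩
    rw [← Finset.sum_add_distrib]
    exact Finset.sum_congr rfl fun i _ => by rw [Pi.add_apply]; noncomm_ring
  neg_mem' := by
    rintro _ ⟨z, rfl⟩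
    refine ⟨-z, ?_⟩
    rw [← Finset.sum_neg_distrib]
    exact Finset.sum_congr rfl fun i _ => by rw [Pi.neg_apply]; noncomm_ring

/-- The elements all of whose commutators lie in `C`. -/
def HH0_Gd {B : Type*} [Ring B] (C : AddSubgroup B) : Subring B where
  carrier := {a | ∀ b, a * b - b * a ∈ C}
  zero_mem' b := by simp
  one_mem' b := by simp
  add_mem' := fun {a a'} h h' b => by
    convert C.add_mem (h b) (h' b) using 1
    noncomm_ring
  neg_mem' := fun {a} h b => by
    convert C.neg_mem (h b) using 1
    noncomm_ring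
  mul_mem' := fun {a a'} h h' b => by
    convert C.add_mem (h (a' * b)) (h' (b * a)) using 1
    noncomm_ring

theorem HH0_mem {B J : Type*} [Ring B] [Fintype J] (x : J → B) (j : J) :
    x j ∈ HH0_Gd (HH0_Cm x) := fun b => by
  classical
  refine ⟨Pi.single j b, ?_⟩
  rw [Finset.sum_eq_single j (fun i _ h => by simp [h]) (by simp), Pi.single_eq_same]

theorem HH0_inv {B : Type*} [Ring B] {C : AddSubgroup B} {u v : B} (h : u ∈ HH0_Gd C)
    (h1 : u * v = 1) (h2 : v * u = 1) : v ∈ HH0_Gd C := fun b => by
  convert C.neg_mem (h (v * b * v)) using 1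
  rw [← mul_assoc, ← mul_assoc, h1, mul_assoc _ v u, h2, one_mul, mul_one, neg_sub]

section
variable {k : Type*} [CommRing k] {H : Type*} [Group H] {ι : Type} [Fintype ι] [DecidableEq ι]
  {C : AddSubgroup (Matrix ι ι (MonoidAlgebra k H))}

theorem HH0_all {S : Set H} (hS : Subgroup.closure S = ⊤)
    (h1 : ∀ i j, Matrix.single i j 1 ∈ HH0_Gd C)
    (h2 : ∀ h ∈ S, Matrix.scalar ι (MonoidAlgebra.single h 1) ∈ HH0_Gd C)
    (a : Matrix ι ι (MonoidAlgebra k H)) : a ∈ HH0_Gd C := by
  have h3 : ∀ h : H, Matrix.scalar ι (MonoidAlgebra.single h (1 : k)) ∈ HH0_Gd C := fun h => by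
    induction (hS ▸ Subgroup.mem_top h : h ∈ Subgroup.closure S) using
      Subgroup.closure_induction with
    | mem h hh => exact h2 h hh
    | one =>
      rw [← MonoidAlgebra.one_def, map_one]
      exact one_mem _
    | mul g h _ _ hg hh =>
      have := mul_mem hg hh
      rwa [← map_mul, MonoidAlgebra.single_mul_single, mul_one] at this
    | inv h _ hh =>
      refine HH0_inv hh ?_ ?_ <;>
        simp [MonoidAlgebra.single_mul_single, ← MonoidAlgebra.one_def]
  have h4 : ∀ r : MonoidAlgebra k H, Matrix.scalar ι r ∈ HH0_Gd C := fun r => by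
    induction r using MonoidAlgebra.induction_linear with
    | zero => simp
    | add a b ha hb => exact map_add (Matrix.scalar ι) a b ▸ add_mem ha hb
    | single h t =>
      have h5 : Matrix.scalar ι (MonoidAlgebra.single (1 : H) t) ∈ HH0_Gd C := fun b => by
        rw [(Matrix.scalar_commute (MonoidAlgebra.single (1 : H) t)
          (fun r => MonoidAlgebra.single_one_comm t r) b).eq, sub_self]
        exact zero_mem C
      have := mul_mem (h3 h) h5
      rwa [← map_mul, MonoidAlgebra.single_mul_single, mul_one, one_mul] at this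
  induction a using Matrix.induction_on' with
  | h_zero => exact zero_mem _
  | h_add a b ha hb => exact add_mem ha hb
  | h_std_basis i j c =>
    convert mul_mem (h1 i j) (h4 c) using 1
    ext a b : 2
    simp [Matrix.single_apply]

theorem HH0_fin (hC : ∀ a b, a * b - b * a ∈ C) (a : Matrix ι ι (MonoidAlgebra k H))
    (ha : ∀ g : H, cs g (Matrix.trace a) = 0) : a ∈ C := by
  classical
  rcases isEmpty_or_nonempty ι with hι | ⟨⟨i₀⟩⟩
  · exact Subsingleton.elim 0 a ▸ zero_mem C
  obtain ⟨rep, r1, r2⟩ : ∃ rep : H → H, (∀ c, IsConj c (rep c)) ∧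
      ∀ c d, IsConj c d → rep c = rep d :=
    ⟨fun c => Quotient.out (ConjClasses.mk c),
      fun c => ConjClasses.mk_eq_mk_iff_isConj.1 (Quotient.out_eq (ConjClasses.mk c)).symm,
      fun c d h => congrArg Quotient.out (ConjClasses.mk_eq_mk_iff_isConj.2 h)⟩
  have h1 : ∀ a : Matrix ι ι (MonoidAlgebra k H),
      a - Matrix.single i₀ i₀ (Matrix.trace a) ∈ C := fun a => by
    induction a using Matrix.induction_on' with
    | h_zero => simp
    | h_add a b ha hb =>
      rw [Matrix.trace_add, Matrix.single_add, add_sub_add_comm]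
      exact add_mem ha hb
    | h_std_basis i j c =>
      have := hC (Matrix.single i i₀ 1) (Matrix.single i₀ j c)
      by_cases e : j = i
      · simpa [e] using this
      · simpa [Matrix.single_mul_single_of_ne _ _ _ _ e,
          Matrix.trace_single_eq_of_ne _ _ _ (Ne.symm e)] using this
  have h2 : ∀ r : MonoidAlgebra k H,
      Matrix.single i₀ i₀ r - Matrix.single i₀ i₀ (r.mapDomain rep) ∈ C := fun r => by
    induction r using MonoidAlgebra.induction_linear with
    | zero => simp [MonoidAlgebra.mapDomain_zero]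
    | add a b ha hb =>
      rw [MonoidAlgebra.mapDomain_add, Matrix.single_add, Matrix.single_add, add_sub_add_comm]
      exact add_mem ha hb
    | single c t =>
      obtain ⟨u, hu⟩ := isConj_iff.1 (r1 c)
      have := hC (Matrix.single i₀ i₀ (MonoidAlgebra.single (c * u⁻¹) t))
        (Matrix.single i₀ i₀ (MonoidAlgebra.single u 1))
      simpa [MonoidAlgebra.single_mul_single, ← hu, mul_assoc] using this
  have h3 : ∀ (r : MonoidAlgebra k H) (g : H),
      (r.mapDomain rep).coeff g = if rep g = g then cs g r else 0 := fun r g => by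
    induction r using MonoidAlgebra.induction_linear with
    | zero => simp [MonoidAlgebra.mapDomain_zero]
    | add a b ha hb =>
      rw [MonoidAlgebra.mapDomain_add, MonoidAlgebra.coeff_add, Finsupp.add_apply, ha, hb, map_add]
      split_ifs <;> simp
    | single c t =>
      rw [MonoidAlgebra.mapDomain_single, MonoidAlgebra.coeff_single, Finsupp.single_apply, cs,
        csum_single]
      by_cases e : rep c = g
      · have h := e ▸ r1 c
        rw [if_pos e, if_pos ((r2 c g h).symm.trans e), if_pos h]
      · rw [if_neg e]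
        split_ifs with e1 e2
        exacts [(e ((r2 c g e2).trans e1)).elim, rfl, rfl]
  have h4 : (Matrix.trace a).mapDomain rep = 0 := by
    ext g
    rw [h3, ha, ite_self]
    rfl
  simpa [h4] using add_mem (h1 a) (h2 (Matrix.trace a))

end

theorem cs_mul_comm {k : Type*} [CommRing k] {G : Type*} [Group G] (g : G)
    (a b : MonoidAlgebra k G) : cs g (a * b) = cs g (b * a) := by
  induction a using MonoidAlgebra.induction_linear with
  | zero => simp
  | add a a' h h' => rw [add_mul, mul_add, map_add, map_add, h, h']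
  | single c t =>
    induction b using MonoidAlgebra.induction_linear with
    | zero => simp
    | add b b' h h' => rw [add_mul, mul_add, map_add, map_add, h, h']
    | single d u =>
      have h : IsConj (c * d) (d * c) := isConj_iff.2 ⟨d, by group⟩
      simp only [cs, MonoidAlgebra.single_mul_single, csum_single, mul_comm t u]
      rw [show IsConj (c * d) g = IsConj (d * c) g from propext ⟨h.symm.trans, h.trans⟩]

theorem exists_comm_gens (k : Type*) [CommRing k] (H : Type*) [Group H] [Group.FG H] (ι : Type)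
    [Fintype ι] [DecidableEq ι] :
    ∃ (m : ℕ) (x : Fin m → Matrix ι ι (MonoidAlgebra k H)),
      ∀ a : Matrix ι ι (MonoidAlgebra k H), (∀ g : H, cs g (Matrix.trace a) = 0) →
        ∃ z : Fin m → Matrix ι ι (MonoidAlgebra k H), a = ∑ i, (x i * z i - z i * x i) := by
  obtain ⟨S, hS⟩ := Group.fg_def.1 ‹Group.FG H›
  let y : (ι × ι) ⊕ S → Matrix ι ι (MonoidAlgebra k H) :=
    Sum.elim (fun p => Matrix.single p.1 p.2 1) fun h => Matrix.scalar ι (MonoidAlgebra.single h 1)
  let e := Fintype.equivFin ((ι × ι) ⊕ S)
  have hy : ∀ j, y j ∈ HH0_Gd (HH0_Cm (y ∘ e.symm)) := fun j => by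
    simpa using HH0_mem (y ∘ e.symm) (e j)
  exact ⟨_, y ∘ e.symm, fun a ha => HH0_fin (C := HH0_Cm (y ∘ e.symm))
    (HH0_all hS (fun i j => hy (Sum.inl (i, j))) fun h hh => hy (Sum.inr ⟨h, hh⟩)) a ha⟩

end Pool.Agent.MP_f7db47_al.Cv
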