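import Pool.Agent.MP_f7db47_al.Cv.KDefs

namespace Pool.Agent.MP_f7db47_al.Cv

variable {G : Type*} [Group G] {g : G}

section aux

variable {k k' : Type*} [CommRing k] [CommRing k'] {ι : Type} [Fintype ι] [DecidableEq ι]

theorem Red_cs {A B : Type*} [Ring A] [Ring B] (F : A →+* B) (ν : MonoidAlgebra A G) :
    cs g (MonoidAlgebra.mapRingHom G F ν) = F (cs g ν) :=
  csum_map _ (F : A →+ B) ν

theorem Red_tr (f : k →+* k') (ν : MonoidAlgebra (Matrix ι ι k) G) :
    Matrix.trace (cs g (MonoidAlgebra.mapRingHom G f.mapMatrix ν)) =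
      f (Matrix.trace (cs g ν)) := by
  rw [Red_cs]
  exact (AddMonoidHom.map_trace (f : k →+ k') _).symm

theorem Red_pull (f : k →+* k') (h : TT k' g) {ν : MonoidAlgebra (Matrix ι ι k) G}
    (hν : IsNilpotent ν) : f (Matrix.trace (cs g ν)) = 0 := by
  rw [← Red_tr]
  exact h ι _ (hν.map _)

theorem Red_lift (f : k →+* k') (hf : Function.Injective f) {ν : MonoidAlgebra (Matrix ι ι k') G}
    (hν : IsNilpotent ν) (h : ∀ c i j, ν.coeff c i j ∈ Set.range f) :
    ∃ μ : MonoidAlgebra (Matrix ι ι k) G, IsNilpotent μ ∧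
      f (Matrix.trace (cs g μ)) = Matrix.trace (cs g ν) := by
  have h1 : ν ∈ Set.range (MonoidAlgebra.map (M := G)
      ((f.mapMatrix : Matrix ι ι k →+* Matrix ι ι k') : Matrix ι ι k →+ Matrix ι ι k')) := by
    rw [MonoidAlgebra.range_map]
    intro c
    choose m hm using h c
    exact ⟨Matrix.of m, Matrix.ext hm⟩
  obtain ⟨μ, hμ⟩ := h1
  have h2 : MonoidAlgebra.mapRingHom G f.mapMatrix μ = ν := hμ
  have h3 : Function.Injective (MonoidAlgebra.mapRingHom G
      (f.mapMatrix : Matrix ι ι k →+* Matrix ι ι k')) :=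
    MonoidAlgebra.map_injective _ (Matrix.map_injective hf)
  refine ⟨μ, ?_, by rw [← Red_tr, h2]⟩
  obtain ⟨n, hn⟩ := hν
  exact ⟨n, h3 (by rw [map_pow, h2, hn, map_zero])⟩

theorem Red_smul (a : k) (ν : MonoidAlgebra (Matrix ι ι k) G) :
    Matrix.trace (cs g (a • ν)) = a * Matrix.trace (cs g ν) := by
  have h1 : a • ν = MonoidAlgebra.map (DistribSMul.toAddMonoidHom (Matrix ι ι k) a) ν := by
    ext c i j
    simp
  rw [h1, cs, csum_map]
  exact Matrix.trace_smul a _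

omit [Group G] in
theorem Red_fin (ν : MonoidAlgebra (Matrix ι ι k) G) :
    ∃ s : Finset k, ∀ c i j, ν.coeff c i j ∈ s := by
  classical
  refine ⟨insert 0 ((ν.coeff.support ×ˢ (Finset.univ : Finset (ι × ι))).image
    fun p => ν.coeff p.1 p.2.1 p.2.2), fun c i j => ?_⟩
  by_cases hc : c ∈ ν.coeff.support
  · exact Finset.mem_insert_of_mem (Finset.mem_image.2 ⟨(c, i, j), by simpa using hc, rfl⟩)
  · rw [Finsupp.notMem_support_iff.1 hc]
    exact Finset.mem_insert_self _ _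

end aux

theorem TT_rat (h : TT ℤ g) : TT ℚ g := by
  intro ι _ _ ν hν
  obtain ⟨s, hs⟩ := Red_fin ν
  obtain ⟨b, hb⟩ := IsLocalization.exist_integer_multiples_of_finset (nonZeroDivisors ℤ) s
  obtain ⟨μ, hμ, e⟩ := Red_lift (g := g) (algebraMap ℤ ℚ) (RingHom.injective_int _)
    (ν := ((b : ℤ) : ℚ) • ν) (hν.smul _) fun c i j => by
      obtain ⟨z, hz⟩ := hb _ (hs c i j)
      exact ⟨z, by rw [hz]; simp⟩
  rw [h ι μ hμ, map_zero, Red_smul] at e
  exact (mul_eq_zero.1 e.symm).resolve_left (by exact_mod_cast nonZeroDivisors.ne_zero b.2)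

theorem TT_finite (h : TT ℚ g) (L : Type*) [Field L] [Algebra ℚ L] [Module.Finite ℚ L] :
    TT L g := by
  intro ι _ _ ν hν
  by_contra ha
  let b := Module.finBasis ℚ L
  let F : Matrix ι ι L →+* Matrix (ι × Fin (Module.finrank ℚ L)) (ι × Fin (Module.finrank ℚ L)) ℚ :=
    (Matrix.compRingEquiv ι _ ℚ).toRingHom.comp
      (Algebra.leftMulMatrix b).toRingHom.mapMatrix
  have hF : ∀ M : Matrix ι ι L, Matrix.trace (F M) = Algebra.trace ℚ L (Matrix.trace M) := by
    intro M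
    rw [Matrix.trace, Matrix.trace, map_sum, Fintype.sum_prod_type]
    refine Finset.sum_congr rfl fun i _ => ?_
    rw [Algebra.trace_eq_matrix_trace b]
    rfl
  have h1 := h _ _ ((hν.smul (Matrix.trace (cs g ν))⁻¹).map (MonoidAlgebra.mapRingHom G F))
  rw [Red_cs, hF, Red_smul, inv_mul_cancel₀ ha, ← map_one (algebraMap ℚ L),
    Algebra.trace_algebraMap, nsmul_eq_mul, mul_one, Nat.cast_eq_zero] at h1
  exact Module.finrank_pos.ne' h1

theorem TT_field (h : TT ℚ g) (K : Type*) [Field K] [CharZero K] : TT K g := by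
  classical
  intro ι _ _ ν hν
  by_contra ha
  obtain ⟨s, hs⟩ := Red_fin ((Matrix.trace (cs g ν))⁻¹ • ν)
  let A := Algebra.adjoin ℚ (s : Set K)
  have : Algebra.FiniteType ℚ A := Algebra.FiniteType.adjoin_of_finite s.finite_toSet
  obtain ⟨μ, hμ, e⟩ := Red_lift (g := g) (A.val : A →+* K) Subtype.val_injective
    (hν.smul (Matrix.trace (cs g ν))⁻¹) fun c i j =>
      ⟨⟨_, Algebra.subset_adjoin (hs c i j)⟩, rfl⟩
  rw [Red_smul, inv_mul_cancel₀ ha] at e
  have e1 : Matrix.trace (cs g μ) = 1 := Subtype.val_injective e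
  obtain ⟨m, hm⟩ := Ideal.exists_maximal A
  let := Ideal.Quotient.field m
  have := finite_of_finite_type_of_isJacobsonRing ℚ (A ⧸ m)
  have h1 := Red_pull (Ideal.Quotient.mk m) (TT_finite h (A ⧸ m)) hμ
  rw [e1, map_one] at h1
  exact one_ne_zero h1

theorem TT_reduced (h : TT ℤ g) (k : Type*) [CommRing k] [IsReduced k] [IsAddTorsionFree k] :
    TT k g := by
  intro ι _ _ ν hν
  by_contra ha
  set a := Matrix.trace (cs g ν) with hadef
  let S : Submonoid k :=
    { carrier := {x | ∃ n m : ℕ, n ≠ 0 ∧ x = n * a ^ m}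
      mul_mem' := by
        rintro _ _ ⟨n, m, hn, rfl⟩ ⟨n', m', hn', rfl⟩
        exact ⟨n * n', m + m', mul_ne_zero hn hn', by push_cast; ring⟩
      one_mem' := ⟨1, 0, one_ne_zero, by simp⟩ }
  have h0 : Disjoint ((⊥ : Ideal k) : Set k) S := by
    rw [Set.disjoint_left]
    rintro x hx ⟨n, m, hn, rfl⟩
    have h1 : n • a ^ m = 0 := by rw [nsmul_eq_mul]; exact (Submodule.mem_bot k).1 hx
    have h2 : a ^ m = 0 := (nsmul_eq_zero_iff_right hn).1 h1
    exact ha (IsReduced.eq_zero a ⟨m, h2⟩)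
  obtain ⟨p, hp, -, hpS⟩ := Ideal.exists_le_prime_disjoint ⊥ S h0
  have hmem : ∀ x ∈ S, Ideal.Quotient.mk p x ≠ 0 := fun x hx e =>
    Set.disjoint_left.1 hpS (Ideal.Quotient.eq_zero_iff_mem.1 e) hx
  have : CharZero (k ⧸ p) := by
    refine charZero_of_inj_zero fun n hn => ?_
    by_contra hn0
    exact hmem n ⟨n, 0, hn0, by simp⟩ (by rw [map_natCast, hn])
  have h1 := Red_pull ((algebraMap (k ⧸ p) (FractionRing (k ⧸ p))).comp (Ideal.Quotient.mk p))
    (TT_field (TT_rat h) (FractionRing (k ⧸ p))) hν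
  rw [RingHom.comp_apply, map_eq_zero_iff _ (IsFractionRing.injective _ _)] at h1
  exact hmem a ⟨1, 1, one_ne_zero, by simp⟩ h1

end Pool.Agent.MP_f7db47_al.Cv
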