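import Pool.Agent.MP_f7db47_al.Cv.ModP
import Pool.Agent.MP_f7db47_al.Cv.Tors
import Pool.Agent.MP_f7db47_al.Cv.Red
import Pool.Agent.MP_f7db47_al.Cv.Approx
import Pool.Agent.MP_f7db47_al.Cv.ElemVW
import Pool.Agent.MP_f7db47_al.Cv.HH0
import Pool.Agent.MP_f7db47_al.Cv.Ell

namespace Pool.Agent.MP_f7db47_al.Cv

theorem TT_int {H : Type} [Group H] (hH : SmallCent H) (g : H) : TT ℤ g := by
  by_cases hg : IsOfFinOrder g
  · exact TT_int_of_finOrder hg
  intro ι _ _ ν hν
  obtain ⟨N, hN⟩ := hν
  have hN' : ν ^ (N + 1) = 0 := by rw [pow_succ, hN, zero_mul]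
  obtain ⟨p, D, hp, hle, hD⟩ :=
    hH g hg (3 * (N + 1) + (Matrix.trace (cs g ν)).natAbs + 1)
  have : Fact p.Prime := ⟨hp⟩
  let f : Matrix ι ι ℤ →+* Matrix ι ι (ZMod p) := (Int.castRingHom (ZMod p)).mapMatrix
  have h0 : (D + 3) * (N + 1) ≤ p := by
    refine le_trans ?_ hle
    calc (D + 3) * (N + 1) ≤ (3 * (D + 1)) * (N + 1) := Nat.mul_le_mul_right _ (by omega)
      _ = (3 * (N + 1)) * (D + 1) := by ring
      _ ≤ _ := Nat.mul_le_mul_right _ (by omega)
  have h1 := modp g (res_zmod D hD) (N := N + 1) (by omega) h0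
    (MonoidAlgebra.mapRingHom H f ν) (by rw [← map_pow, hN', map_zero])
  have h2 : cs g (MonoidAlgebra.mapRingHom H f ν) = f (cs g ν) :=
    csum_map _ f.toAddMonoidHom ν
  have h3 : Matrix.trace (f (cs g ν)) = ((Matrix.trace (cs g ν) : ℤ) : ZMod p) :=
    (AddMonoidHom.map_trace (Int.castRingHom (ZMod p)) (cs g ν)).symm
  rw [h2, h3, ZMod.intCast_zmod_eq_zero_iff_dvd] at h1
  refine Int.eq_zero_of_dvd_of_natAbs_lt_natAbs h1 ?_
  rw [Int.natAbs_natCast]
  nlinarith

theorem VW_of_fg (k : Type*) [CommRing k] [IsReduced k] [IsAddTorsionFree k] {H : Type}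
    [Group H] [Group.FG H] (hH : SmallCent H) {ι : Type} [Fintype ι] [DecidableEq ι]
    (U V : Matrix ι ι (Polynomial (MonoidAlgebra k H))) (hUV : U * V = 1) (hVU : V * U = 1)
    (h0 : U.map (fun f => f.coeff 0) = 1)
    (u : (Matrix ι ι (PowerSeries (MonoidAlgebra k H)))ˣ)
    (hu : (u : Matrix ι ι (PowerSeries (MonoidAlgebra k H))) = U.map Polynomial.toPowerSeries) :
    u ∈ VW (Matrix ι ι (PowerSeries (MonoidAlgebra k H))) := by
  let φ : MonoidAlgebra k H →+ (H → k) := AddMonoidHom.pi fun g => cs g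
  have hφ : ∀ a b, φ (a * b) = φ (b * a) := fun a b => funext fun g => cs_mul_comm g a b
  have hnil : ∀ (ι : Type) [Fintype ι] [DecidableEq ι] (M : Matrix ι ι (MonoidAlgebra k H)),
      IsNilpotent M → φ (Matrix.trace M) = 0 := fun ι _ _ M hM =>
    funext fun g => trace_of_TT (TT_reduced (TT_int hH g) k) M hM
  have hl := ell_poly hφ hnil U V hUV hVU h0 u hu
  obtain ⟨e, he⟩ := exists_ms ι (MonoidAlgebra k H)
  obtain ⟨m, x, hx⟩ := exists_comm_gens k H ι
  let E := Units.map (e.toRingHom : PowerSeries (Matrix ι ι (MonoidAlgebra k H)) →*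
    Matrix ι ι (PowerSeries (MonoidAlgebra k H)))
  have hE : ∀ v, ((E v : (Matrix ι ι (PowerSeries (MonoidAlgebra k H)))ˣ) :
      Matrix ι ι (PowerSeries (MonoidAlgebra k H))) = e v := fun v => rfl
  let u' := Units.map (e.symm.toRingHom : Matrix ι ι (PowerSeries (MonoidAlgebra k H)) →*
    PowerSeries (Matrix ι ι (MonoidAlgebra k H))) u
  have hu' : E u' = u := Units.ext (e.apply_symm_apply _)
  have key : u' ∈ VW (PowerSeries (Matrix ι ι (MonoidAlgebra k H))) := by
    refine approx x (fun v => ell φ (E v)) (fun a b => by rw [map_mul, ell_mul hφ])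
      (fun v w a b hv hw => ell_ab hφ _ _ (e a) (e b) (by rw [hE, hv]; simp)
        (by rw [hE, hw]; simp)) ?_ u' ?_ (by rw [hu', hl])
    · intro n v hn hv hc
      refine hx _ fun g => ?_
      have h1 := ell_lead (φ := φ) n hn (E v) fun i hi a b => by
        rw [hE, ← map_one e, ← map_sub, he, hc i hi]
        rfl
      have h2 : (e v).map (PowerSeries.coeff n) =
          PowerSeries.coeff n (v : PowerSeries (Matrix ι ι (MonoidAlgebra k H))) := by
        ext1 a b
        exact he _ n a b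
      rw [hv, hE, h2] at h1
      have h3 := congrFun h1 g
      exact (nsmul_eq_zero_iff_right (by omega)).1 h3.symm
    · ext1 a b
      rw [← he, ← hE, hu', hu, ← h0]
      simp
  rw [← hu']
  exact VW_map e.toRingHom key

theorem nil_curves (k : Type*) [CommRing k] [IsReduced k] [IsAddTorsionFree k] (G : Type)
    [Group G] (hG : ∀ H : Subgroup G, H.FG → SmallCent H) (n : ℕ)
    (U V : Matrix (Fin n) (Fin n) (Polynomial (MonoidAlgebra k G))) (hUV : U * V = 1)
    (hVU : V * U = 1) (h0 : U.map (fun f => f.coeff 0) = 1) :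
    Matrix.fromBlocks (U.map Polynomial.toPowerSeries) 0 0
        (1 : Matrix (Fin n) (Fin n) (PowerSeries (MonoidAlgebra k G))) ∈
      Elem (Fin n ⊕ Fin n) (PowerSeries (MonoidAlgebra k G)) := by
  classical
  let sp : Polynomial (MonoidAlgebra k G) → Finset G := fun f =>
    f.support.biUnion fun m => (f.coeff m).coeff.support
  let A : Finset G := Finset.univ.biUnion fun ij : Fin n × Fin n =>
    sp (U ij.1 ij.2) ∪ sp (V ij.1 ij.2)
  let H : Subgroup G := Subgroup.closure (A : Set G)
  have hfg : H.FG := ⟨A, rfl⟩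
  have : Group.FG H := (Group.fg_iff_subgroup_fg H).2 hfg
  let j : MonoidAlgebra k H →+* MonoidAlgebra k G := MonoidAlgebra.mapDomainRingHom k H.subtype
  have hj : Function.Injective j := MonoidAlgebra.mapDomain_injective Subtype.val_injective
  have hlift : ∀ f : Polynomial (MonoidAlgebra k G), sp f ⊆ A →
      ∃ f' : Polynomial (MonoidAlgebra k H), f'.map j = f := by
    intro f hf
    rw [← Polynomial.mem_lifts, Polynomial.lifts_iff_coeff_lifts]
    intro m
    by_cases hm : m ∈ f.support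
    · refine ⟨MonoidAlgebra.ofCoeff ((f.coeff m).coeff.comapDomain H.subtype
        Subtype.val_injective.injOn), ?_⟩
      apply MonoidAlgebra.coeff_injective
      refine Finsupp.mapDomain_comapDomain _ Subtype.val_injective _ fun c hc => ?_
      exact ⟨⟨c, Subgroup.subset_closure (hf (Finset.mem_biUnion.2 ⟨m, hm, hc⟩))⟩, rfl⟩
    · rw [Polynomial.notMem_support_iff.1 hm]
      exact ⟨0, map_zero j⟩
  choose U' hU' using fun a b => hlift (U a b) fun c hc =>
    Finset.mem_biUnion.2 ⟨(a, b), Finset.mem_univ _, Finset.mem_union_left _ hc⟩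
  choose V' hV' using fun a b => hlift (V a b) fun c hc =>
    Finset.mem_biUnion.2 ⟨(a, b), Finset.mem_univ _, Finset.mem_union_right _ hc⟩
  let J := (Polynomial.mapRingHom j).mapMatrix (m := Fin n)
  have hJ : Function.Injective J := fun M N e => by
    ext1 a b
    exact Polynomial.map_injective j hj (congrFun (congrFun e a) b)
  have eU : J (Matrix.of U') = U := by
    ext1 a b
    exact hU' a b
  have eV : J (Matrix.of V') = V := by
    ext1 a b
    exact hV' a b
  have h1 : Matrix.of U' * Matrix.of V' = 1 := hJ (by rw [map_mul, eU, eV, hUV, map_one])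
  have h2 : Matrix.of V' * Matrix.of U' = 1 := hJ (by rw [map_mul, eU, eV, hVU, map_one])
  have h3 : (Matrix.of U').map (fun f => f.coeff 0) = 1 := by
    ext1 a b
    apply hj
    have := congrFun (congrFun h0 a) b
    rw [Matrix.map_apply, ← hU', Polynomial.coeff_map] at this
    rw [Matrix.map_apply, Matrix.of_apply, this, Matrix.one_apply, Matrix.one_apply]
    split_ifs <;> simp
  let c := (Polynomial.coeToPowerSeries.ringHom (R := MonoidAlgebra k H)).mapMatrix (m := Fin n)
  let u : (Matrix (Fin n) (Fin n) (PowerSeries (MonoidAlgebra k H)))ˣ :=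
    ⟨c (Matrix.of U'), c (Matrix.of V'), by rw [← map_mul, h1, map_one],
      by rw [← map_mul, h2, map_one]⟩
  have hu := VW_of_fg k (hG H hfg) (Matrix.of U') (Matrix.of V') h1 h2 h3 u rfl
  have h4 := elem_of_VW (VW_map ((PowerSeries.map j).mapMatrix (m := Fin n)) hu)
  convert h4 using 2
  ext a b m : 2
  show PowerSeries.coeff m (U a b).toPowerSeries =
    PowerSeries.coeff m (PowerSeries.map j (U' a b).toPowerSeries)
  rw [PowerSeries.coeff_map, Polynomial.coeff_coe, Polynomial.coeff_coe, ← hU',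
    Polynomial.coeff_map]

end Pool.Agent.MP_f7db47_al.Cv
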