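import Pool.Agent.MP_f7db47_al.Cv.Defs

namespace Pool.Agent.MP_f7db47_al.Cv

/-- The sum over the words of length `n` with letters in `S`. -/
def TauSm {G M : Type*} [AddCommGroup M] (S : Finset G) : ℕ → (List G → M) → M
  | 0, F => F []
  | n + 1, F => ∑ g ∈ S, TauSm S n fun l => F (g :: l)

section
variable {G M M' : Type*} [AddCommGroup M] [AddCommGroup M'] (S : Finset G)

theorem Tau_map {Φ : Type*} [FunLike Φ M M'] [AddMonoidHomClass Φ M M'] (f : Φ) (n : ℕ)
    (F : List G → M) : f (TauSm S n F) = TauSm S n fun l => f (F l) := by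
  induction n generalizing F with
  | zero => rfl
  | succ n ih => simp only [TauSm, map_sum, ih]

theorem Tau_add (n m : ℕ) (F : List G → M) :
    TauSm S (n + m) F = TauSm S n fun l => TauSm S m fun l' => F (l ++ l') := by
  induction n generalizing F with
  | zero => simp [TauSm]
  | succ n ih => rw [Nat.succ_add]; simp only [TauSm, ih, List.cons_append]

theorem Tau_sum (n : ℕ) (F : G → List G → M) :
    TauSm S n (fun l => ∑ g ∈ S, F g l) = ∑ g ∈ S, TauSm S n (F g) := by
  induction n generalizing F with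
  | zero => rfl
  | succ n ih =>
    simp only [TauSm]
    rw [Finset.sum_comm]
    exact Finset.sum_congr rfl fun a _ => ih fun g l => F g (a :: l)

theorem Tau_sub (B : AddSubgroup M) (n : ℕ) {F F' : List G → M}
    (h : ∀ l, l.length = n → F l - F' l ∈ B) : TauSm S n F - TauSm S n F' ∈ B := by
  induction n generalizing F F' with
  | zero => exact h [] rfl
  | succ n ih =>
    simp only [TauSm, ← Finset.sum_sub_distrib]
    exact sum_mem fun g _ => ih fun l hl => h _ (congrArg (· + 1) hl)

theorem Tau_congr (n : ℕ) {F F' : List G → M} (h : ∀ l, l.length = n → F l = F' l) :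
    TauSm S n F = TauSm S n F' :=
  sub_eq_zero.1 (AddSubgroup.mem_bot.1 (Tau_sub S ⊥ n fun l hl => by simp [h l hl]))

theorem Tau_mem (B : AddSubgroup M) (n : ℕ) {F : List G → M}
    (h : ∀ l, l.length = n → F l ∈ B) : TauSm S n F ∈ B := by
  induction n generalizing F with
  | zero => exact h [] rfl
  | succ n ih => exact sum_mem fun g _ => ih fun l hl => h _ (congrArg (· + 1) hl)

theorem Tau_pow {R : Type*} [Ring R] (f : G → R) (n : ℕ) :
    TauSm S n (fun l => (l.map f).prod) = (∑ g ∈ S, f g) ^ n := by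
  induction n with
  | zero => simp [TauSm]
  | succ n ih =>
    rw [pow_succ', Finset.sum_mul, ← ih]
    exact Finset.sum_congr rfl fun g _ => (Tau_map S (AddMonoidHom.mulLeft (f g)) n _).symm

end

section
variable {p : ℕ} {G : Type*} [Group G]

/-- The cyclic word of a list. -/
def TauW (p : ℕ) (l : List G) : Om p G := fun i => l.getD i.val 1

theorem Tau_shift {n : ℕ} (l : List G) (hl : l.length = n) (g : G) :
    Wr.sh (n + 1) G • TauW (n + 1) (l ++ [g]) = TauW (n + 1) (g :: l) := by
  funext i
  rw [Om.smul_apply]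
  simp only [Wr.sh_x, Wr.sh_k, one_mul, inv_one, mul_one, TauW]
  obtain ⟨m, hm, rfl⟩ : ∃ m < n + 1, i = (m : ℕ) := ⟨i.val, ZMod.val_lt i, by simp⟩
  rw [ZMod.val_cast_of_lt hm]
  cases m with
  | zero =>
    rw [show ((0 : ℕ) : ZMod (n + 1)) - 1 = (n : ℕ) by
      rw [sub_eq_iff_eq_add, ← Nat.cast_succ, ZMod.natCast_self, Nat.cast_zero],
      ZMod.val_cast_of_lt (Nat.lt_succ_self n), ← hl]
    simp
  | succ m =>
    rw [Nat.cast_succ, add_sub_cancel_right, ZMod.val_cast_of_lt (by omega), List.getD_cons_succ,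
      List.getD_append _ _ _ _ (by omega)]

theorem Tau_cst [NeZero p] (l : List G) (hl : l.length = p) (c : G) :
    TauW p l = Om.cst p c ↔ ∀ g ∈ l, g = c := by
  refine ⟨fun h g hg => ?_, fun h => funext fun i => ?_⟩
  · obtain ⟨m, hm, rfl⟩ := List.getElem_of_mem hg
    have := congrFun h (m : ℕ)
    rwa [TauW, ZMod.val_cast_of_lt (hl ▸ hm), List.getD_eq_getElem _ _ hm] at this
  · have hi : i.val < l.length := hl ▸ ZMod.val_lt i
    rw [TauW, List.getD_eq_getElem _ _ hi]
    exact h _ (List.getElem_mem hi)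

/-- The normal form of a word. -/
def TauN (p : ℕ) (l' : List G) (c : G) : Om p G :=
  fun j => if j.val < l'.length then l'.getD j.val 1 else if j.val + 1 < p then 1 else c

theorem Tau_merge [Fact p.Prime] (l' l : List G) (hl : l'.length + l.length = p)
    (h1 : 1 ≤ l.length) : ∃ x : Wr p G, WU (Win l.length (l'.length : ZMod p)) x ∧
      x • TauW p (l' ++ l) = TauN p l' l.prod := by
  refine ⟨⟨fun j => (l.take (j.val - l'.length)).prod, 0⟩, ⟨rfl, fun j hj => ?_⟩,
    funext fun j => ?_⟩
  · have := ZMod.val_lt j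
    by_cases h : l'.length < j.val
    · refine absurd ⟨j.val - l'.length, by omega, by omega, ?_⟩ hj
      rw [← Nat.cast_add, Nat.add_sub_cancel' h.le, ZMod.natCast_zmod_val]
    · simp only [show j.val - l'.length = 0 by omega, List.take_zero, List.prod_nil]
  · have hj := ZMod.val_lt j
    rw [Om.smul_apply]
    simp only [sub_zero, TauW, TauN]
    rw [ZMod.val_add, ZMod.val_one]
    split_ifs with h h'
    · rw [Nat.mod_eq_of_lt (by omega), show j.val - l'.length = 0 by omega,
        show j.val + 1 - l'.length = 0 by omega, List.getD_append _ _ _ _ h]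
      simp
    · rw [Nat.mod_eq_of_lt h', List.getD_append_right _ _ _ _ (by omega),
        List.getD_eq_getElem _ _ (by omega), ← List.prod_take_succ,
        show j.val + 1 - l'.length = j.val - l'.length + 1 by omega, mul_inv_cancel]
    · rw [show j.val + 1 = p by omega, Nat.mod_self, List.getD_append_right _ _ _ _ (by omega),
        List.getD_eq_getElem _ _ (by omega), ← List.prod_take_succ,
        List.take_of_length_le (by omega)]
      simp

theorem Tau_conj {κ : Type*} [CommRing κ] {N : ℕ} {i : ZMod p} {z : Om p G →₀ κ}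
    (hz : z ∈ Jp (OmR κ p G) (WU (Win N i))) :
    OmR κ p G (Wr.sh p G) z ∈ Jp (OmR κ p G) (WU (Win N (i + 1))) := by
  refine Jp_le (fun g v hg => ?_) hz
  have : OmR κ p G (Wr.sh p G) (OmR κ p G g v) =
      OmR κ p G (Wr.sh p G * g * (Wr.sh p G)⁻¹) (OmR κ p G (Wr.sh p G) v) := by
    rw [← Module.End.mul_apply, ← Module.End.mul_apply, ← map_mul, ← map_mul,
      inv_mul_cancel_right]
  rw [this]
  refine mem_Jp _ ⟨by simp [hg.1], fun j hj => ?_⟩ _
  have := hg.2 (j - 1) fun ⟨m, h1, h2, h3⟩ => hj ⟨m, h1, h2, by linear_combination h3⟩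
  simp [this]

theorem Tau_single {A : Type*} [Ring A] (f : G → A) (l : List G) :
    (l.map fun g => MonoidAlgebra.single g (f g)).prod =
      MonoidAlgebra.single l.prod (l.map f).prod := by
  induction l with
  | nil => rfl
  | cons g l ih => simp [ih, MonoidAlgebra.single_mul_single]

omit [Group G] in
theorem Tau_ite {A : Type*} [Ring A] [DecidableEq G] (f : G → A) (c : G) (l : List G) :
    (l.map fun g => if g = c then f g else 0).prod =
      if ∀ g ∈ l, g = c then (l.map f).prod else 0 := by
  induction l with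
  | nil => simp
  | cons g l ih =>
    rw [List.map_cons, List.prod_cons, ih]
    by_cases h : g = c <;> simp [h]

end

theorem exists_tau {p : ℕ} [Fact p.Prime] {G : Type*} [Group G] {ι : Type} [Fintype ι]
    [DecidableEq ι] (ν : MonoidAlgebra (Matrix ι ι (ZMod p)) G) (N : ℕ) (hN : 1 ≤ N)
    (hp : N ≤ p) (hν : ν ^ N = 0) :
    ∃ τ : Om p G →₀ ZMod p, OmR (ZMod p) p G (Wr.sh p G) τ = τ ∧
      (∀ c : G, τ (Om.cst p c) = Matrix.trace (ν.coeff c)) ∧
      ∀ i : ZMod p, τ ∈ Jp (OmR (ZMod p) p G) (WU (Win N i)) := by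
  classical
  have hρ : ∀ (x : Wr p G) (w : Om p G) (t : ZMod p),
      OmR (ZMod p) p G x (Finsupp.single w t) = Finsupp.single (x • w) t := fun x w t =>
    pr_single _ x w t
  set S := ν.coeff.support
  set τ : Om p G →₀ ZMod p := TauSm S p fun l =>
    Finsupp.single (TauW p l) (Matrix.trace (l.map ν.coeff).prod) with hτ
  have h1 : OmR (ZMod p) p G (Wr.sh p G) τ = τ := by
    obtain ⟨n, rfl⟩ : ∃ n, p = n + 1 :=
      Nat.exists_eq_succ_of_ne_zero (Fact.out : p.Prime).ne_zero
    conv_lhs => rw [hτ, Tau_map, Tau_add]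
    rw [hτ]
    simp only [TauSm]
    rw [Tau_sum]
    refine Finset.sum_congr rfl fun g _ => Tau_congr S n fun l hl => ?_
    rw [hρ, Tau_shift l hl, List.map_append, List.prod_append, Matrix.trace_mul_comm]
    simp
  have h2 : τ ∈ Jp (OmR (ZMod p) p G) (WU (Win N ((p - N : ℕ) : ZMod p))) := by
    rw [hτ]
    conv => enter [2, 2]; rw [← Nat.sub_add_cancel hp]
    rw [Tau_add]
    refine Tau_mem S (Jp _ _).toAddSubgroup _ fun l' hl' => ?_
    let Λ : MonoidAlgebra (Matrix ι ι (ZMod p)) G →+ (Om p G →₀ ZMod p) :=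
      (Finsupp.liftAddHom fun c => (Finsupp.singleAddHom (TauN p l' c)).comp
        ((Matrix.traceAddMonoidHom ι (ZMod p)).comp
          (AddMonoidHom.mulLeft (l'.map ν.coeff).prod))).comp
        MonoidAlgebra.coeffAddEquiv.toAddMonoidHom
    have hΛ : ∀ c a, Λ (MonoidAlgebra.single c a) =
        Finsupp.single (TauN p l' c) (Matrix.trace ((l'.map ν.coeff).prod * a)) := fun c a =>
      Finsupp.liftAddHom_apply_single _ c a
    have h0 := Tau_pow S (fun g => MonoidAlgebra.single g (ν.coeff g)) N
    rw [show ∑ g ∈ S, MonoidAlgebra.single g (ν.coeff g) = ν from ν.sum_coeff_single, hν] at h0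
    have h3 := Tau_map S Λ N fun l => (l.map fun g => MonoidAlgebra.single g (ν.coeff g)).prod
    rw [h0, map_zero] at h3
    rw [← neg_mem_iff, ← zero_sub, h3]
    refine Tau_sub S _ N fun l hl => ?_
    obtain ⟨x, hx, e⟩ := Tau_merge (p := p) l' l (by omega) (by omega)
    rw [Tau_single, hΛ, ← e, ← hρ, List.map_append, List.prod_append]
    rw [hl, hl'] at hx
    exact mem_Jp _ hx _
  refine ⟨τ, h1, fun c => ?_, fun i => ?_⟩
  · have h0 := Tau_pow S (fun g => if g = c then ν.coeff g else 0) p
    rw [Finset.sum_ite_eq', show (if c ∈ S then ν.coeff c else 0) = ν.coeff c by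
      split_ifs with h
      · rfl
      · exact (Finsupp.notMem_support_iff.1 h).symm] at h0
    rw [← ZMod.pow_card (Matrix.trace _), ← ZMod.trace_pow_card, ← h0]
    refine (Tau_map S (Finsupp.applyAddHom (M := ZMod p) (Om.cst p c)) p _).trans
      ((Tau_congr S p fun l hl => ?_).trans
        (Tau_map S (Matrix.traceAddMonoidHom ι (ZMod p)) p _).symm)
    rw [Finsupp.applyAddHom_apply, Finsupp.single_apply, Tau_ite, Tau_cst l hl]
    split_ifs
    · rfl
    · exact (map_zero _).symm
  · have h3 : ∀ k : ℕ, τ ∈ Jp (OmR (ZMod p) p G) (WU (Win N (((p - N : ℕ) : ZMod p) + k))) := by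
      intro k
      induction k with
      | zero => simpa using h2
      | succ k ih =>
        rw [← h1, Nat.cast_succ, ← add_assoc]
        exact Tau_conj ih
    have := h3 (i - (p - N : ℕ)).val
    rwa [ZMod.natCast_zmod_val, add_sub_cancel] at this

end Pool.Agent.MP_f7db47_al.Cv
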