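import Pool.Agent.MP_f7db47_al.Cv.Phi
import Pool.Agent.MP_f7db47_al.Cv.AQ
import Pool.Agent.MP_f7db47_al.Cv.Tau
import Pool.Agent.MP_f7db47_al.Cv.Desc
import Pool.Agent.MP_f7db47_al.Cv.VanC
import Pool.Agent.MP_f7db47_al.Cv.TIBase
import Pool.Agent.MP_f7db47_al.Cv.ResPd
import Pool.Agent.MP_f7db47_al.Cv.KDefs

namespace Pool.Agent.MP_f7db47_al.Cv

theorem modp {p : ℕ} [Fact p.Prime] {G : Type} [Group G] (g : G) {D N : ℕ}
    (hD : Res D (Representation.trivial (ZMod p) (Subgroup.centralizer ({g ^ p} : Set G))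
      (ZMod p)))
    (hN : 1 ≤ N) (hp : (D + 3) * N ≤ p) {ι : Type} [Fintype ι] [DecidableEq ι]
    (ν : MonoidAlgebra (Matrix ι ι (ZMod p)) G) (hν : ν ^ N = 0) :
    Matrix.trace (cs g ν) = 0 := by
  classical
  have hpp : p.Prime := Fact.out
  have h0 : ((p : ℕ) : ZMod p) = 0 := ZMod.natCast_self p
  have hnt : ∀ t : Subgroup.centralizer ({g ^ p} : Set G), t ^ p = 1 → t = 1 :=
    no_torsion hpp h0 hD
  have hNp : N ≤ p := le_trans (Nat.le_mul_of_pos_left N (by omega)) hp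
  obtain ⟨τ, hτ1, hτ2, hτ3⟩ := exists_tau ν N hN hNp hν
  obtain ⟨Y, hY0, hYG, hY1, hY2⟩ := exists_Y N (D + 3) hN (by omega) hp τ hτ1 hτ3
  obtain ⟨Φ, hΦ1, hΦ2, hΦ3, hΦ4, hΦ5⟩ := exists_Phi (κ := ZMod p) (p := p) g
  obtain ⟨lam, hl1, hl2, hl3, hl4⟩ := exists_lam h0 g
  obtain ⟨φ, hφ⟩ := Gam_ker (p := p) g
  have : Nonempty (Pw p G) := ⟨fun _ => 1⟩
  have hC : ∀ (V : Type) [AddCommGroup V] [Module (ZMod p) V]
      (σ : Representation (ZMod p) (Gam p g) V),
      Van σ (GamR p g) (fun γ => GamPi p g γ = 1) (D + 3) := by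
    intro V _ _ σ
    exact (Van_subgroup σ (GamR p g) (GamPi p g).ker (D + 3)).1
      (vanC hD φ hφ ((Gam_rel g).subgroup _) _)
  obtain ⟨m₁, hΓ⟩ := van_Gamma (GamPsi p g) (GamPsi_injective g) (Gam_cyc g) (Gam_rel g)
    (Gam_fix g hnt) (Gam_tor g hnt) hC hD
  obtain ⟨b, f, hf, hb⟩ := descend (Gam_cyc g) (Gam_rel g)
    (Representation.trivial (ZMod p) (Gam p g) (ZMod p)) (fun n => Φ (Y n)) (D + 3) m₁
    (by omega) (fun n => hΦ2 n _ (hYG n))
    (by rw [← hΦ1, ← map_sub]; exact hΦ3 _ hY1)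
    (fun n h1 h2 => by
      have a1 := hΦ3 _ (hY2 n h1 h2)
      have e : ∀ a b, Φ (a - b) = Φ a - Φ b := fun a b => map_sub Φ a b
      rw [e] at a1
      have a2 := Submodule.add_mem _ a1 (hΦ4 n (Y n))
      rwa [sub_add_sub_cancel, hΦ1] at a2)
    (hC _ _) hΓ
  have hz := hl2 _ hb
  rw [map_sub, map_sub, hl3, hl4 f hf, sub_zero, sub_zero, hY0] at hz
  have key : ∀ σ : Om p G →₀ ZMod p,
      lam (Φ (Finsupp.single [(fun _ => 1 : ZMod p → G)] σ)) =
        σ.sum fun ω a => if ∃ c, IsConj c g ∧ ω = Om.cst p c then a else 0 := by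
    intro σ
    induction σ using Finsupp.induction_linear with
    | zero => simp
    | add a b ha hb =>
      rw [Finsupp.single_add, map_add, map_add, ha, hb, Finsupp.sum_add_index']
      · simp
      · intro ω a b
        split_ifs <;> simp
    | single ω a =>
      rw [Finsupp.sum_single_index (by simp)]
      rcases hΦ5 ω a with ⟨e1, e2⟩ | ⟨s, e1, e2⟩
      · rw [e1, if_neg e2, map_zero]
      · rw [e1, hl1]
        exact if_congr e2 rfl rfl
  replace hz := (key τ).symm.trans hz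
  have hinj : Function.Injective (Om.cst p : G → Om p G) := fun a b e => congrFun e 0
  have e1 : Matrix.trace (cs g ν) =
      ∑ c ∈ ν.coeff.support.filter (fun c => IsConj c g), τ (Om.cst p c) := by
    rw [cs, csum_apply, Finsupp.sum, Matrix.trace_sum, Finset.sum_filter]
    refine Finset.sum_congr rfl fun c _ => ?_
    split_ifs
    · rw [hτ2]
    · simp
  rw [e1, ← hz, Finsupp.sum, ← Finset.sum_filter,
    ← Finset.sum_image (f := fun ω => τ ω) (g := Om.cst p) (fun a _ b _ e => hinj e)]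
  symm
  refine Finset.sum_subset ?_ ?_
  · intro ω hω
    obtain ⟨h1, c, hc, rfl⟩ := Finset.mem_filter.1 hω
    refine Finset.mem_image.2 ⟨c, Finset.mem_filter.2 ⟨?_, hc⟩, rfl⟩
    rw [Finsupp.mem_support_iff] at h1 ⊢
    intro e
    rw [hτ2, e] at h1
    exact h1 (by simp)
  · intro ω hω hn
    obtain ⟨c, hc, rfl⟩ := Finset.mem_image.1 hω
    by_contra e
    exact hn (Finset.mem_filter.2 ⟨Finsupp.mem_support_iff.2 e,
      c, (Finset.mem_filter.1 hc).2, rfl⟩)

end Pool.Agent.MP_f7db47_al.Cv
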