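import Pool.Agent.MP_f7db47_al.Cv.Gam

namespace Pool.Agent.MP_f7db47_al.Cv

section
variable {κ : Type*} [CommRing κ] {p : ℕ} {G : Type*} [Group G]

/-- The orbit of the constant word. -/
def Phi_Orb (p : ℕ) (g : G) (ω : Om p G) : Prop := ∃ x : Wr p G, x • ω = Om.cst p g

/-- A pure shift in the stabiliser. -/
def Phi_sh (g : G) (t : ZMod p) : Gam p g := ⟨⟨fun _ => 1, t⟩, mem_Gam.2 fun i => by simp⟩

theorem Phi_Orb_smul (g : G) (u : Wr p G) (ω : Om p G) :
    Phi_Orb p g (u • ω) ↔ Phi_Orb p g ω :=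
  ⟨fun ⟨x, hx⟩ => ⟨x * u, by rw [mul_smul, hx]⟩,
    fun ⟨x, hx⟩ => ⟨x * u⁻¹, by rw [mul_smul, inv_smul_smul, hx]⟩⟩

theorem Phi_choice (p : ℕ) (g : G) : ∃ X : Om p G → Wr p G,
    ∀ ω, Phi_Orb p g ω → (X ω).k = 0 ∧ X ω • ω = Om.cst p g := by
  have h : ∀ ω, ∃ x : Wr p G, Phi_Orb p g ω → x.k = 0 ∧ x • ω = Om.cst p g := by
    intro ω
    by_cases h : Phi_Orb p g ω
    · obtain ⟨x, hx⟩ := h
      refine ⟨(Phi_sh g (-x.k) : Gam p g) * x, fun _ => ⟨neg_add_cancel _, ?_⟩⟩
      rw [mul_smul, hx]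
      exact (Phi_sh g (-x.k)).2
    · exact ⟨1, fun h' => (h h').elim⟩
  choose X hX using h
  exact ⟨X, hX⟩

open Classical in
/-- The map attached to a choice of group elements. -/
noncomputable def Phi_map (κ : Type*) [CommRing κ] (g : G) (X : Om p G → Wr p G) :
    (List (Pw p G) →₀ (Om p G →₀ κ)) →ₗ[κ] (List (Pw p G) →₀ κ) :=
  Finsupp.lsum κ fun l => Finsupp.lsum κ fun ω =>
    if Phi_Orb p g ω then Finsupp.lsingle (X ω • l) else 0

theorem Phi_pos {g : G} (X : Om p G → Wr p G) (l : List (Pw p G)) {ω : Om p G}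
    (h : Phi_Orb p g ω) (a : κ) :
    Phi_map κ g X (Finsupp.single l (Finsupp.single ω a)) = Finsupp.single (X ω • l) a := by
  simp [Phi_map, h]

theorem Phi_neg {g : G} (X : Om p G → Wr p G) (l : List (Pw p G)) {ω : Om p G}
    (h : ¬ Phi_Orb p g ω) (a : κ) :
    Phi_map κ g X (Finsupp.single l (Finsupp.single ω a)) = 0 := by
  simp [Phi_map, h]

theorem Phi_mem {α β W : Type*} [AddCommGroup W] [Module κ W] {f : (α →₀ (β →₀ κ)) →ₗ[κ] W}
    {N : Submodule κ W} {A : Set α}
    (h : ∀ l ∈ A, ∀ ω a, f (Finsupp.single l (Finsupp.single ω a)) ∈ N)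
    {z : α →₀ (β →₀ κ)} (hz : z ∈ Finsupp.supported _ κ A) : f z ∈ N := by
  refine map_supported (fun l hl v => ?_) hz
  induction v using Finsupp.induction_linear with
  | zero => simp
  | add a b ha hb =>
    rw [Finsupp.single_add, map_add]
    exact N.add_mem ha hb
  | single ω a => exact h l hl ω a

theorem Phi_mem' {α β W : Type*} [AddCommGroup W] [Module κ W] {f : (α →₀ (β →₀ κ)) →ₗ[κ] W}
    {N : Submodule κ W} (h : ∀ l ω a, f (Finsupp.single l (Finsupp.single ω a)) ∈ N)
    (z : α →₀ (β →₀ κ)) : f z ∈ N :=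
  Phi_mem (A := Set.univ) (fun l _ => h l) fun _ _ => trivial

theorem Phi_Em_pos {g : G} (X : Om p G → Wr p G) {ω : Om p G} (h : Phi_Orb p g ω)
    (y : List (Pw p G) →₀ κ) :
    Phi_map κ g X (Em (Finsupp.lsingle ω : κ →ₗ[κ] (Om p G →₀ κ)) y) =
      pr (List (Pw p G)) (Representation.trivial κ (Wr p G) κ) (X ω) y := by
  induction y using Finsupp.induction_linear with
  | zero => simp
  | add a b ha hb => simp only [map_add, ha, hb]
  | single l a =>
    rw [Em_single, pr_single]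
    exact Phi_pos X l h a

theorem Phi_Em_neg {g : G} (X : Om p G → Wr p G) {ω : Om p G} (h : ¬ Phi_Orb p g ω)
    (y : List (Pw p G) →₀ κ) :
    Phi_map κ g X (Em (Finsupp.lsingle ω : κ →ₗ[κ] (Om p G →₀ κ)) y) = 0 := by
  induction y using Finsupp.induction_linear with
  | zero => simp
  | add a b ha hb => simp only [map_add, ha, hb, add_zero]
  | single l a =>
    rw [Em_single]
    exact Phi_neg X l h a

theorem Phi_bd (g : G) (X : Om p G → Wr p G) (z : List (Pw p G) →₀ (Om p G →₀ κ)) :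
    Phi_map κ g X (bd κ z) = bd κ (Phi_map κ g X z) := by
  have := Phi_mem' (f := Phi_map κ g X ∘ₗ bd κ - bd κ ∘ₗ Phi_map κ g X) (N := ⊥) (fun l ω a => by
    have e : Finsupp.single l (Finsupp.single ω a) =
        Em (Finsupp.lsingle ω : κ →ₗ[κ] (Om p G →₀ κ)) (Finsupp.single l a) := by
      rw [Em_single]
      rfl
    rw [Submodule.mem_bot, LinearMap.sub_apply, LinearMap.comp_apply, LinearMap.comp_apply,
      sub_eq_zero, e, ← Em_bd]
    by_cases h : Phi_Orb p g ω
    · rw [Phi_Em_pos X h, Phi_Em_pos X h, pr_bd]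
    · rw [Phi_Em_neg X h, Phi_Em_neg X h, map_zero]) z
  simpa [sub_eq_zero] using this

theorem Phi_tr {g : G} {X : Om p G → Wr p G}
    (hX : ∀ ω, Phi_Orb p g ω → (X ω).k = 0 ∧ X ω • ω = Om.cst p g) (u : Wr p G)
    (l : List (Pw p G)) (ω : Om p G) (a : κ) : ∃ γ : Gam p g, (γ : Wr p G).k = u.k ∧
      Phi_map κ g X (pr (List (Pw p G)) (OmR κ p G) u (Finsupp.single l (Finsupp.single ω a))) =
        pr (List (Pw p G)) (Representation.trivial κ (Gam p g) κ) γ
          (Phi_map κ g X (Finsupp.single l (Finsupp.single ω a))) := by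
  have e : pr (List (Pw p G)) (OmR κ p G) u (Finsupp.single l (Finsupp.single ω a)) =
      Finsupp.single (u • l) (Finsupp.single (u • ω) a) := by
    rw [pr_single, OmR, pr_single]
    rfl
  rw [e]
  by_cases h : Phi_Orb p g ω
  · have h' := (Phi_Orb_smul g u ω).2 h
    refine ⟨⟨X (u • ω) * u * (X ω)⁻¹, ?_⟩, ?_, ?_⟩
    · rw [MulAction.mem_stabilizer_iff]
      conv_lhs => rw [← (hX ω h).2]
      rw [mul_smul, inv_smul_smul, mul_smul, (hX _ h').2]
    · simp [(hX ω h).1, (hX _ h').1]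
    · rw [Phi_pos X _ h, Phi_pos X _ h', pr_single]
      congr 1
      change X (u • ω) • u • l = (X (u • ω) * u * (X ω)⁻¹) • X ω • l
      rw [mul_smul, inv_smul_smul, mul_smul]
  · refine ⟨Phi_sh g u.k, rfl, ?_⟩
    rw [Phi_neg X _ h, Phi_neg X _ (fun c => h ((Phi_Orb_smul g u ω).1 c)), map_zero]

end

open Classical in
/-- Passing from the wreath product to the stabiliser of the constant word. -/
theorem exists_Phi {κ : Type*} [CommRing κ] {p : ℕ} [NeZero p] {G : Type*} [Group G] (g : G) :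
    ∃ Φ : (List (Pw p G) →₀ (Om p G →₀ κ)) →ₗ[κ] (List (Pw p G) →₀ κ),
      (∀ z, Φ (bd κ z) = bd κ (Φ z)) ∧ (∀ n, ∀ z ∈ Gd κ n, Φ z ∈ Gd κ n) ∧
      (∀ z ∈ Jp (pr (List (Pw p G)) (OmR κ p G)) (fun w => w.k = 0),
        Φ z ∈ Jp (pr (List (Pw p G)) (Representation.trivial κ (Gam p g) κ))
          fun γ => GamPi p g γ = 1) ∧
      (∀ n z, Φ (th (pr (List (Pw p G)) (OmR κ p G)) (Wr.sh p G) p n z) -
          th (pr (List (Pw p G)) (Representation.trivial κ (Gam p g) κ)) (GamT p g) p n (Φ z) ∈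
        Jp (pr (List (Pw p G)) (Representation.trivial κ (Gam p g) κ))
          fun γ => GamPi p g γ = 1) ∧
      ∀ (ω : Om p G) (a : κ),
        (Φ (Finsupp.single [(fun _ => 1 : ZMod p → G)] (Finsupp.single ω a)) = 0 ∧
          ¬ ∃ c, IsConj c g ∧ ω = Om.cst p c) ∨
        ∃ s : Pw p G, Φ (Finsupp.single [(fun _ => 1 : ZMod p → G)] (Finsupp.single ω a)) =
          Finsupp.single [s] a ∧ (Lam p g s ↔ ∃ c, IsConj c g ∧ ω = Om.cst p c) := by
  obtain ⟨X, hX⟩ := Phi_choice p g
  refine ⟨Phi_map κ g X, Phi_bd g X, fun n z hz => ?_, fun z hz => ?_, fun n z => ?_,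
    fun ω a => ?_⟩
  · refine Phi_mem (fun l hl ω a => ?_) hz
    by_cases h : Phi_Orb p g ω
    · rw [Phi_pos X l h]
      exact single_mem_Gd (by rw [length_smul]; exact hl) a
    · rw [Phi_neg X l h]
      exact Submodule.zero_mem _
  · refine Jp_le (fun u v hu => ?_) hz
    refine Phi_mem' (f := Phi_map κ g X ∘ₗ pr (List (Pw p G)) (OmR κ p G) u - Phi_map κ g X)
      (fun l ω a => ?_) v
    obtain ⟨γ, h1, h2⟩ := Phi_tr hX u l ω a
    rw [LinearMap.sub_apply, LinearMap.comp_apply, h2]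
    exact mem_Jp _ (P := fun γ => GamPi p g γ = 1) ((GamPi_eq_one γ).2 (h1.trans hu)) _
  · refine map_th (fun w hw => ?_) (fun v => ?_) p n z
    · refine Jp_le (fun γ v hγ => ?_) hw
      have := mem_Jp (pr (List (Pw p G)) (Representation.trivial κ (Gam p g) κ))
        (P := fun γ => GamPi p g γ = 1) (h := GamT p g * γ * (GamT p g)⁻¹)
        (by rw [map_mul, map_mul, hγ, map_inv, mul_one, mul_inv_cancel])
        (pr (List (Pw p G)) (Representation.trivial κ (Gam p g) κ) (GamT p g) v)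
      rwa [← Module.End.mul_apply, ← map_mul, inv_mul_cancel_right, map_mul,
        Module.End.mul_apply] at this
    · refine Phi_mem' (f := Phi_map κ g X ∘ₗ pr (List (Pw p G)) (OmR κ p G) (Wr.sh p G) -
        pr (List (Pw p G)) (Representation.trivial κ (Gam p g) κ) (GamT p g) ∘ₗ Phi_map κ g X)
        (fun l ω a => ?_) v
      obtain ⟨γ, h1, h2⟩ := Phi_tr hX (Wr.sh p G) l ω a
      rw [LinearMap.sub_apply, LinearMap.comp_apply, LinearMap.comp_apply, h2]
      have := mem_Jp (pr (List (Pw p G)) (Representation.trivial κ (Gam p g) κ))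
        (P := fun γ => GamPi p g γ = 1) (h := γ * (GamT p g)⁻¹)
        ((GamPi_eq_one _).2 (by
          change (γ : Wr p G).k + -(Wr.sh p G).k = 0
          rw [h1, add_neg_cancel]))
        (pr (List (Pw p G)) (Representation.trivial κ (Gam p g) κ) (GamT p g)
          (Phi_map κ g X (Finsupp.single l (Finsupp.single ω a))))
      rwa [← Module.End.mul_apply, ← map_mul, inv_mul_cancel_right] at this
  · by_cases h : Phi_Orb p g ω
    · right
      let o : Pw p G := fun _ => 1
      refine ⟨X ω • o, Phi_pos X [o] h a, ?_⟩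
      have h1 : ∀ i, ((X ω • o) i)⁻¹ * g * (X ω • o) (i + 1) = ω i := by
        intro i
        have h2 : (X ω).x i * ω (i - (X ω).k) * ((X ω).x (i + 1))⁻¹ = g := congrFun (hX ω h).2 i
        rw [(hX ω h).1, sub_zero] at h2
        change ((X ω).x i * 1)⁻¹ * g * ((X ω).x (i + 1) * 1) = ω i
        rw [← h2]
        group
      refine exists_congr fun c => and_congr_right fun _ => ?_
      simp only [h1]
      exact ⟨fun h => funext h, fun h i => congrFun h i⟩
    · left
      refine ⟨Phi_neg X _ h a, ?_⟩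
      rintro ⟨c, hc, rfl⟩
      obtain ⟨y, hy⟩ := isConj_iff.1 hc
      exact h ⟨⟨fun _ => y, 0⟩, funext fun _ => hy⟩

open Classical in
/-- The functional that detects the class of `g`. -/
theorem exists_lam {κ : Type*} [CommRing κ] {p : ℕ} [Fact p.Prime] (h0 : (p : κ) = 0)
    {G : Type*} [Group G] (g : G) :
    ∃ lam : (List (Pw p G) →₀ κ) →ₗ[κ] κ,
      (∀ (s : Pw p G) (a : κ), lam (Finsupp.single [s] a) = if Lam p g s then a else 0) ∧
      (∀ z ∈ Jp (pr (List (Pw p G)) (Representation.trivial κ (Gam p g) κ))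
        (fun γ => GamPi p g γ = 1), lam z = 0) ∧
      (∀ b, lam (NT (pr (List (Pw p G)) (Representation.trivial κ (Gam p g) κ))
        (GamT p g) p b) = 0) ∧
      ∀ f ∈ Fx κ (GamR p g), lam (bd κ f) = 0 := by
  let Q : List (Pw p G) → Prop := fun l => ∃ s, l = [s] ∧ Lam p g s
  let lam : (List (Pw p G) →₀ κ) →ₗ[κ] κ :=
    Finsupp.lsum κ fun l => if Q l then LinearMap.id else 0
  have hl : ∀ l a, lam (Finsupp.single l a) = if Q l then a else 0 := by
    intro l a
    by_cases h : Q l <;> simp [lam, h]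
  have hQ : ∀ s, Q [s] ↔ Lam p g s := fun s =>
    ⟨fun ⟨t, e, ht⟩ => by rwa [List.singleton_injective e], fun h => ⟨s, rfl, h⟩⟩
  have hlen : ∀ l, Q l → l.length = 1 := by
    rintro _ ⟨s, rfl, -⟩
    rfl
  have hQs : ∀ (γ : Gam p g) l, Q (γ • l) ↔ Q l := by
    intro γ l
    by_cases h : l.length = 1
    · obtain ⟨s, rfl⟩ := List.length_eq_one_iff.1 h
      exact (hQ (γ • s)).trans ((Lam_smul g γ s).trans (hQ s).symm)
    · exact ⟨fun c => (h ((length_smul γ l).symm.trans (hlen _ c))).elim,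
        fun c => (h (hlen _ c)).elim⟩
  have hinv : ∀ (γ : Gam p g) z,
      lam (pr (List (Pw p G)) (Representation.trivial κ (Gam p g) κ) γ z) = lam z := by
    intro γ z
    induction z using Finsupp.induction_linear with
    | zero => simp
    | add a b ha hb => simp only [map_add, ha, hb]
    | single l a =>
      rw [pr_single, hl, hl]
      exact if_congr (hQs γ l) rfl rfl
  refine ⟨lam, fun s a => ?_, fun z hz => ?_, fun b => ?_, fun f hf => ?_⟩
  · rw [hl]
    exact if_congr (hQ s) rfl rfl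
  · exact Jp_le (N := ⊥) (fun γ v _ => by rw [hinv, sub_self]; exact Submodule.zero_mem _) hz
  · rw [NT_apply, map_sum]
    simp only [hinv, Finset.sum_const, Finset.card_range, nsmul_eq_mul, h0, zero_mul]
  · refine map_supported (f := lam ∘ₗ bd κ) (N := ⊥) (fun l hf a => ?_) hf
    rw [LinearMap.comp_apply]
    by_cases h : l.length = 2
    · obtain ⟨s, t, rfl⟩ := List.length_eq_two.1 h
      have h1 : Lam p g s ↔ Lam p g t :=
        ⟨Lam_of_GamR g (hf s (by simp) t (by simp)), Lam_of_GamR g (hf t (by simp) s (by simp))⟩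
      rw [bd_single_cons, bd_single_cons, bd_nil, map_zero, sub_zero, cons_single, map_sub, hl, hl,
        Submodule.mem_bot, sub_eq_zero]
      exact if_congr ((hQ t).trans (h1.symm.trans (hQ s).symm)) rfl rfl
    · refine map_supported (fun l' hl' b => ?_) (bd_single_mem l a)
      rw [hl, if_neg]
      · exact Submodule.zero_mem _
      · intro c
        have h2 := hlen _ c
        have h3 := hl'.2
        omega

end Pool.Agent.MP_f7db47_al.Cv
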