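import Mathlib

/-! Definitions used in the statement about Nil groups and curves. -/

namespace Pool.Agent.MP_f7db47_al.Cv

/-- For every `g` of infinite order the mod `p` cohomological dimension of the centraliser of
`g ^ p` is small compared with `p`, for suitable primes `p`. -/
def SmallCent (H : Type) [Group H] : Prop :=
  ∀ g : H, ¬ IsOfFinOrder g → ∀ N : ℕ, ∃ p D : ℕ, p.Prime ∧ N * (D + 1) ≤ p ∧
    CategoryTheory.HasProjectiveDimensionLE
      (Rep.trivial (ZMod p) (Subgroup.centralizer ({g ^ p} : Set H)) (ZMod p)) D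

/-- Products of elementary matrices. -/
def Elem (ι : Type) [Fintype ι] [DecidableEq ι] (R : Type*) [Ring R] :
    Submonoid (Matrix ι ι R) :=
  Submonoid.closure {M | ∃ (i j : ι) (c : R), i ≠ j ∧ M = 1 + Matrix.single i j c}

end Pool.Agent.MP_f7db47_al.Cv
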