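import Pool.Agent.MP_f7db47_al.Cv.Defs
import Pool.Agent.MP_f7db47_al.Cv.LES

namespace Pool.Agent.MP_f7db47_al.Cv

universe u

variable {κ : Type*} [CommRing κ] {Γ : Type*} [Group Γ] {S : Type*} [MulAction Γ S]
variable {p : ℕ} [NeZero p] {π : Γ →* Multiplicative (ZMod p)} {T : Γ}

/-- The sum of the inverse powers of `T`. -/
noncomputable def TrN {W : Type*} [AddCommGroup W] [Module κ W] (σ : Representation κ Γ W)
    (T : Γ) (p : ℕ) : W →ₗ[κ] W := ∑ m ∈ Finset.range p, σ (T ^ m)⁻¹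

theorem TrN_apply {W : Type*} [AddCommGroup W] [Module κ W] (σ : Representation κ Γ W)
    (T : Γ) (p : ℕ) (v : W) : TrN σ T p v = ∑ m ∈ Finset.range p, σ (T ^ m)⁻¹ v := by
  simp only [TrN, LinearMap.sum_apply]

theorem Tr_mul {W : Type*} [AddCommGroup W] [Module κ W] (σ : Representation κ Γ W) (g h : Γ)
    (v : W) : σ g (σ h v) = σ (g * h) v := by
  rw [map_mul]; rfl

theorem TrN_T (hc : Cyc p π T) {W : Type*} [AddCommGroup W] [Module κ W]
    (σ : Representation κ Γ W) (v : W) : TrN σ T p (σ T v) = TrN σ T p v := by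
  have h := Finset.sum_range_sub (fun m => σ ((T ^ m)⁻¹ * T) v) p
  have e : ∀ m : ℕ, (T ^ (m + 1))⁻¹ * T = (T ^ m)⁻¹ := fun m => by group
  simp only [e, hc.pow, pow_zero, sub_self, Finset.sum_sub_distrib, sub_eq_zero] at h
  rw [TrN_apply, TrN_apply, h]
  exact Finset.sum_congr rfl fun m _ => Tr_mul σ _ _ v

theorem TrN_pow (hc : Cyc p π T) {W : Type*} [AddCommGroup W] [Module κ W]
    (σ : Representation κ Γ W) (k : ℕ) (v : W) : TrN σ T p (σ (T ^ k) v) = TrN σ T p v := by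
  induction k with
  | zero => simp
  | succ k ih => rw [pow_succ', ← Tr_mul, TrN_T hc, ih]

theorem TrN_Jp (hc : Cyc p π T) {W : Type*} [AddCommGroup W] [Module κ W]
    (σ : Representation κ Γ W) (γ : Γ) (v : W) :
    TrN σ T p (σ γ v) - TrN σ T p v ∈ Jp σ fun γ => π γ = 1 := by
  obtain ⟨k, hk⟩ : ∃ k : ℕ, π (T ^ k) = π γ := by
    refine ⟨(π γ).toAdd.val, ?_⟩
    rw [map_pow, hc.gen, ← ofAdd_nsmul, nsmul_eq_mul, mul_one, ZMod.natCast_zmod_val]
    rfl
  have e : σ γ v = σ (γ * (T ^ k)⁻¹) (σ (T ^ k) v) := by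
    rw [Tr_mul, inv_mul_cancel_right]
  have hπ : π (γ * (T ^ k)⁻¹) = 1 := by rw [map_mul, map_inv, hk, mul_inv_cancel]
  rw [e, ← TrN_pow hc σ k v]
  generalize γ * (T ^ k)⁻¹ = c at hπ
  generalize σ (T ^ k) v = w
  rw [TrN_apply, TrN_apply, ← Finset.sum_sub_distrib]
  refine Submodule.sum_mem _ fun m _ => ?_
  have e2 : σ (T ^ m)⁻¹ (σ c w) = σ ((T ^ m)⁻¹ * c * T ^ m) (σ (T ^ m)⁻¹ w) := by
    rw [Tr_mul, Tr_mul, mul_inv_cancel_right]
  rw [e2]
  refine mem_Jp σ ?_ _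
  show π _ = 1
  rw [map_mul, map_mul, hπ, mul_one, map_inv, inv_mul_cancel]

/-- Transfer. -/
theorem Van.tr (hc : Cyc p π T) {r : S → S → Prop} (hr : Rel Γ r) {V : Type*} [AddCommGroup V]
    [Module κ V] (ρ : Representation κ Γ V) (e : V →ₗ[κ] V)
    (he2 : ∀ c, π c = 1 → ∀ v, e (ρ c v) = ρ c (e v))
    (he3 : ∀ v, ∑ m ∈ Finset.range p, ρ (T ^ m) (e (ρ (T ^ m)⁻¹ v)) = v) {j : ℕ}
    (hC : Van ρ r (fun γ => π γ = 1) j) : Van ρ r (fun _ => True) j := by
  intro i hi z hz hb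
  have hN : ∀ w ∈ NN ρ r (fun _ => True),
      TrN (pr (List S) ρ) T p w ∈ NN ρ r (fun γ => π γ = 1) := by
    intro w hw
    refine NN_le (fun u hu => Fx_le_NN _ _ _ ?_) (fun u hu => Jp_le_NN _ _ _ ?_) hw
    · rw [TrN_apply]
      exact Submodule.sum_mem _ fun m _ => pr_mem_Fx hr ρ _ hu
    · exact Jp_le (fun g v _ => TrN_Jp hc _ g v) hu
  have h1 : TrN (pr (List S) ρ) T p z ∈ Gd κ i := by
    rw [TrN_apply]
    exact Submodule.sum_mem _ fun m _ => pr_mem_Gd ρ _ hz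
  have h2 : bd κ (TrN (pr (List S) ρ) T p z) = TrN (pr (List S) ρ) T p (bd κ z) := by
    rw [TrN_apply, TrN_apply, map_sum]
    exact Finset.sum_congr rfl fun m _ => (pr_bd ρ _ z).symm
  obtain ⟨a, ha, h3⟩ := hC i hi _ h1 (by rw [h2]; exact hN _ hb)
  refine ⟨Em e a, Em_mem_supported e ha, ?_⟩
  have h4 := NN_mono ρ r (Q := fun _ => True) (fun _ _ => trivial)
    (Em_mem_NN (σ := ρ) (f := e) (fun c v hc' => he2 c hc' v) h3)
  rw [map_sub, Em_bd] at h4
  have h5 : ∀ w : List S →₀ V, ∑ m ∈ Finset.range p,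
      pr (List S) ρ (T ^ m) (Em e (pr (List S) ρ (T ^ m)⁻¹ w)) = w := by
    intro w
    induction w using Finsupp.induction_linear with
    | zero => simp
    | add a b ha hb => simp only [map_add, Finset.sum_add_distrib, ha, hb]
    | single l v =>
      simp only [pr_single, Em_single, smul_inv_smul]
      rw [← Finsupp.single_finsetSum, he3]
  have h6 : z - Em e (TrN (pr (List S) ρ) T p z) ∈ NN ρ r (fun _ => True) := by
    refine Jp_le_NN _ _ _ ?_
    have h7 : z - Em e (TrN (pr (List S) ρ) T p z) = ∑ m ∈ Finset.range p,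
        (pr (List S) ρ (T ^ m) (Em e (pr (List S) ρ (T ^ m)⁻¹ z)) -
          Em e (pr (List S) ρ (T ^ m)⁻¹ z)) := by
      rw [Finset.sum_sub_distrib, h5, TrN_apply, map_sum]
    rw [h7]
    exact Submodule.sum_mem _ fun m _ => mem_Jp _ trivial _
  have h8 := Submodule.add_mem _ h6 h4
  rwa [sub_add_sub_cancel] at h8

theorem Van.trsub (hc : Cyc p π T) {r : S → S → Prop} (hr : Rel Γ r) {M : Type u} [AddCommGroup M]
    [Module κ M] (ρ : Representation κ Γ M) (A B : Submodule κ M)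
    (hA : ∀ g, A ≤ A.comap (ρ g)) (hB : ∀ g, B ≤ B.comap (ρ g)) (hBA : B ≤ A) (e : M →ₗ[κ] M)
    (eA : ∀ u ∈ A, e u ∈ A) (eB : ∀ u ∈ B, e u ∈ B)
    (he2 : ∀ c, π c = 1 → ∀ u ∈ A, e (ρ c u) - ρ c (e u) ∈ B)
    (he3 : ∀ u ∈ A, ∑ m ∈ Finset.range p, ρ (T ^ m) (e (ρ (T ^ m)⁻¹ u)) - u ∈ B) {j : ℕ}
    (hC : ∀ (V : Type u) [AddCommGroup V] [Module κ V] (σ : Representation κ Γ V),
      Van σ r (fun γ => π γ = 1) j)
    (h : Van (V := B) (ρ.subrepresentation B hB) r (fun _ => True) j) :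
    Van (V := A) (ρ.subrepresentation A hA) r (fun _ => True) j := by
  let B' : Submodule κ A := B.comap A.subtype
  let ρA : Representation κ Γ A := ρ.subrepresentation A hA
  have hB' : ∀ g, B' ≤ B'.comap (ρA g) := fun g u hu => hB g hu
  let eA' : A →ₗ[κ] A := e.restrict eA
  have he' : B' ≤ B'.comap eA' := fun u hu => eB u hu
  have hQ : Van (ρA.quotient B' hB') r (fun _ => True) j := by
    refine Van.tr hc hr _ (B'.mapQ B' eA' he') (fun c hc' v => ?_) (fun v => ?_) (hC _ _)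
    · obtain ⟨u, rfl⟩ := B'.mkQ_surjective v
      exact (Submodule.Quotient.eq B').2 (he2 c hc' u u.2)
    · obtain ⟨u, rfl⟩ := B'.mkQ_surjective v
      have e1 : ∀ m : ℕ, ρA.quotient B' hB' (T ^ m) (B'.mapQ B' eA' he'
          (ρA.quotient B' hB' (T ^ m)⁻¹ (B'.mkQ u))) =
          B'.mkQ (ρA (T ^ m) (eA' (ρA (T ^ m)⁻¹ u))) := fun m => rfl
      simp only [e1]
      rw [← map_sum]
      refine (Submodule.Quotient.eq B').2 ?_
      show A.subtype _ ∈ B
      rw [map_sub, map_sum]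
      exact he3 u u.2
  refine Van.x2 hr (Submodule.inclusion hBA) B'.mkQ (fun g v => rfl) (fun g v => rfl)
    (Submodule.inclusion_injective hBA) B'.mkQ_surjective (fun u => ?_) h hQ
  rw [Submodule.mkQ_apply, Submodule.Quotient.mk_eq_zero]
  constructor
  · intro hu
    exact ⟨⟨u, hu⟩, rfl⟩
  · rintro ⟨v, rfl⟩
    exact v.2

end Pool.Agent.MP_f7db47_al.Cv
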